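import Mathlib

set_option autoImplicit false

/-!
# Iterated clique graphs: definitions

Graphs are written as reflexive symmetric relations (adjacent or equal).
-/

namespace Pool.Agent.H71.Clq

/-- maximal cliques of a reflexive symmetric relation -/
def IsMC {V : Type} (R : V → V → Prop) (s : Set V) : Prop :=
  (∀ x ∈ s, ∀ y ∈ s, R x y) ∧ ∀ z, (∀ x ∈ s, R z x) → z ∈ s

/-- the vertices of the clique graph -/
abbrev MC {V : Type} (R : V → V → Prop) : Type := {s : Set V // IsMC R s}

/-- the clique graph: two maximal cliques are related if they are equal or meet -/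
def KR {V : Type} (R : V → V → Prop) (s t : MC R) : Prop := s = t ∨ (s.1 ∩ t.1).Nonempty

/-- Simply connected: every covering (described by its total space `U`, the projection `f` and the
lifting of edges `st`; triangles lift to triangles) has a section through every point. -/
def SC {V : Type} (R : V → V → Prop) : Prop :=
  ∀ (U : Type) (f : U → V) (st : U → V → U),
    (∀ u y, R (f u) y → f (st u y) = y) →
    (∀ u, st u (f u) = u) →
    (∀ u y z, R (f u) y → R y z → R (f u) z → st (st u y) z = st u z) →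
    ∀ u₀ : U, ∃ σ : V → U, σ (f u₀) = u₀ ∧ (∀ x, f (σ x) = x) ∧ ∀ x y, R x y → st (σ x) y = σ y

/-- Connected. -/
def Cn {V : Type} (R : V → V → Prop) : Prop := ∀ x y, Relation.ReflTransGen R x y

/-- extended triangles have a centre -/
def ET {V : Type} (R : V → V → Prop) : Prop :=
  ∀ a b c, R a b → R b c → R a c →
    ∃ t, ∀ y, ((R y a ∧ R y b) ∨ (R y b ∧ R y c) ∨ (R y a ∧ R y c)) → R t y

/-- A graph (a reflexive symmetric relation) with an action of a group. -/
structure AG (A : Type) [Group A] where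
  /-- vertices -/
  V : Type
  /-- adjacent or equal -/
  R : V → V → Prop
  refl : ∀ x, R x x
  symm : ∀ x y, R x y → R y x
  /-- the action -/
  act : A → V → V
  act_one : ∀ x, act 1 x = x
  act_mul : ∀ a b x, act (a * b) x = act a (act b x)
  act_R : ∀ a x y, R x y → R (act a x) (act a y)

variable {A : Type} [Group A]

/-- the image of a maximal clique -/
def mcImage (Γ : AG A) (a : A) (s : MC Γ.R) : MC Γ.R :=
  ⟨Γ.act a '' s.1, by
    have hinv : ∀ x, Γ.act a (Γ.act a⁻¹ x) = x := fun x => by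
      rw [← Γ.act_mul, mul_inv_cancel, Γ.act_one]
    have hinv' : ∀ x, Γ.act a⁻¹ (Γ.act a x) = x := fun x => by
      rw [← Γ.act_mul, inv_mul_cancel, Γ.act_one]
    constructor
    · rintro _ ⟨x, hx, rfl⟩ _ ⟨y, hy, rfl⟩
      exact Γ.act_R a x y (s.2.1 x hx y hy)
    · intro z hz
      refine ⟨Γ.act a⁻¹ z, ?_, hinv z⟩
      apply s.2.2
      intro x hx
      have := Γ.act_R a⁻¹ z (Γ.act a x) (hz _ ⟨x, hx, rfl⟩)
      rwa [hinv'] at this⟩

/-- the clique graph with the induced action -/
def AG.K (Γ : AG A) : AG A where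
  V := MC Γ.R
  R := KR Γ.R
  refl := fun s => Or.inl rfl
  symm := by
    rintro s t (h | ⟨x, hx, hy⟩)
    · exact Or.inl h.symm
    · exact Or.inr ⟨x, hy, hx⟩
  act := mcImage Γ
  act_one := by
    intro s
    apply Subtype.ext
    change Γ.act 1 '' s.1 = s.1
    have : Γ.act 1 = id := by funext x; exact Γ.act_one x
    rw [this, Set.image_id]
  act_mul := by
    intro a b s
    apply Subtype.ext
    change Γ.act (a * b) '' s.1 = Γ.act a '' (Γ.act b '' s.1)
    rw [Set.image_image]
    congr 1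
    funext x
    exact Γ.act_mul a b x
  act_R := by
    rintro a s t (h | ⟨x, hx, hy⟩)
    · exact Or.inl (by rw [h])
    · exact Or.inr ⟨Γ.act a x, ⟨x, hx, rfl⟩, ⟨x, hy, rfl⟩⟩

/-- equivariant maps preserving the relation -/
structure EH (Γ Δ : AG A) where
  /-- the map -/
  f : Γ.V → Δ.V
  map_R : ∀ x y, Γ.R x y → Δ.R (f x) (f y)
  map_act : ∀ a x, f (Γ.act a x) = Δ.act a (f x)

/-- equivariant isomorphisms -/
structure EI (Γ Δ : AG A) where
  /-- the map -/
  e : Γ.V ≃ Δ.V
  map_R : ∀ x y, Δ.R (e x) (e y) ↔ Γ.R x y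
  map_act : ∀ a x, e (Γ.act a x) = Δ.act a (e x)

/-- no nontrivial element of the group moves a vertex by at most three -/
def Disp (Γ : AG A) : Prop :=
  ∀ a : A, a ≠ 1 → ∀ x y z, Γ.R x y → Γ.R y z → ¬ Γ.R z (Γ.act a x)

/-- locally finite -/
def LF (Γ : AG A) : Prop := ∀ x, {y | Γ.R x y}.Finite

/-- finitely many orbits -/
def CoF (Γ : AG A) : Prop := ∃ S : Set Γ.V, S.Finite ∧ ∀ x, ∃ a, ∃ y ∈ S, x = Γ.act a y

/-- The set of orbits -/
def Orb (Γ : AG A) : Type := Quot (fun x y : Γ.V => ∃ a : A, y = Γ.act a x)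

/-- the step of the iteration in the frozen statement -/
def kstep (p : Σ α : Type, SimpleGraph α) : Σ α : Type, SimpleGraph α :=
  ⟨{s : Set p.1 // Maximal p.2.IsClique s},
    SimpleGraph.fromRel
      (fun a b : {s : Set p.1 // Maximal p.2.IsClique s} => (a.1 ∩ b.1).Nonempty)⟩

/-- `G` is the quotient of `Γ` by the group -/
def IsQ (Γ : AG A) {W : Type} (G : SimpleGraph W) : Prop :=
  ∃ π : Γ.V → W, Function.Surjective π ∧ (∀ x y, π x = π y ↔ ∃ a, y = Γ.act a x) ∧
    ∀ x y, G.Adj (π x) (π y) ↔ π x ≠ π y ∧ ∃ a, Γ.R x (Γ.act a y)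

end Pool.Agent.H71.Clq
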