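import Mathlib
import Pool.Agent.H71.Clq.Defs

set_option autoImplicit false

/-!
# Module SCK: cliques, connectedness and simple connectedness of the clique graph

* `exists_mc`: Zorn (union of a chain of cliques), every clique is in a maximal clique.
* `mc_nonempty`: if `V` is nonempty, a maximal clique is nonempty (`z ∈ ∅` vacuously otherwise).
* `cn_K`: for `R x y` there is a maximal clique containing `x, y`; induct along the walk: for all
  maximal cliques `Q ∋ x`, `Q' ∋ y` there is a walk from `Q` to `Q'`.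
* `sc_K`. Fix `q x ∋ x` (maximal clique containing `x`) and for `R x y` a maximal clique `q2 x y ∋ x, y`.
  Let `(U, f, st)` be a covering of the clique graph. Three maximal cliques with a common vertex are
  pairwise related. Build the covering `U' = {(x, u) : f u = q x}` of `V`, `f' (x,u) = x`,
  `st' (x,u) y = (y, st (st u (q2 x y)) (q y))` if `R x y` (and `(x,u)` otherwise).
  (i) For any maximal clique `Q ∋ x, y` and `f u = q x`:
      `st (st u Q) (q y) = st (st u (q2 x y)) (q y)`: with `Q' = q2 x y` one has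
      `st u Q' = st (st u Q) Q'` (`q x, Q, Q'` contain `x`) and
      `st (st (st u Q) Q') (q y) = st (st u Q) (q y)` (`Q, Q', q y` contain `y`).
  (ii) `st' (x,u) x = (x,u)`: `st (st u Q) (q x) = st u (q x) = u`.
  (iii) triangles `x,y,z`: take a maximal clique `Q ∋ x,y,z`, use (i) for all three pairs and
      `st (st (st u Q) (q y)) Q = st (st u Q) Q = st u Q`.
  The section `σ'` of `U'` through `(x₀, st u₀ (q x₀))`, `x₀ ∈ f u₀`, gives
  `σ Q = st (σ' x).2 Q` for any `x ∈ Q`; independent of `x` by (i):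
  `σ' y = st' (σ' x) y = (y, st (st u_x Q) (q y))` so `st u_y Q = st (st (st u_x Q) (q y)) Q = st u_x Q`.
  `σ (f u₀) = st (st u₀ (q x₀)) (f u₀) = u₀`; for `x ∈ Q ∩ Q'`, `st (st u_x Q) Q' = st u_x Q'`.
* `sc_retract`: `r : V → X` (`X` a subtype) preserving relations with `r x = x` on `X`: pull back the covering of `X`
  to `{(v,u) : f u = r v}`.
-/

namespace Pool.Agent.H71.Clq

theorem exists_mc {V : Type} {R : V → V → Prop} (hr : ∀ x, R x x) (hs : ∀ x y, R x y → R y x)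
    (s : Set V) (h : ∀ x ∈ s, ∀ y ∈ s, R x y) : ∃ t : MC R, s ⊆ t.1 := by
  obtain ⟨m, hsm, hm⟩ := zorn_subset_nonempty {t : Set V | ∀ x ∈ t, ∀ y ∈ t, R x y}
    (fun c hc hch _ => by
      refine ⟨⋃₀ c, ?_, fun t ht => Set.subset_sUnion_of_mem ht⟩
      rintro x ⟨t, ht, hxt⟩ y ⟨t', ht', hyt'⟩
      rcases hch.total ht ht' with h1 | h1
      · exact hc ht' x (h1 hxt) y hyt'
      · exact hc ht x hxt y (h1 hyt')) s h
  refine ⟨⟨m, hm.1, ?_⟩, hsm⟩
  intro z hz
  have h1 : insert z m ∈ {t : Set V | ∀ x ∈ t, ∀ y ∈ t, R x y} := by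
    rintro x (rfl | hx) y (rfl | hy)
    · exact hr _
    · exact hz y hy
    · exact hs _ _ (hz x hx)
    · exact hm.1 x hx y hy
  exact hm.2 h1 (Set.subset_insert z m) (Set.mem_insert z m)

theorem mc_nonempty {V : Type} {R : V → V → Prop} [Nonempty V] (Q : MC R) : Q.1.Nonempty := by
  by_contra h
  rw [Set.not_nonempty_iff_eq_empty] at h
  obtain ⟨z⟩ := ‹Nonempty V›
  have h1 : z ∈ Q.1 := Q.2.2 z (by rw [h]; intro x hx; exact absurd hx (Set.notMem_empty x))
  rw [h] at h1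
  exact h1

theorem cn_K {V : Type} {R : V → V → Prop} [Nonempty V] (hr : ∀ x, R x x)
    (hs : ∀ x y, R x y → R y x) (h : Cn R) : Cn (KR R) := by
  intro Q Q'
  obtain ⟨x, hx⟩ := mc_nonempty Q
  obtain ⟨y, hy⟩ := mc_nonempty Q'
  have key : ∀ y, Relation.ReflTransGen R x y → ∀ Q' : MC R, y ∈ Q'.1 →
      Relation.ReflTransGen (KR R) Q Q' := by
    intro y hxy
    induction hxy with
    | refl =>
      intro Q' hQ'
      exact Relation.ReflTransGen.single (Or.inr ⟨x, hx, hQ'⟩)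
    | tail hb hbc ih =>
      rename_i b c
      intro Q' hQ'
      obtain ⟨P, hP⟩ := exists_mc hr hs {b, c} (by
        rintro x (rfl | rfl) y (rfl | rfl)
        · exact hr _
        · exact hbc
        · exact hs _ _ hbc
        · exact hr _)
      refine (ih P (hP (by simp))).tail (Or.inr ⟨c, hP (by simp), hQ'⟩)
  exact key y (h x y) Q' hy

theorem sc_K {V : Type} {R : V → V → Prop} [Nonempty V] (hr : ∀ x, R x x)
    (hs : ∀ x y, R x y → R y x) (h : SC R) : SC (KR R) := by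
  classical
  intro U f st h1 h2 h3 u₀
  have hq0 : ∀ x, ∃ Q : MC R, x ∈ Q.1 := by
    intro x
    obtain ⟨Q, hQ⟩ := exists_mc hr hs {x} (by
      rintro y rfl z rfl
      exact hr _)
    exact ⟨Q, hQ rfl⟩
  have hq20 : ∀ x y, ∃ Q : MC R, R x y → x ∈ Q.1 ∧ y ∈ Q.1 := by
    intro x y
    by_cases hxy : R x y
    · obtain ⟨P, hP⟩ := exists_mc hr hs {x, y} (by
        rintro a (rfl | rfl) b (rfl | rfl)
        · exact hr _
        · exact hxy
        · exact hs _ _ hxy
        · exact hr _)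
      exact ⟨P, fun _ => ⟨hP (by simp), hP (by simp)⟩⟩
    · obtain ⟨P, _⟩ := hq0 x
      exact ⟨P, fun h => absurd h hxy⟩
  choose q hq using hq0
  choose q2 hq2 using hq20
  have kr : ∀ (x : V) (P P' : MC R), x ∈ P.1 → x ∈ P'.1 → KR R P P' :=
    fun x P P' h h' => Or.inr ⟨x, h, h'⟩
  have tri : ∀ (x : V) (u : U) (P P' : MC R), x ∈ (f u).1 → x ∈ P.1 → x ∈ P'.1 →
      st (st u P) P' = st u P' := by
    intro x u P P' hu hP hP'
    exact h3 u P P' (kr x _ _ hu hP) (kr x _ _ hP hP') (kr x _ _ hu hP')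
  have fst : ∀ (x : V) (u : U) (P : MC R), x ∈ (f u).1 → x ∈ P.1 → f (st u P) = P :=
    fun x u P hu hP => h1 u P (kr x _ _ hu hP)
  have ind : ∀ (x y : V) (u : U) (Q Q' : MC R), x ∈ (f u).1 → x ∈ Q.1 → x ∈ Q'.1 →
      y ∈ Q.1 → y ∈ Q'.1 → st (st u Q) (q y) = st (st u Q') (q y) := by
    intro x y u Q Q' hu hQ hQ' hy hy'
    rw [← tri x u Q Q' hu hQ hQ',
      tri y (st u Q) Q' (q y) (by rw [fst x u Q hu hQ]; exact hy) hy' (hq y)]
  have back : ∀ (x y : V) (u : U) (Q : MC R), x ∈ (f u).1 → x ∈ Q.1 → y ∈ Q.1 →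
      st (st (st u Q) (q y)) Q = st u Q := by
    intro x y u Q hu hQ hy
    have e := fst x u Q hu hQ
    rw [tri y (st u Q) (q y) Q (by rw [e]; exact hy) (hq y) hy]
    conv_lhs => rw [← e]
    conv_lhs => rw [e]
    have := h2 (st u Q)
    rwa [e] at this
  -- the covering of `V`
  have hfq : ∀ (p : {p : V × U // f p.2 = q p.1}) (y : V), R p.1.1 y →
      f (st (st p.1.2 (q2 p.1.1 y)) (q y)) = q y := by
    intro p y hy
    have hp : p.1.1 ∈ (f p.1.2).1 := by rw [p.2]; exact hq _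
    apply fst y
    · rw [fst p.1.1 _ _ hp (hq2 _ _ hy).1]
      exact (hq2 _ _ hy).2
    · exact hq y
  let st' : {p : V × U // f p.2 = q p.1} → V → {p : V × U // f p.2 = q p.1} := fun p y =>
    if h : R p.1.1 y then ⟨(y, st (st p.1.2 (q2 p.1.1 y)) (q y)), hfq p y h⟩ else p
  have hst' : ∀ (p : {p : V × U // f p.2 = q p.1}) (y : V), R p.1.1 y →
      (st' p y).1 = (y, st (st p.1.2 (q2 p.1.1 y)) (q y)) := by
    intro p y hy
    simp only [st', dif_pos hy]
  have c2 : ∀ p, st' p p.1.1 = p := by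
    intro p
    apply Subtype.ext
    have hp : p.1.1 ∈ (f p.1.2).1 := by rw [p.2]; exact hq _
    rw [hst' p p.1.1 (hr _), tri p.1.1 _ _ _ hp (hq2 _ _ (hr _)).1 (hq _), ← p.2, h2]
  obtain ⟨x₀, hx₀⟩ := mc_nonempty (f u₀)
  obtain ⟨σ', s1, s2, s3⟩ := h {p : V × U // f p.2 = q p.1} (fun p => p.1.1) st'
    (fun p y hy => by rw [hst' p y hy]) c2
    (by
      intro p y z hxy hyz hxz
      change R p.1.1 y at hxy
      change R p.1.1 z at hxz
      apply Subtype.ext
      have e1 := hst' p y hxy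
      have hyz' : R (st' p y).1.1 z := by rw [e1]; exact hyz
      rw [hst' _ z hyz', hst' p z hxz, e1]
      congr 1
      have hp : p.1.1 ∈ (f p.1.2).1 := by rw [p.2]; exact hq _
      obtain ⟨Q, hQ⟩ := exists_mc hr hs {p.1.1, y, z} (by
        rintro a (rfl | rfl | rfl) b (rfl | rfl | rfl)
        · exact hr _
        · exact hxy
        · exact hxz
        · exact hs _ _ hxy
        · exact hr _
        · exact hyz
        · exact hs _ _ hxz
        · exact hs _ _ hyz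
        · exact hr _)
      have hQ1 : p.1.1 ∈ Q.1 := hQ (by simp)
      have hQ2 : y ∈ Q.1 := hQ (by simp)
      have hQ3 : z ∈ Q.1 := hQ (by simp)
      simp only
      have hu' : y ∈ (f (st (st p.1.2 Q) (q y))).1 := by
        rw [fst y (st p.1.2 Q) (q y) (by rw [fst p.1.1 _ _ hp hQ1]; exact hQ2) (hq y)]
        exact hq y
      rw [ind p.1.1 y p.1.2 (q2 p.1.1 y) Q hp (hq2 _ _ hxy).1 hQ1 (hq2 _ _ hxy).2 hQ2,
        ind y z _ (q2 y z) Q hu' (hq2 _ _ hyz).1 hQ2 (hq2 _ _ hyz).2 hQ3,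
        back p.1.1 y p.1.2 Q hp hQ1 hQ2,
        ind p.1.1 z p.1.2 (q2 p.1.1 z) Q hp (hq2 _ _ hxz).1 hQ1 (hq2 _ _ hxz).2 hQ3])
    ⟨(x₀, st u₀ (q x₀)), fst x₀ u₀ (q x₀) hx₀ (hq x₀)⟩
  have fU : ∀ x, f (σ' x).1.2 = q x := by
    intro x
    have := (σ' x).2
    rw [s2 x] at this
    exact this
  have hB : ∀ (x y : V) (Q : MC R), x ∈ Q.1 → y ∈ Q.1 →
      st (σ' y).1.2 Q = st (σ' x).1.2 Q := by
    intro x y Q hx hy
    have hxy : R x y := Q.2.1 x hx y hy
    have e1 := s3 x y hxy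
    have hxy' : R (σ' x).1.1 y := by rw [s2 x]; exact hxy
    have e2 := hst' (σ' x) y hxy'
    rw [e1, s2 x] at e2
    have e3 : (σ' y).1.2 = st (st (σ' x).1.2 (q2 x y)) (q y) := by rw [e2]
    have hu : x ∈ (f (σ' x).1.2).1 := by rw [fU]; exact hq x
    rw [e3, ind x y _ (q2 x y) Q hu (hq2 _ _ hxy).1 hx (hq2 _ _ hxy).2 hy,
      back x y _ Q hu hx hy]
  have hch : ∀ Q : MC R, ∃ x, x ∈ Q.1 := fun Q => mc_nonempty Q
  choose pt hpt using hch
  refine ⟨fun Q => st (σ' (pt Q)).1.2 Q, ?_, ?_, ?_⟩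
  · change st (σ' (pt (f u₀))).1.2 (f u₀) = u₀
    rw [hB x₀ (pt (f u₀)) (f u₀) hx₀ (hpt _)]
    have e : (σ' x₀).1.2 = st u₀ (q x₀) := by
      have := s1
      change σ' x₀ = _ at this
      rw [this]
    rw [e, tri x₀ u₀ (q x₀) (f u₀) hx₀ (hq x₀) hx₀, h2]
  · intro Q
    apply fst (pt Q)
    · rw [fU]; exact hq _
    · exact hpt Q
  · intro Q Q' hQ
    have hf : ∀ Q : MC R, f (st (σ' (pt Q)).1.2 Q) = Q := fun Q =>
      fst (pt Q) _ _ (by rw [fU]; exact hq _) (hpt Q)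
    rcases hQ with rfl | ⟨x, hx, hx'⟩
    · change st (st (σ' (pt Q)).1.2 Q) Q = st (σ' (pt Q)).1.2 Q
      have := h2 (st (σ' (pt Q)).1.2 Q)
      rwa [hf Q] at this
    · change st (st (σ' (pt Q)).1.2 Q) Q' = st (σ' (pt Q')).1.2 Q'
      rw [hB x (pt Q) Q hx (hpt Q), hB x (pt Q') Q' hx' (hpt Q')]
      exact tri x _ _ _ (by rw [fU]; exact hq x) hx hx'

theorem sc_retract {V : Type} {R : V → V → Prop} (h : SC R) (X : Set V) (r : V → V)
    (hX : ∀ v, r v ∈ X) (hr : ∀ x ∈ X, r x = x) (hR : ∀ x y, R x y → R (r x) (r y)) :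
    SC (fun x y : X => R x.1 y.1) := by
  classical
  intro U f st h1 h2 h3 u₀
  have hfr : ∀ (p : {p : V × U // (f p.2).1 = r p.1}) (y : V), R p.1.1 y →
      (f (st p.1.2 ⟨r y, hX y⟩)).1 = r y := by
    intro p y hy
    rw [h1 p.1.2 ⟨r y, hX y⟩ (by
      change R (f p.1.2).1 (r y)
      rw [p.2]
      exact hR _ _ hy)]
  let st' : {p : V × U // (f p.2).1 = r p.1} → V → {p : V × U // (f p.2).1 = r p.1} :=
    fun p y => if h : R p.1.1 y then ⟨(y, st p.1.2 ⟨r y, hX y⟩), hfr p y h⟩ else p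
  have hst' : ∀ (p : {p : V × U // (f p.2).1 = r p.1}) (y : V), R p.1.1 y →
      (st' p y).1 = (y, st p.1.2 ⟨r y, hX y⟩) := by
    intro p y hy
    simp only [st', dif_pos hy]
  have hx0 : (f u₀).1 = r (f u₀).1 := (hr _ (f u₀).2).symm
  obtain ⟨σ', s1, s2, s3⟩ := h {p : V × U // (f p.2).1 = r p.1} (fun p => p.1.1) st'
    (fun p y hy => by rw [hst' p y hy])
    (by
      intro p
      by_cases hp : R p.1.1 p.1.1
      · apply Subtype.ext
        rw [hst' p p.1.1 hp]
        have e : (⟨r p.1.1, hX _⟩ : X) = f p.1.2 := Subtype.ext p.2.symm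
        rw [e, h2]
      · change st' p p.1.1 = p
        simp only [st', dif_neg hp])
    (by
      intro p y z hxy hyz hxz
      change R p.1.1 y at hxy
      change R p.1.1 z at hxz
      apply Subtype.ext
      have e1 := hst' p y hxy
      have hyz' : R (st' p y).1.1 z := by rw [e1]; exact hyz
      rw [hst' _ z hyz', hst' p z hxz, e1]
      congr 1
      simp only
      exact h3 p.1.2 ⟨r y, hX y⟩ ⟨r z, hX z⟩
        (by
          change R (f p.1.2).1 (r y)
          rw [p.2]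
          exact hR _ _ hxy) (hR _ _ hyz)
        (by
          change R (f p.1.2).1 (r z)
          rw [p.2]
          exact hR _ _ hxz))
    ⟨((f u₀).1, u₀), hx0⟩
  refine ⟨fun x => (σ' x.1).1.2, ?_, ?_, ?_⟩
  · change σ' (f u₀).1 = _ at s1
    change (σ' (f u₀).1).1.2 = u₀
    rw [s1]
  · intro x
    apply Subtype.ext
    have := (σ' x.1).2
    rw [s2 x.1, hr _ x.2] at this
    exact this
  · intro x y hxy
    have e1 := s3 x.1 y.1 hxy
    have hxy' : R (σ' x.1).1.1 y.1 := by rw [s2 x.1]; exact hxy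
    have e2 := hst' (σ' x.1) y.1 hxy'
    rw [e1] at e2
    have e3 : (⟨r y.1, hX _⟩ : X) = y := Subtype.ext (hr _ y.2)
    rw [e3] at e2
    change st (σ' x.1).1.2 y = (σ' y.1).1.2
    rw [e2]

theorem cn_retract {V : Type} {R : V → V → Prop} (h : Cn R) (X : Set V) (r : V → V)
    (hX : ∀ v, r v ∈ X) (hr : ∀ x ∈ X, r x = x) (hR : ∀ x y, R x y → R (r x) (r y)) :
    Cn (fun x y : X => R x.1 y.1) := by
  intro x y
  have key : ∀ a b, Relation.ReflTransGen R a b → Relation.ReflTransGen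
      (fun x y : X => R x.1 y.1) (⟨r a, hX _⟩ : X) (⟨r b, hX _⟩ : X) := by
    intro a b hab
    induction hab with
    | refl => exact Relation.ReflTransGen.refl
    | tail _ hbc ih => exact ih.tail (hR _ _ hbc)
  have h1 := key _ _ (h x.1 y.1)
  have ex : (⟨r x.1, hX _⟩ : X) = x := Subtype.ext (hr _ x.2)
  have ey : (⟨r y.1, hX _⟩ : X) = y := Subtype.ext (hr _ y.2)
  rwa [ex, ey] at h1

end Pool.Agent.H71.Clq
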