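import Mathlib
import Pool.Agent.H71.Clq.SCK

set_option autoImplicit false

/-!
# Module PRES: properties kept by the clique graph operator

* `disp_K`: let `KR Q₀ Q₁`, `KR Q₁ Q₂`, `KR Q₂ (a Q₀)`. Choose `x₀ ∈ Q₀ ∩ Q₁`, `x₁ ∈ Q₁ ∩ Q₂`,
  `x₂ ∈ Q₂ ∩ a Q₀` (all cliques are nonempty), `x₂ = a y`, `y ∈ Q₀`. Then `R x₀ x₁`, `R x₁ x₂` and
  `R x₂ (a x₀)` since `R y x₀`; contradiction to `Disp Γ`.
* `lf_K`: a maximal clique containing `x` is a subset of the finite set `{y | R x y}`.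
* `cof_K`: every maximal clique has an element `a y` with `y ∈ S`; translate by `a⁻¹`; finitely many
  maximal cliques contain a given `y`.
-/

namespace Pool.Agent.H71.Clq

variable {A : Type} [Group A]

theorem nonempty_K (Γ : AG A) (h : Nonempty Γ.V) : Nonempty Γ.K.V := by
  obtain ⟨t, _⟩ := exists_mc Γ.refl Γ.symm ∅ (by intro x hx; exact absurd hx (Set.notMem_empty x))
  exact ⟨t⟩

/-- related maximal cliques meet -/
private lemma meet_of_KR {V : Type} {R : V → V → Prop} [Nonempty V] {Q Q' : MC R}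
    (h : KR R Q Q') : ∃ x, x ∈ Q.1 ∧ x ∈ Q'.1 := by
  rcases h with h | ⟨x, hx, hx'⟩
  · obtain ⟨x, hx⟩ := mc_nonempty Q
    exact ⟨x, hx, h ▸ hx⟩
  · exact ⟨x, hx, hx'⟩

/-- the maximal cliques through a vertex of finite degree -/
private lemma finite_through {V : Type} {R : V → V → Prop} (x : V) (h : {y | R x y}.Finite) :
    {Q : MC R | x ∈ Q.1}.Finite := by
  have h1 : (𝒫 {y | R x y}).Finite := h.finite_subsets
  refine Set.Finite.of_finite_image (f := Subtype.val) (h1.subset ?_)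
    (Subtype.val_injective.injOn)
  rintro _ ⟨Q, hQ, rfl⟩
  intro y hy
  exact Q.2.1 x hQ y hy

theorem disp_K (Γ : AG A) (hne : Nonempty Γ.V) (h : Disp Γ) : Disp Γ.K := by
  intro a ha Q₀ Q₁ Q₂ h01 h12 h20
  haveI := hne
  obtain ⟨x₀, h0, h0'⟩ := meet_of_KR (R := Γ.R) h01
  obtain ⟨x₁, h1, h1'⟩ := meet_of_KR (R := Γ.R) h12
  obtain ⟨x₂, h2, h2'⟩ := meet_of_KR (R := Γ.R) h20
  obtain ⟨y, hy, rfl⟩ : x₂ ∈ Γ.act a '' Q₀.1 := h2'
  exact h a ha x₀ x₁ (Γ.act a y) (Q₁.2.1 _ h0' _ h1) (Q₂.2.1 _ h1' _ h2)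
    (Γ.act_R a _ _ (Q₀.2.1 _ hy _ h0))

theorem lf_K (Γ : AG A) (hne : Nonempty Γ.V) (h : LF Γ) : LF Γ.K := by
  intro Q
  haveI := hne
  have hfin : Q.1.Finite := by
    obtain ⟨x, hx⟩ := mc_nonempty (V := Γ.V) (R := Γ.R) Q
    exact (h x).subset (fun y hy => Q.2.1 x hx y hy)
  refine (hfin.biUnion (fun x _ => finite_through (R := Γ.R) x (h x))).subset ?_
  intro Q' hQ'
  obtain ⟨x, hx, hx'⟩ := meet_of_KR (R := Γ.R) (show KR Γ.R Q Q' from hQ')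
  rw [Set.mem_iUnion₂]
  exact ⟨x, hx, hx'⟩

theorem cof_K (Γ : AG A) (hne : Nonempty Γ.V) (h : LF Γ) (hc : CoF Γ) : CoF Γ.K := by
  haveI := hne
  obtain ⟨S, hS, hcov⟩ := hc
  refine ⟨⋃ y ∈ S, {Q : MC Γ.R | y ∈ Q.1},
    hS.biUnion (fun y _ => finite_through (R := Γ.R) y (h y)), ?_⟩
  intro Q
  obtain ⟨x, hx⟩ := mc_nonempty (V := Γ.V) (R := Γ.R) Q
  obtain ⟨a, y, hy, hxy⟩ := hcov x
  refine ⟨a, Γ.K.act a⁻¹ Q, ?_, ?_⟩
  · rw [Set.mem_iUnion₂]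
    refine ⟨y, hy, x, hx, ?_⟩
    rw [hxy, ← Γ.act_mul, inv_mul_cancel, Γ.act_one]
  · rw [← Γ.K.act_mul, mul_inv_cancel, Γ.K.act_one]

/-- all properties together -/
structure Nice (Γ : AG A) : Prop where
  ne : Nonempty Γ.V
  disp : Disp Γ
  lf : LF Γ
  cof : CoF Γ
  cn : Cn Γ.R
  sc : SC Γ.R

theorem nice_K (Γ : AG A) (h : Nice Γ) : Nice Γ.K :=
  ⟨nonempty_K Γ h.ne, disp_K Γ h.ne h.disp, lf_K Γ h.ne h.lf, cof_K Γ h.ne h.lf h.cof,
    by haveI := h.ne; exact cn_K Γ.refl Γ.symm h.cn,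
    by haveI := h.ne; exact sc_K Γ.refl Γ.symm h.sc⟩

theorem nice_iter (Γ : AG A) (h : Nice Γ) (m : ℕ) : Nice (AG.K^[m] Γ) := by
  induction m with
  | zero => exact h
  | succ m ih => rw [Function.iterate_succ_apply']; exact nice_K _ ih

end Pool.Agent.H71.Clq
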