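import Mathlib
import Pool.Agent.H71.Clq.Pres

set_option autoImplicit false

/-!
# Module GOOD: the clique-Helly retract

* `eq_choice`: for a free action on `V` and a `P : V → W → Prop` invariant under the group with
  `∀ x, ∃ w, P x w` there is an equivariant `f` with `P x (f x)` (choose orbit representatives).
* `exists_star`: `x* = {Q | x ∈ Q}` is a clique of `K H`; choose (equivariantly) a maximal clique
  `s x` of `K H` containing it. `R x y` gives a maximal clique `Q ∋ x, y`, `Q ∈ s x ∩ s y`.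
* `exists_good`: `F = u ∘ s : H → H`. On the finite set of orbits of pairs `(x, y)` with `R x y` some
  positive power `G = F^N` is idempotent. Let `X` be the range of `G`. Then `G x = c x` for a unique
  `c = c(x) ∈ A` for every `x ∈ X`, and `c(x) = c(y)` if `R x y`. So `h x = c(x)⁻¹ x` inverts `G` on `X`
  and preserves `R`. `ρ = h ∘ h ∘ G ∘ F^(N-1) ∘ u`.
* `et_good`: let `a,b,c ∈ R₀` be pairwise related. The maximal cliques containing at least two of
  `a,b,c` (`(a ∈ Q ∧ b ∈ Q) ∨ …`) meet pairwise, so some `v : H.K.K.V` contains them. If `y ∈ R₀` is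
  related to two of them, there is such a `Q ∋ y`, so `Q ∈ v ∩ s y`, `R (ρ v) (ρ (s y)) = R (ρ v) y`.
-/

namespace Pool.Agent.H71.Clq

variable {A : Type} [Group A]

/-- the action is free -/
theorem act_free (Γ : AG A) (hd : Disp Γ) {a b : A} {x : Γ.V} (h : Γ.act a x = Γ.act b x) :
    a = b := by
  by_contra hne
  have h1 : b⁻¹ * a ≠ 1 := by
    intro h1
    apply hne
    have := congrArg (fun t => b * t) h1
    simpa using this
  have h2 : Γ.act (b⁻¹ * a) x = x := by
    rw [Γ.act_mul, h, ← Γ.act_mul, inv_mul_cancel, Γ.act_one]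
  refine hd _ h1 x x x (Γ.refl x) (Γ.refl x) ?_
  rw [h2]
  exact Γ.refl x

theorem eq_choice (Γ : AG A) (hd : Disp Γ) {W : Type} (act : A → W → W)
    (act_mul : ∀ a b x, act (a * b) x = act a (act b x)) (P : Γ.V → W → Prop)
    (hP : ∀ a x w, P x w → P (Γ.act a x) (act a w)) (h : ∀ x, ∃ w, P x w) :
    ∃ f : Γ.V → W, (∀ x, P x (f x)) ∧ ∀ a x, f (Γ.act a x) = act a (f x) := by
  classical
  let st : Setoid Γ.V :=
    { r := fun x y => ∃ a : A, y = Γ.act a x
      iseqv :=
        { refl := fun x => ⟨1, (Γ.act_one x).symm⟩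
          symm := by
            rintro x y ⟨a, rfl⟩
            exact ⟨a⁻¹, by rw [← Γ.act_mul, inv_mul_cancel, Γ.act_one]⟩
          trans := by
            rintro x y z ⟨a, rfl⟩ ⟨b, rfl⟩
            exact ⟨b * a, by rw [Γ.act_mul]⟩ } }
  let rep : Γ.V → Γ.V := fun x => (Quotient.mk st x).out
  have hrep : ∀ x, ∃ a : A, x = Γ.act a (rep x) := by
    intro x
    exact Quotient.exact (Quotient.out_eq (Quotient.mk st x))
  choose g hg using hrep
  choose w hw using h
  have hra : ∀ a x, rep (Γ.act a x) = rep x := by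
    intro a x
    change (Quotient.mk st (Γ.act a x)).out = (Quotient.mk st x).out
    have : Quotient.mk st (Γ.act a x) = Quotient.mk st x :=
      (Quotient.sound (s := st) ⟨a, rfl⟩).symm
    rw [this]
  have hga : ∀ a x, g (Γ.act a x) = a * g x := by
    intro a x
    apply act_free Γ hd (x := rep x)
    rw [Γ.act_mul, ← hg x]
    have := hg (Γ.act a x)
    rw [hra] at this
    exact this.symm
  refine ⟨fun x => act (g x) (w (rep x)), ?_, ?_⟩
  · intro x
    have := hP (g x) (rep x) (w (rep x)) (hw (rep x))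
    rw [← hg x] at this
    exact this
  · intro a x
    simp only [hga, hra, act_mul]

/-- a star map -/
def IsStar (H : AG A) (s : EH H H.K.K) : Prop :=
  ∀ (x : H.V) (Q : MC H.R), x ∈ Q.1 → Q ∈ (s.f x).1

theorem exists_star (H : AG A) (hd : Disp H) : ∃ s : EH H H.K.K, IsStar H s := by
  have hP : ∀ (a : A) (x : H.V) (v : H.K.K.V),
      (∀ Q : MC H.R, x ∈ Q.1 → Q ∈ v.1) →
        (∀ Q : MC H.R, H.act a x ∈ Q.1 → Q ∈ (H.K.K.act a v).1) := by
    intro a x v hv Q hQ
    refine ⟨H.K.act a⁻¹ Q, hv _ ⟨H.act a x, hQ, ?_⟩, ?_⟩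
    · rw [← H.act_mul, inv_mul_cancel, H.act_one]
    · rw [← H.K.act_mul, mul_inv_cancel, H.K.act_one]
  have hex : ∀ x : H.V, ∃ v : H.K.K.V, ∀ Q : MC H.R, x ∈ Q.1 → Q ∈ v.1 := by
    intro x
    obtain ⟨t, ht⟩ := exists_mc (R := H.K.R) H.K.refl H.K.symm {Q : MC H.R | x ∈ Q.1}
      (fun Q hQ Q' hQ' => Or.inr ⟨x, hQ, hQ'⟩)
    exact ⟨t, fun Q hQ => ht hQ⟩
  obtain ⟨f, hf1, hf2⟩ := eq_choice H hd (W := H.K.K.V) H.K.K.act H.K.K.act_mul
    (fun x v => ∀ Q : MC H.R, x ∈ Q.1 → Q ∈ v.1) hP hex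
  refine ⟨⟨f, ?_, hf2⟩, hf1⟩
  intro x y hxy
  obtain ⟨Q, hQ⟩ := exists_mc (R := H.R) H.refl H.symm {x, y} (by
    rintro p (rfl | rfl) q (rfl | rfl)
    · exact H.refl _
    · exact hxy
    · exact H.symm _ _ hxy
    · exact H.refl _)
  exact Or.inr ⟨Q, hf1 x Q (hQ (Or.inl rfl)), hf1 y Q (hQ (Or.inr rfl))⟩

/-- the set `X` is a good retract -/
def Good (H : AG A) (s : EH H H.K.K) (X : Set H.V) : Prop :=
  X.Nonempty ∧ (∀ a, ∀ x ∈ X, H.act a x ∈ X) ∧
    ∃ ρ : EH H.K.K H, (∀ v, ρ.f v ∈ X) ∧ ∀ x ∈ X, ρ.f (s.f x) = x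

/-- a positive power of a self-map of a finite type is idempotent -/
theorem exists_idem {Q : Type} [Finite Q] (f : Q → Q) :
    ∃ N : ℕ, 1 ≤ N ∧ f^[N + N] = f^[N] := by
  obtain ⟨m, n, hmn, he⟩ := Finite.exists_ne_map_eq_of_infinite (fun n : ℕ => f^[n])
  wlog hlt : m < n generalizing m n
  · exact this n m hmn.symm he.symm (lt_of_le_of_ne (not_lt.mp hlt) hmn.symm)
  obtain ⟨p, rfl⟩ := Nat.exists_eq_add_of_le hlt.le
  have hp : 1 ≤ p := by omega
  have h1 : ∀ k, m ≤ k → f^[k + p] = f^[k] := by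
    intro k hk
    obtain ⟨j, rfl⟩ := Nat.exists_eq_add_of_le hk
    rw [show m + j + p = j + (m + p) by ring, Function.iterate_add, ← he,
      ← Function.iterate_add, add_comm]
  have h2 : ∀ j k, m ≤ k → f^[k + j * p] = f^[k] := by
    intro j
    induction j with
    | zero => intro k _; simp
    | succ j ih =>
      intro k hk
      rw [show k + (j + 1) * p = (k + j * p) + p by ring, h1 _ (by omega), ih k hk]
  refine ⟨(m + 1) * p, by nlinarith, ?_⟩
  exact h2 (m + 1) _ (by nlinarith)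

/-- the orbit relation on related pairs -/
def pairSetoid (H : AG A) : Setoid {p : H.V × H.V // H.R p.1 p.2} where
  r := fun p q => ∃ a : A, q.1.1 = H.act a p.1.1 ∧ q.1.2 = H.act a p.1.2
  iseqv :=
    { refl := fun p => ⟨1, (H.act_one _).symm, (H.act_one _).symm⟩
      symm := by
        rintro p q ⟨a, h1, h2⟩
        exact ⟨a⁻¹, by rw [h1, ← H.act_mul, inv_mul_cancel, H.act_one],
          by rw [h2, ← H.act_mul, inv_mul_cancel, H.act_one]⟩
      trans := by
        rintro p q r ⟨a, h1, h2⟩ ⟨b, h3, h4⟩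
        exact ⟨b * a, by rw [h3, h1, H.act_mul], by rw [h4, h2, H.act_mul]⟩ }

theorem finite_pairs (H : AG A) (hl : LF H) (hc : CoF H) : Finite (Quotient (pairSetoid H)) := by
  obtain ⟨S, hS, hcov⟩ := hc
  let T : Set (H.V × H.V) := ⋃ y ∈ S, (fun z => (y, z)) '' {z | H.R y z}
  have hT : T.Finite := hS.biUnion (fun y _ => (hl y).image _)
  have hTR : ∀ p : T, H.R p.1.1 p.1.2 := by
    rintro ⟨p, hp⟩
    simp only [T, Set.mem_iUnion] at hp
    obtain ⟨y, _, z, hz, rfl⟩ := hp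
    exact hz
  have : Finite T := hT
  refine Finite.of_surjective (fun p : T => Quotient.mk (pairSetoid H) ⟨p.1, hTR p⟩) ?_
  intro q
  obtain ⟨⟨⟨x, x'⟩, hx⟩, rfl⟩ := Quotient.exists_rep q
  obtain ⟨a, y, hy, rfl⟩ := hcov x
  have hz : H.R y (H.act a⁻¹ x') := by
    have := H.act_R a⁻¹ _ _ hx
    rwa [← H.act_mul, inv_mul_cancel, H.act_one] at this
  refine ⟨⟨(y, H.act a⁻¹ x'), ?_⟩, ?_⟩
  · simp only [T, Set.mem_iUnion]
    exact ⟨y, hy, _, hz, rfl⟩
  · apply Quotient.sound (s := pairSetoid H)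
    exact ⟨a, rfl, by rw [← H.act_mul, mul_inv_cancel, H.act_one]⟩

/-- the key step: an equivariant endomorphism has a positive power which acts on each related pair of
its range as an element of the group -/
theorem exists_power (H : AG A) (hn : Nice H) (F : H.V → H.V) (hR : ∀ x y, H.R x y → H.R (F x) (F y))
    (hact : ∀ a x, F (H.act a x) = H.act a (F x)) :
    ∃ (N : ℕ) (c : H.V → A), 1 ≤ N ∧ (∀ y, F^[N] (F^[N] y) = H.act (c (F^[N] y)) (F^[N] y)) ∧
      ∀ x y, H.R (F^[N] x) (F^[N] y) → c (F^[N] x) = c (F^[N] y) := by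
  classical
  have := finite_pairs H hn.lf hn.cof
  have hRn : ∀ n x y, H.R x y → H.R (F^[n] x) (F^[n] y) := by
    intro n
    induction n with
    | zero => intro x y h; exact h
    | succ n ih =>
      intro x y h
      rw [Function.iterate_succ_apply', Function.iterate_succ_apply']
      exact hR _ _ (ih _ _ h)
  have hactn : ∀ n a x, F^[n] (H.act a x) = H.act a (F^[n] x) := by
    intro n
    induction n with
    | zero => intro a x; rfl
    | succ n ih =>
      intro a x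
      rw [Function.iterate_succ_apply', Function.iterate_succ_apply', ih, hact]
  let FQ : Quotient (pairSetoid H) → Quotient (pairSetoid H) :=
    Quotient.map (fun p => ⟨(F p.1.1, F p.1.2), hR _ _ p.2⟩) (by
      rintro p q ⟨a, h1, h2⟩
      exact ⟨a, by simp only [h1, hact], by simp only [h2, hact]⟩)
  have hFQ : ∀ n (p : {p : H.V × H.V // H.R p.1 p.2}),
      FQ^[n] (Quotient.mk (pairSetoid H) p) =
        Quotient.mk (pairSetoid H) ⟨(F^[n] p.1.1, F^[n] p.1.2), hRn n _ _ p.2⟩ := by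
    intro n
    induction n with
    | zero => intro p; rfl
    | succ n ih =>
      intro p
      rw [Function.iterate_succ_apply', ih]
      apply Quotient.sound (s := pairSetoid H)
      refine ⟨1, ?_, ?_⟩
      · simp only [H.act_one, Function.iterate_succ_apply']
      · simp only [H.act_one, Function.iterate_succ_apply']
  obtain ⟨N, hN, hid⟩ := exists_idem FQ
  -- idempotence on pairs
  have hpair : ∀ x y, H.R x y → ∃ a : A, F^[N] (F^[N] x) = H.act a (F^[N] x) ∧
      F^[N] (F^[N] y) = H.act a (F^[N] y) := by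
    intro x y h
    have h1 := congrFun hid (Quotient.mk (pairSetoid H) ⟨(x, y), h⟩)
    rw [hFQ, hFQ] at h1
    have h2 := Quotient.exact h1.symm
    obtain ⟨a, h3, h4⟩ := h2
    refine ⟨a, ?_, ?_⟩
    · simpa only [Function.iterate_add_apply] using h3
    · simpa only [Function.iterate_add_apply] using h4
  have hone : ∀ x, x ∈ Set.range F^[N] → ∃ a : A, F^[N] x = H.act a x := by
    rintro _ ⟨x, rfl⟩
    obtain ⟨a, ha, _⟩ := hpair x x (H.refl x)
    exact ⟨a, ha⟩
  let c : H.V → A := fun x => if h : x ∈ Set.range F^[N] then (hone x h).choose else 1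
  have hc : ∀ x, x ∈ Set.range F^[N] → F^[N] x = H.act (c x) x := by
    intro x hx
    have : c x = (hone x hx).choose := dif_pos hx
    rw [this]
    exact (hone x hx).choose_spec
  refine ⟨N, c, hN, fun y => hc _ ⟨y, rfl⟩, ?_⟩
  intro x y hxy
  obtain ⟨a, h1, h2⟩ := hpair _ _ hxy
  have e1 : c (F^[N] x) = a := by
    rw [hc _ ⟨x, rfl⟩, hactn, hc _ ⟨x, rfl⟩, ← H.act_mul, ← H.act_mul] at h1
    exact mul_right_cancel (act_free H hn.disp h1)
  have e2 : c (F^[N] y) = a := by
    rw [hc _ ⟨y, rfl⟩, hactn, hc _ ⟨y, rfl⟩, ← H.act_mul, ← H.act_mul] at h2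
    exact mul_right_cancel (act_free H hn.disp h2)
  rw [e1, e2]

theorem exists_good (H : AG A) (hn : Nice H) (s : EH H H.K.K) (hs : IsStar H s)
    (u : EH H.K.K H) : ∃ X, Good H s X := by
  classical
  set F : H.V → H.V := fun x => u.f (s.f x) with hF
  have hR : ∀ x y, H.R x y → H.R (F x) (F y) := fun x y h => u.map_R _ _ (s.map_R _ _ h)
  have hact : ∀ a x, F (H.act a x) = H.act a (F x) := fun a x => by
    simp only [hF, s.map_act, u.map_act]
  obtain ⟨N, c, hN, h1, h2⟩ := exists_power H hn F hR hact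
  have hRn : ∀ n x y, H.R x y → H.R (F^[n] x) (F^[n] y) := by
    intro n
    induction n with
    | zero => intro x y h; exact h
    | succ n ih =>
      intro x y h
      rw [Function.iterate_succ_apply', Function.iterate_succ_apply']
      exact hR _ _ (ih _ _ h)
  have hactn : ∀ n a x, F^[n] (H.act a x) = H.act a (F^[n] x) := by
    intro n
    induction n with
    | zero => intro a x; rfl
    | succ n ih =>
      intro a x
      rw [Function.iterate_succ_apply', Function.iterate_succ_apply', ih, hact]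
  set G : H.V → H.V := F^[N] with hG
  have hGact : ∀ a x, G (H.act a x) = H.act a (G x) := fun a x => hactn N a x
  -- the transformation of `c`
  have hcb : ∀ b y, c (H.act b (G y)) = b * c (G y) * b⁻¹ := by
    intro b y
    have e1 : G (H.act b (G y)) = H.act (c (H.act b (G y))) (H.act b (G y)) := by
      have := h1 (H.act b y)
      rw [hGact] at this
      exact this
    have e2 : G (H.act b (G y)) = H.act (b * c (G y)) (G y) := by
      rw [hGact, h1, H.act_mul]
    rw [e1, ← H.act_mul] at e2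
    have := act_free H hn.disp e2
    rw [← this]
    group
  set h : H.V → H.V := fun x => H.act (c x)⁻¹ x with hh
  have hhG : ∀ y, h (G (G y)) = G y := by
    intro y
    simp only [hh]
    rw [h1, hcb, ← H.act_mul]
    simp [H.act_one]
  have hrange : ∀ y, ∃ z, h (G y) = G z := by
    intro y
    exact ⟨H.act (c (G y))⁻¹ y, by simp only [hh]; rw [hGact]⟩
  have hhR : ∀ x y, H.R (G x) (G y) → H.R (h (G x)) (h (G y)) := by
    intro x y hxy
    simp only [hh]
    rw [h2 x y hxy]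
    exact H.act_R _ _ _ hxy
  have hhact : ∀ b y, h (H.act b (G y)) = H.act b (h (G y)) := by
    intro b y
    simp only [hh]
    rw [hcb, ← H.act_mul, ← H.act_mul]
    congr 1
    group
  refine ⟨Set.range G, ?_, ?_, ?_⟩
  · obtain ⟨x⟩ := hn.ne
    exact ⟨G x, x, rfl⟩
  · rintro a _ ⟨x, rfl⟩
    exact ⟨H.act a x, hactn N a x⟩
  · refine ⟨⟨fun v => h (h (G (F^[N - 1] (u.f v)))), ?_, ?_⟩, ?_, ?_⟩
    · intro v w hvw
      have e1 : H.R (G (F^[N - 1] (u.f v))) (G (F^[N - 1] (u.f w))) :=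
        hRn N _ _ (hRn (N - 1) _ _ (u.map_R _ _ hvw))
      have e2 := hhR _ _ e1
      obtain ⟨z, hz⟩ := hrange (F^[N - 1] (u.f v))
      obtain ⟨z', hz'⟩ := hrange (F^[N - 1] (u.f w))
      rw [hz, hz'] at e2
      have e3 := hhR _ _ e2
      change H.R (h (h (G (F^[N - 1] (u.f v))))) (h (h (G (F^[N - 1] (u.f w)))))
      rw [hz, hz']
      exact e3
    · intro a v
      rw [u.map_act, hactn, hGact, hhact]
      obtain ⟨z, hz⟩ := hrange (F^[N - 1] (u.f v))
      rw [hz, hhact]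
    · intro v
      obtain ⟨z, hz⟩ := hrange (F^[N - 1] (u.f v))
      obtain ⟨z', hz'⟩ := hrange z
      refine ⟨z', ?_⟩
      change G z' = h (h (G (F^[N - 1] (u.f v))))
      rw [hz, hz']
    · rintro _ ⟨y, rfl⟩
      change h (h (G (F^[N - 1] (u.f (s.f (G y)))))) = G y
      have : F^[N - 1] (u.f (s.f (G y))) = G (G y) := by
        change F^[N - 1] (F (G y)) = G (G y)
        rw [← Function.iterate_succ_apply, hG]
        congr 2
        omega
      rw [this, hhG, hhG]

theorem et_good (H : AG A) (s : EH H H.K.K) (hs : IsStar H s) (X : Set H.V) (hX : Good H s X) :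
    ET (fun x y : X => H.R x.1 y.1) := by
  obtain ⟨_, _, ρ, hρ, hρs⟩ := hX
  rintro ⟨a, ha⟩ ⟨b, hb⟩ ⟨c, hc⟩ hab hbc hac
  simp only at hab hbc hac
  obtain ⟨v, hv⟩ := exists_mc (R := H.K.R) H.K.refl H.K.symm
    {Q : MC H.R | (a ∈ Q.1 ∧ b ∈ Q.1) ∨ (b ∈ Q.1 ∧ c ∈ Q.1) ∨ (a ∈ Q.1 ∧ c ∈ Q.1)} (by
      rintro Q hQ Q' hQ'
      rcases hQ with ⟨h1, h2⟩ | ⟨h1, h2⟩ | ⟨h1, h2⟩ <;>
      rcases hQ' with ⟨h3, h4⟩ | ⟨h3, h4⟩ | ⟨h3, h4⟩
      · exact Or.inr ⟨a, h1, h3⟩
      · exact Or.inr ⟨b, h2, h3⟩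
      · exact Or.inr ⟨a, h1, h3⟩
      · exact Or.inr ⟨b, h1, h4⟩
      · exact Or.inr ⟨b, h1, h3⟩
      · exact Or.inr ⟨c, h2, h4⟩
      · exact Or.inr ⟨a, h1, h3⟩
      · exact Or.inr ⟨c, h2, h4⟩
      · exact Or.inr ⟨a, h1, h3⟩)
  refine ⟨⟨ρ.f v, hρ v⟩, ?_⟩
  rintro ⟨y, hy⟩ hyy
  simp only at hyy ⊢
  -- the common step
  have key : ∀ p q : H.V, H.R y p → H.R y q → H.R p q →
      (∀ Q : MC H.R, p ∈ Q.1 → q ∈ Q.1 → Q ∈ v.1) → H.R (ρ.f v) y := by
    intro p q hp hq hpq hQv
    obtain ⟨Q, hQ⟩ := exists_mc (R := H.R) H.refl H.symm {y, p, q} (by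
      rintro z (rfl | rfl | rfl) z' (rfl | rfl | rfl)
      · exact H.refl _
      · exact hp
      · exact hq
      · exact H.symm _ _ hp
      · exact H.refl _
      · exact hpq
      · exact H.symm _ _ hq
      · exact H.symm _ _ hpq
      · exact H.refl _)
    have hyQ : y ∈ Q.1 := hQ (Or.inl rfl)
    have h1 : Q ∈ v.1 := hQv Q (hQ (Or.inr (Or.inl rfl))) (hQ (Or.inr (Or.inr rfl)))
    have h2 : Q ∈ (s.f y).1 := hs y Q hyQ
    have h3 : H.K.K.R v (s.f y) := Or.inr ⟨Q, h1, h2⟩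
    have h4 := ρ.map_R _ _ h3
    rwa [hρs y hy] at h4
  rcases hyy with ⟨h1, h2⟩ | ⟨h1, h2⟩ | ⟨h1, h2⟩
  · exact key a b h1 h2 hab (fun Q h3 h4 => hv (Or.inl ⟨h3, h4⟩))
  · exact key b c h1 h2 hbc (fun Q h3 h4 => hv (Or.inr (Or.inl ⟨h3, h4⟩)))
  · exact key a c h1 h2 hac (fun Q h3 h4 => hv (Or.inr (Or.inr ⟨h3, h4⟩)))

end Pool.Agent.H71.Clq
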