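import Mathlib
import Pool.Agent.H71.Clq.Good

set_option autoImplicit false

/-!
# Module FOLD: removing a dominated orbit from a good retract

`fold` maps `a x` to `a w` for all `a` (well defined since the action is free by `Disp`) and fixes all
other vertices. It is equivariant. On `X` it preserves `R`: if `R (a x) y`, `y ∈ X`, `y` not in the orbit of `x`, then
`R x (a⁻¹ y)`, so `R w (a⁻¹ y)`, so `R (a w) y`. If `R (a x) (b x)` then `a = b` by `Disp`. Use
`ρ' = fold ∘ ρ` (`ρ` has values in `X`); `w` is not in the orbit of `x` by `Disp` and `w ≠ x`.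
-/

namespace Pool.Agent.H71.Clq

variable {A : Type} [Group A]

theorem act_inv_act (H : AG A) (a : A) (x : H.V) : H.act a⁻¹ (H.act a x) = x := by
  rw [← H.act_mul, inv_mul_cancel, H.act_one]

theorem act_act_inv (H : AG A) (a : A) (x : H.V) : H.act a (H.act a⁻¹ x) = x := by
  rw [← H.act_mul, mul_inv_cancel, H.act_one]

theorem eq_of_rel (H : AG A) (hd : Disp H) {a b : A} {x : H.V}
    (h : H.R (H.act a x) (H.act b x)) : a = b := by
  by_contra hne
  have h1 : a⁻¹ * b ≠ 1 := fun h1 => hne (inv_mul_eq_one.1 h1)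
  have h2 := H.act_R a⁻¹ _ _ h
  rw [act_inv_act, ← H.act_mul] at h2
  exact hd _ h1 x x x (H.refl x) (H.refl x) h2

theorem eq_of_act_eq (H : AG A) (hd : Disp H) {a b : A} {x : H.V}
    (h : H.act a x = H.act b x) : a = b :=
  eq_of_rel H hd (x := x) (by rw [h]; exact H.refl _)

open Classical in
/-- move the orbit of `x` to the orbit of `w` -/
noncomputable def foldMap (H : AG A) (x w : H.V) (y : H.V) : H.V :=
  if h : ∃ a, y = H.act a x then H.act h.choose w else y

theorem foldMap_orbit (H : AG A) (hd : Disp H) (x w : H.V) (a : A) :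
    foldMap H x w (H.act a x) = H.act a w := by
  have h : ∃ b, H.act a x = H.act b x := ⟨a, rfl⟩
  unfold foldMap
  rw [dif_pos h]
  have h1 : a = h.choose := eq_of_act_eq H hd h.choose_spec
  rw [← h1]

theorem foldMap_of_not (H : AG A) (x w : H.V) {y : H.V} (h : ¬ ∃ a, y = H.act a x) :
    foldMap H x w y = y := by
  unfold foldMap
  rw [dif_neg h]

theorem foldMap_act (H : AG A) (hd : Disp H) (x w : H.V) (a : A) (y : H.V) :
    foldMap H x w (H.act a y) = H.act a (foldMap H x w y) := by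
  by_cases h : ∃ b, y = H.act b x
  · obtain ⟨b, rfl⟩ := h
    rw [← H.act_mul, foldMap_orbit H hd, foldMap_orbit H hd, H.act_mul]
  · have h' : ¬ ∃ b, H.act a y = H.act b x := by
      rintro ⟨b, hb⟩
      apply h
      refine ⟨a⁻¹ * b, ?_⟩
      rw [H.act_mul, ← hb, act_inv_act]
    rw [foldMap_of_not H x w h, foldMap_of_not H x w h']

theorem good_fold (H : AG A) (hd : Disp H) (s : EH H H.K.K) (X : Set H.V) (hX : Good H s X)
    (x w : H.V) (hx : x ∈ X) (hw : w ∈ X) (hne : w ≠ x) (hR : H.R w x)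
    (hdom : ∀ y ∈ X, H.R x y → H.R w y) :
    Good H s (X \ {y | ∃ a, y = H.act a x}) := by
  obtain ⟨-, hinv, ρ, hρX, hρs⟩ := hX
  -- `w` is not in the orbit of `x`
  have hworb : ∀ a, w ≠ H.act a x := by
    intro a ha
    have h1 : H.R (H.act a x) (H.act 1 x) := by
      rw [← ha, H.act_one]
      exact hR
    have h2 := eq_of_rel H hd h1
    rw [h2, H.act_one] at ha
    exact hne ha
  have hworb' : ∀ a b, H.act a w ≠ H.act b x := by
    intro a b hab
    apply hworb (a⁻¹ * b)
    rw [H.act_mul, ← hab, act_inv_act]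
  -- domination along the orbit
  have hdom' : ∀ a, ∀ y ∈ X, H.R (H.act a x) y → H.R (H.act a w) y := by
    intro a y hy h
    have h1 := H.act_R a⁻¹ _ _ h
    rw [act_inv_act] at h1
    have h2 := H.act_R a _ _ (hdom _ (hinv a⁻¹ y hy) h1)
    rwa [act_act_inv] at h2
  have hfR : ∀ y ∈ X, ∀ y' ∈ X, H.R y y' → H.R (foldMap H x w y) (foldMap H x w y') := by
    intro y hy y' hy' h
    by_cases h1 : ∃ a, y = H.act a x
    · obtain ⟨a, rfl⟩ := h1
      rw [foldMap_orbit H hd]
      by_cases h2 : ∃ b, y' = H.act b x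
      · obtain ⟨b, rfl⟩ := h2
        rw [foldMap_orbit H hd, eq_of_rel H hd h]
        exact H.refl _
      · rw [foldMap_of_not H x w h2]
        exact hdom' a y' hy' h
    · rw [foldMap_of_not H x w h1]
      by_cases h2 : ∃ b, y' = H.act b x
      · obtain ⟨b, rfl⟩ := h2
        rw [foldMap_orbit H hd]
        exact H.symm _ _ (hdom' b y hy (H.symm _ _ h))
      · rw [foldMap_of_not H x w h2]
        exact h
  refine ⟨⟨w, hw, fun ⟨a, ha⟩ => hworb a ha⟩, ?_, ⟨⟨fun v => foldMap H x w (ρ.f v), ?_, ?_⟩, ?_, ?_⟩⟩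
  · rintro a y ⟨hy, hyn⟩
    refine ⟨hinv a y hy, ?_⟩
    rintro ⟨b, hb⟩
    apply hyn
    refine ⟨a⁻¹ * b, ?_⟩
    rw [H.act_mul, ← hb, act_inv_act]
  · intro u v huv
    exact hfR _ (hρX u) _ (hρX v) (ρ.map_R u v huv)
  · intro a v
    rw [ρ.map_act, foldMap_act H hd]
  · intro v
    have h0 := hρX v
    change foldMap H x w (ρ.f v) ∈ X \ {y | ∃ a, y = H.act a x}
    by_cases h1 : ∃ a, ρ.f v = H.act a x
    · obtain ⟨a, ha⟩ := h1
      rw [ha, foldMap_orbit H hd]
      exact ⟨hinv a w hw, fun ⟨b, hb⟩ => hworb' a b hb⟩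
    · rw [foldMap_of_not H x w h1]
      exact ⟨h0, h1⟩
  · rintro y ⟨hy, hyn⟩
    change foldMap H x w (ρ.f (s.f y)) = y
    rw [hρs y hy]
    exact foldMap_of_not H x w hyn

/-- composition -/
def EH.comp {Γ Δ Θ : AG A} (g : EH Δ Θ) (f : EH Γ Δ) : EH Γ Θ where
  f := fun x => g.f (f.f x)
  map_R := fun x y h => g.map_R _ _ (f.map_R x y h)
  map_act := fun a x => by rw [f.map_act, g.map_act]

/-- the identity -/
def EH.id (Γ : AG A) : EH Γ Γ where
  f := fun x => x
  map_R := fun _ _ h => h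
  map_act := fun _ _ => rfl

/-- iterated star maps -/
theorem exists_u (H : AG A) (hn : Nice H) (q : ℕ) (hq : 1 ≤ q) :
    Nonempty (EH H.K.K (AG.K^[2 * q] H)) := by
  induction q, hq using Nat.le_induction with
  | base => exact ⟨EH.id _⟩
  | succ q hq ih =>
    obtain ⟨f⟩ := ih
    have h1 : AG.K^[2 * (q + 1)] H = (AG.K^[2 * q] H).K.K := by
      have h2 : 2 * (q + 1) = (2 * q + 1) + 1 := by ring
      rw [h2, Function.iterate_succ_apply', Function.iterate_succ_apply']
    rw [h1]
    obtain ⟨s, -⟩ := exists_star (AG.K^[2 * q] H) (nice_iter H hn _).disp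
    exact ⟨s.comp f⟩

end Pool.Agent.H71.Clq
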