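import Mathlib
import Pool.Agent.H71.Clq.Defs

set_option autoImplicit false
set_option linter.unusedVariables false

/-!
# Local-to-global, part 1: the spheres of the universal cover
-/

namespace Pool.Agent.H71.Clq.LG

variable {V : Type}

/-- one sphere: vertices, their images, the relation on the sphere, images of the lower neighbours -/
structure Lev (V : Type) where
  /-- vertices -/
  L : Type
  /-- images -/
  f : L → V
  /-- relation -/
  e : L → L → Prop
  /-- images of lower neighbours -/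
  lo : Set (L × V)

/-- image of the neighbourhood in the ball -/
def Lev.J (S : Lev V) (w : S.L) : Set V := {z | (w, z) ∈ S.lo ∨ ∃ w', S.e w w' ∧ S.f w' = z}

variable (R : V → V → Prop)

/-- pairs (vertex, missing neighbour) -/
def Lev.Z (S : Lev V) : Type := {p : S.L × V // R (S.f p.1) p.2 ∧ p.2 ∉ S.J p.1}

/-- generating relation -/
def Lev.rel (S : Lev V) (p q : S.Z R) : Prop := S.e p.1.1 q.1.1 ∧ p.1.2 = q.1.2

/-- the next sphere -/
def Lev.next (S : Lev V) : Lev V where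
  L := Quot (S.rel R)
  f := Quot.lift (fun p => p.1.2) (fun _ _ h => h.2)
  e a b := ∃ p q : S.Z R, p.1.1 = q.1.1 ∧ R p.1.2 q.1.2 ∧ a = Quot.mk _ p ∧ b = Quot.mk _ q
  lo := {x | ∃ p : S.Z R, x.1 = Quot.mk _ p ∧ x.2 = S.f p.1.1}

/-- class of a pair -/
def Lev.mk' (S : Lev V) (p : S.Z R) : (S.next R).L := Quot.mk _ p

/-- the spheres -/
def lv (o : V) : ℕ → Lev V
  | 0 => ⟨Unit, fun _ => o, fun _ _ => True, ∅⟩
  | n + 1 => (lv o n).next R

variable (o : V)

/-- vertices of the sphere -/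
abbrev Lt (n : ℕ) : Type := (lv R o n).L

/-- image -/
abbrev ff {n : ℕ} (w : Lt R o n) : V := (lv R o n).f w

/-- relation -/
abbrev ee {n : ℕ} (w w' : Lt R o n) : Prop := (lv R o n).e w w'

/-- consecutive spheres -/
def up {n : ℕ} (w : Lt R o n) (a : Lt R o (n + 1)) : Prop :=
  ∃ p : (lv R o n).Z R, p.1.1 = w ∧ a = (lv R o n).mk' R p

theorem exists_up {n : ℕ} (a : Lt R o (n + 1)) : ∃ w : Lt R o n, up R o w a := by
  obtain ⟨p, hp⟩ := Quot.exists_rep (a : Quot ((lv R o n).rel R))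
  exact ⟨p.1.1, p, rfl, hp.symm⟩

theorem ff_mk {n : ℕ} (p : (lv R o n).Z R) : ff R o (n := n + 1) ((lv R o n).mk' R p) = p.1.2 := rfl

variable {R} (hr : ∀ x, R x x) (hs : ∀ x y, R x y → R y x)

include hr in
theorem ee_refl {n : ℕ} (a : Lt R o n) : ee R o a a := by
  cases n with
  | zero => trivial
  | succ n =>
    obtain ⟨p, hp⟩ := Quot.exists_rep (a : Quot ((lv R o n).rel R))
    exact ⟨p, p, rfl, hr _, hp.symm, hp.symm⟩

include hs in
theorem ee_symm {n : ℕ} {a b : Lt R o n} (h : ee R o a b) : ee R o b a := by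
  cases n with
  | zero => trivial
  | succ n =>
    obtain ⟨p, q, h1, h2, h3, h4⟩ := h
    exact ⟨q, p, h1.symm, hs _ _ h2, h4, h3⟩

include hr in
theorem ee_R {n : ℕ} {a b : Lt R o n} (h : ee R o a b) : R (ff R o a) (ff R o b) := by
  cases n with
  | zero => exact hr _
  | succ n =>
    obtain ⟨p, q, h1, h2, h3, h4⟩ := h
    rw [h3, h4]
    exact h2

theorem up_R {n : ℕ} {w : Lt R o n} {a : Lt R o (n + 1)} (h : up R o w a) :
    R (ff R o w) (ff R o a) := by
  obtain ⟨p, h1, h2⟩ := h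
  rw [h2, ff_mk, ← h1]
  exact p.2.1

theorem up_not_J {n : ℕ} {w : Lt R o n} {a : Lt R o (n + 1)} (h : up R o w a) :
    ff R o a ∉ (lv R o n).J w := by
  obtain ⟨p, h1, h2⟩ := h
  rw [h2, ff_mk, ← h1]
  exact p.2.2

theorem lo_iff {n : ℕ} {a : Lt R o (n + 1)} {z : V} :
    (a, z) ∈ (lv R o (n + 1)).lo ↔ ∃ w : Lt R o n, up R o w a ∧ ff R o w = z := by
  constructor
  · rintro ⟨p, h1, h2⟩
    exact ⟨p.1.1, ⟨p, rfl, h1⟩, h2.symm⟩
  · rintro ⟨w, ⟨p, h1, h2⟩, h3⟩
    exact ⟨p, h2, by rw [← h3, ← h1]⟩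

theorem exists_above {n : ℕ} {w : Lt R o n} {z : V} (h : R (ff R o w) z)
    (hz : z ∉ (lv R o n).J w) : ∃ a : Lt R o (n + 1), up R o w a ∧ ff R o a = z :=
  ⟨(lv R o n).mk' R ⟨(w, z), h, hz⟩, ⟨_, rfl, rfl⟩, rfl⟩

theorem up_transfer {n : ℕ} {w w' : Lt R o n} {a : Lt R o (n + 1)} (h : up R o w a)
    (he : ee R o w w') (hR : R (ff R o w') (ff R o a)) (hJ : ff R o a ∉ (lv R o n).J w') :
    up R o w' a := by
  obtain ⟨p, h1, h2⟩ := h
  refine ⟨⟨(w', ff R o a), hR, hJ⟩, rfl, ?_⟩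
  have h3 : p.1.2 = ff R o a := by rw [h2]; rfl
  refine Eq.trans h2 (Quot.sound ?_)
  refine ⟨?_, ?_⟩
  · change (lv R o n).e p.1.1 w'
    rw [h1]
    exact he
  · exact h3

theorem up_inj {n : ℕ} {w : Lt R o n} {a b : Lt R o (n + 1)} (ha : up R o w a) (hb : up R o w b)
    (h : ff R o a = ff R o b) : a = b := by
  obtain ⟨p, h1, h2⟩ := ha
  obtain ⟨q, h3, h4⟩ := hb
  rw [h2, h4, ff_mk, ff_mk] at h
  have : p = q := by
    apply Subtype.ext
    apply Prod.ext
    · rw [h1, h3]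
    · exact h
  rw [h2, h4, this]

theorem up_ee {n : ℕ} {w : Lt R o n} {a b : Lt R o (n + 1)} (ha : up R o w a) (hb : up R o w b)
    (h : R (ff R o a) (ff R o b)) : ee R o a b := by
  obtain ⟨p, h1, h2⟩ := ha
  obtain ⟨q, h3, h4⟩ := hb
  rw [h2, h4, ff_mk, ff_mk] at h
  exact ⟨p, q, by rw [h1, h3], h, h2, h4⟩

theorem ee_common {n : ℕ} {a b : Lt R o (n + 1)} (h : ee R o a b) :
    ∃ w : Lt R o n, up R o w a ∧ up R o w b := by
  obtain ⟨p, q, h1, h2, h3, h4⟩ := h
  exact ⟨p.1.1, ⟨p, rfl, h3⟩, ⟨q, h1.symm, h4⟩⟩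

include hs in
/-- connectedness of the set of lower neighbours -/
theorem up_induct {n : ℕ} (a : Lt R o (n + 1)) (T : Lt R o n → Prop) (w₀ : Lt R o n)
    (h₀ : up R o w₀ a) (hT₀ : T w₀)
    (hT : ∀ w w', up R o w a → up R o w' a → ee R o w w' → T w → T w') :
    ∀ w, up R o w a → T w := by
  have key : ∀ p q : (lv R o n).Z R, Relation.EqvGen ((lv R o n).rel R) p q →
      (lv R o n).mk' R p = a → (T p.1.1 ↔ T q.1.1) := by
    intro p q h
    induction h with
    | rel p q h =>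
      intro hp
      have hq : (lv R o n).mk' R q = a := by
        rw [← hp]
        exact (Quot.sound h).symm
      exact ⟨hT _ _ ⟨p, rfl, hp.symm⟩ ⟨q, rfl, hq.symm⟩ h.1,
        hT _ _ ⟨q, rfl, hq.symm⟩ ⟨p, rfl, hp.symm⟩ (ee_symm o hs h.1)⟩
    | refl p => intro _; rfl
    | symm p q h ih =>
      intro hq
      have hp : (lv R o n).mk' R p = a := by
        rw [← hq]
        exact Quot.eqvGen_sound h
      exact (ih hp).symm
    | trans p q r h1 h2 ih1 ih2 =>
      intro hp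
      have hq : (lv R o n).mk' R q = a := by
        rw [← hp]
        exact (Quot.eqvGen_sound h1).symm
      exact (ih1 hp).trans (ih2 hq)
  rintro w ⟨q, hq1, hq2⟩
  obtain ⟨p, hp1, hp2⟩ := h₀
  have : (lv R o n).mk' R p = (lv R o n).mk' R q := by rw [← hp2, ← hq2]
  have h := key p q (Quot.eqvGen_exact this) hp2.symm
  rw [hp1, hq1] at h
  exact h.mp hT₀

theorem finite_Lt (hf : ∀ x, {y | R x y}.Finite) (n : ℕ) : Finite (Lt R o n) := by
  induction n with
  | zero => exact inferInstanceAs (Finite Unit)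
  | succ n ih =>
    have : Finite ((lv R o n).Z R) := by
      have h1 : {p : (lv R o n).L × V | R ((lv R o n).f p.1) p.2}.Finite := by
        have : {p : (lv R o n).L × V | R ((lv R o n).f p.1) p.2} ⊆
            ⋃ w : (lv R o n).L, (fun z => (w, z)) '' {z | R ((lv R o n).f w) z} := by
          rintro ⟨w, z⟩ h
          simp only [Set.mem_iUnion]
          exact ⟨w, z, h, rfl⟩
        exact (Set.finite_iUnion fun w => (hf _).image _).subset this
      have h2 : Finite {p : (lv R o n).L × V // R ((lv R o n).f p.1) p.2} := h1.to_subtype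
      exact Finite.of_injective
        (fun p : (lv R o n).Z R => (⟨p.1, p.2.1⟩ :
          {p : (lv R o n).L × V // R ((lv R o n).f p.1) p.2})) (by
          intro p q h
          simp only [Subtype.mk.injEq] at h
          exact Subtype.ext h)
    exact inferInstanceAs (Finite (Quot ((lv R o n).rel R)))

end Pool.Agent.H71.Clq.LG
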