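import Mathlib
import Pool.Agent.H71.Clq.LG1

set_option autoImplicit false
set_option linter.unusedVariables false
set_option linter.unusedSectionVars false

/-!
# Local-to-global, part 2: the spheres are locally isomorphic to the base
-/

namespace Pool.Agent.H71.Clq.LG

variable {V : Type} (R : V → V → Prop) (o : V)

/-- union of the spheres -/
abbrev U : Type := Σ n, Lt R o n

/-- projection -/
def F (u : U R o) : V := ff R o u.2

/-- relation on the union of the spheres -/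
inductive UR : U R o → U R o → Prop
  | same {n : ℕ} {a b : Lt R o n} (h : ee R o a b) : UR ⟨n, a⟩ ⟨n, b⟩
  | up {n : ℕ} {a : Lt R o n} {b : Lt R o (n + 1)} (h : up R o a b) : UR ⟨n, a⟩ ⟨n + 1, b⟩
  | down {n : ℕ} {a : Lt R o n} {b : Lt R o (n + 1)} (h : LG.up R o a b) : UR ⟨n + 1, b⟩ ⟨n, a⟩

variable {R} (hr : ∀ x, R x x) (hs : ∀ x y, R x y → R y x)

theorem UR_same {n : ℕ} {a b : Lt R o n} (h : UR R o ⟨n, a⟩ ⟨n, b⟩) : ee R o a b := by
  generalize hx : (⟨n, a⟩ : U R o) = x at h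
  generalize hy : (⟨n, b⟩ : U R o) = y at h
  cases h with
  | same h => cases hx; cases hy; exact h
  | up h =>
    have h1 := congrArg Sigma.fst hx
    have h2 := congrArg Sigma.fst hy
    simp only at h1 h2
    omega
  | down h =>
    have h1 := congrArg Sigma.fst hx
    have h2 := congrArg Sigma.fst hy
    simp only at h1 h2
    omega

theorem UR_up {n : ℕ} {a : Lt R o n} {b : Lt R o (n + 1)} (h : UR R o ⟨n, a⟩ ⟨n + 1, b⟩) :
    up R o a b := by
  generalize hx : (⟨n, a⟩ : U R o) = x at h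
  generalize hy : (⟨n + 1, b⟩ : U R o) = y at h
  cases h with
  | same h =>
    have h1 := congrArg Sigma.fst hx
    have h2 := congrArg Sigma.fst hy
    simp only at h1 h2
    omega
  | up h => cases hx; cases hy; exact h
  | down h =>
    have h1 := congrArg Sigma.fst hx
    have h2 := congrArg Sigma.fst hy
    simp only at h1 h2
    omega

include hr in
theorem UR_refl (x : U R o) : UR R o x x := by
  obtain ⟨n, a⟩ := x
  exact UR.same (ee_refl o hr a)

include hs in
theorem UR_symm {x y : U R o} (h : UR R o x y) : UR R o y x := by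
  cases h with
  | same h => exact UR.same (ee_symm o hs h)
  | up h => exact UR.down h
  | down h => exact UR.up h

include hr hs in
theorem UR_R {x y : U R o} (h : UR R o x y) : R (F R o x) (F R o y) := by
  cases h with
  | same h => exact ee_R o hr h
  | up h => exact up_R o h
  | down h => exact hs _ _ (up_R o h)

theorem UR_lev {x y : U R o} (h : UR R o x y) : y.1 ≤ x.1 + 1 := by
  cases h with
  | same h => simp
  | up h => simp
  | down h => simp only; omega

theorem J_iff {n : ℕ} {w : Lt R o n} {z : V} :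
    z ∈ (lv R o n).J w ↔ ∃ y : U R o, UR R o ⟨n, w⟩ y ∧ y.1 ≤ n ∧ F R o y = z := by
  constructor
  · rintro (h | ⟨w', h1, h2⟩)
    · cases n with
      | zero => exact absurd h (Set.notMem_empty _)
      | succ n =>
        obtain ⟨v, h3, h4⟩ := (lo_iff o).1 h
        exact ⟨⟨n, v⟩, UR.down h3, by simp, h4⟩
    · exact ⟨⟨n, w'⟩, UR.same h1, le_refl _, h2⟩
  · rintro ⟨y, h1, h2, h3⟩
    cases h1 with
    | same h => exact Or.inr ⟨_, h, h3⟩
    | up h => simp at h2
    | down h => exact Or.inl ((lo_iff o).2 ⟨_, h, h3⟩)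

theorem sur {n : ℕ} {w : Lt R o n} {z : V} (h : R (ff R o w) z) :
    ∃ y : U R o, UR R o ⟨n, w⟩ y ∧ F R o y = z := by
  by_cases hz : z ∈ (lv R o n).J w
  · obtain ⟨y, h1, -, h2⟩ := (J_iff o).1 hz
    exact ⟨y, h1, h2⟩
  · obtain ⟨a, h1, h2⟩ := exists_above o h hz
    exact ⟨⟨n + 1, a⟩, UR.up h1, h2⟩

/-- the neighbours up to level `k` of the vertices of level `n` form a copy -/
def Loc (R : V → V → Prop) (o : V) (n k : ℕ) : Prop :=
  ∀ w : Lt R o n, ∀ y y' : U R o, UR R o ⟨n, w⟩ y → UR R o ⟨n, w⟩ y' → y.1 ≤ k → y'.1 ≤ k →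
    (F R o y = F R o y' → y = y') ∧ (R (F R o y) (F R o y') → UR R o y y')

/-- lower neighbours are dominated by one of them -/
def Dm (R : V → V → Prop) (o : V) (n : ℕ) : Prop :=
  ∀ a : Lt R o (n + 1), ∃ w, up R o w a ∧ ∀ w', up R o w' a → ee R o w w'

theorem loc00 : Loc R o 0 0 := by
  rintro w ⟨n, y⟩ ⟨n', y'⟩ h h' h1 h2
  simp only [Nat.le_zero] at h1 h2
  subst h1
  subst h2
  refine ⟨fun _ => ?_, fun _ => ?_⟩
  · rfl
  · exact UR.same trivial

include hr hs in
theorem stepA {n : ℕ} (h1 : Loc R o n n) (h2 : ∀ m, m + 1 = n → Loc R o m n) :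
    Loc R o n (n + 1) := by
  -- the mixed case
  have mix : ∀ (w : Lt R o n) (y : U R o) (a : Lt R o (n + 1)), UR R o ⟨n, w⟩ y → y.1 ≤ n →
      up R o w a → R (F R o y) (ff R o a) → UR R o y ⟨n + 1, a⟩ := by
    intro w y a hy hyn ha hR
    cases hy with
    | @same _ _ y hy =>
      refine UR.up (up_transfer o ha hy hR ?_)
      intro hJ
      obtain ⟨q, hq1, hq2, hq3⟩ := (J_iff o).1 hJ
      have := (h1 y q ⟨n, w⟩ hq1 (UR_symm o hs (UR.same hy)) hq2 (le_refl _)).2 (by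
        rw [hq3]
        exact hs _ _ (up_R o ha))
      exact up_not_J o ha ((J_iff o).2 ⟨q, UR_symm o hs this, hq2, hq3⟩)
    | up hy => simp at hyn
    | @down m y w hy =>
      exfalso
      have h3 := h2 m rfl
      obtain ⟨q, hq1, hq2⟩ := sur o hR
      have h4 := UR_lev o hq1
      have := (h3 y q ⟨m + 1, w⟩ hq1 (UR.up hy) h4 (le_refl _)).2 (by
        rw [hq2]
        exact hs _ _ (up_R o ha))
      exact up_not_J o ha ((J_iff o).2 ⟨q, UR_symm o hs this, h4, hq2⟩)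
  have neq : ∀ (w : Lt R o n) (y : U R o) (a : Lt R o (n + 1)), UR R o ⟨n, w⟩ y → y.1 ≤ n →
      up R o w a → F R o y ≠ ff R o a := by
    intro w y a hy hyn ha h
    exact up_not_J o ha ((J_iff o).2 ⟨y, hy, hyn, h⟩)
  intro w y y' hy hy' hyk hyk'
  by_cases hn : y.1 ≤ n
  · by_cases hn' : y'.1 ≤ n
    · exact h1 w y y' hy hy' hn hn'
    · obtain ⟨n', a'⟩ := y'
      have : n' = n + 1 := by
        simp only at hn' hyk'
        omega
      subst this
      have ha' := UR_up o hy'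
      exact ⟨fun h => absurd h (neq w y a' hy hn ha'), fun h => mix w y a' hy hn ha' h⟩
  · obtain ⟨n', a⟩ := y
    have : n' = n + 1 := by
      simp only at hn hyk
      omega
    subst this
    have ha := UR_up o hy
    by_cases hn' : y'.1 ≤ n
    · exact ⟨fun h => absurd h.symm (neq w y' a hy' hn' ha),
        fun h => UR_symm o hs (mix w y' a hy' hn' ha (hs _ _ h))⟩
    · obtain ⟨n', a'⟩ := y'
      have : n' = n + 1 := by
        simp only at hn' hyk'
        omega
      subst this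
      have ha' := UR_up o hy'
      exact ⟨fun h => by rw [up_inj o ha ha' h], fun h => UR.same (up_ee o ha ha' h)⟩

include hr hs in
theorem stepST (het : ET R) {m : ℕ} (h1 : Loc R o m (m + 1)) (h2 : Loc R o (m + 1) (m + 2))
    (a : Lt R o (m + 2)) (p q : Lt R o (m + 1)) (hp : up R o p a) (hq : up R o q a)
    (hpq : ee R o p q) :
    ∃ t : Lt R o (m + 1), up R o t a ∧ ∀ c : U R o, R (F R o c) (ff R o a) →
      (UR R o ⟨m + 1, p⟩ c ∨ UR R o ⟨m + 1, q⟩ c) → UR R o ⟨m + 1, t⟩ c := by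
  obtain ⟨u, hup, huq⟩ := ee_common o hpq
  obtain ⟨T, hT⟩ := het (ff R o p) (ff R o q) (ff R o a) (ee_R o hr hpq) (up_R o hq) (up_R o hp)
  have hTu : R T (ff R o u) := hT _ (Or.inl ⟨up_R o hup, up_R o huq⟩)
  have hTp : R T (ff R o p) := hT _ (Or.inl ⟨hr _, ee_R o hr hpq⟩)
  have hTq : R T (ff R o q) := hT _ (Or.inl ⟨hs _ _ (ee_R o hr hpq), hr _⟩)
  have hTa : R T (ff R o a) := hT _ (Or.inr (Or.inr ⟨hs _ _ (up_R o hp), hr _⟩))
  obtain ⟨t, ht1, ht2⟩ := sur o (hs _ _ hTu)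
  have htl := UR_lev o ht1
  have htp : UR R o t ⟨m + 1, p⟩ := (h1 u t ⟨m + 1, p⟩ ht1 (UR.up hup) htl (le_refl _)).2 (by
    rw [ht2]; exact hTp)
  have htq : UR R o t ⟨m + 1, q⟩ := (h1 u t ⟨m + 1, q⟩ ht1 (UR.up huq) htl (le_refl _)).2 (by
    rw [ht2]; exact hTq)
  have hta : UR R o t ⟨m + 2, a⟩ :=
    (h2 p t ⟨m + 2, a⟩ (UR_symm o hs htp) (UR.up hp) (by simp only at htl; omega) (le_refl _)).2
      (by rw [ht2]; exact hTa)
  obtain ⟨k, t⟩ := t
  have hk : k = m + 1 := by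
    have := UR_lev o hta
    simp only at this htl
    omega
  subst hk
  refine ⟨t, UR_up o hta, ?_⟩
  rintro c hc (h | h)
  · refine (h2 p ⟨m + 1, t⟩ c (UR_symm o hs htp) h (by simp) (UR_lev o h)).2 ?_
    rw [ht2]
    exact hT _ (Or.inr (Or.inr ⟨hs _ _ (UR_R o hr hs h), hc⟩))
  · refine (h2 q ⟨m + 1, t⟩ c (UR_symm o hs htq) h (by simp) (UR_lev o h)).2 ?_
    rw [ht2]
    exact hT _ (Or.inr (Or.inl ⟨hs _ _ (UR_R o hr hs h), hc⟩))

/-- maximisation over a finite type -/
theorem exists_max {α β : Type} [Finite β] (P : α → Prop) (S : α → β → Prop) (h : ∃ a, P a) :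
    ∃ a, P a ∧ ∀ b, P b → (∀ x, S a x → S b x) → ∀ x, S b x → S a x := by
  classical
  cases nonempty_fintype β
  obtain ⟨a₀, h₀⟩ := h
  let g : α → ℕ := fun a => Fintype.card β - (Finset.univ.filter (S a)).card
  have hex : ∃ k, ∃ a, P a ∧ g a = k := ⟨_, a₀, h₀, rfl⟩
  obtain ⟨a, ha, hk⟩ := Nat.find_spec hex
  refine ⟨a, ha, fun b hb hab x hx => ?_⟩
  have hmin : Nat.find hex ≤ g b := Nat.find_min' hex ⟨b, hb, rfl⟩
  have hsub : Finset.univ.filter (S a) ⊆ Finset.univ.filter (S b) := by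
    intro y hy
    simp only [Finset.mem_filter, Finset.mem_univ, true_and] at hy ⊢
    exact hab y hy
  have h1 : (Finset.univ.filter (S a)).card ≤ Fintype.card β := Finset.card_le_univ _
  have h2 : (Finset.univ.filter (S b)).card ≤ Fintype.card β := Finset.card_le_univ _
  have h3 : (Finset.univ.filter (S b)).card ≤ (Finset.univ.filter (S a)).card := by
    rw [← hk] at hmin
    simp only [g] at hmin
    omega
  have h4 := Finset.eq_of_subset_of_card_le hsub h3
  have : x ∈ Finset.univ.filter (S a) := by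
    rw [h4]
    simp [hx]
  simpa using this

include hr hs in
theorem stepB (het : ET R) (hf : ∀ x, {y | R x y}.Finite) {m : ℕ} (h1 : Loc R o m (m + 1))
    (h2 : Loc R o (m + 1) (m + 2)) : Dm R o (m + 1) := by
  intro a
  have hfin : Finite (Lt R o (m + 1)) := finite_Lt o hf (m + 1)
  obtain ⟨w, hw, hmax⟩ := exists_max (β := Lt R o (m + 1)) (fun w => up R o w a)
    (fun w v => up R o v a ∧ ee R o w v) (exists_up R o a)
  refine ⟨w, hw, ?_⟩
  refine up_induct o hs a (fun v => ee R o w v) w hw (ee_refl o hr w) ?_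
  intro v v' hv hv' hvv' hwv
  obtain ⟨t, ht, hc⟩ := stepST o hr hs het h1 h2 a w v hw hv hwv
  refine (hmax t ht ?_ v' ⟨hv', ?_⟩).2
  · rintro x ⟨hx1, hx2⟩
    exact ⟨hx1, UR_same o (hc ⟨m + 1, x⟩ (up_R o hx1) (Or.inl (UR.same hx2)))⟩
  · exact UR_same o (hc ⟨m + 1, v'⟩ (up_R o hv') (Or.inr (UR.same hvv')))

include hr hs in
/-- every neighbour of the same level lies above a dominating lower neighbour -/
theorem stepD (het : ET R) {m : ℕ} (h1 : Loc R o m (m + 1))
    (h2 : Loc R o (m + 1) (m + 2)) (hd : Dm R o (m + 1)) (a b : Lt R o (m + 2))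
    (hab : ee R o a b) :
    ∃ t, up R o t a ∧ (∀ w, up R o w a → ee R o t w) ∧ up R o t b := by
  obtain ⟨w₀, hw₀, hdom⟩ := hd a
  obtain ⟨w₁, hw₁, hw₁b⟩ := ee_common o hab
  obtain ⟨t, ht, hc⟩ := stepST o hr hs het h1 h2 a w₀ w₁ hw₀ hw₁ (hdom w₁ hw₁)
  refine ⟨t, ht, ?_, ?_⟩
  · intro w hw
    exact UR_same o (hc ⟨m + 1, w⟩ (up_R o hw) (Or.inl (UR.same (hdom w hw))))
  · exact UR_up o (hc ⟨m + 2, b⟩ (hs _ _ (ee_R o hr hab)) (Or.inr (UR.up hw₁b)))

include hr hs in
theorem stepP (het : ET R) {m : ℕ} (h1 : Loc R o m (m + 1))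
    (h2 : Loc R o (m + 1) (m + 2)) (hd : Dm R o (m + 1)) : Loc R o (m + 2) (m + 2) := by
  -- it is enough to find a common lower neighbour
  have key : ∀ (a : Lt R o (m + 2)) (y y' : U R o), (∃ t : Lt R o (m + 1),
      UR R o ⟨m + 1, t⟩ y ∧ UR R o ⟨m + 1, t⟩ y') →
      (F R o y = F R o y' → y = y') ∧ (R (F R o y) (F R o y') → UR R o y y') := by
    rintro a y y' ⟨t, hy, hy'⟩
    exact h2 t y y' hy hy' (UR_lev o hy) (UR_lev o hy')
  intro a y y' hy hy' hyk hyk'
  apply key a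
  cases hy with
  | @same _ _ b hb =>
    obtain ⟨t, ht, htd, htb⟩ := stepD o hr hs het h1 h2 hd a b hb
    cases hy' with
    | @same _ _ b' hb' =>
      obtain ⟨t', ht', htd', htb'⟩ := stepD o hr hs het h1 h2 hd a b' hb'
      obtain ⟨s, hs1, hs2⟩ := stepST o hr hs het h1 h2 a t t' ht ht' (htd t' ht')
      exact ⟨s, hs2 _ (hs _ _ (ee_R o hr hb)) (Or.inl (UR.up htb)),
        hs2 _ (hs _ _ (ee_R o hr hb')) (Or.inr (UR.up htb'))⟩
    | up h => simp at hyk'
    | @down _ w _ hw => exact ⟨t, UR.up htb, UR.same (htd w hw)⟩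
  | up h => simp at hyk
  | @down _ w _ hw =>
    cases hy' with
    | @same _ _ b' hb' =>
      obtain ⟨t, ht, htd, htb⟩ := stepD o hr hs het h1 h2 hd a b' hb'
      exact ⟨t, UR.same (htd w hw), UR.up htb⟩
    | up h => simp at hyk'
    | @down _ w' _ hw' =>
      obtain ⟨t, ht, htd⟩ := hd a
      exact ⟨t, UR.same (htd w hw), UR.same (htd w' hw')⟩

include hr hs in
theorem loc11 (h1 : Loc R o 0 1) : Loc R o 1 1 := by
  intro a y y' hy hy' hyk hyk'
  have key : ∀ y : U R o, UR R o ⟨1, a⟩ y → y.1 ≤ 1 → UR R o ⟨0, ()⟩ y := by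
    intro y hy hyk
    cases hy with
    | @same _ _ b hb =>
      obtain ⟨w, hw, hwb⟩ := ee_common o hb
      exact UR.up hwb
    | up h => simp at hyk
    | @down _ w _ hw => exact UR.same trivial
  exact h1 () y y' (key y hy hyk) (key y' hy' hyk') hyk hyk'

include hr hs in
theorem main (het : ET R) (hf : ∀ x, {y | R x y}.Finite) (n : ℕ) :
    Loc R o n n ∧ Loc R o n (n + 1) ∧ Dm R o n ∧ Loc R o (n + 1) (n + 1) := by
  induction n with
  | zero =>
    have h1 : Loc R o 0 1 := stepA o hr hs (loc00 o) (fun m hm => absurd hm (Nat.succ_ne_zero m))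
    refine ⟨loc00 o, h1, ?_, loc11 o hr hs h1⟩
    intro a
    obtain ⟨w, hw⟩ := exists_up R o a
    exact ⟨w, hw, fun _ _ => trivial⟩
  | succ n ih =>
    obtain ⟨h0, h1, h2, h3⟩ := ih
    have h4 : Loc R o (n + 1) (n + 2) := stepA o hr hs h3 (fun m hm => by
      obtain rfl : m = n := by omega
      exact h1)
    have h5 := stepB o hr hs het hf h1 h4
    exact ⟨h3, h4, h5, stepP o hr hs het h1 h4 h5⟩

include hr hs in
/-- the dominating lower neighbour -/
theorem dominated (het : ET R) (hf : ∀ x, {y | R x y}.Finite) {n : ℕ} (a : Lt R o (n + 1)) :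
    ∃ t, up R o t a ∧ ∀ y : U R o, UR R o ⟨n + 1, a⟩ y → y.1 ≤ n + 1 → UR R o ⟨n, t⟩ y := by
  cases n with
  | zero =>
    obtain ⟨w, hw⟩ := exists_up R o a
    refine ⟨w, hw, fun y hy hyk => ?_⟩
    cases hy with
    | @same _ _ b hb =>
      obtain ⟨w', hw', hwb⟩ := ee_common o hb
      exact UR.up hwb
    | up h => simp at hyk
    | @down _ w' _ hw' => exact UR.same trivial
  | succ m =>
    have h1 := (main o hr hs het hf m).2.1
    have h2 := (main o hr hs het hf (m + 1)).2.1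
    have hd := (main o hr hs het hf (m + 1)).2.2.1
    have hfin : Finite (Lt R o (m + 2)) := finite_Lt o hf (m + 2)
    obtain ⟨t, ⟨ht, htd⟩, hmax⟩ := exists_max (β := Lt R o (m + 2))
      (fun t => up R o t a ∧ ∀ w, up R o w a → ee R o t w)
      (fun t b => ee R o a b ∧ up R o t b) (hd a)
    refine ⟨t, ht, fun y hy hyk => ?_⟩
    cases hy with
    | @same _ _ b hb =>
      obtain ⟨t', ht', htd', htb'⟩ := stepD o hr hs het h1 h2 hd a b hb
      obtain ⟨s, hs1, hs2⟩ := stepST o hr hs het h1 h2 a t t' ht ht' (htd t' ht')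
      refine UR.up (hmax s ⟨hs1, ?_⟩ ?_ b ⟨hb, ?_⟩).2
      · intro w hw
        exact UR_same o (hs2 ⟨m + 1, w⟩ (up_R o hw) (Or.inl (UR.same (htd w hw))))
      · rintro x ⟨hx1, hx2⟩
        exact ⟨hx1, UR_up o (hs2 ⟨m + 2, x⟩ (hs _ _ (ee_R o hr hx1)) (Or.inl (UR.up hx2)))⟩
      · exact UR_up o (hs2 ⟨m + 2, b⟩ (hs _ _ (ee_R o hr hb)) (Or.inr (UR.up htb')))
    | up h => simp at hyk
    | @down _ w' _ hw' => exact UR.same (htd w' hw')

end Pool.Agent.H71.Clq.LG
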