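import Mathlib
import Pool.Agent.H71.Clq.Defs
import Pool.Agent.H71.Clq.LG2

set_option autoImplicit false
set_option linter.unusedVariables false

/-!
# Local-to-global: levels in a simply connected graph whose extended triangles have centres
-/

namespace Pool.Agent.H71.Clq

open LG in
theorem levels {V : Type} (R : V → V → Prop) (hr : ∀ x, R x x) (hs : ∀ x y, R x y → R y x)
    (hf : ∀ x, {y | R x y}.Finite) (het : ET R) (hsc : SC R) (o : V) :
    ∃ lev : V → ℕ, (∀ x, lev x = 0 ↔ x = o) ∧ (∀ x y, R x y → lev y ≤ lev x + 1) ∧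
      ∀ x, lev x ≠ 0 → ∃ w, R w x ∧ lev w + 1 = lev x ∧
        ∀ y, R x y → lev y ≤ lev x → R w y := by
  classical
  have hloc : ∀ n, Loc R o n (n + 1) := fun n => (main o hr hs het hf n).2.1
  have uniq : ∀ x y y' : U R o, UR R o x y → UR R o x y' → F R o y = F R o y' → y = y' := by
    rintro ⟨n, w⟩ y y' h h' he
    exact (hloc n w y y' h h' (UR_lev o h) (UR_lev o h')).1 he
  have tri : ∀ x y y' : U R o, UR R o x y → UR R o x y' → R (F R o y) (F R o y') →
      UR R o y y' := by
    rintro ⟨n, w⟩ y y' h h' he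
    exact (hloc n w y y' h h' (UR_lev o h) (UR_lev o h')).2 he
  have hsur : ∀ (x : U R o) (z : V), R (F R o x) z → ∃ y, UR R o x y ∧ F R o y = z := by
    rintro ⟨n, w⟩ z h
    exact sur o h
  let st : U R o → V → U R o := fun x z =>
    if h : R (F R o x) z then (hsur x z h).choose else x
  have hst1 : ∀ (x : U R o) (z : V), R (F R o x) z → UR R o x (st x z) := by
    intro x z h
    simp only [st, dif_pos h]
    exact (hsur x z h).choose_spec.1
  have hst2 : ∀ (x : U R o) (z : V), R (F R o x) z → F R o (st x z) = z := by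
    intro x z h
    simp only [st, dif_pos h]
    exact (hsur x z h).choose_spec.2
  have hst3 : ∀ (x y : U R o), UR R o x y → st x (F R o y) = y := by
    intro x y h
    have h1 := UR_R o hr hs h
    exact uniq x _ _ (hst1 x _ h1) h (hst2 x _ h1)
  obtain ⟨σ, hσ0, hσ1, hσ2⟩ := hsc (U R o) (F R o) st hst2
    (fun u => hst3 u u (UR_refl o hr u))
    (by
      intro u y z h1 h2 h3
      have h4 := tri u (st u y) (st u z) (hst1 u y h1) (hst1 u z h3) (by
        rw [hst2 u y h1, hst2 u z h3]
        exact h2)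
      have h5 := hst3 _ _ h4
      rwa [hst2 u z h3] at h5) ⟨0, ()⟩
  have hσo : σ o = ⟨0, ()⟩ := hσ0
  have hUR : ∀ x y, R x y → UR R o (σ x) (σ y) := by
    intro x y h
    rw [← hσ2 x y h]
    exact hst1 _ _ (by rw [hσ1]; exact h)
  have hback : ∀ x (u : U R o), UR R o (σ x) u → σ (F R o u) = u := by
    intro x u h
    have h1 := UR_R o hr hs h
    rw [hσ1] at h1
    rw [← hσ2 x _ h1]
    exact hst3 _ _ h
  refine ⟨fun x => (σ x).1, ?_, ?_, ?_⟩
  · intro x
    change (σ x).1 = 0 ↔ x = o
    constructor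
    · intro h
      rw [← hσ1 x]
      obtain ⟨u, hu⟩ : ∃ u, u = σ x := ⟨_, rfl⟩
      rw [← hu] at h ⊢
      obtain ⟨n, w⟩ := u
      simp only at h
      subst h
      rfl
    · intro h
      rw [h, hσo]
  · intro x y h
    exact UR_lev o (hUR x y h)
  · intro x hx
    change (σ x).1 ≠ 0 at hx
    obtain ⟨u, hu⟩ : ∃ u, u = σ x := ⟨_, rfl⟩
    obtain ⟨n, a⟩ := u
    cases n with
    | zero =>
      rw [← hu] at hx
      exact absurd rfl hx
    | succ n =>
      obtain ⟨t, ht, hd⟩ := dominated o hr hs het hf a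
      have h1 : σ (F R o ⟨n, t⟩) = ⟨n, t⟩ := hback x _ (by
        rw [← hu]
        exact UR.down ht)
      refine ⟨F R o ⟨n, t⟩, ?_, ?_, ?_⟩
      · have h2 := up_R o ht
        have h3 := hσ1 x
        rw [← hu] at h3
        rw [← h3]
        exact h2
      · change (σ (F R o ⟨n, t⟩)).1 + 1 = (σ x).1
        rw [h1, ← hu]
      · intro y hy hyl
        have h4 : (σ y).1 ≤ n + 1 := by
          have : (σ y).1 ≤ (σ x).1 := hyl
          rw [← hu] at this
          exact this
        have h2 := hd (σ y) (by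
          rw [hu]
          exact hUR x y hy) h4
        have h3 := UR_R o hr hs h2
        rwa [hσ1] at h3

end Pool.Agent.H71.Clq
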