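import Mathlib
import Pool.Agent.H71.Clq.Defs

set_option autoImplicit false
set_option linter.unusedSectionVars false

/-!
# Module TRI: triangulated closed surfaces as graphs, elementary counting

`LCy G`: every edge is in exactly two triangles and the link of every vertex is connected.

* `exists_tree`: distances from `r`, parent = a neighbour with smaller distance.
* `two_faces`: common neighbours `z ≠ w` of an edge `x y`, and every common neighbour is `z` or `w`.
* `three_mul_faces`: double count pairs (edge, triangle containing it): every triangle has three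
  edges, every edge is in two triangles. (One way: count triples `(x,y,z)` of pairwise adjacent vertices
  in two ways: `6 F` and `2 * (2 E)`.)
* `dual_conn`: `T` = tree edges. Suppose `Φ` is not constant on triangles. Call an edge `x y` *bad* if
  exactly one of its two triangles satisfies `Φ`; bad edges are tree edges.
  Claim: there are no bad edges. Otherwise take a bad edge `x, p x` with `h x` maximal. Bad edges at `x` are
  `x, p x` or `x, y` with `p y = x`, but then `h y = h x + 1`, impossible; so exactly one neighbour `y` of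
  `x` has `x y` bad. But the number of these is even: count the pairs `(y, f)`, `f` a triangle
  with `Φ f` containing `x, y`, `y ≠ x`: for fixed `f ∋ x` there are two `y`; for fixed `y` the number of `f`
  is odd iff `x y` is bad.
  So the two triangles at every edge have the same status; by connectedness of links all triangles at a
  vertex `x` have the same status (walk in the link `u₀ ~ u₁ ~ …`: triangles `x u_i u_{i+1}`), and
  adjacent vertices have a common triangle; so `Φ` is constant.
-/

namespace Pool.Agent.H71.Clq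

variable {V : Type} [Fintype V] [DecidableEq V]

/-- adjacent or equal -/
def RG {V : Type} (G : SimpleGraph V) (x y : V) : Prop := x = y ∨ G.Adj x y

/-- every edge is in exactly two triangles and the links are connected -/
def LCy {V : Type} (G : SimpleGraph V) : Prop :=
  (∀ x y, G.Adj x y → {z | G.Adj x z ∧ G.Adj y z}.ncard = 2) ∧
    ∀ x y z, G.Adj x y → G.Adj x z →
      Relation.ReflTransGen (fun u v => G.Adj x u ∧ G.Adj x v ∧ G.Adj u v) y z

theorem exists_tree (G : SimpleGraph V) (hc : G.Connected) (r : V) :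
    ∃ (p : V → V) (h : V → ℕ), h r = 0 ∧ ∀ x, x ≠ r → G.Adj x (p x) ∧ h x = h (p x) + 1 := by
  have key : ∀ x, ∃ y, x ≠ r → G.Adj x y ∧ G.dist x r = G.dist y r + 1 := by
    intro x
    obtain ⟨w, hw⟩ := (hc.preconnected x r).exists_walk_length_eq_dist
    cases w with
    | nil => exact ⟨r, fun h => absurd rfl h⟩
    | @cons _ y _ hadj q =>
      refine ⟨y, fun _ => ⟨hadj, ?_⟩⟩
      have h1 : G.dist y r ≤ q.length := SimpleGraph.dist_le q
      have h2 : q.length + 1 = G.dist x r := by simpa using hw
      have h3 : G.dist x r ≤ G.dist y r + 1 := by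
        obtain ⟨q', hq'⟩ := (hc.preconnected y r).exists_walk_length_eq_dist
        have := SimpleGraph.dist_le (SimpleGraph.Walk.cons hadj q')
        simpa [hq'] using this
      omega
  choose p hp using key
  exact ⟨p, fun x => G.dist x r, by simp, hp⟩

theorem two_faces (G : SimpleGraph V) (hl : LCy G) {x y : V} (h : G.Adj x y) :
    ∃ z w, z ≠ w ∧ G.Adj x z ∧ G.Adj y z ∧ G.Adj x w ∧ G.Adj y w ∧
      ∀ u, G.Adj x u → G.Adj y u → u = z ∨ u = w := by
  obtain ⟨z, w, hne, hset⟩ := Set.ncard_eq_two.mp (hl.1 x y h)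
  have hz : z ∈ {z | G.Adj x z ∧ G.Adj y z} := by rw [hset]; exact Or.inl rfl
  have hw : w ∈ {z | G.Adj x z ∧ G.Adj y z} := by rw [hset]; exact Or.inr rfl
  refine ⟨z, w, hne, hz.1, hz.2, hw.1, hw.2, fun u h1 h2 => ?_⟩
  have hu : u ∈ {z | G.Adj x z ∧ G.Adj y z} := ⟨h1, h2⟩
  rw [hset] at hu
  exact hu

theorem three_mul_faces (G : SimpleGraph V) [DecidableRel G.Adj] (hl : LCy G) :
    3 * (G.cliqueFinset 3).card = 2 * G.edgeFinset.card := by
  classical
  have h := Finset.sum_card_bipartiteAbove_eq_sum_card_bipartiteBelow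
    (s := G.edgeFinset) (t := G.cliqueFinset 3) (fun (e : Sym2 V) (f : Finset V) => ∀ v ∈ e, v ∈ f)
  have h1 : ∀ e ∈ G.edgeFinset, (Finset.bipartiteAbove
      (fun (e : Sym2 V) (f : Finset V) => ∀ v ∈ e, v ∈ f) (G.cliqueFinset 3) e).card = 2 := by
    intro e he
    induction e with
    | h x y =>
    have hadj : G.Adj x y := by simpa using he
    obtain ⟨z, w, hzw, hxz, hyz, hxw, hyw, hall⟩ := two_faces G hl hadj
    have hxy := hadj.ne
    have heq : Finset.bipartiteAbove
      (fun (e : Sym2 V) (f : Finset V) => ∀ v ∈ e, v ∈ f) (G.cliqueFinset 3) s(x, y) =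
        {{x, y, z}, {x, y, w}} := by
      ext f
      rw [Finset.mem_bipartiteAbove, SimpleGraph.mem_cliqueFinset_iff, Finset.mem_insert,
        Finset.mem_singleton]
      constructor
      · rintro ⟨hf, hv⟩
        have hx : x ∈ f := hv x (by simp)
        have hy : y ∈ f := hv y (by simp)
        have hcard : (f \ {x, y}).card = 1 := by
          rw [Finset.card_sdiff_of_subset (by
            intro v hv'
            rcases Finset.mem_insert.mp hv' with rfl | hv'
            · exact hx
            · rw [Finset.mem_singleton.mp hv']; exact hy), hf.card_eq, Finset.card_pair hxy]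
        obtain ⟨u, hu⟩ := Finset.card_eq_one.mp hcard
        have huf : u ∈ f \ {x, y} := by rw [hu]; exact Finset.mem_singleton_self u
        rw [Finset.mem_sdiff, Finset.mem_insert, Finset.mem_singleton, not_or] at huf
        have hfeq : f = {x, y, u} := by
          ext v
          rw [Finset.mem_insert, Finset.mem_insert, Finset.mem_singleton]
          constructor
          · intro hvf
            by_cases hvx : v = x
            · exact Or.inl hvx
            by_cases hvy : v = y
            · exact Or.inr (Or.inl hvy)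
            have : v ∈ f \ {x, y} := by
              rw [Finset.mem_sdiff, Finset.mem_insert, Finset.mem_singleton, not_or]
              exact ⟨hvf, hvx, hvy⟩
            rw [hu, Finset.mem_singleton] at this
            exact Or.inr (Or.inr this)
          · rintro (rfl | rfl | rfl)
            · exact hx
            · exact hy
            · exact huf.1
        have hxu : G.Adj x u := hf.isClique (by exact_mod_cast hx) (by exact_mod_cast huf.1)
          (fun h => huf.2.1 h.symm)
        have hyu : G.Adj y u := hf.isClique (by exact_mod_cast hy) (by exact_mod_cast huf.1)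
          (fun h => huf.2.2 h.symm)
        rcases hall u hxu hyu with h' | h'
        · left; rw [hfeq, h']
        · right; rw [hfeq, h']
      · rintro (rfl | rfl)
        · refine ⟨SimpleGraph.is3Clique_triple_iff.mpr ⟨hadj, hxz, hyz⟩, ?_⟩
          intro v hv
          rcases Sym2.mem_iff.mp hv with rfl | rfl <;> simp
        · refine ⟨SimpleGraph.is3Clique_triple_iff.mpr ⟨hadj, hxw, hyw⟩, ?_⟩
          intro v hv
          rcases Sym2.mem_iff.mp hv with rfl | rfl <;> simp
    rw [heq, Finset.card_pair]
    intro hcon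
    have : z ∈ ({x, y, w} : Finset V) := by rw [← hcon]; simp
    simp only [Finset.mem_insert, Finset.mem_singleton] at this
    rcases this with h' | h' | h'
    · exact hxz.ne h'.symm
    · exact hyz.ne h'.symm
    · exact hzw h'
  have h2 : ∀ f ∈ G.cliqueFinset 3, (Finset.bipartiteBelow
      (fun (e : Sym2 V) (f : Finset V) => ∀ v ∈ e, v ∈ f) G.edgeFinset f).card = 3 := by
    intro f hf
    rw [SimpleGraph.mem_cliqueFinset_iff, SimpleGraph.is3Clique_iff] at hf
    obtain ⟨a, b, c, hab, hac, hbc, rfl⟩ := hf
    have heq : Finset.bipartiteBelow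
      (fun (e : Sym2 V) (f : Finset V) => ∀ v ∈ e, v ∈ f) G.edgeFinset {a, b, c} =
        {s(a, b), s(a, c), s(b, c)} := by
      ext e
      rw [Finset.mem_bipartiteBelow]
      induction e with
      | h x y =>
      simp only [Finset.mem_insert, Finset.mem_singleton, Sym2.mem_iff, Sym2.eq_iff,
        SimpleGraph.mem_edgeFinset, SimpleGraph.mem_edgeSet]
      constructor
      · rintro ⟨hxy, hv⟩
        have hx := hv x (Or.inl rfl)
        have hy := hv y (Or.inr rfl)
        have hne := hxy.ne
        rcases hx with rfl | rfl | rfl <;> rcases hy with rfl | rfl | rfl <;> simp_all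
      · rintro ((⟨rfl, rfl⟩ | ⟨rfl, rfl⟩) | (⟨rfl, rfl⟩ | ⟨rfl, rfl⟩) | (⟨rfl, rfl⟩ | ⟨rfl, rfl⟩)) <;>
          refine ⟨by first | assumption | (apply SimpleGraph.Adj.symm; assumption), ?_⟩ <;>
          rintro v (rfl | rfl) <;> simp
    rw [heq]
    have n1 : s(a, b) ≠ s(a, c) := by
      intro h'
      rcases Sym2.eq_iff.mp h' with ⟨_, h''⟩ | ⟨h'', _⟩
      · exact hbc.ne h''
      · exact hac.ne h''
    have n2 : s(a, b) ≠ s(b, c) := by
      intro h'
      rcases Sym2.eq_iff.mp h' with ⟨h'', _⟩ | ⟨h'', _⟩
      · exact hab.ne h''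
      · exact hac.ne h''
    have n3 : s(a, c) ≠ s(b, c) := by
      intro h'
      rcases Sym2.eq_iff.mp h' with ⟨h'', _⟩ | ⟨h'', _⟩
      · exact hab.ne h''
      · exact hac.ne h''
    rw [Finset.card_insert_of_notMem (by simp only [Finset.mem_insert, Finset.mem_singleton, not_or]; exact ⟨n1, n2⟩),
      Finset.card_pair n3]
  rw [Finset.sum_congr rfl h1, Finset.sum_congr rfl h2, Finset.sum_const, Finset.sum_const,
    smul_eq_mul, smul_eq_mul] at h
  omega

/-- edges of the tree given by the parent function `p` with root `r` -/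
def TE {V : Type} (p : V → V) (r : V) (x y : V) : Prop := (x ≠ r ∧ y = p x) ∨ (y ≠ r ∧ x = p y)

/-- the number of bad edges at a vertex is not one -/
theorem dual_even (G : SimpleGraph V) (hl : LCy G) (Φ : Finset V → Prop) (x q : V)
    (hxq : G.Adj x q) (z₀ w₀ : V) (hz1 : G.Adj x z₀) (hz2 : G.Adj q z₀) (hw1 : G.Adj x w₀)
    (hw2 : G.Adj q w₀) (hz : Φ {x, q, z₀}) (hw : ¬ Φ {x, q, w₀})
    (hother : ∀ y, G.Adj x y → y ≠ q → ∀ z w, G.Adj x z → G.Adj y z → G.Adj x w → G.Adj y w →
      (Φ {x, y, z} ↔ Φ {x, y, w})) : False := by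
  classical
  let f : V → V → ZMod 2 := fun y z =>
    if G.Adj x y ∧ G.Adj x z ∧ G.Adj y z ∧ Φ {x, y, z} then 1 else 0
  have hfs : ∀ y z, f y z = f z y := by
    intro y z
    have h1 : ({x, y, z} : Finset V) = {x, z, y} := by
      ext u; simp only [Finset.mem_insert, Finset.mem_singleton]; tauto
    simp only [f]
    rw [h1]
    congr 1
    apply propext
    constructor
    · rintro ⟨a, b, c, d⟩; exact ⟨b, a, c.symm, d⟩
    · rintro ⟨a, b, c, d⟩; exact ⟨b, a, c.symm, d⟩
  have hfd : ∀ y, f y y = 0 := by
    intro y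
    simp [f]
  have hzero : ∑ a ∈ (Finset.univ : Finset (V × V)), f a.1 a.2 = 0 := by
    apply Finset.sum_involution (fun a _ => (a.2, a.1))
    · rintro ⟨y, z⟩ _
      simp only
      rw [hfs y z]
      exact CharTwo.add_self_eq_zero _
    · rintro ⟨y, z⟩ _ hne heq
      simp only [Prod.mk.injEq] at heq
      apply hne
      simp only
      rw [heq.1]
      exact hfd _
    · rintro ⟨y, z⟩ _
      exact Finset.mem_univ _
    · rintro ⟨y, z⟩ _
      rfl
  rw [← Finset.univ_product_univ, Finset.sum_product] at hzero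
  have hrow : ∀ y, y ≠ q → ∑ z, f y z = 0 := by
    intro y hyq
    by_cases hxy : G.Adj x y
    · obtain ⟨z, w, hzw, a1, a2, a3, a4, a5⟩ := two_faces G hl hxy
      rw [Finset.sum_eq_add z w hzw (by
          intro c _ hc
          simp only [f]
          rw [if_neg]
          rintro ⟨b1, b2, b3, b4⟩
          rcases a5 c b2 b3 with h | h
          · exact hc.1 h
          · exact hc.2 h) (by intro h; exact absurd (Finset.mem_univ _) h)
          (by intro h; exact absurd (Finset.mem_univ _) h)]
      have he : f y z = f y w := by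
        simp only [f]
        congr 1
        apply propext
        constructor
        · rintro ⟨b1, b2, b3, b4⟩
          exact ⟨b1, a3, a4, (hother y hxy hyq z w a1 a2 a3 a4).1 b4⟩
        · rintro ⟨b1, b2, b3, b4⟩
          exact ⟨b1, a1, a2, (hother y hxy hyq z w a1 a2 a3 a4).2 b4⟩
      rw [he]
      exact CharTwo.add_self_eq_zero _
    · apply Finset.sum_eq_zero
      intro z _
      simp only [f]
      rw [if_neg]
      rintro ⟨b1, _⟩
      exact hxy b1
  have hrowq : ∑ z, f q z = 1 := by
    rw [Finset.sum_eq_single z₀]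
    · simp only [f]
      rw [if_pos ⟨hxq, hz1, hz2, hz⟩]
    · intro u _ hu
      simp only [f]
      rw [if_neg]
      rintro ⟨b1, b2, b3, b4⟩
      obtain ⟨z, w, hzw, a1, a2, a3, a4, a5⟩ := two_faces G hl hxq
      have e1 := a5 z₀ hz1 hz2
      have e2 := a5 w₀ hw1 hw2
      have e3 := a5 u b2 b3
      have hne : z₀ ≠ w₀ := by
        rintro rfl
        exact hw hz
      have huw : u ≠ w₀ := by
        rintro rfl
        exact hw b4
      rcases e1 with e1 | e1 <;> rcases e2 with e2 | e2 <;> rcases e3 with e3 | e3 <;>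
        simp_all
    · intro h; exact absurd (Finset.mem_univ _) h
  rw [Finset.sum_eq_single q (fun y _ hy => hrow y hy)
    (fun h => absurd (Finset.mem_univ _) h), hrowq] at hzero
  exact one_ne_zero hzero

theorem dual_conn (G : SimpleGraph V) (hc : G.Connected) (hl : LCy G) (r : V) (p : V → V)
    (h : V → ℕ) (hp : ∀ x, x ≠ r → G.Adj x (p x) ∧ h x = h (p x) + 1) (Φ : Finset V → Prop)
    (hΦ : ∀ x y z w, G.Adj x y → ¬ TE p r x y → G.Adj x z → G.Adj y z → G.Adj x w → G.Adj y w →
      (Φ {x, y, z} ↔ Φ {x, y, w})) :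
    (∀ x y z, G.Adj x y → G.Adj y z → G.Adj x z → Φ {x, y, z}) ∨
    (∀ x y z, G.Adj x y → G.Adj y z → G.Adj x z → ¬ Φ {x, y, z}) := by
  classical
  -- bad edges
  let Bad : V → V → Prop := fun x y => G.Adj x y ∧ ∃ z w, G.Adj x z ∧ G.Adj y z ∧ G.Adj x w ∧
    G.Adj y w ∧ Φ {x, y, z} ∧ ¬ Φ {x, y, w}
  have hswap : ∀ a b c : V, ({a, b, c} : Finset V) = {b, a, c} := by
    intro a b c
    ext u; simp only [Finset.mem_insert, Finset.mem_singleton]; tauto
  have hbs : ∀ x y, Bad x y → Bad y x := by
    rintro x y ⟨h1, z, w, h2, h3, h4, h5, h6, h7⟩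
    exact ⟨h1.symm, z, w, h3, h2, h5, h4, by rwa [hswap y x z], by rwa [hswap y x w]⟩
  have hbt : ∀ x y, Bad x y → TE p r x y := by
    rintro x y ⟨h1, z, w, h2, h3, h4, h5, h6, h7⟩
    by_contra hcon
    exact h7 ((hΦ x y z w h1 hcon h2 h3 h4 h5).1 h6)
  have hnb : ∀ x y, ¬ Bad x y := by
    by_contra hcon
    push Not at hcon
    have hne : (Finset.univ.filter (fun x => x ≠ r ∧ Bad x (p x))).Nonempty := by
      obtain ⟨x, y, hxy⟩ := hcon
      rcases hbt x y hxy with ⟨h1, h2⟩ | ⟨h1, h2⟩
      · exact ⟨x, by simp only [Finset.mem_filter, Finset.mem_univ, true_and]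
                     exact ⟨h1, by rw [← h2]; exact hxy⟩⟩
      · exact ⟨y, by simp only [Finset.mem_filter, Finset.mem_univ, true_and]
                     exact ⟨h1, by rw [← h2]; exact hbs _ _ hxy⟩⟩
    obtain ⟨x, hx, hmax⟩ := Finset.exists_max_image _ h hne
    simp only [Finset.mem_filter, Finset.mem_univ, true_and] at hx hmax
    obtain ⟨hxr, hxb⟩ := hx
    obtain ⟨h1, z, w, h2, h3, h4, h5, h6, h7⟩ := id hxb
    apply dual_even G hl Φ x (p x) h1 z w h2 h3 h4 h5 h6 h7
    intro y hxy hyp
    -- `x y` is not bad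
    have hnbad : ¬ Bad x y := by
      intro hb
      rcases hbt x y hb with ⟨_, k⟩ | ⟨k1, k2⟩
      · exact hyp k
      · have k3 := hmax y ⟨k1, by rw [← k2]; exact hbs _ _ hb⟩
        have k4 := (hp y k1).2
        rw [← k2] at k4
        omega
    intro z' w' e1 e2 e3 e4
    by_contra hcon2
    apply hnbad
    refine ⟨hxy, ?_⟩
    by_cases hz' : Φ {x, y, z'}
    · exact ⟨z', w', e1, e2, e3, e4, hz', fun hw' => hcon2 ⟨fun _ => hw', fun _ => hz'⟩⟩
    · refine ⟨w', z', e3, e4, e1, e2, ?_, hz'⟩
      by_contra hw'
      exact hcon2 ⟨fun k => absurd k hz', fun k => absurd k hw'⟩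
  -- same status at an edge
  have hedge : ∀ x y z w, G.Adj x y → G.Adj x z → G.Adj y z → G.Adj x w → G.Adj y w →
      Φ {x, y, z} → Φ {x, y, w} := by
    intro x y z w a b c d e k
    by_contra hcon
    exact hnb x y ⟨a, z, w, b, c, d, e, k, hcon⟩
  have hswap' : ∀ a b c : V, ({a, b, c} : Finset V) = {a, c, b} := by
    intro a b c
    ext u; simp only [Finset.mem_insert, Finset.mem_singleton]; tauto
  -- same status at a vertex
  have hvert : ∀ x y z y' z', G.Adj x y → G.Adj x z → G.Adj y z → G.Adj x y' → G.Adj x z' →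
      G.Adj y' z' → Φ {x, y, z} → Φ {x, y', z'} := by
    intro x y z y' z' a b c d e f k
    have hlink := hl.2 x y y' a d
    have : ∀ u, Relation.ReflTransGen (fun u v => G.Adj x u ∧ G.Adj x v ∧ G.Adj u v) y u →
        ∀ v, G.Adj x u → G.Adj x v → G.Adj u v → Φ {x, u, v} := by
      intro u hu
      induction hu with
      | refl =>
        intro v hv1 hv2 hv3
        exact hedge x y z v a b c hv2 hv3 k
      | @tail u' v' _ huv ih =>
        intro v hv1 hv2 hv3
        have h1 := ih v' huv.1 huv.2.1 huv.2.2
        rw [hswap'] at h1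
        exact hedge x v' u' v hv1 huv.1 huv.2.2.symm hv2 hv3 h1
    exact this y' hlink z' d e f
  -- same status at adjacent vertices
  have hadj : ∀ x x', Relation.ReflTransGen G.Adj x x' → ∀ y z y' z', G.Adj x y → G.Adj x z →
      G.Adj y z → G.Adj x' y' → G.Adj x' z' → G.Adj y' z' → Φ {x, y, z} → Φ {x', y', z'} := by
    intro x x' hxx
    induction hxx with
    | refl =>
      intro y z y' z' a b c d e f k
      exact hvert x y z y' z' a b c d e f k
    | @tail u v _ huv ih =>
      intro y z y' z' a b c d e f k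
      obtain ⟨s, t, _, s1, s2, _, _, _⟩ := two_faces G hl huv
      have k1 := ih y z v s a b c huv s1 s2 k
      rw [hswap] at k1
      exact hvert v u s y' z' huv.symm s2 s1 d e f k1
  by_cases hex : ∃ x y z, G.Adj x y ∧ G.Adj y z ∧ G.Adj x z ∧ Φ {x, y, z}
  · left
    obtain ⟨x, y, z, a, b, c, k⟩ := hex
    intro x' y' z' a' b' c'
    have hr : Relation.ReflTransGen G.Adj x x' := by
      rw [← SimpleGraph.reachable_iff_reflTransGen]
      exact hc.preconnected x x'
    exact hadj x x' hr y z y' z' a c b a' c' b' k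
  · right
    intro x y z a b c k
    exact hex ⟨x, y, z, a, b, c, k⟩

end Pool.Agent.H71.Clq
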