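import Mathlib
import Pool.Agent.H71.Clq.Tri

set_option autoImplicit false

/-!
# Module LINK: the hypothesis of the frozen statement implies `LCy`

`e : induce (neighborSet v) G ≃g cycleGraph n`, `3 ≤ n`. The cycle graph is connected
(`cycleGraph_connected`) and 2-regular (`cycleGraph_degree_three_le`, `n = k + 3`).
The common neighbours of `v` and `y` are the neighbours of `⟨y, _⟩` in the induced graph.
-/

namespace Pool.Agent.H71.Clq

theorem lcy_of_cycle {V : Type} [Fintype V] [DecidableEq V] (G : SimpleGraph V)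
    (h : ∀ v : V, ∃ n : ℕ, 3 ≤ n ∧
        Nonempty (SimpleGraph.Iso (SimpleGraph.induce (G.neighborSet v) G)
          (SimpleGraph.cycleGraph n))) : LCy G := by
  refine ⟨?_, ?_⟩
  · intro x y hxy
    obtain ⟨n, hn, ⟨e⟩⟩ := h x
    obtain ⟨k, rfl⟩ : ∃ k, n = k + 3 := ⟨n - 3, by omega⟩
    have hy : y ∈ G.neighborSet x := hxy
    -- the neighbours of the image of `y`
    have h2 : ((SimpleGraph.cycleGraph (k + 3)).neighborSet (e ⟨y, hy⟩)).ncard = 2 := by
      have h3 := SimpleGraph.cycleGraph_degree_three_le (n := k) (v := e ⟨y, hy⟩)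
      rw [← SimpleGraph.card_neighborFinset_eq_degree] at h3
      rw [← h3, ← Set.ncard_coe_finset, SimpleGraph.coe_neighborFinset]
    have h4 : {z | G.Adj x z ∧ G.Adj y z} =
        (fun i => ((e.symm i : G.neighborSet x) : V)) ''
          (SimpleGraph.cycleGraph (k + 3)).neighborSet (e ⟨y, hy⟩) := by
      ext z
      simp only [Set.mem_setOf_eq, Set.mem_image, SimpleGraph.mem_neighborSet]
      constructor
      · rintro ⟨h5, h6⟩
        refine ⟨e ⟨z, h5⟩, ?_, by simp⟩
        rw [e.map_adj_iff]
        exact h6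
      · rintro ⟨i, h5, rfl⟩
        have h7 : (SimpleGraph.induce (G.neighborSet x) G).Adj ⟨y, hy⟩ (e.symm i) := by
          rw [← e.map_adj_iff, e.apply_symm_apply]
          exact h5
        exact ⟨(e.symm i).2, h7⟩
    rw [h4, Set.ncard_image_of_injective _ ?_, h2]
    exact Subtype.val_injective.comp e.symm.injective
  · intro x y z hxy hxz
    obtain ⟨n, hn, ⟨e⟩⟩ := h x
    obtain ⟨k, rfl⟩ : ∃ k, n = k + 1 := ⟨n - 1, by omega⟩
    have hc : (SimpleGraph.induce (G.neighborSet x) G).Preconnected :=
      e.symm.connected_iff.1 SimpleGraph.cycleGraph_connected |>.preconnected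
    have hr := hc ⟨y, hxy⟩ ⟨z, hxz⟩
    rw [SimpleGraph.reachable_iff_reflTransGen] at hr
    have key : ∀ a b : G.neighborSet x,
        Relation.ReflTransGen (SimpleGraph.induce (G.neighborSet x) G).Adj a b →
        Relation.ReflTransGen (fun u v => G.Adj x u ∧ G.Adj x v ∧ G.Adj u v) a.1 b.1 := by
      intro a b hab
      induction hab with
      | refl => exact Relation.ReflTransGen.refl
      | tail _ hbc ih => exact ih.tail ⟨Subtype.prop _, Subtype.prop _, hbc⟩
    exact key _ _ hr

end Pool.Agent.H71.Clq
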