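import Mathlib
import Pool.Agent.H71.Clq.Pres

set_option autoImplicit false

/-!
# Module QUO: the clique graph of the quotient is the quotient of the clique graph

Let `π : Γ.V → W` be the quotient map, `Disp Γ`. The map `Q ↦ π '' Q` is the quotient map for the
clique graphs.
* `π '' Q` is a clique of `G`. It is maximal: let `w = π z` be adjacent or equal to all `π x`,
  `x ∈ Q` (`Q` nonempty). Replace `z` by a translate so that `R x₀ z` for one `x₀ ∈ Q`. For `x ∈ Q`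
  there is `a` with `R x (a z)`; the walk `z, x₀, x, a z` gives `a = 1` by `Disp`. So `z ∈ Q`.
* every maximal clique `C` of `G` is of this form (`C` is nonempty since `W` is nonempty): choose `x₀` with
  `π x₀ ∈ C`, `Q = {z | π z ∈ C ∧ R x₀ z}`. For `z, z' ∈ Q` there is `a` with `R z (a z')`; walk
  `z', x₀, z, a z'`: `a = 1`. Every `w ∈ C` is `π z` with `R x₀ z`. If `y` is related to all of `Q`
  then `R x₀ y` and `π y` is adjacent or equal to all of `C`, so `y ∈ Q`.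
* `π '' Q = π '' Q'` iff `Q' = a Q`: pick `x₀ ∈ Q`, translate `Q'` such that `x₀ ∈ Q'`; for `z ∈ Q` there
  is `z' ∈ Q'` with `z = b z'`; walk `z', x₀, z = b z'`: `b = 1`.
* `π '' Q` meets `π '' Q'` iff `Q` meets some `a Q'`.

Here (adjacent or equal): `π x = π y ∨ G.Adj (π x) (π y)` iff `∃ a, R x (a y)`.
`Maximal G.IsClique C` is about sets; `IsMC` says: pairwise related and everything related to all
elements is an element.
-/

namespace Pool.Agent.H71.Clq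

variable {A : Type} [Group A]

/-- adjacent or equal in the quotient -/
theorem quo_rel (Γ : AG A) {W : Type} (G : SimpleGraph W) (π : Γ.V → W)
    (h2 : ∀ x y, π x = π y ↔ ∃ a, y = Γ.act a x)
    (h3 : ∀ x y, G.Adj (π x) (π y) ↔ π x ≠ π y ∧ ∃ a, Γ.R x (Γ.act a y)) (x y : Γ.V) :
    (π x = π y ∨ G.Adj (π x) (π y)) ↔ ∃ a, Γ.R x (Γ.act a y) := by
  constructor
  · rintro (h | h)
    · obtain ⟨a, ha⟩ := (h2 x y).1 h
      refine ⟨a⁻¹, ?_⟩
      rw [ha, ← Γ.act_mul, inv_mul_cancel, Γ.act_one]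
      exact Γ.refl x
    · exact ((h3 x y).1 h).2
  · rintro ⟨a, ha⟩
    by_cases hxy : π x = π y
    · exact Or.inl hxy
    · exact Or.inr ((h3 x y).2 ⟨hxy, a, ha⟩)

theorem quo_act (Γ : AG A) {W : Type} (π : Γ.V → W)
    (h2 : ∀ x y, π x = π y ↔ ∃ a, y = Γ.act a x) (a : A) (x : Γ.V) : π (Γ.act a x) = π x :=
  ((h2 x (Γ.act a x)).2 ⟨a, rfl⟩).symm

/-- the displacement property as an implication -/
theorem disp_use (Γ : AG A) (hd : Disp Γ) {a : A} {x y z : Γ.V} (h1 : Γ.R x y) (h2 : Γ.R y z)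
    (h3 : Γ.R z (Γ.act a x)) : a = 1 := by
  by_contra h
  exact hd a h x y z h1 h2 h3

/-- images of maximal cliques are maximal cliques -/
theorem quo_mc (Γ : AG A) (hne : Nonempty Γ.V) (hd : Disp Γ) {W : Type} (G : SimpleGraph W)
    (π : Γ.V → W) (h1 : Function.Surjective π)
    (h2 : ∀ x y, π x = π y ↔ ∃ a, y = Γ.act a x)
    (h3 : ∀ x y, G.Adj (π x) (π y) ↔ π x ≠ π y ∧ ∃ a, Γ.R x (Γ.act a y)) (Q : MC Γ.R) :
    Maximal G.IsClique (π '' Q.1) := by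
  haveI := hne
  constructor
  · rintro _ ⟨x, hx, rfl⟩ _ ⟨y, hy, rfl⟩ hxy
    exact (h3 x y).2 ⟨hxy, 1, by rw [Γ.act_one]; exact Q.2.1 x hx y hy⟩
  · intro C hC hsub w hw
    obtain ⟨x₀, hx₀⟩ := mc_nonempty Q
    obtain ⟨z', rfl⟩ := h1 w
    have hrel : ∀ x ∈ Q.1, ∃ a, Γ.R x (Γ.act a z') := by
      intro x hx
      rw [← quo_rel Γ G π h2 h3]
      by_cases hxz : π x = π z'
      · exact Or.inl hxz
      · exact Or.inr (hC (hsub ⟨x, hx, rfl⟩) hw hxz)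
    obtain ⟨b, hb⟩ := hrel x₀ hx₀
    refine ⟨Γ.act b z', ?_, quo_act Γ π h2 b z'⟩
    apply Q.2.2
    intro x hx
    obtain ⟨a, ha⟩ := hrel x hx
    have hab : Γ.act a z' = Γ.act (a * b⁻¹) (Γ.act b z') := by
      rw [← Γ.act_mul, mul_assoc, inv_mul_cancel, mul_one]
    rw [hab] at ha
    have := disp_use Γ hd (Γ.symm _ _ hb) (Q.2.1 x₀ hx₀ x hx) ha
    rw [this, Γ.act_one] at ha
    exact Γ.symm _ _ ha

/-- every maximal clique of the quotient is an image -/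
theorem quo_mc_surj (Γ : AG A) (hne : Nonempty Γ.V) (hd : Disp Γ) {W : Type} (G : SimpleGraph W)
    (π : Γ.V → W) (h1 : Function.Surjective π)
    (h2 : ∀ x y, π x = π y ↔ ∃ a, y = Γ.act a x)
    (h3 : ∀ x y, G.Adj (π x) (π y) ↔ π x ≠ π y ∧ ∃ a, Γ.R x (Γ.act a y)) (C : Set W)
    (hC : Maximal G.IsClique C) : ∃ Q : MC Γ.R, π '' Q.1 = C := by
  -- `C` is nonempty
  have hCne : C.Nonempty := by
    by_contra hcon
    rw [Set.not_nonempty_iff_eq_empty] at hcon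
    obtain ⟨v⟩ := hne
    have := hC.2 (y := {π v}) (by simp [SimpleGraph.IsClique]) (by rw [hcon]; simp)
    rw [hcon] at this
    exact this rfl
  obtain ⟨w₀, hw₀⟩ := hCne
  obtain ⟨x₀, rfl⟩ := h1 w₀
  have hrelC : ∀ w ∈ C, ∀ w' ∈ C, w = w' ∨ G.Adj w w' := by
    intro w hw w' hw'
    by_cases hww : w = w'
    · exact Or.inl hww
    · exact Or.inr (hC.1 hw hw' hww)
  -- lifts
  have hlift : ∀ w ∈ C, ∃ z, π z = w ∧ Γ.R x₀ z := by
    intro w hw
    obtain ⟨z', rfl⟩ := h1 w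
    obtain ⟨a, ha⟩ := (quo_rel Γ G π h2 h3 x₀ z').1 (hrelC _ hw₀ _ hw)
    exact ⟨Γ.act a z', quo_act Γ π h2 a z', ha⟩
  refine ⟨⟨{z | π z ∈ C ∧ Γ.R x₀ z}, ?_, ?_⟩, ?_⟩
  · rintro z ⟨hz, hxz⟩ z' ⟨hz', hxz'⟩
    obtain ⟨a, ha⟩ := (quo_rel Γ G π h2 h3 z z').1 (hrelC _ hz _ hz')
    have := disp_use Γ hd (Γ.symm _ _ hxz') hxz ha
    rw [this, Γ.act_one] at ha
    exact ha
  · intro y hy
    have hx0 : Γ.R x₀ y := Γ.symm _ _ (hy x₀ ⟨hw₀, Γ.refl x₀⟩)
    refine ⟨?_, hx0⟩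
    -- `π y` is adjacent or equal to all of `C`
    have hyC : ∀ w ∈ C, π y = w ∨ G.Adj (π y) w := by
      intro w hw
      obtain ⟨z, rfl, hz⟩ := hlift w hw
      rw [quo_rel Γ G π h2 h3]
      exact ⟨1, by rw [Γ.act_one]; exact hy z ⟨hw, hz⟩⟩
    have hins : G.IsClique (insert (π y) C) := by
      intro u hu v hv huv
      rcases hu with rfl | hu
      · rcases hv with rfl | hv
        · exact absurd rfl huv
        · rcases hyC v hv with h | h
          · exact absurd h huv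
          · exact h
      · rcases hv with rfl | hv
        · rcases hyC u hu with h | h
          · exact absurd h.symm huv
          · exact h.symm
        · exact hC.1 hu hv huv
    exact hC.2 hins (Set.subset_insert _ _) (Set.mem_insert _ _)
  · apply Set.Subset.antisymm
    · rintro _ ⟨z, hz, rfl⟩
      exact hz.1
    · intro w hw
      obtain ⟨z, rfl, hz⟩ := hlift w hw
      exact ⟨z, ⟨hw, hz⟩, rfl⟩

/-- equal images -/
theorem quo_eq (Γ : AG A) (hne : Nonempty Γ.V) (hd : Disp Γ) {W : Type}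
    (π : Γ.V → W) (h2 : ∀ x y, π x = π y ↔ ∃ a, y = Γ.act a x) (Q Q' : MC Γ.R) :
    π '' Q.1 = π '' Q'.1 ↔ ∃ a, Q' = mcImage Γ a Q := by
  haveI := hne
  constructor
  · intro h
    obtain ⟨x₀, hx₀⟩ := mc_nonempty Q
    have hx0' : π x₀ ∈ π '' Q'.1 := by rw [← h]; exact ⟨x₀, hx₀, rfl⟩
    obtain ⟨y₀, hy₀, hxy⟩ := hx0'
    -- `y₀ = a x₀`
    obtain ⟨a, ha⟩ := (h2 x₀ y₀).1 hxy.symm
    refine ⟨a, ?_⟩
    -- it suffices to show `a Q ⊆ Q'` by maximality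
    have key : ∀ z ∈ Q.1, Γ.act a z ∈ Q'.1 := by
      intro z hz
      have : π z ∈ π '' Q'.1 := by rw [← h]; exact ⟨z, hz, rfl⟩
      obtain ⟨z', hz', hzz⟩ := this
      -- `a z = b z'`
      have hzz' : π z' = π (Γ.act a z) := by rw [quo_act Γ π h2, hzz]
      obtain ⟨b, hb⟩ := (h2 _ _).1 hzz'
      have r1 : Γ.R z' y₀ := Q'.2.1 z' hz' y₀ hy₀
      have r2 : Γ.R y₀ (Γ.act a z) := by
        rw [ha]; exact Γ.act_R a _ _ (Q.2.1 x₀ hx₀ z hz)
      have r3 : Γ.R (Γ.act a z) (Γ.act b z') := by rw [← hb]; exact Γ.refl _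
      have hb1 := disp_use Γ hd r1 r2 r3
      rw [hb, hb1, Γ.act_one]
      exact hz'
    apply Subtype.ext
    change Q'.1 = Γ.act a '' Q.1
    apply Set.Subset.antisymm
    · intro y hy
      have hmem : y ∈ (mcImage Γ a Q).1 := by
        apply (mcImage Γ a Q).2.2
        rintro _ ⟨z, hz, rfl⟩
        exact Q'.2.1 y hy _ (key z hz)
      exact hmem
    · rintro _ ⟨z, hz, rfl⟩
      exact key z hz
  · rintro ⟨a, rfl⟩
    change π '' Q.1 = π '' (Γ.act a '' Q.1)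
    rw [Set.image_image]
    apply Set.image_congr
    intro x _
    exact (quo_act Γ π h2 a x).symm

theorem isQ_K (Γ : AG A) (hne : Nonempty Γ.V) (hd : Disp Γ) {W : Type} (G : SimpleGraph W)
    (h : IsQ Γ G) : IsQ Γ.K (kstep ⟨W, G⟩).2 := by
  obtain ⟨π, h1, h2, h3⟩ := h
  haveI := hne
  have hPi : ∀ Q Q' : MC Γ.R,
      ((⟨π '' Q.1, quo_mc Γ hne hd G π h1 h2 h3 Q⟩ : {s : Set W // Maximal G.IsClique s}) =
        ⟨π '' Q'.1, quo_mc Γ hne hd G π h1 h2 h3 Q'⟩) ↔ ∃ a, Q' = mcImage Γ a Q := by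
    intro Q Q'
    rw [Subtype.mk.injEq]
    exact quo_eq Γ hne hd π h2 Q Q'
  refine ⟨fun Q => ⟨π '' Q.1, quo_mc Γ hne hd G π h1 h2 h3 Q⟩, ?_, ?_, ?_⟩
  · rintro ⟨C, hC⟩
    obtain ⟨Q, hQ⟩ := quo_mc_surj Γ hne hd G π h1 h2 h3 C hC
    exact ⟨Q, Subtype.ext hQ⟩
  · intro Q Q'
    exact hPi Q Q'
  · intro Q Q'
    change (SimpleGraph.fromRel
      (fun a b : {s : Set W // Maximal G.IsClique s} => (a.1 ∩ b.1).Nonempty)).Adj _ _ ↔ _
    rw [SimpleGraph.fromRel_adj]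
    apply and_congr_right
    intro hneQ
    constructor
    · intro hor
      have hmeet : (π '' Q.1 ∩ π '' Q'.1).Nonempty := by
        rcases hor with hh | hh
        · exact hh
        · rw [Set.inter_comm]; exact hh
      obtain ⟨_, ⟨x, hx, rfl⟩, ⟨y, hy, hxy⟩⟩ := hmeet
      obtain ⟨a, ha⟩ := (h2 y x).1 hxy
      exact ⟨a, Or.inr ⟨x, hx, ⟨y, hy, ha.symm⟩⟩⟩
    · rintro ⟨a, hh⟩
      left
      rcases hh with hh | ⟨x, hx, ⟨y, hy, hxy⟩⟩
      · exfalso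
        apply hneQ
        exact ((hPi Q' Q).2 ⟨a, hh⟩).symm
      · refine ⟨π x, ⟨x, hx, rfl⟩, ⟨y, hy, ?_⟩⟩
        rw [← hxy]
        exact (quo_act Γ π h2 a y).symm

theorem isQ_iter (Γ : AG A) (hn : Nice Γ) {W : Type} (G : SimpleGraph W) (h : IsQ Γ G) (m : ℕ) :
    IsQ (AG.K^[m] Γ) (kstep^[m] ⟨W, G⟩).2 := by
  induction m with
  | zero => exact h
  | succ m ih =>
    rw [Function.iterate_succ_apply', Function.iterate_succ_apply']
    exact isQ_K _ (nice_iter Γ hn m).ne (nice_iter Γ hn m).disp _ ih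

theorem card_orb (Γ : AG A) {W : Type} (G : SimpleGraph W) (h : IsQ Γ G) :
    Nonempty (Orb Γ ≃ W) := by
  obtain ⟨π, h1, h2, -⟩ := h
  refine ⟨Equiv.ofBijective (Quot.lift π (fun x y hxy => (h2 x y).2 hxy)) ⟨?_, ?_⟩⟩
  · rintro ⟨x⟩ ⟨y⟩ hxy
    exact Quot.sound ((h2 x y).1 hxy)
  · intro w
    obtain ⟨x, hx⟩ := h1 w
    exact ⟨Quot.mk _ x, hx⟩

end Pool.Agent.H71.Clq
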