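import Mathlib
import Pool.Agent.H71.Clq.Tri

set_option autoImplicit false
set_option linter.unusedSectionVars false

/-!
# Module SPH: Euler characteristic two implies simply connected

Let `(U, f, st)` be a covering of `RG G`, `u₀ : U`, `r = f u₀`, `p, h` from `exists_tree`.
Define `σ` by recursion on `h`: `σ r = u₀`, `σ x = st (σ (p x)) x`. Then `f (σ x) = x`.
Call an adjacent pair `x y` good if `st (σ x) y = σ y`. Good is symmetric
(`st (σ y) x = st (st (σ x) y) x = st (σ x) x = σ x`), tree edges are good, and in a triangle two good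
edges imply that the third is good (`st (σ x) z = st (st (σ x) y) z = st (σ y) z = σ z`).
Suppose there is a bad (not good) edge. The tree has `|V| - 1` edges (`x ↦ s(x, p x)`, `x ≠ r` is injective), so
there are `E - V + 1 = F - 1` non-tree edges. Consider the graph `D` on triangles (adjacent if they share a
non-tree edge); it is connected by `dual_conn`. Apply `exists_tree` (or distances) to `D` with a root
triangle `f₀`: every triangle `f ≠ f₀` has a parent `q f` and shares with it a non-tree edge `e f`;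
`e` is injective (if `e f = e g`, `f ≠ g`, then the two triangles at this edge are `f` and `g`, so `q f = g`, `q g = f`,
contradiction to the distances). Counting: `e` is a bijection from the triangles `≠ f₀` to the
non-tree edges. Take a bad edge `e f` with the distance of `f` maximal. Another edge of `f` that is
bad is a non-tree edge `e g`, and `f` is one of the two triangles `g, q g` at `e g`; `f = g` is
excluded, and `f = q g` gives `dist g = dist f + 1`. So `f` has exactly one bad edge, contradiction.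
Use `σ` for the conclusion: all edges are good, also `st (σ x) x = σ x`.
-/

namespace Pool.Agent.H71.Clq

variable {V : Type} [Fintype V] [DecidableEq V]

/-- the tree edges as unordered pairs -/
def TS {V : Type} [Fintype V] [DecidableEq V] (p : V → V) (r : V) : Finset (Sym2 V) :=
  (Finset.univ.erase r).image (fun x => s(x, p x))

theorem mem_TS (p : V → V) (r x y : V) : s(x, y) ∈ TS p r ↔ TE p r x y := by
  unfold TS TE
  simp only [Finset.mem_image, Finset.mem_erase, Finset.mem_univ, and_true]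
  constructor
  · rintro ⟨z, hz, hzz⟩
    rw [Sym2.eq_iff] at hzz
    rcases hzz with ⟨h1, h2⟩ | ⟨h1, h2⟩
    · subst h1; exact Or.inl ⟨hz, h2.symm⟩
    · subst h1; exact Or.inr ⟨hz, h2.symm⟩
  · rintro (⟨h1, h2⟩ | ⟨h1, h2⟩)
    · exact ⟨x, h1, by rw [h2]⟩
    · exact ⟨y, h1, by rw [h2]; exact Sym2.eq_swap⟩

theorem card_TS (G : SimpleGraph V) (r : V) (p : V → V) (h : V → ℕ)
    (hp : ∀ x, x ≠ r → G.Adj x (p x) ∧ h x = h (p x) + 1) :
    (TS p r).card = Fintype.card V - 1 := by
  unfold TS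
  rw [Finset.card_image_of_injOn, Finset.card_erase_of_mem (Finset.mem_univ _), Finset.card_univ]
  intro x hx y hy hxy
  simp only [Finset.coe_erase, Finset.coe_univ, Set.mem_sdiff, Set.mem_univ, Set.mem_singleton_iff,
    true_and] at hx hy
  simp only at hxy
  rw [Sym2.eq_iff] at hxy
  rcases hxy with ⟨h1, h2⟩ | ⟨h1, h2⟩
  · exact h1
  · exfalso
    have e1 := (hp x hx).2
    have e2 := (hp y hy).2
    rw [h2] at e1
    rw [← h1] at e2
    omega

theorem TS_sub (G : SimpleGraph V) [DecidableRel G.Adj] (r : V) (p : V → V) (h : V → ℕ)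
    (hp : ∀ x, x ≠ r → G.Adj x (p x) ∧ h x = h (p x) + 1) :
    TS p r ⊆ G.edgeFinset := by
  intro e he
  unfold TS at he
  simp only [Finset.mem_image, Finset.mem_erase, Finset.mem_univ, and_true] at he
  obtain ⟨x, hx, rfl⟩ := he
  rw [SimpleGraph.mem_edgeFinset, SimpleGraph.mem_edgeSet]
  exact (hp x hx).1

theorem mem_face {G : SimpleGraph V} [DecidableRel G.Adj] {x y z : V} :
    ({x, y, z} : Finset V) ∈ G.cliqueFinset 3 ↔ G.Adj x y ∧ G.Adj x z ∧ G.Adj y z := by
  rw [SimpleGraph.mem_cliqueFinset_iff, SimpleGraph.is3Clique_triple_iff]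

theorem face_form {G : SimpleGraph V} [DecidableRel G.Adj] {t : Finset V} (ht : t ∈ G.cliqueFinset 3)
    {x y : V} (hx : x ∈ t) (hy : y ∈ t) (hxy : x ≠ y) :
    ∃ z, t = {x, y, z} ∧ G.Adj x y ∧ G.Adj x z ∧ G.Adj y z := by
  have h3 : t.card = 3 := (SimpleGraph.mem_cliqueFinset_iff.mp ht).card_eq
  have h1 : ((t.erase x).erase y).card = 1 := by
    rw [Finset.card_erase_of_mem (Finset.mem_erase.mpr ⟨hxy.symm, hy⟩), Finset.card_erase_of_mem hx, h3]
  obtain ⟨z, hz⟩ := Finset.card_eq_one.mp h1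
  have ht' : t = {x, y, z} := by
    rw [← Finset.insert_erase hx, ← Finset.insert_erase (Finset.mem_erase.mpr ⟨hxy.symm, hy⟩), hz]
  refine ⟨z, ht', ?_⟩
  rw [ht'] at ht
  exact mem_face.mp ht

/-- at most two triangles at an edge -/
theorem face_two {G : SimpleGraph V} [DecidableRel G.Adj] (hl : LCy G) {x y : V} (hxy : G.Adj x y)
    {t1 t2 t3 : Finset V} (h1 : t1 ∈ G.cliqueFinset 3) (h2 : t2 ∈ G.cliqueFinset 3)
    (h3 : t3 ∈ G.cliqueFinset 3) (x1 : x ∈ t1) (y1 : y ∈ t1) (x2 : x ∈ t2) (y2 : y ∈ t2)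
    (x3 : x ∈ t3) (y3 : y ∈ t3) (h12 : t1 ≠ t2) : t3 = t1 ∨ t3 = t2 := by
  obtain ⟨z, w, -, -, -, -, -, hu⟩ := two_faces G hl hxy
  obtain ⟨a, rfl, -, a1, a2⟩ := face_form h1 x1 y1 hxy.ne
  obtain ⟨b, rfl, -, b1, b2⟩ := face_form h2 x2 y2 hxy.ne
  obtain ⟨c, rfl, -, c1, c2⟩ := face_form h3 x3 y3 hxy.ne
  have hab : a ≠ b := by rintro rfl; exact h12 rfl
  rcases hu a a1 a2 with rfl | rfl <;> rcases hu b b1 b2 with rfl | rfl <;>
    rcases hu c c1 c2 with rfl | rfl <;> simp_all

/-- the dual graph without the tree edges -/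
def DG {V : Type} [Fintype V] [DecidableEq V] (G : SimpleGraph V) [DecidableRel G.Adj] (p : V → V)
    (r : V) : SimpleGraph {t : Finset V // t ∈ G.cliqueFinset 3} where
  Adj t u := t ≠ u ∧ ∃ x y, G.Adj x y ∧ ¬ TE p r x y ∧ x ∈ t.1 ∧ y ∈ t.1 ∧ x ∈ u.1 ∧ y ∈ u.1
  symm := ⟨by
    rintro t u ⟨h, x, y, h1, h2, h3, h4, h5, h6⟩
    exact ⟨h.symm, x, y, h1, h2, h5, h6, h3, h4⟩⟩
  loopless := ⟨fun t h => h.1 rfl⟩

theorem DG_conn (G : SimpleGraph V) [DecidableRel G.Adj] (hc : G.Connected) (hl : LCy G) (r : V)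
    (p : V → V) (h : V → ℕ) (hp : ∀ x, x ≠ r → G.Adj x (p x) ∧ h x = h (p x) + 1)
    (f₀ : {t : Finset V // t ∈ G.cliqueFinset 3}) : (DG G p r).Connected := by
  classical
  have hreach : ∀ t, (DG G p r).Reachable f₀ t := by
    have hd := dual_conn G hc hl r p h hp
      (fun t => ∃ ht : t ∈ G.cliqueFinset 3, (DG G p r).Reachable f₀ ⟨t, ht⟩) ?_
    · have hf : ∃ x y z, f₀.1 = {x, y, z} ∧ G.Adj x y ∧ G.Adj x z ∧ G.Adj y z := by
        have h3 : f₀.1.card = 3 := (SimpleGraph.mem_cliqueFinset_iff.mp f₀.2).card_eq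
        obtain ⟨x, y, z, hxy, hxz, hyz, he⟩ := Finset.card_eq_three.mp h3
        refine ⟨x, y, z, he, ?_⟩
        have := f₀.2
        rw [he] at this
        exact mem_face.mp this
      rcases hd with hd | hd
      · intro t
        have h3 : t.1.card = 3 := (SimpleGraph.mem_cliqueFinset_iff.mp t.2).card_eq
        obtain ⟨x, y, z, hxy, hxz, hyz, he⟩ := Finset.card_eq_three.mp h3
        have h4 := t.2
        rw [he, mem_face] at h4
        obtain ⟨ht, hr⟩ := hd x y z h4.1 h4.2.2 h4.2.1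
        have : t = ⟨{x, y, z}, ht⟩ := Subtype.ext he
        rw [this]; exact hr
      · exfalso
        obtain ⟨x, y, z, he, h1, h2, h3⟩ := hf
        apply hd x y z h1 h3 h2
        have hm : ({x, y, z} : Finset V) ∈ G.cliqueFinset 3 := mem_face.mpr ⟨h1, h2, h3⟩
        refine ⟨hm, ?_⟩
        have : f₀ = ⟨{x, y, z}, hm⟩ := Subtype.ext he
        rw [← this]
    · intro x y z w hxy hT hxz hyz hxw hyw
      have hz : ({x, y, z} : Finset V) ∈ G.cliqueFinset 3 := mem_face.mpr ⟨hxy, hxz, hyz⟩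
      have hw : ({x, y, w} : Finset V) ∈ G.cliqueFinset 3 := mem_face.mpr ⟨hxy, hxw, hyw⟩
      by_cases hzw : (⟨{x, y, z}, hz⟩ : {t : Finset V // t ∈ G.cliqueFinset 3}) = ⟨{x, y, w}, hw⟩
      · have : ({x, y, z} : Finset V) = {x, y, w} := congrArg Subtype.val hzw
        simp only [this]
      · have hadj : (DG G p r).Adj ⟨{x, y, z}, hz⟩ ⟨{x, y, w}, hw⟩ :=
          ⟨hzw, x, y, hxy, hT, by simp, by simp, by simp, by simp⟩
        constructor
        · rintro ⟨_, hr⟩
          exact ⟨hw, hr.trans hadj.reachable⟩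
        · rintro ⟨_, hr⟩
          exact ⟨hz, hr.trans hadj.symm.reachable⟩
  exact (SimpleGraph.connected_iff _).mpr ⟨fun a b => (hreach a).symm.trans (hreach b), ⟨f₀⟩⟩

/-- the combinatorial heart: a set of non-tree edges that meets no triangle in exactly one edge is
empty -/
theorem no_bad (G : SimpleGraph V) [DecidableRel G.Adj] (hc : G.Connected) (hl : LCy G)
    (hχ : (Fintype.card V : ℤ) - (G.edgeFinset.card : ℤ) + ((G.cliqueFinset 3).card : ℤ) = 2)
    (r : V) (p : V → V) (h : V → ℕ) (hp : ∀ x, x ≠ r → G.Adj x (p x) ∧ h x = h (p x) + 1)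
    (Gd : V → V → Prop) (hsymm : ∀ x y, G.Adj x y → Gd x y → Gd y x)
    (htree : ∀ x y, G.Adj x y → TE p r x y → Gd x y)
    (htri : ∀ x y z, G.Adj x y → G.Adj y z → G.Adj x z → Gd x y → Gd y z → Gd x z) :
    ∀ x y, G.Adj x y → Gd x y := by
  classical
  by_contra hcon
  push Not at hcon
  obtain ⟨x₀, y₀, hxy₀, hbad₀⟩ := hcon
  obtain ⟨z₀, w₀, -, hz1, hz2, -, -, -⟩ := two_faces G hl hxy₀
  have hf₀ : ({x₀, y₀, z₀} : Finset V) ∈ G.cliqueFinset 3 := mem_face.mpr ⟨hxy₀, hz1, hz2⟩
  let f₀ : {t : Finset V // t ∈ G.cliqueFinset 3} := ⟨{x₀, y₀, z₀}, hf₀⟩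
  obtain ⟨q, d, -, hq⟩ := exists_tree (DG G p r) (DG_conn G hc hl r p h hp f₀) f₀
  -- the dual edges
  have hex : ∀ t, ∃ e : Sym2 V, t ≠ f₀ → (e ∈ G.edgeFinset \ TS p r ∧
      (∀ v ∈ e, v ∈ t.1) ∧ ∀ v ∈ e, v ∈ (q t).1) := by
    intro t
    by_cases ht : t = f₀
    · exact ⟨s(x₀, y₀), fun h => absurd ht h⟩
    · obtain ⟨-, x, y, h1, h2, h3, h4, h5, h6⟩ := (hq t ht).1
      refine ⟨s(x, y), fun _ => ⟨?_, ?_, ?_⟩⟩
      · rw [Finset.mem_sdiff, SimpleGraph.mem_edgeFinset, SimpleGraph.mem_edgeSet, mem_TS]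
        exact ⟨h1, h2⟩
      · intro v hv
        rcases Sym2.mem_iff.mp hv with rfl | rfl <;> assumption
      · intro v hv
        rcases Sym2.mem_iff.mp hv with rfl | rfl <;> assumption
  choose e he using hex
  have hinj : ∀ t, t ≠ f₀ → ∀ u, u ≠ f₀ → e t = e u → t = u := by
    intro t ht u hu htu
    by_contra hne
    obtain ⟨a1, a2, a3⟩ := he t ht
    obtain ⟨b1, b2, b3⟩ := he u hu
    rw [← htu] at b2 b3
    generalize e t = ee at *
    induction ee using Sym2.ind with
    | _ x y =>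
      have hxy : G.Adj x y := by
        rw [Finset.mem_sdiff, SimpleGraph.mem_edgeFinset, SimpleGraph.mem_edgeSet] at a1
        exact a1.1
      have mx : x ∈ s(x, y) := Sym2.mem_mk_left x y
      have my : y ∈ s(x, y) := Sym2.mem_mk_right x y
      have hne' : t.1 ≠ u.1 := fun h => hne (Subtype.ext h)
      have h1 := face_two hl hxy t.2 u.2 (q t).2 (a2 x mx) (a2 y my) (b2 x mx) (b2 y my)
        (a3 x mx) (a3 y my) hne'
      have h2 := face_two hl hxy t.2 u.2 (q u).2 (a2 x mx) (a2 y my) (b2 x mx) (b2 y my)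
        (b3 x mx) (b3 y my) hne'
      have n1 : (q t).1 ≠ t.1 := fun h => (hq t ht).1.ne (Subtype.ext h.symm)
      have n2 : (q u).1 ≠ u.1 := fun h => (hq u hu).1.ne (Subtype.ext h.symm)
      have h3 : q t = u := Subtype.ext (h1.resolve_left n1)
      have h4 : q u = t := Subtype.ext (h2.resolve_right n2)
      have d1 := (hq t ht).2
      have d2 := (hq u hu).2
      rw [h3] at d1
      rw [h4] at d2
      omega
  -- surjectivity by counting
  have hsurj : ∀ b ∈ G.edgeFinset \ TS p r, ∃ t, t ≠ f₀ ∧ e t = b := by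
    have himg : (Finset.univ.erase f₀).image e = G.edgeFinset \ TS p r := by
      apply Finset.eq_of_subset_of_card_le
      · intro b hb
        rw [Finset.mem_image] at hb
        obtain ⟨t, ht, rfl⟩ := hb
        exact (he t (Finset.ne_of_mem_erase ht)).1
      · rw [Finset.card_image_of_injOn (by
            intro t ht u hu htu
            exact hinj t (Finset.ne_of_mem_erase ht) u (Finset.ne_of_mem_erase hu) htu),
          Finset.card_erase_of_mem (Finset.mem_univ _), Finset.card_univ, Fintype.card_coe,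
          Finset.card_sdiff_of_subset (TS_sub G r p h hp), card_TS G r p h hp]
        have hV : 1 ≤ Fintype.card V := Fintype.card_pos_iff.mpr ⟨r⟩
        have hle : (TS p r).card ≤ G.edgeFinset.card := Finset.card_le_card (TS_sub G r p h hp)
        rw [card_TS G r p h hp] at hle
        omega
    intro b hb
    rw [← himg, Finset.mem_image] at hb
    obtain ⟨t, ht, rfl⟩ := hb
    exact ⟨t, Finset.ne_of_mem_erase ht, rfl⟩
  -- bad edges
  let Bad : Sym2 V → Prop := fun b => ∃ x y, b = s(x, y) ∧ G.Adj x y ∧ ¬ Gd x y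
  have hBad : ∀ x y, G.Adj x y → (Bad s(x, y) ↔ ¬ Gd x y) := by
    intro x y hxy
    constructor
    · rintro ⟨a, b, h1, h2, h3⟩ hg
      rw [Sym2.eq_iff] at h1
      rcases h1 with ⟨rfl, rfl⟩ | ⟨rfl, rfl⟩
      · exact h3 hg
      · exact h3 (hsymm _ _ hxy hg)
    · intro hg; exact ⟨x, y, rfl, hxy, hg⟩
  have hNT : ∀ x y, G.Adj x y → ¬ Gd x y → s(x, y) ∈ G.edgeFinset \ TS p r := by
    intro x y hxy hg
    rw [Finset.mem_sdiff, SimpleGraph.mem_edgeFinset, SimpleGraph.mem_edgeSet, mem_TS]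
    exact ⟨hxy, fun hT => hg (htree x y hxy hT)⟩
  have hne : (Finset.univ.filter (fun t => t ≠ f₀ ∧ Bad (e t))).Nonempty := by
    obtain ⟨t, ht, het⟩ := hsurj _ (hNT x₀ y₀ hxy₀ hbad₀)
    refine ⟨t, ?_⟩
    rw [Finset.mem_filter]
    refine ⟨Finset.mem_univ _, ht, ?_⟩
    rw [het]; exact (hBad x₀ y₀ hxy₀).mpr hbad₀
  obtain ⟨t, htm, hmax⟩ := Finset.exists_max_image _ d hne
  rw [Finset.mem_filter] at htm
  obtain ⟨-, ht, hbt⟩ := htm
  obtain ⟨a1, a2, a3⟩ := he t ht
  -- another bad edge of t leads to a contradiction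
  have hother : ∀ a b, G.Adj a b → a ∈ t.1 → b ∈ t.1 → ¬ Gd a b → s(a, b) = e t := by
    intro a b hab ha hb hg
    by_contra hne2
    obtain ⟨g, hg0, heg⟩ := hsurj _ (hNT a b hab hg)
    obtain ⟨b1, b2, b3⟩ := he g hg0
    rw [heg] at b2 b3
    have mx : a ∈ s(a, b) := Sym2.mem_mk_left a b
    have my : b ∈ s(a, b) := Sym2.mem_mk_right a b
    have n1 : g.1 ≠ (q g).1 := fun h => (hq g hg0).1.ne (Subtype.ext h)
    have h1 := face_two hl hab g.2 (q g).2 t.2 (b2 a mx) (b2 b my) (b3 a mx) (b3 b my) ha hb n1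
    rcases h1 with h1 | h1
    · have : t = g := Subtype.ext h1
      exact hne2 (by rw [this, heg])
    · have htq : t = q g := Subtype.ext h1
      have hd := (hq g hg0).2
      have hm := hmax g (by
        rw [Finset.mem_filter]
        exact ⟨Finset.mem_univ _, hg0, by rw [heg]; exact (hBad a b hab).mpr hg⟩)
      rw [← htq] at hd
      omega
  obtain ⟨x, y, hexy, hxy, hgxy⟩ := hbt
  rw [hexy] at a2
  have hx : x ∈ t.1 := a2 x (Sym2.mem_mk_left x y)
  have hy : y ∈ t.1 := a2 y (Sym2.mem_mk_right x y)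
  obtain ⟨z, hz, -, hxz, hyz⟩ := face_form t.2 hx hy hxy.ne
  have hzt : z ∈ t.1 := by rw [hz]; simp
  by_cases g1 : Gd x z
  · by_cases g2 : Gd z y
    · exact hgxy (htri x z y hxz hyz.symm hxy g1 g2)
    · have := hother z y hyz.symm hzt hy g2
      rw [hexy, Sym2.eq_iff] at this
      rcases this with ⟨h1, -⟩ | ⟨h1, -⟩
      · exact hxz.ne h1.symm
      · exact hyz.ne h1.symm
  · have := hother x z hxz hx hzt g1
    rw [hexy, Sym2.eq_iff] at this
    rcases this with ⟨-, h1⟩ | ⟨h1, h2⟩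
    · exact hyz.ne h1.symm
    · exact hxy.ne h1

theorem sphere_sc (G : SimpleGraph V) [DecidableRel G.Adj] (hc : G.Connected) (hl : LCy G)
    (hχ : (Fintype.card V : ℤ) - (G.edgeFinset.card : ℤ) + ((G.cliqueFinset 3).card : ℤ) = 2) :
    SC (RG G) := by
  intro U f st h1 h2 h3 u₀
  obtain ⟨p, h, hr, hp⟩ := exists_tree G hc (f u₀)
  -- the section
  let s : ℕ → V → U := fun n => Nat.rec (fun _ => u₀)
    (fun _ g x => if x = f u₀ then u₀ else st (g (p x)) x) n
  have s0 : ∀ x, s 0 x = u₀ := fun x => rfl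
  have sS : ∀ n x, s (n + 1) x = if x = f u₀ then u₀ else st (s n (p x)) x := fun n x => by
    classical
    simp only [s]
  let σ : V → U := fun x => s (h x) x
  have σr : σ (f u₀) = u₀ := by simp only [σ, hr, s0]
  have σx : ∀ x, x ≠ f u₀ → σ x = st (σ (p x)) x := by
    intro x hx
    simp only [σ]
    rw [(hp x hx).2, sS, if_neg hx]
  have fσ : ∀ n x, h x = n → f (σ x) = x := by
    intro n
    induction n with
    | zero =>
      intro x hx
      by_cases hxr : x = f u₀
      · rw [hxr, σr]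
      · have := (hp x hxr).2; omega
    | succ n ih =>
      intro x hx
      by_cases hxr : x = f u₀
      · rw [hxr, σr]
      · rw [σx x hxr]
        apply h1
        rw [ih (p x) (by have := (hp x hxr).2; omega)]
        exact Or.inr (hp x hxr).1.symm
  have fσ' : ∀ x, f (σ x) = x := fun x => fσ _ x rfl
  have hrefl : ∀ x, st (σ x) x = σ x := by
    intro x
    have := h2 (σ x)
    rwa [fσ' x] at this
  have hsy : ∀ x y, G.Adj x y → st (σ x) y = σ y → st (σ y) x = σ x := by
    intro x y hxy hg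
    rw [← hg]
    have := h3 (σ x) y x (by rw [fσ']; exact Or.inr hxy) (Or.inr hxy.symm) (by rw [fσ']; exact Or.inl rfl)
    rw [this, hrefl]
  have hall := no_bad G hc hl hχ (f u₀) p h hp (fun x y => st (σ x) y = σ y) hsy ?_ ?_
  · refine ⟨σ, σr, fσ', ?_⟩
    rintro x y (rfl | hxy)
    · exact hrefl x
    · exact hall x y hxy
  · rintro x y hxy (⟨hx, rfl⟩ | ⟨hy, rfl⟩)
    · exact hsy _ _ hxy.symm (σx x hx).symm
    · exact (σx y hy).symm
  · intro x y z hxy hyz hxz g1 g2
    rw [← h3 (σ x) y z (by rw [fσ']; exact Or.inr hxy) (Or.inr hyz) (by rw [fσ']; exact Or.inr hxz),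
      g1, g2]

end Pool.Agent.H71.Clq
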