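import Mathlib
import Pool.Agent.H71.Clq.Tri

set_option autoImplicit false
set_option linter.unusedSectionVars false

/-!
# Module COC: a nontrivial mod 2 cocycle on the projective plane

Let `p, h, r` be a tree (`exists_tree`). Let `X` be the set of non-tree edges (subtype of `Sym2 V`); the tree edges
`s(x, p x)`, `x ≠ r`, are `V - 1` different edges, so `|X| = E - V + 1 = F`. The linear map
`L : (X → ZMod 2) → (faces → ZMod 2)`, `L c f = ∑ of c e over the non-tree edges e of f`, is not
surjective: `∑_f L c f = 0` because every edge is in exactly two triangles (`two_faces`), and there is a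
triangle. Both sides have the same dimension `F`, so `L` is not injective: there is `c ≠ 0` with
`L c = 0`. Extend by `0` to tree edges: `c x y` for adjacent `x, y`. It is a cocycle. If `c x y = φ y - φ x` for all
adjacent `x, y` then `φ` is constant along the tree, so constant, so `c = 0`, contradiction.
-/

namespace Pool.Agent.H71.Clq

variable {V : Type} [Fintype V] [DecidableEq V]

open Finset

/-- a triangle containing an edge is given by a common neighbour -/
theorem face_of_edge (G : SimpleGraph V) {x y : V} (hxy : G.Adj x y) {f : Finset V}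
    (hf : G.IsNClique 3 f) (hx : x ∈ f) (hy : y ∈ f) :
    ∃ u, G.Adj x u ∧ G.Adj y u ∧ f = {x, y, u} := by
  have h1 : ((f.erase x).erase y).card = 1 := by
    rw [card_erase_of_mem (mem_erase.2 ⟨hxy.ne', hy⟩), card_erase_of_mem hx, hf.card_eq]
  obtain ⟨u, hu⟩ := card_eq_one.1 h1
  have hu' : u ∈ (f.erase x).erase y := by rw [hu]; exact mem_singleton_self u
  have huy : u ≠ y := (mem_erase.1 hu').1
  have hux : u ≠ x := (mem_erase.1 (mem_erase.1 hu').2).1
  have huf : u ∈ f := (mem_erase.1 (mem_erase.1 hu').2).2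
  refine ⟨u, hf.isClique hx huf hux.symm, hf.isClique hy huf huy.symm, ?_⟩
  have h2 : insert y ((f.erase x).erase y) = f.erase x :=
    insert_erase (mem_erase.2 ⟨hxy.ne', hy⟩)
  rw [← insert_erase hx, ← h2, hu]

theorem card_faces_edge (G : SimpleGraph V) [DecidableRel G.Adj] (hl : LCy G) {x y : V}
    (hxy : G.Adj x y) : ((G.cliqueFinset 3).filter fun f => x ∈ f ∧ y ∈ f).card = 2 := by
  obtain ⟨z, w, hzw, hxz, hyz, hxw, hyw, hall⟩ := two_faces G hl hxy
  have h1 : (G.cliqueFinset 3).filter (fun f => x ∈ f ∧ y ∈ f) = {{x, y, z}, {x, y, w}} := by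
    ext f
    simp only [mem_filter, SimpleGraph.mem_cliqueFinset_iff, mem_insert, mem_singleton]
    constructor
    · rintro ⟨hf, hx, hy⟩
      obtain ⟨u, hu1, hu2, rfl⟩ := face_of_edge G hxy hf hx hy
      rcases hall u hu1 hu2 with rfl | rfl
      · exact Or.inl rfl
      · exact Or.inr rfl
    · rintro (rfl | rfl)
      · refine ⟨?_, by simp, by simp⟩
        rw [SimpleGraph.is3Clique_iff]
        exact ⟨x, y, z, hxy, hxz, hyz, rfl⟩
      · refine ⟨?_, by simp, by simp⟩
        rw [SimpleGraph.is3Clique_iff]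
        exact ⟨x, y, w, hxy, hxw, hyw, rfl⟩
  rw [h1, card_pair]
  intro h
  have hz : z ∈ ({x, y, w} : Finset V) := by rw [← h]; simp
  simp only [mem_insert, mem_singleton] at hz
  rcases hz with h | h | h
  · exact hxz.ne h.symm
  · exact hyz.ne h.symm
  · exact hzw h

theorem tree_card (G : SimpleGraph V) [DecidableRel G.Adj] (r : V) (p : V → V) (h : V → ℕ)
    (hp : ∀ x, x ≠ r → G.Adj x (p x) ∧ h x = h (p x) + 1) :
    ((univ.erase r).image fun x => s(x, p x)).card = Fintype.card V - 1 ∧
      ((univ.erase r).image fun x => s(x, p x)) ⊆ G.edgeFinset := by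
  constructor
  · rw [card_image_of_injOn, card_erase_of_mem (mem_univ r), card_univ]
    intro x hx y hy hxy
    simp only [coe_erase, coe_univ, Set.mem_sdiff, Set.mem_univ, Set.mem_singleton_iff,
      true_and] at hx hy
    rcases Sym2.eq_iff.1 hxy with ⟨h1, -⟩ | ⟨h1, h2⟩
    · exact h1
    · exfalso
      have e1 := (hp x hx).2
      have e2 := (hp y hy).2
      rw [h2] at e1
      rw [← h1] at e2
      omega
  · intro e he
    obtain ⟨x, hx, rfl⟩ := mem_image.1 he
    rw [SimpleGraph.mem_edgeFinset, SimpleGraph.mem_edgeSet]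
    exact (hp x (mem_erase.1 hx).1).1

/-- the faces as a type -/
abbrev Fc (G : SimpleGraph V) [DecidableRel G.Adj] : Type := {f : Finset V // f ∈ G.cliqueFinset 3}

open Classical in
/-- extension by zero -/
noncomputable def ext0 {X : Finset (Sym2 V)} (c : X → ZMod 2) (e : Sym2 V) : ZMod 2 :=
  if he : e ∈ X then c ⟨e, he⟩ else 0

open Classical in
/-- the coboundary -/
noncomputable def cob (G : SimpleGraph V) [DecidableRel G.Adj] (X : Finset (Sym2 V)) :
    (X → ZMod 2) →ₗ[ZMod 2] (Fc G → ZMod 2) where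
  toFun c f := ∑ e ∈ G.edgeFinset, if (∀ v ∈ e, v ∈ f.1) then ext0 c e else 0
  map_add' c c' := by
    funext f
    simp only [Pi.add_apply]
    rw [← sum_add_distrib]
    refine sum_congr rfl fun e _ => ?_
    by_cases h1 : ∀ v ∈ e, v ∈ f.1
    · simp only [if_pos h1]
      unfold ext0
      by_cases h2 : e ∈ X <;> simp [h2]
    · simp [if_neg h1]
  map_smul' a c := by
    funext f
    simp only [Pi.smul_apply, smul_eq_mul, RingHom.id_apply]
    rw [mul_sum]
    refine sum_congr rfl fun e _ => ?_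
    by_cases h1 : ∀ v ∈ e, v ∈ f.1
    · simp only [if_pos h1]
      unfold ext0
      by_cases h2 : e ∈ X <;> simp [h2]
    · simp [if_neg h1]

open Classical in
theorem cob_apply (G : SimpleGraph V) [DecidableRel G.Adj] (X : Finset (Sym2 V))
    (c : X → ZMod 2) {x y z : V} (hxy : G.Adj x y) (hyz : G.Adj y z) (hxz : G.Adj x z)
    (hf : ({x, y, z} : Finset V) ∈ G.cliqueFinset 3) :
    cob G X c ⟨{x, y, z}, hf⟩ = ext0 c s(x, y) + ext0 c s(y, z) + ext0 c s(x, z) := by
  change ∑ e ∈ G.edgeFinset, (if (∀ v ∈ e, v ∈ ({x, y, z} : Finset V)) then ext0 c e else 0) = _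
  rw [← sum_filter]
  have h1 : G.edgeFinset.filter (fun e => ∀ v ∈ e, v ∈ ({x, y, z} : Finset V)) =
      {s(x, y), s(y, z), s(x, z)} := by
    ext e
    induction e using Sym2.ind with
    | _ u v =>
      simp only [mem_filter, SimpleGraph.mem_edgeFinset, SimpleGraph.mem_edgeSet, Sym2.mem_iff,
        forall_eq_or_imp, forall_eq, mem_insert, mem_singleton, Sym2.eq_iff]
      constructor
      · rintro ⟨huv, h1, h2⟩
        have hne := huv.ne
        rcases h1 with rfl | rfl | rfl <;> rcases h2 with rfl | rfl | rfl <;> simp_all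
      · rintro ((⟨rfl, rfl⟩ | ⟨rfl, rfl⟩) | (⟨rfl, rfl⟩ | ⟨rfl, rfl⟩) | (⟨rfl, rfl⟩ | ⟨rfl, rfl⟩))
        · exact ⟨hxy, by simp, by simp⟩
        · exact ⟨hxy.symm, by simp, by simp⟩
        · exact ⟨hyz, by simp, by simp⟩
        · exact ⟨hyz.symm, by simp, by simp⟩
        · exact ⟨hxz, by simp, by simp⟩
        · exact ⟨hxz.symm, by simp, by simp⟩
  rw [h1]
  have n1 := hxy.ne
  have n2 := hyz.ne
  have n3 := hxz.ne
  rw [sum_insert, sum_insert, sum_singleton, add_assoc]
  · simp only [mem_singleton, Sym2.eq_iff]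
    rintro (⟨h, -⟩ | ⟨h, -⟩)
    · exact n1 h.symm
    · exact n2 h
  · simp only [mem_insert, mem_singleton, Sym2.eq_iff]
    rintro ((⟨h, -⟩ | ⟨h, -⟩) | (⟨-, h⟩ | ⟨h, -⟩))
    · exact n1 h
    · exact n3 h
    · exact n2 h
    · exact n3 h

open Classical in
theorem sum_cob (G : SimpleGraph V) [DecidableRel G.Adj] (hl : LCy G) (X : Finset (Sym2 V))
    (c : X → ZMod 2) : ∑ f : Fc G, cob G X c f = 0 := by
  have h0 : ∑ f : Fc G, cob G X c f = ∑ f ∈ G.cliqueFinset 3,
      ∑ e ∈ G.edgeFinset, (if (∀ v ∈ e, v ∈ f) then ext0 c e else 0) := by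
    rw [← Finset.sum_coe_sort (G.cliqueFinset 3)
      (fun f => ∑ e ∈ G.edgeFinset, (if (∀ v ∈ e, v ∈ f) then ext0 c e else 0))]
    rfl
  rw [h0, sum_comm]
  refine sum_eq_zero fun e he => ?_
  rw [← sum_filter, sum_const]
  induction e using Sym2.ind with
  | _ x y =>
    rw [SimpleGraph.mem_edgeFinset, SimpleGraph.mem_edgeSet] at he
    have h1 : ((G.cliqueFinset 3).filter fun f => ∀ v ∈ s(x, y), v ∈ f) =
        (G.cliqueFinset 3).filter fun f => x ∈ f ∧ y ∈ f := by
      refine filter_congr fun f _ => ?_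
      simp only [Sym2.mem_iff, forall_eq_or_imp, forall_eq]
    rw [h1, card_faces_edge G hl he, two_nsmul]
    exact CharTwo.add_self_eq_zero _

theorem exists_cocycle (G : SimpleGraph V) [DecidableRel G.Adj] (hc : G.Connected) (hl : LCy G)
    (hne : ∃ x y, G.Adj x y)
    (hχ : (Fintype.card V : ℤ) - (G.edgeFinset.card : ℤ) + ((G.cliqueFinset 3).card : ℤ) = 1) :
    ∃ c : V → V → ZMod 2, (∀ x y, c x y = c y x) ∧
      (∀ x y z, G.Adj x y → G.Adj y z → G.Adj x z → c x y + c y z = c x z) ∧
      ¬ ∃ φ : V → ZMod 2, ∀ x y, G.Adj x y → c x y = φ y - φ x := by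
  classical
  obtain ⟨r⟩ := hc.nonempty
  obtain ⟨p, h, hr, hp⟩ := exists_tree G hc r
  set T : Finset (Sym2 V) := (univ.erase r).image fun x => s(x, p x) with hT
  obtain ⟨hTc, hTs⟩ := tree_card G r p h hp
  rw [← hT] at hTc hTs
  set X : Finset (Sym2 V) := G.edgeFinset \ T with hX
  have hXc : X.card = (G.cliqueFinset 3).card := by
    have h1 : X.card = G.edgeFinset.card - T.card := card_sdiff_of_subset hTs
    have h2 : T.card ≤ G.edgeFinset.card := card_le_card hTs
    have h3 : 0 < Fintype.card V := Fintype.card_pos_iff.2 ⟨r⟩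
    omega
  have hfin : Module.finrank (ZMod 2) (X → ZMod 2) = Module.finrank (ZMod 2) (Fc G → ZMod 2) := by
    rw [Module.finrank_fintype_fun_eq_card, Module.finrank_fintype_fun_eq_card,
      Fintype.card_coe, Fintype.card_coe, hXc]
  have hnsurj : ¬ Function.Surjective (cob G X) := by
    intro hs
    obtain ⟨x, y, hxy⟩ := hne
    obtain ⟨z, -, -, hxz, hyz, -⟩ := two_faces G hl hxy
    have hf : ({x, y, z} : Finset V) ∈ G.cliqueFinset 3 := by
      rw [SimpleGraph.mem_cliqueFinset_iff, SimpleGraph.is3Clique_iff]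
      exact ⟨x, y, z, hxy, hxz, hyz, rfl⟩
    obtain ⟨c, hc'⟩ := hs (Pi.single ⟨{x, y, z}, hf⟩ 1)
    have h1 := sum_cob G hl X c
    rw [hc'] at h1
    rw [Finset.sum_pi_single'] at h1
    simp at h1
  have hninj : ¬ Function.Injective (cob G X) := fun hi =>
    hnsurj ((LinearMap.injective_iff_surjective_of_finrank_eq_finrank hfin).1 hi)
  rw [← LinearMap.ker_eq_bot, Submodule.eq_bot_iff] at hninj
  push Not at hninj
  obtain ⟨c, hcker, hc0⟩ := hninj
  rw [LinearMap.mem_ker] at hcker
  refine ⟨fun x y => ext0 c s(x, y), fun x y => by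
    change ext0 c s(x, y) = ext0 c s(y, x)
    rw [Sym2.eq_swap], ?_, ?_⟩
  · intro x y z hxy hyz hxz
    have hf : ({x, y, z} : Finset V) ∈ G.cliqueFinset 3 := by
      rw [SimpleGraph.mem_cliqueFinset_iff, SimpleGraph.is3Clique_iff]
      exact ⟨x, y, z, hxy, hxz, hyz, rfl⟩
    have h1 := cob_apply G X c hxy hyz hxz hf
    rw [hcker, Pi.zero_apply] at h1
    have h2 : ext0 c s(x, y) + ext0 c s(y, z) = -ext0 c s(x, z) := by
      rw [eq_neg_iff_add_eq_zero]
      exact h1.symm
    rw [h2, CharTwo.neg_eq]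
  · rintro ⟨φ, hφ⟩
    have hconst : ∀ k : ℕ, ∀ x, h x = k → φ x = φ r := by
      intro k
      induction k using Nat.strong_induction_on with
      | _ k ih =>
        intro x hx
        by_cases hxr : x = r
        · rw [hxr]
        · obtain ⟨h1, h2⟩ := hp x hxr
          have h3 : ext0 c s(x, p x) = φ (p x) - φ x := hφ x (p x) h1
          have h4 : s(x, p x) ∉ X := by
            rw [hX, mem_sdiff, not_and, not_not]
            intro _
            exact mem_image.2 ⟨x, mem_erase.2 ⟨hxr, mem_univ x⟩, rfl⟩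
          have h5 : ext0 c s(x, p x) = 0 := by
            unfold ext0
            rw [dif_neg h4]
          rw [h5] at h3
          have h6 : φ (p x) = φ x := (sub_eq_zero.1 h3.symm)
          rw [← h6]
          exact ih (h (p x)) (by omega) (p x) rfl
    apply hc0
    funext e
    obtain ⟨e, he⟩ := e
    induction e using Sym2.ind with
    | _ x y =>
      have h1 : G.Adj x y := by
        have := (mem_sdiff.1 he).1
        rwa [SimpleGraph.mem_edgeFinset, SimpleGraph.mem_edgeSet] at this
      have h2 : ext0 c s(x, y) = φ y - φ x := hφ x y h1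
      rw [hconst _ x rfl, hconst _ y rfl, sub_self] at h2
      unfold ext0 at h2
      rw [dif_pos he] at h2
      exact h2

end Pool.Agent.H71.Clq
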