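import Mathlib
import Pool.Agent.H71.Clq.Sph
import Pool.Agent.H71.Clq.Quo

set_option autoImplicit false
set_option linter.unusedSectionVars false

/-!
# Module DBL: the double cover of a mod 2 cocycle

`DC G c` is the graph on `V × ZMod 2` with `(x,i) ~ (y,j)` iff `G.Adj x y` and `j = i + c x y`.
* `dc_lcy`: the link of `(x,i)` is isomorphic to the link of `x` by `y ↦ (y, i + c x y)`.
* `dc_conn`: if `DC G c` is not connected then `c` is a coboundary: every `(x,i)` is reachable from exactly
  one of `(r,0)`, `(r,1)` — every `(x,i)` is reachable from one of them by lifting a walk from `r` to `x`; if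
  `(r,0)` and `(r,1)` are in different components, let `φ x` be the `i` with `(x,i)` reachable from `(r,0)`
  (unique by the symmetry `(x,i) ↦ (x,i+1)`); then `c x y = φ y - φ x`.
* `dc_card`: `2E = ∑ degrees` and the degree of `(x,i)` is the degree of `x`.
* `dc_chi`: from `dc_card` and `three_mul_faces`: `V' - E' + F' = 2 (V - E + F)`.
* `dcAG`: the action of `Multiplicative (ZMod 2)` by `(x,i) ↦ (x, i + a)`; quotient map = first projection.
  `Disp`: a walk of length three (with repetitions) from `(x,i)` to `(x,i+1)` projects to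
  `x, y, z, x` with consecutive ones adjacent or equal; the sum of `c` along it is zero (all degenerate
  cases by `c x y = c y x`, `1 + 1 = 0` in `ZMod 2`; the triangle by the cocycle property; note `c x x` is not used for
  repetitions: the relation for equal vertices keeps `i`).
-/

namespace Pool.Agent.H71.Clq

variable {V : Type} [Fintype V] [DecidableEq V]

/-- the double cover -/
def DC (G : SimpleGraph V) (c : V → V → ZMod 2) (hs : ∀ x y, c x y = c y x) :
    SimpleGraph (V × ZMod 2) where
  Adj u v := G.Adj u.1 v.1 ∧ v.2 = u.2 + c u.1 v.1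
  symm := ⟨by
    rintro ⟨x, i⟩ ⟨y, j⟩ ⟨h1, h2⟩
    refine ⟨h1.symm, ?_⟩
    simp only at h2 ⊢
    rw [h2, hs y x, add_assoc, CharTwo.add_self_eq_zero, add_zero]⟩
  loopless := ⟨by
    rintro ⟨x, i⟩ ⟨h1, _⟩
    exact G.loopless.irrefl x h1⟩

theorem dc_lcy (G : SimpleGraph V) (c : V → V → ZMod 2) (hs : ∀ x y, c x y = c y x)
    (hc : ∀ x y z, G.Adj x y → G.Adj y z → G.Adj x z → c x y + c y z = c x z) (hl : LCy G) :
    LCy (DC G c hs) := by
  constructor
  · rintro ⟨x, i⟩ ⟨y, j⟩ ⟨hxy, hj⟩
    simp only at hxy hj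
    have himg : {z | (DC G c hs).Adj (x, i) z ∧ (DC G c hs).Adj (y, j) z} =
        (fun w => (w, i + c x w)) '' {w | G.Adj x w ∧ G.Adj y w} := by
      ext ⟨w, k⟩
      constructor
      · rintro ⟨⟨h1, h2⟩, ⟨h3, _⟩⟩
        refine ⟨w, ⟨h1, h3⟩, ?_⟩
        simp only at h2 ⊢
        rw [h2]
      · rintro ⟨w', ⟨h1, h2⟩, h3⟩
        simp only [Prod.mk.injEq] at h3
        obtain ⟨rfl, rfl⟩ := h3
        refine ⟨⟨h1, rfl⟩, ⟨h2, ?_⟩⟩
        simp only
        rw [hj, add_assoc, hc x y w' hxy h2 h1]
    rw [himg, Set.ncard_image_of_injective]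
    · exact hl.1 x y hxy
    · intro w w' hww
      simp only [Prod.mk.injEq] at hww
      exact hww.1
  · rintro ⟨x, i⟩ ⟨y, j⟩ ⟨z, k⟩ ⟨hxy, hj⟩ ⟨hxz, hk⟩
    simp only at hxy hj hxz hk
    subst hj
    subst hk
    have hpath := hl.2 x y z hxy hxz
    clear hxz
    induction hpath with
    | refl => exact Relation.ReflTransGen.refl
    | @tail u v _ huv ih =>
      refine ih.tail ?_
      obtain ⟨h1, h2, h3⟩ := huv
      refine ⟨⟨h1, rfl⟩, ⟨h2, rfl⟩, ⟨h3, ?_⟩⟩
      simp only
      rw [add_assoc, hc x u v h1 h3 h2]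

/-- the shift is a homomorphism -/
private def shf (G : SimpleGraph V) (c : V → V → ZMod 2) (hs : ∀ x y, c x y = c y x)
    (a : ZMod 2) : DC G c hs →g DC G c hs where
  toFun := fun u => (u.1, u.2 + a)
  map_rel' := by
    rintro ⟨x, i⟩ ⟨y, j⟩ ⟨h1, h2⟩
    refine ⟨h1, ?_⟩
    simp only at h2 ⊢
    rw [h2]
    ring

private theorem reach_shift (G : SimpleGraph V) (c : V → V → ZMod 2)
    (hs : ∀ x y, c x y = c y x) (a : ZMod 2) {u v : V × ZMod 2}
    (h : (DC G c hs).Reachable u v) :
    (DC G c hs).Reachable (u.1, u.2 + a) (v.1, v.2 + a) :=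
  h.map (shf G c hs a)

private theorem reach_base (G : SimpleGraph V) (c : V → V → ZMod 2)
    (hs : ∀ x y, c x y = c y x) {r x : V} (h : G.Reachable r x) (i : ZMod 2) :
    ∃ j, (DC G c hs).Reachable (r, j) (x, i) := by
  obtain ⟨w⟩ := h
  induction w generalizing i with
  | nil => exact ⟨i, SimpleGraph.Reachable.refl _⟩
  | @cons a b d hab p ih =>
    obtain ⟨j, hj⟩ := ih i
    refine ⟨j + c a b, ?_⟩
    have hadj : (DC G c hs).Adj (a, j + c a b) (b, j) := by
      refine ⟨hab, ?_⟩
      simp only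
      rw [add_assoc, CharTwo.add_self_eq_zero, add_zero]
    exact hadj.reachable.trans hj

theorem dc_conn (G : SimpleGraph V) (c : V → V → ZMod 2) (hs : ∀ x y, c x y = c y x)
    (hG : G.Connected)
    (hn : ¬ ∃ φ : V → ZMod 2, ∀ x y, G.Adj x y → c x y = φ y - φ x) :
    (DC G c hs).Connected := by
  classical
  obtain ⟨r⟩ := hG.nonempty
  have : Nonempty (V × ZMod 2) := ⟨(r, 0)⟩
  have hz : ∀ t : ZMod 2, t = 0 ∨ t = 1 := by decide
  by_cases h01 : (DC G c hs).Reachable (r, 0) (r, 1)
  · have hall : ∀ u : V × ZMod 2, (DC G c hs).Reachable (r, 0) u := by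
      rintro ⟨x, i⟩
      obtain ⟨j, hj⟩ := reach_base G c hs (hG.preconnected r x) i
      rcases hz j with rfl | rfl
      · exact hj
      · exact h01.trans hj
    exact SimpleGraph.Connected.mk (fun u v => (hall u).symm.trans (hall v))
  · exfalso
    apply hn
    have hex : ∀ x, ∃ i, (DC G c hs).Reachable (r, 0) (x, i) := by
      intro x
      obtain ⟨j, hj⟩ := reach_base G c hs (hG.preconnected r x) 0
      rcases hz j with rfl | rfl
      · exact ⟨0, hj⟩
      · refine ⟨1, ?_⟩
        have := reach_shift G c hs 1 hj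
        simp only [CharTwo.add_self_eq_zero, zero_add] at this
        exact this
    choose φ hφ using hex
    have huniq : ∀ x i, (DC G c hs).Reachable (r, 0) (x, i) → i = φ x := by
      intro x i hi
      by_contra hne
      apply h01
      have h1 : φ x = i + 1 := by
        rcases hz i with rfl | rfl <;> rcases hz (φ x) with h | h <;> rw [h] at hne ⊢
        · exact absurd rfl hne
        · rw [zero_add]
        · rw [CharTwo.add_self_eq_zero]
        · exact absurd rfl hne
      have h2 := reach_shift G c hs 1 hi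
      simp only [zero_add] at h2
      rw [← h1] at h2
      exact (hφ x).trans h2.symm
    refine ⟨φ, fun x y hxy => ?_⟩
    have hadj : (DC G c hs).Adj (x, φ x) (y, φ x + c x y) := ⟨hxy, rfl⟩
    have := huniq y _ ((hφ x).trans hadj.reachable)
    rw [← this]
    ring

theorem dc_chi (G : SimpleGraph V) [DecidableRel G.Adj] (c : V → V → ZMod 2)
    (hs : ∀ x y, c x y = c y x) [DecidableRel (DC G c hs).Adj]
    (hc : ∀ x y z, G.Adj x y → G.Adj y z → G.Adj x z → c x y + c y z = c x z) (hl : LCy G)
    (hχ : (Fintype.card V : ℤ) - (G.edgeFinset.card : ℤ) + ((G.cliqueFinset 3).card : ℤ) = 1) :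
    (Fintype.card (V × ZMod 2) : ℤ) - ((DC G c hs).edgeFinset.card : ℤ) +
      (((DC G c hs).cliqueFinset 3).card : ℤ) = 2 := by
  classical
  have hdeg : ∀ x i, (DC G c hs).degree (x, i) = G.degree x := by
    intro x i
    rw [← SimpleGraph.card_neighborFinset_eq_degree, ← SimpleGraph.card_neighborFinset_eq_degree]
    have himg : (DC G c hs).neighborFinset (x, i) =
        (G.neighborFinset x).image (fun w => (w, i + c x w)) := by
      ext ⟨w, k⟩
      simp only [SimpleGraph.mem_neighborFinset, Finset.mem_image, Prod.mk.injEq]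
      constructor
      · rintro ⟨h1, h2⟩
        exact ⟨w, h1, rfl, h2.symm⟩
      · rintro ⟨w', h1, rfl, h2⟩
        exact ⟨h1, h2.symm⟩
    rw [himg, Finset.card_image_of_injective]
    intro w w' hww
    simp only [Prod.mk.injEq] at hww
    exact hww.1
  have hE : (DC G c hs).edgeFinset.card = 2 * G.edgeFinset.card := by
    have h1 := (DC G c hs).sum_degrees_eq_twice_card_edges
    have h2 := G.sum_degrees_eq_twice_card_edges
    rw [Fintype.sum_prod_type] at h1
    have h3 : ∀ x : V, ∑ i : ZMod 2, (DC G c hs).degree (x, i) = 2 * G.degree x := by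
      intro x
      rw [Finset.sum_congr rfl (fun i _ => hdeg x i), Finset.sum_const, Finset.card_univ,
        ZMod.card, smul_eq_mul]
    rw [Finset.sum_congr rfl (fun x _ => h3 x), ← Finset.mul_sum, h2] at h1
    omega
  have hF := three_mul_faces G hl
  have hF' := three_mul_faces (DC G c hs) (dc_lcy G c hs hc hl)
  have hV : Fintype.card (V × ZMod 2) = Fintype.card V * 2 := by
    rw [Fintype.card_prod, ZMod.card]
  rw [hV]
  push_cast
  omega

/-- the double cover with the deck transformation -/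
def dcAG (G : SimpleGraph V) (c : V → V → ZMod 2) (hs : ∀ x y, c x y = c y x) :
    AG (Multiplicative (ZMod 2)) where
  V := V × ZMod 2
  R := RG (DC G c hs)
  refl := fun x => Or.inl rfl
  symm := by
    rintro x y (h | h)
    · exact Or.inl h.symm
    · exact Or.inr h.symm
  act := fun a x => (x.1, x.2 + a.toAdd)
  act_one := by intro x; simp
  act_mul := by
    intro a b x
    simp only [toAdd_mul, Prod.mk.injEq, true_and]
    ring
  act_R := by
    rintro a x y (h | ⟨h1, h2⟩)
    · exact Or.inl (by rw [h])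
    · refine Or.inr ⟨h1, ?_⟩
      simp only at h2 ⊢
      rw [h2]
      ring

theorem dc_disp (G : SimpleGraph V) (c : V → V → ZMod 2) (hs : ∀ x y, c x y = c y x)
    (hc : ∀ x y z, G.Adj x y → G.Adj y z → G.Adj x z → c x y + c y z = c x z) :
    Disp (dcAG G c hs) := by
  rintro a ha ⟨x, i⟩ ⟨y, j⟩ ⟨z, k⟩ h1 h2 h3
  have hz : ∀ t : ZMod 2, t = 0 ∨ t = 1 := by decide
  have ha1 : a.toAdd = 1 := by
    rcases hz a.toAdd with h | h
    · exact absurd (Multiplicative.toAdd.injective (by rw [h]; rfl)) ha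
    · exact h
  have h1' : RG (DC G c hs) (x, i) (y, j) := h1
  have h2' : RG (DC G c hs) (y, j) (z, k) := h2
  have h3' : RG (DC G c hs) (z, k) (x, i + a.toAdd) := h3
  rw [ha1] at h3'
  have hd : ∀ t : ZMod 2, t + t = 0 := fun t => CharTwo.add_self_eq_zero t
  have h10 : (1 : ZMod 2) ≠ 0 := by decide
  rcases h1' with e1 | ⟨g1, q1⟩ <;> rcases h2' with e2 | ⟨g2, q2⟩ <;>
    rcases h3' with e3 | ⟨g3, q3⟩
  · simp only [Prod.mk.injEq] at e1 e2 e3
    obtain ⟨rfl, rfl⟩ := e1
    obtain ⟨rfl, rfl⟩ := e2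
    apply h10
    have := e3.2
    exact add_eq_left.mp this.symm
  · simp only [Prod.mk.injEq] at e1 e2
    obtain ⟨rfl, rfl⟩ := e1
    obtain ⟨rfl, rfl⟩ := e2
    exact G.loopless.irrefl _ g3
  · simp only [Prod.mk.injEq] at e1 e3
    obtain ⟨rfl, rfl⟩ := e1
    simp only at g2
    rw [e3.1] at g2
    exact G.loopless.irrefl _ g2
  · simp only [Prod.mk.injEq] at e1
    obtain ⟨rfl, rfl⟩ := e1
    simp only at q2 q3
    apply h10
    have h4 : i + 1 = i + (c x z + c z x) := by rw [q3, q2]; ring
    rw [hs z x, hd] at h4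
    exact add_left_cancel h4
  · simp only [Prod.mk.injEq] at e2 e3
    obtain ⟨rfl, rfl⟩ := e2
    simp only at g1
    rw [e3.1] at g1
    exact G.loopless.irrefl _ g1
  · simp only [Prod.mk.injEq] at e2
    obtain ⟨rfl, rfl⟩ := e2
    simp only at q1 q3
    apply h10
    have h4 : i + 1 = i + (c x y + c y x) := by rw [q3, q1]; ring
    rw [hs y x, hd] at h4
    exact add_left_cancel h4
  · simp only [Prod.mk.injEq] at e3
    obtain ⟨e31, e32⟩ := e3
    subst e31
    simp only at q1 q2
    apply h10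
    have h4 : i + 1 = i + (c z y + c y z) := by rw [← e32, q2, q1]; ring
    rw [hs y z, hd] at h4
    exact add_left_cancel h4
  · simp only at g1 q1 g2 q2 g3 q3
    apply h10
    have h5 := hc x y z g1 g2 g3.symm
    have h4 : i + 1 = i + (c x y + c y z + c z x) := by rw [q3, q2, q1]; ring
    rw [h5, hs z x, hd] at h4
    exact add_left_cancel h4

theorem dc_isQ (G : SimpleGraph V) (c : V → V → ZMod 2) (hs : ∀ x y, c x y = c y x) :
    IsQ (dcAG G c hs) G := by
  refine ⟨fun u : V × ZMod 2 => u.1, ?_, ?_, ?_⟩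
  · intro x
    exact ⟨((x, 0) : V × ZMod 2), rfl⟩
  · rintro ⟨x, i⟩ ⟨y, j⟩
    constructor
    · intro h
      simp only at h
      subst h
      refine ⟨Multiplicative.ofAdd (j - i), ?_⟩
      change (x, j) = (x, i + (j - i))
      rw [add_sub_cancel]
    · rintro ⟨a, ha⟩
      have ha' : (y, j) = (x, i + a.toAdd) := ha
      exact (Prod.mk.inj ha').1.symm
  · rintro ⟨x, i⟩ ⟨y, j⟩
    constructor
    · intro h
      simp only at h
      refine ⟨h.ne, Multiplicative.ofAdd (i + c x y - j), Or.inr ⟨h, ?_⟩⟩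
      change j + (i + c x y - j) = i + c x y
      ring
    · rintro ⟨hne, a, h | h⟩
      · exfalso
        have ha' : (x, i) = (y, j + a.toAdd) := h
        exact hne (Prod.mk.inj ha').1
      · exact h.1

end Pool.Agent.H71.Clq
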