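import Mathlib
import Pool.Agent.H71.Clq.Pres

set_option autoImplicit false

/-!
# Module PIG: bounded numbers of orbits give an equivariant isomorphism

For `n : ℕ` and `a : A` let `WL Γ n a` say that some vertex `x` can be moved to `a x` by a walk of
length `n` (`R` is reflexive, so shorter walks are included; `n ≥ 1`).
* `WL Γ.K n a → WL Γ n a` for `n ≥ 1`: for a walk `Q₀, …, Q_n = a Q₀` choose `x_i ∈ Q_i ∩ Q_{i+1}`
  for `i < n`; then `x_0, …, x_{n-1}, a x_0` is a walk (`x_{n-1}, a x_0 ∈ a Q₀`).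
* `{a | WL Γ n a}` is finite: by `CoF` the start can be taken in the finite set `S` (conjugate: if the walk
  starts at `b y`, then translate by `b⁻¹`: the walk goes from `y` to `b⁻¹ a b y`; so this argument gives
  finiteness only up to conjugation; hence we assume `A` commutative: then `b⁻¹ a b = a`).
  By `LF` there are finitely many end points, and `a y = a' y` implies `a = a'` by `Disp`.
* Let `Orb (K^m Γ)` have at most `N` elements for all `m`. In `H = K^m Γ` every orbit meets the ball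
  of radius `N` around a vertex `x₀` (connectedness). So there is `x : Fin N → H.V` with values in this
  ball, meeting all orbits. Let `D i j = {a | R (x i) (a x_j)}`, `E i j = {a | x i = a x_j}`. All
  these sets are contained in the finite set `{a | WL Γ (2 N + 1) a}`. So there are finitely many possible
  `(D, E)`; by the pigeonhole principle two numbers `m < m'` of the same parity have the same `(D, E)`.
  Then `a x_i ↦ a x'_i` is an equivariant isomorphism.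
-/

namespace Pool.Agent.H71.Clq

namespace Pig

section walks

variable {A : Type} [Group A]

/-- walks of length `n` -/
def Rn (Γ : AG A) : ℕ → Γ.V → Γ.V → Prop
  | 0, x, y => x = y
  | n + 1, x, y => ∃ z, Rn Γ n x z ∧ Γ.R z y

theorem Rn_succ_of {Γ : AG A} {n : ℕ} {x y : Γ.V} (h : Rn Γ n x y) : Rn Γ (n + 1) x y :=
  ⟨y, h, Γ.refl y⟩

theorem Rn_mono {Γ : AG A} {n n' : ℕ} (hn : n ≤ n') {x y : Γ.V} (h : Rn Γ n x y) :
    Rn Γ n' x y := by
  induction hn with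
  | refl => exact h
  | step _ ih => exact Rn_succ_of ih

theorem Rn_self (Γ : AG A) (n : ℕ) (x : Γ.V) : Rn Γ n x x :=
  Rn_mono (Nat.zero_le n) (rfl : x = x)

theorem Rn_act {Γ : AG A} (a : A) : ∀ {n : ℕ} {x y : Γ.V}, Rn Γ n x y →
    Rn Γ n (Γ.act a x) (Γ.act a y)
  | 0, x, y, h => by
      have h' : x = y := h
      subst h'
      exact Rn_self Γ 0 _
  | n + 1, x, y, ⟨z, h1, h2⟩ => ⟨Γ.act a z, Rn_act a h1, Γ.act_R a z y h2⟩

theorem Rn_trans {Γ : AG A} {n : ℕ} {x y : Γ.V} (h : Rn Γ n x y) :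
    ∀ {m : ℕ} {z : Γ.V}, Rn Γ m y z → Rn Γ (n + m) x z
  | 0, z, h' => by
      have h'' : y = z := h'
      subst h''
      exact h
  | m + 1, z, ⟨u, h1, h2⟩ => ⟨u, Rn_trans h h1, h2⟩

theorem Rn_one {Γ : AG A} {x y : Γ.V} (h : Γ.R x y) : Rn Γ 1 x y := ⟨x, rfl, h⟩

theorem Rn_symm {Γ : AG A} : ∀ {n : ℕ} {x y : Γ.V}, Rn Γ n x y → Rn Γ n y x
  | 0, x, y, h => by
      have h' : x = y := h
      subst h'
      exact Rn_self Γ 0 _
  | n + 1, x, y, ⟨z, h1, h2⟩ => by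
      have := Rn_trans (Rn_one (Γ.symm z y h2)) (Rn_symm h1)
      rwa [Nat.add_comm] at this

theorem Rn_finite {Γ : AG A} (h : LF Γ) (x : Γ.V) : ∀ n : ℕ, {y | Rn Γ n x y}.Finite
  | 0 => (Set.finite_singleton x).subset fun y hy => (show x = y from hy).symm
  | n + 1 => by
      refine ((Rn_finite h x n).biUnion fun z _ => h z).subset ?_
      rintro y ⟨z, h1, h2⟩
      simp only [Set.mem_iUnion, Set.mem_ofPred_eq]
      exact ⟨z, h1, h2⟩

/-- some vertex is moved by a walk of length `n` -/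
def WL (Γ : AG A) (n : ℕ) (a : A) : Prop := ∃ x, Rn Γ n x (Γ.act a x)

theorem mcne {Γ : AG A} (hne : Nonempty Γ.V) (s : MC Γ.R) : s.1.Nonempty := by
  obtain ⟨v⟩ := hne
  by_contra h
  rw [Set.not_nonempty_iff_eq_empty] at h
  have := s.2.2 v (by
    intro x hx
    rw [h] at hx
    exact hx.elim)
  rw [h] at this
  exact this

theorem KR_meet {Γ : AG A} (hne : Nonempty Γ.V) {s t : MC Γ.R} (h : KR Γ.R s t) :
    ∃ x, x ∈ s.1 ∧ x ∈ t.1 := by
  rcases h with h | ⟨x, h1, h2⟩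
  · obtain ⟨x, hx⟩ := mcne hne s
    exact ⟨x, hx, h ▸ hx⟩
  · exact ⟨x, h1, h2⟩

theorem Rn_K {Γ : AG A} (hne : Nonempty Γ.V) : ∀ {n : ℕ} {s t : MC Γ.R},
    Rn Γ.K (n + 1) s t → ∃ x ∈ s.1, ∃ y ∈ t.1, Rn Γ n x y
  | 0, s, t, ⟨z, h1, h2⟩ => by
      have h' : s = z := h1
      subst h'
      obtain ⟨x, hx, hx'⟩ := KR_meet hne (show KR Γ.R s t from h2)
      exact ⟨x, hx, x, hx', rfl⟩
  | n + 1, s, t, ⟨u, h1, h2⟩ => by
      obtain ⟨x, hx, y, hy, hxy⟩ := Rn_K hne h1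
      obtain ⟨z, hz, hz'⟩ := KR_meet hne (show KR Γ.R u t from h2)
      exact ⟨x, hx, z, hz', y, hxy, (show MC Γ.R from u).2.1 y hy z hz⟩

theorem WL_K {Γ : AG A} (hne : Nonempty Γ.V) {n : ℕ} {a : A} (h : WL Γ.K (n + 1) a) :
    WL Γ (n + 1) a := by
  obtain ⟨s, hs⟩ := h
  obtain ⟨x, hx, y, hy, hxy⟩ := Rn_K hne hs
  refine ⟨x, y, hxy, ?_⟩
  have h1 : Γ.act a x ∈ (mcImage Γ a s).1 := ⟨x, hx, rfl⟩
  exact (mcImage Γ a s).2.1 y hy _ h1

theorem WL_iter {Γ : AG A} (hn : Nice Γ) {n : ℕ} {a : A} (m : ℕ)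
    (h : WL (AG.K^[m] Γ) (n + 1) a) : WL Γ (n + 1) a := by
  induction m with
  | zero => exact h
  | succ m ih =>
      rw [Function.iterate_succ_apply'] at h
      exact ih (WL_K (nice_iter Γ hn m).ne h)

theorem orb_eq {Γ : AG A} {x y : Γ.V} :
    (Quot.mk _ x : Orb Γ) = Quot.mk _ y ↔ ∃ a : A, y = Γ.act a x := by
  constructor
  · intro h
    have h1 := Quot.eqvGen_exact h
    clear h
    induction h1 with
    | rel x y h => exact h
    | refl x => exact ⟨1, (Γ.act_one x).symm⟩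
    | symm x y _ ih =>
        obtain ⟨a, ha⟩ := ih
        refine ⟨a⁻¹, ?_⟩
        rw [ha, ← Γ.act_mul, inv_mul_cancel, Γ.act_one]
    | trans x y z h1 h2 ih1 ih2 =>
        obtain ⟨a, ha⟩ := ih1
        obtain ⟨b, hb⟩ := ih2
        refine ⟨b * a, ?_⟩
        rw [hb, ha, ← Γ.act_mul]
  · rintro ⟨a, ha⟩
    exact Quot.sound ⟨a, ha⟩

/-- the orbits meeting a ball -/
def TT (Γ : AG A) (x₀ : Γ.V) (n : ℕ) : Set (Orb Γ) := {o | ∃ y, Rn Γ n x₀ y ∧ Quot.mk _ y = o}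

theorem TT_mono (Γ : AG A) (x₀ : Γ.V) {n n' : ℕ} (h : n ≤ n') : TT Γ x₀ n ⊆ TT Γ x₀ n' := by
  rintro o ⟨y, h1, h2⟩
  exact ⟨y, Rn_mono h h1, h2⟩

theorem TT_univ {Γ : AG A} (hc : Cn Γ.R) (x₀ : Γ.V) {n : ℕ} (h : TT Γ x₀ (n + 1) ⊆ TT Γ x₀ n) :
    TT Γ x₀ n = Set.univ := by
  rw [Set.eq_univ_iff_forall]
  intro o
  induction o using Quot.ind with
  | _ y =>
    have hy := hc x₀ y
    induction hy with
    | refl => exact ⟨x₀, Rn_self Γ n x₀, rfl⟩
    | @tail u z _ hyz ih =>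
        obtain ⟨y', h1, h2⟩ := ih
        obtain ⟨a, ha⟩ := orb_eq.1 h2
        apply h
        refine ⟨Γ.act a⁻¹ z, ⟨y', h1, ?_⟩, ?_⟩
        · have := Γ.act_R a⁻¹ u z hyz
          rwa [ha, ← Γ.act_mul, inv_mul_cancel, Γ.act_one] at this
        · refine orb_eq.2 ⟨a, ?_⟩
          rw [← Γ.act_mul, mul_inv_cancel, Γ.act_one]

theorem TT_all {Γ : AG A} (hc : Cn Γ.R) (x₀ : Γ.V) {N : ℕ} [Finite (Orb Γ)]
    (hN : Nat.card (Orb Γ) ≤ N) : TT Γ x₀ N = Set.univ := by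
  by_contra hne
  have hlt : ∀ n, n ≤ N → n + 1 ≤ (TT Γ x₀ n).ncard := by
    intro n
    induction n with
    | zero =>
        intro _
        have : (TT Γ x₀ 0).Nonempty := ⟨Quot.mk _ x₀, x₀, rfl, rfl⟩
        exact (Set.ncard_pos (Set.toFinite _)).2 this
    | succ n ih =>
        intro hn
        have h1 := ih (by omega)
        have h2 : TT Γ x₀ n ⊂ TT Γ x₀ (n + 1) := by
          refine ⟨TT_mono Γ x₀ (Nat.le_succ n), fun h => hne ?_⟩
          have h3 := TT_univ hc x₀ h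
          refine Set.eq_univ_of_univ_subset ?_
          rw [← h3]
          exact TT_mono Γ x₀ (by omega)
        have h3 := Set.ncard_lt_ncard h2 (Set.toFinite _)
        omega
  have h1 := hlt N le_rfl
  have h2 : (TT Γ x₀ N).ncard ≤ Nat.card (Orb Γ) := Set.ncard_le_card _
  omega

theorem exists_reps {Γ : AG A} (hn : Nice Γ) {N : ℕ} (hf : Finite (Orb Γ))
    (hN : Nat.card (Orb Γ) ≤ N) : ∃ x : Fin N → Γ.V, (∀ y, ∃ i a, y = Γ.act a (x i)) ∧
      ∀ i j a, Γ.R (x i) (Γ.act a (x j)) → WL Γ (2 * N + 1) a := by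
  obtain ⟨x₀⟩ := hn.ne
  have hall := TT_all hn.cn x₀ hN
  have hrep : ∀ o : Orb Γ, ∃ y, Rn Γ N x₀ y ∧ Quot.mk _ y = o := by
    intro o
    have : o ∈ TT Γ x₀ N := by rw [hall]; trivial
    exact this
  choose r hr1 hr2 using hrep
  -- a surjection from `Fin N`
  obtain ⟨σ, hσ⟩ : ∃ σ : Fin N → Orb Γ, Function.Surjective σ := by
    have : Nonempty (Orb Γ) := ⟨Quot.mk _ x₀⟩
    let g : Orb Γ → Fin N := fun o => Fin.castLE hN (Finite.equivFin (Orb Γ) o)
    have hg : Function.Injective g :=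
      (Fin.castLE_injective hN).comp (Finite.equivFin (Orb Γ)).injective
    exact ⟨Function.invFun g, Function.invFun_surjective hg⟩
  refine ⟨fun i => r (σ i), ?_, ?_⟩
  · intro y
    obtain ⟨i, hi⟩ := hσ (Quot.mk _ y)
    have h1 : (Quot.mk _ (r (σ i)) : Orb Γ) = Quot.mk _ y := by rw [hr2, hi]
    obtain ⟨a, ha⟩ := orb_eq.1 h1
    exact ⟨i, a, ha⟩
  · intro i j a h
    refine ⟨x₀, ?_⟩
    have h1 := hr1 (σ i)
    have h2 : Rn Γ N (Γ.act a (r (σ j))) (Γ.act a x₀) := Rn_act a (Rn_symm (hr1 (σ j)))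
    have h3 := Rn_trans (Rn_trans h1 (Rn_one h)) h2
    have h4 : N + 1 + N = 2 * N + 1 := by ring
    rwa [h4] at h3

/-- the isomorphism given by equal codes -/
theorem exists_EI {Γ Δ : AG A} {N : ℕ} (x : Fin N → Γ.V) (y : Fin N → Δ.V)
    (hx : ∀ u, ∃ i a, u = Γ.act a (x i)) (hy : ∀ u, ∃ i a, u = Δ.act a (y i))
    (hD : ∀ i j a, Γ.R (x i) (Γ.act a (x j)) ↔ Δ.R (y i) (Δ.act a (y j)))
    (hE : ∀ i j a, x i = Γ.act a (x j) ↔ y i = Δ.act a (y j)) : Nonempty (EI Γ Δ) := by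
  have aux : ∀ (Θ : AG A) (u v : Θ.V) (a b : A), Θ.act a u = Θ.act b v ↔
      u = Θ.act (a⁻¹ * b) v := by
    intro Θ u v a b
    constructor
    · intro h
      rw [Θ.act_mul, ← h, ← Θ.act_mul, inv_mul_cancel, Θ.act_one]
    · intro h
      rw [h, ← Θ.act_mul, mul_inv_cancel_left]
  have auxR : ∀ (Θ : AG A) (u v : Θ.V) (a b : A), Θ.R (Θ.act a u) (Θ.act b v) ↔
      Θ.R u (Θ.act (a⁻¹ * b) v) := by
    intro Θ u v a b
    constructor
    · intro h
      have := Θ.act_R a⁻¹ _ _ h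
      rwa [← Θ.act_mul, ← Θ.act_mul, inv_mul_cancel, Θ.act_one] at this
    · intro h
      have := Θ.act_R a _ _ h
      rwa [← Θ.act_mul, mul_inv_cancel_left] at this
  choose ix ax hax using hx
  set g : Γ.V → Δ.V := fun u => Δ.act (ax u) (y (ix u)) with hg
  have hg1 : ∀ i a, g (Γ.act a (x i)) = Δ.act a (y i) := by
    intro i a
    simp only [hg]
    have h1 := hax (Γ.act a (x i))
    rw [aux, hE] at h1
    rw [eq_comm, aux]
    exact h1
  have hgi : Function.Injective g := by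
    intro u v huv
    rw [hax u, hax v] at huv ⊢
    rw [hg1, hg1, aux, ← hE] at huv
    rw [aux]
    exact huv
  have hgs : Function.Surjective g := by
    intro v
    obtain ⟨i, a, rfl⟩ := hy v
    exact ⟨Γ.act a (x i), hg1 i a⟩
  refine ⟨⟨Equiv.ofBijective g ⟨hgi, hgs⟩, ?_, ?_⟩⟩
  · intro u v
    change Δ.R (g u) (g v) ↔ Γ.R u v
    rw [hax u, hax v, hg1, hg1, auxR, auxR, hD]
  · intro a u
    change g (Γ.act a u) = Δ.act a (g u)
    rw [hax u, ← Γ.act_mul, hg1, hg1, Δ.act_mul]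

end walks

theorem WL_finite {A : Type} [CommGroup A] {Γ : AG A} (hn : Nice Γ) (n : ℕ) :
    {a | WL Γ n a}.Finite := by
  obtain ⟨S, hS, hS'⟩ := hn.cof
  have hinj : ∀ y : Γ.V, Function.Injective (fun a : A => Γ.act a y) := by
    intro y a a' h
    simp only at h
    by_contra hne
    refine hn.disp (a'⁻¹ * a) ?_ y y y (Γ.refl y) (Γ.refl y) ?_
    · intro h1
      apply hne
      have := congrArg (fun z => a' * z) h1
      simpa using this
    · rw [Γ.act_mul, h, ← Γ.act_mul, inv_mul_cancel, Γ.act_one]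
      exact Γ.refl y
  have h1 : (⋃ y ∈ S, (fun a : A => Γ.act a y) ⁻¹' {z | Rn Γ n y z}).Finite :=
    hS.biUnion fun y _ => (Rn_finite hn.lf y n).preimage ((hinj y).injOn)
  refine h1.subset ?_
  rintro a ⟨x, hx⟩
  obtain ⟨b, y, hy, rfl⟩ := hS' x
  simp only [Set.mem_iUnion, Set.mem_preimage, Set.mem_ofPred_eq]
  refine ⟨y, hy, ?_⟩
  have := Rn_act b⁻¹ hx
  rw [← Γ.act_mul, ← Γ.act_mul, ← Γ.act_mul, inv_mul_cancel, Γ.act_one] at this
  have h2 : b⁻¹ * a * b = a := by rw [mul_assoc, mul_comm a b, inv_mul_cancel_left]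
  rwa [h2] at this

end Pig

open Pig in
theorem pigeon {A : Type} [CommGroup A] (Γ : AG A) (hn : Nice Γ) (N : ℕ)
    (hN : ∀ m, Finite (Orb (AG.K^[m] Γ)) ∧ Nat.card (Orb (AG.K^[m] Γ)) ≤ N) :
    ∃ m q : ℕ, 1 ≤ q ∧ Nonempty (EI (AG.K^[m] Γ) (AG.K^[m + 2 * q] Γ)) := by
  have hF := WL_finite hn (2 * N + 1)
  set F : Set A := {a | WL Γ (2 * N + 1) a} with hFdef
  have : Finite F := hF
  have hcode : ∀ j : ℕ, ∃ x : Fin N → (AG.K^[2 * j] Γ).V,
      (∀ y, ∃ i a, y = (AG.K^[2 * j] Γ).act a (x i)) ∧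
      ∀ i i' a, (AG.K^[2 * j] Γ).R (x i) ((AG.K^[2 * j] Γ).act a (x i')) → a ∈ F := by
    intro j
    obtain ⟨x, h1, h2⟩ := exists_reps (nice_iter Γ hn (2 * j)) (hN (2 * j)).1 (hN (2 * j)).2
    exact ⟨x, h1, fun i i' a h => WL_iter hn (2 * j) (h2 i i' a h)⟩
  choose X hX1 hX2 using hcode
  let code : ℕ → Fin N → Fin N → Set F × Set F := fun j i i' =>
    ({a | (AG.K^[2 * j] Γ).R (X j i) ((AG.K^[2 * j] Γ).act (a : A) (X j i'))},
      {a | X j i = (AG.K^[2 * j] Γ).act (a : A) (X j i')})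
  have key : ∀ j j', code j = code j' →
      Nonempty (EI (AG.K^[2 * j] Γ) (AG.K^[2 * j'] Γ)) := by
    intro j j' h
    have hE2 : ∀ (l : ℕ) (i i' : Fin N) (a : A), X l i = (AG.K^[2 * l] Γ).act a (X l i') → a ∈ F := by
      intro l i i' a h
      apply hX2 l i i' a
      rw [← h]
      exact (AG.K^[2 * l] Γ).refl _
    refine exists_EI (X j) (X j') (hX1 j) (hX1 j') ?_ ?_
    · intro i i' a
      by_cases ha : a ∈ F
      · have h1 := congrArg Prod.fst (congrFun (congrFun h i) i')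
        have h2 := Set.ext_iff.1 h1 ⟨a, ha⟩
        exact h2
      · exact ⟨fun h => (ha (hX2 _ _ _ _ h)).elim, fun h => (ha (hX2 _ _ _ _ h)).elim⟩
    · intro i i' a
      by_cases ha : a ∈ F
      · have h1 := congrArg Prod.snd (congrFun (congrFun h i) i')
        have h2 := Set.ext_iff.1 h1 ⟨a, ha⟩
        exact h2
      · exact ⟨fun h => (ha (hE2 _ _ _ _ h)).elim, fun h => (ha (hE2 _ _ _ _ h)).elim⟩
  obtain ⟨j, j', hne, hjj⟩ := Finite.exists_ne_map_eq_of_infinite code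
  rcases lt_or_gt_of_ne hne with hlt | hlt
  · refine ⟨2 * j, j' - j, by omega, ?_⟩
    have h1 : 2 * j + 2 * (j' - j) = 2 * j' := by omega
    rw [h1]
    exact key j j' hjj
  · refine ⟨2 * j', j - j', by omega, ?_⟩
    have h1 : 2 * j' + 2 * (j - j') = 2 * j := by omega
    rw [h1]
    exact key j' j hjj.symm

end Pool.Agent.H71.Clq
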