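import Mathlib
import Pool.Agent.H71.Clq.LG
import Pool.Agent.H71.Clq.Fold
import Pool.Agent.H71.Clq.Pig
import Pool.Agent.H71.Clq.Quo
import Pool.Agent.H71.Clq.Dbl
import Pool.Agent.H71.Clq.Coc
import Pool.Agent.H71.Clq.Link

set_option autoImplicit false

/-!
# Divergence of finite graphs with finite simply connected cover
-/

namespace Pool.Agent.H71.Clq

/-- inverse of an equivariant isomorphism -/
def EI.inv {A : Type} [Group A] {Γ Δ : AG A} (e : EI Γ Δ) : EH Δ Γ where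
  f := e.e.symm
  map_R := by
    intro x y h
    rw [← e.map_R, e.e.apply_symm_apply, e.e.apply_symm_apply]
    exact h
  map_act := by
    intro a x
    apply e.e.injective
    rw [e.map_act, e.e.apply_symm_apply, e.e.apply_symm_apply]

/-- composition -/
def EH.cmp {A : Type} [Group A] {Γ Δ Θ : AG A} (g : EH Δ Θ) (f : EH Γ Δ) : EH Γ Θ where
  f := fun x => g.f (f.f x)
  map_R := fun x y h => g.map_R _ _ (f.map_R x y h)
  map_act := fun a x => by rw [f.map_act, g.map_act]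

theorem finite_iter {A : Type} [Group A] (Γ : AG A) (hfin : Finite Γ.V) (m : ℕ) :
    Finite (AG.K^[m] Γ).V := by
  induction m with
  | zero => exact hfin
  | succ m ih =>
    rw [Function.iterate_succ_apply']
    change Finite {s : Set (AG.K^[m] Γ).V // IsMC (AG.K^[m] Γ).R s}
    infer_instance

/-- minimal good sets lead to a contradiction -/
theorem no_good {A : Type} [CommGroup A] (hA : ∃ a : A, a ≠ 1) (H : AG A) (hn : Nice H)
    (hfin : Finite H.V) (s : EH H H.K.K) (hs : IsStar H s) : ¬ ∃ X, Good H s X := by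
  classical
  intro hex0
  have hex : ∃ k, ∃ X, Good H s X ∧ X.ncard = k := by
    obtain ⟨X, hX⟩ := hex0
    exact ⟨_, X, hX, rfl⟩
  obtain ⟨X, hX, hk⟩ := Nat.find_spec hex
  have hmin : ∀ Y, Good H s Y → X.ncard ≤ Y.ncard := by
    intro Y hY
    rw [hk]
    exact Nat.find_min' hex ⟨Y, hY, rfl⟩
  have het := et_good H s hs X hX
  obtain ⟨⟨o, ho⟩, hinv, ρ, hρ1, hρ2⟩ := id hX
  have hsc : SC (fun x y : X => H.R x.1 y.1) :=
    sc_retract hn.sc X (fun v => ρ.f (s.f v)) (fun v => hρ1 _) hρ2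
      (fun x y h => ρ.map_R _ _ (s.map_R _ _ h))
  obtain ⟨lev, hlev1, hlev2, hlev3⟩ := levels (fun x y : X => H.R x.1 y.1)
    (fun x => H.refl x.1) (fun x y h => H.symm _ _ h) (fun x => Set.toFinite _) het hsc ⟨o, ho⟩
  have hfX : Finite X := inferInstance
  have hneX : Nonempty X := ⟨⟨o, ho⟩⟩
  obtain ⟨x, hx⟩ := Finite.exists_max lev
  by_cases h0 : lev x = 0
  · -- the set is a singleton
    have hall : ∀ y : X, y = ⟨o, ho⟩ := fun y => (hlev1 y).1 (by
      have := hx y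
      omega)
    obtain ⟨a, ha⟩ := hA
    have h1 : H.act a o = o := congrArg Subtype.val (hall ⟨H.act a o, hinv a o ho⟩)
    refine hn.disp a ha o o o (H.refl o) (H.refl o) ?_
    rw [h1]
    exact H.refl o
  · obtain ⟨w, hw1, hw2, hw3⟩ := hlev3 x h0
    have hne : w.1 ≠ x.1 := by
      intro h
      have h' : w = x := Subtype.ext h
      rw [h'] at hw2
      omega
    have hg := good_fold H hn.disp s X hX x.1 w.1 x.2 w.2 hne hw1
      (fun y hy hR => hw3 ⟨y, hy⟩ hR (hx _))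
    have h1 := hmin _ hg
    have h2 : (X \ {y | ∃ a, y = H.act a x.1}) ⊂ X := by
      refine ⟨Set.sdiff_subset, fun h => ?_⟩
      exact (h x.2).2 ⟨1, (H.act_one _).symm⟩
    have h3 := Set.ncard_lt_ncard h2 (Set.toFinite X)
    omega

/-- a finite nice graph with a nontrivial group: the numbers of orbits are unbounded -/
theorem orb_unbounded {A : Type} [CommGroup A] (hA : ∃ a : A, a ≠ 1) (Γ : AG A) (hn : Nice Γ)
    (hfin : Finite Γ.V) (N : ℕ) :
    ¬ ∀ m, Finite (Orb (AG.K^[m] Γ)) ∧ Nat.card (Orb (AG.K^[m] Γ)) ≤ N := by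
  intro hN
  obtain ⟨m, q, hq, ⟨e⟩⟩ := pigeon Γ hn N hN
  have hnH := nice_iter Γ hn m
  have hfH := finite_iter Γ hfin m
  have he : AG.K^[m + 2 * q] Γ = AG.K^[2 * q] (AG.K^[m] Γ) := by
    rw [Nat.add_comm, Function.iterate_add_apply]
  rw [he] at e
  obtain ⟨u0⟩ := exists_u (AG.K^[m] Γ) hnH q hq
  obtain ⟨s, hs⟩ := exists_star (AG.K^[m] Γ) hnH.disp
  exact no_good hA _ hnH hfH s hs (exists_good _ hnH s hs (EH.cmp e.inv u0))

theorem quotient_divergent {A : Type} [CommGroup A] (hA : ∃ a : A, a ≠ 1) (Γ : AG A) (hn : Nice Γ)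
    (hfin : Finite Γ.V) {W : Type} (G : SimpleGraph W) (hQ : IsQ Γ G) (N : ℕ) :
    ∃ m, N < Nat.card (kstep^[m] ⟨W, G⟩).1 := by
  by_contra hcon
  push Not at hcon
  apply orb_unbounded hA Γ hn hfin N
  intro m
  have hfH := finite_iter Γ hfin m
  have h1 : Finite (Orb (AG.K^[m] Γ)) := Quot.finite _
  refine ⟨h1, ?_⟩
  obtain ⟨e⟩ := card_orb (AG.K^[m] Γ) (kstep^[m] ⟨W, G⟩).2 (isQ_iter Γ hn G hQ m)
  rw [Nat.card_congr e]
  exact hcon m

theorem p2_divergent (V : Type) [Fintype V] [DecidableEq V] (G : SimpleGraph V)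
    [DecidableRel G.Adj] (hc : G.Connected)
    (hl : ∀ v : V, ∃ n : ℕ, 3 ≤ n ∧
        Nonempty (SimpleGraph.Iso (SimpleGraph.induce (G.neighborSet v) G)
          (SimpleGraph.cycleGraph n)))
    (hχ : (Fintype.card V : ℤ) - (G.edgeFinset.card : ℤ) + ((G.cliqueFinset 3).card : ℤ) = 1)
    (N : ℕ) : ∃ m : ℕ, N < Nat.card (kstep^[m] ⟨V, G⟩).1 := by
  classical
  have hL : LCy G := lcy_of_cycle G hl
  have hV : Nonempty V := hc.nonempty
  obtain ⟨v⟩ := hV
  have hne : ∃ x y, G.Adj x y := by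
    obtain ⟨n, hn, ⟨e⟩⟩ := hl v
    have : Nonempty (Fin n) := ⟨⟨0, by omega⟩⟩
    obtain ⟨i⟩ := this
    exact ⟨v, (e.symm i).1, (e.symm i).2⟩
  obtain ⟨c, hs, hcc, hn⟩ := exists_cocycle G hc hL hne hχ
  have hconn := dc_conn G c hs hc hn
  have hsc : SC (RG (DC G c hs)) := sphere_sc (DC G c hs) hconn (dc_lcy G c hs hcc hL)
    (dc_chi G c hs hcc hL hχ)
  have hcn : Cn (RG (DC G c hs)) := by
    intro x y
    obtain ⟨p⟩ := hconn.preconnected x y
    induction p with
    | nil => exact Relation.ReflTransGen.refl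
    | cons h p ih => exact Relation.ReflTransGen.head (Or.inr h) ih
  have hnice : Nice (dcAG G c hs) := by
    have hfV : Finite (dcAG G c hs).V := inferInstanceAs (Finite (V × ZMod 2))
    refine ⟨⟨(v, 0)⟩, dc_disp G c hs hcc, fun x => Set.toFinite _,
      ⟨Set.univ, Set.toFinite _, fun x => ⟨1, x, Set.mem_univ _, ((dcAG G c hs).act_one x).symm⟩⟩,
      hcn, hsc⟩
  exact quotient_divergent ⟨Multiplicative.ofAdd (1 : ZMod 2), by decide⟩ (dcAG G c hs) hnice
    (inferInstanceAs (Finite (V × ZMod 2))) G (dc_isQ G c hs) N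

end Pool.Agent.H71.Clq
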