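import Mathlib
import Pool.Agent.H71.Clq.Final

set_option autoImplicit false

/-!
# Module COVER: a graph with a divergent double cover is divergent

`Γ = dcAG G c hs`: nonempty, `Disp` (`dc_disp`), `IsQ Γ G` (`dc_isQ`).
* `isQ_iter2`: like `isQ_iter` with only nonemptiness and `Disp` (`nonempty_K`, `disp_K`).
* The vertices of `K^m Γ` (forgetting the action) are those of the `m`-th iterated clique graph of `DC G c`: apply `isQ_iter2`, `card_orb` to the same graph with the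
  action of the trivial group (`Unit`): `triv Γ`; `(triv Γ).K = triv Γ.K` by `rfl`; `Disp` is vacuous; `IsQ (triv Γ) (DC G c hs)` with the identity;
  orbits of the trivial group are points.
* `|K^m Γ| ≤ 2 |Orb (K^m Γ)|` (the group has two elements).
-/

namespace Pool.Agent.H71.Clq

theorem iter_nd {A : Type} [Group A] (Γ : AG A) (hne : Nonempty Γ.V) (hd : Disp Γ) (m : ℕ) :
    Nonempty (AG.K^[m] Γ).V ∧ Disp (AG.K^[m] Γ) := by
  induction m with
  | zero => exact ⟨hne, hd⟩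
  | succ m ih =>
    rw [Function.iterate_succ_apply']
    exact ⟨nonempty_K _ ih.1, disp_K _ ih.1 ih.2⟩

theorem isQ_iter2 {A : Type} [Group A] (Γ : AG A) (hne : Nonempty Γ.V) (hd : Disp Γ) {W : Type}
    (G : SimpleGraph W) (h : IsQ Γ G) (m : ℕ) : IsQ (AG.K^[m] Γ) (kstep^[m] ⟨W, G⟩).2 := by
  induction m with
  | zero => exact h
  | succ m ih =>
    rw [Function.iterate_succ_apply', Function.iterate_succ_apply']
    exact isQ_K _ (iter_nd Γ hne hd m).1 (iter_nd Γ hne hd m).2 _ ih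

/-- the same graph with the action of the trivial group -/
def triv {A : Type} [Group A] (Γ : AG A) : AG Unit where
  V := Γ.V
  R := Γ.R
  refl := Γ.refl
  symm := Γ.symm
  act := fun _ x => x
  act_one := fun _ => rfl
  act_mul := fun _ _ _ => rfl
  act_R := fun _ _ _ h => h

theorem triv_K {A : Type} [Group A] (Γ : AG A) : (triv Γ).K = triv Γ.K := by
  have h : mcImage (triv Γ) = fun _ s => s := by
    funext a s
    apply Subtype.ext
    change (fun x => x) '' s.1 = s.1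
    exact Set.image_id' _
  unfold AG.K
  unfold triv
  congr 1

theorem triv_iter {A : Type} [Group A] (Γ : AG A) (m : ℕ) :
    AG.K^[m] (triv Γ) = triv (AG.K^[m] Γ) := by
  induction m with
  | zero => rfl
  | succ m ih => rw [Function.iterate_succ_apply', Function.iterate_succ_apply', ih, triv_K]

theorem orb_triv {A : Type} [Group A] (Γ : AG A) : Nonempty (Orb (triv Γ) ≃ Γ.V) := by
  refine ⟨Equiv.ofBijective (Quot.lift (fun x : Γ.V => x) ?_) ⟨?_, ?_⟩⟩
  · rintro x y ⟨a, h⟩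
    exact h.symm
  · rintro ⟨x⟩ ⟨y⟩ h
    have h' : x = y := h
    rw [h']
  · intro x
    exact ⟨Quot.mk _ x, rfl⟩

theorem card_le_orb (Γ : AG (Multiplicative (ZMod 2))) (hfin : Finite Γ.V) :
    Nat.card Γ.V ≤ 2 * Nat.card (Orb Γ) := by
  have h1 : Finite (Orb Γ) := Quot.finite _
  have h2 : Function.Surjective
      (fun p : Orb Γ × Multiplicative (ZMod 2) => Γ.act p.2 (Quot.out p.1)) := by
    intro x
    have h3 : Quot.mk _ (Quot.out (Quot.mk (fun x y : Γ.V => ∃ a, y = Γ.act a x) x)) =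
        Quot.mk (fun x y : Γ.V => ∃ a, y = Γ.act a x) x := Quot.out_eq _
    have hequiv : Equivalence (fun x y : Γ.V => ∃ a, y = Γ.act a x) := by
      refine ⟨fun x => ⟨1, (Γ.act_one x).symm⟩, ?_, ?_⟩
      · rintro x y ⟨a, rfl⟩
        exact ⟨a⁻¹, by rw [← Γ.act_mul, inv_mul_cancel, Γ.act_one]⟩
      · rintro x y z ⟨a, rfl⟩ ⟨b, rfl⟩
        exact ⟨b * a, by rw [Γ.act_mul]⟩
    rw [Quot.eq, hequiv.eqvGen_iff] at h3
    obtain ⟨a, ha⟩ := h3
    exact ⟨(Quot.mk _ x, a), ha.symm⟩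
  have h4 := Nat.card_le_card_of_surjective _ h2
  rw [Nat.card_prod] at h4
  have h5 : Nat.card (Multiplicative (ZMod 2)) = 2 := by
    rw [Nat.card_eq_fintype_card]
    rfl
  rw [h5] at h4
  omega

theorem cover_divergent {V : Type} [Fintype V] [DecidableEq V] (G : SimpleGraph V)
    (hV : Nonempty V) (c : V → V → ZMod 2) (hs : ∀ x y, c x y = c y x)
    (hc : ∀ x y z, G.Adj x y → G.Adj y z → G.Adj x z → c x y + c y z = c x z)
    (h : ∀ N : ℕ, ∃ m : ℕ, N < Nat.card (kstep^[m] ⟨V × ZMod 2, DC G c hs⟩).1) (N : ℕ) :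
    ∃ m : ℕ, N < Nat.card (kstep^[m] ⟨V, G⟩).1 := by
  have hne : Nonempty (dcAG G c hs).V := by
    obtain ⟨v⟩ := hV
    exact ⟨((v, 0) : V × ZMod 2)⟩
  have hfV : Finite (dcAG G c hs).V := inferInstanceAs (Finite (V × ZMod 2))
  have hd := dc_disp G c hs hc
  obtain ⟨m, hm⟩ := h (2 * N)
  refine ⟨m, ?_⟩
  obtain ⟨e1⟩ := card_orb (AG.K^[m] (dcAG G c hs)) (kstep^[m] ⟨V, G⟩).2
    (isQ_iter2 (dcAG G c hs) hne hd G (dc_isQ G c hs) m)
  have hQ : IsQ (triv (dcAG G c hs)) (DC G c hs) := by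
    refine ⟨fun x => x, fun x => ⟨x, rfl⟩, ?_, ?_⟩
    · intro x y
      exact ⟨fun h => ⟨(), h.symm⟩, fun ⟨_, h⟩ => h.symm⟩
    · intro x y
      constructor
      · intro hxy
        exact ⟨hxy.ne, (), Or.inr hxy⟩
      · rintro ⟨hxy, _, h1 | h1⟩
        · exact absurd h1 hxy
        · exact h1
  have hdt : Disp (triv (dcAG G c hs)) := fun a ha => absurd (Subsingleton.elim a 1) ha
  obtain ⟨e2⟩ := card_orb (AG.K^[m] (triv (dcAG G c hs))) (kstep^[m] ⟨V × ZMod 2, DC G c hs⟩).2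
    (isQ_iter2 (triv (dcAG G c hs)) hne hdt (DC G c hs) hQ m)
  rw [triv_iter] at e2
  obtain ⟨e3⟩ := orb_triv (AG.K^[m] (dcAG G c hs))
  have h1 := card_le_orb (AG.K^[m] (dcAG G c hs)) (finite_iter _ hfV m)
  rw [Nat.card_congr e1, ← Nat.card_congr e3, Nat.card_congr e2] at h1
  omega

end Pool.Agent.H71.Clq
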