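import Mathlib
import Pool.Agent.H71.Clq.Tri

set_option autoImplicit false

/-!
# Module DUAL: an even set of edges of a simply connected locally cyclic graph is a boundary

Functions on edges are symmetric functions `z : W → W → ZMod 2`, functions on triangles are
`θ : Set W → ZMod 2` evaluated at `{x, y, w}`.
* `local_sol`: for a vertex `v` with finite neighbourhood: there is a function `t` on triangles at `v`, `t y w` for adjacent `y, w` in the
  link, symmetric, with `t y a + t y b = z v y` for the two common neighbours `a ≠ b` of `v, y`. The link of `v` is a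
  finite connected graph with all degrees two, so it has as many edges as vertices. The linear map
  `t ↦ (y ↦ sum of t over the two edges at y)` has kernel of dimension one (constants, by
  connectedness), its image is in the hyperplane of functions with sum zero, so it is the hyperplane.
* uniqueness: two local solutions at `v` that agree on one triangle at `v` agree on all (connectedness of
  the link); adding `1` to a local solution gives the other one.
* `dual_lemma`: `U` = pairs (vertex, local solution at the vertex, as a function that is zero outside of the link);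
  `st (v, t) w` for adjacent `v, w`: the local solution at `w` that agrees with `t` on the triangles
  `v w a`, `v w b` containing the edge `v w` (both agree because both satisfy `t(a) + t(b) = z v w`). This is a
  covering (triangle condition: compare on the triangle itself). The section given by `SC` is a global `θ`: `θ {x, y, w} = t_x y w`
  (it is `t_y x w = t_w x y`; define `θ s` by choosing an ordered triple of `s`, or as a classical choice).
-/

namespace Pool.Agent.H71.Clq

/-- even: the sum at every vertex is zero -/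
def Ev {W : Type} (z : W → W → ZMod 2) : Prop := ∀ x, ∑ᶠ y, z x y = 0

/-- `z` is the boundary of `θ` -/
def Bdy {W : Type} (G : SimpleGraph W) (θ : Set W → ZMod 2) (z : W → W → ZMod 2) : Prop :=
  ∀ x y a b, G.Adj x y → G.Adj x a → G.Adj y a → G.Adj x b → G.Adj y b → a ≠ b →
    θ {x, y, a} + θ {x, y, b} = z x y

theorem DualL_two {W : Type} {G : SimpleGraph W} (hl : LCy G) {x y a b u : W} (h : G.Adj x y)
    (xa : G.Adj x a) (ya : G.Adj y a) (xb : G.Adj x b) (yb : G.Adj y b) (hab : a ≠ b)
    (xu : G.Adj x u) (yu : G.Adj y u) : u = a ∨ u = b := by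
  obtain ⟨c, d, hne, hset⟩ := Set.ncard_eq_two.mp (hl.1 x y h)
  have ha : a ∈ {z | G.Adj x z ∧ G.Adj y z} := ⟨xa, ya⟩
  have hb : b ∈ {z | G.Adj x z ∧ G.Adj y z} := ⟨xb, yb⟩
  have hu : u ∈ {z | G.Adj x z ∧ G.Adj y z} := ⟨xu, yu⟩
  rw [hset] at ha hb hu
  simp only [Set.mem_insert_iff, Set.mem_singleton_iff] at ha hb hu
  rcases ha with rfl | rfl <;> rcases hb with rfl | rfl <;> rcases hu with rfl | rfl <;> simp_all

theorem DualL_pair {W : Type} {G : SimpleGraph W} (hl : LCy G) {x y : W} (h : G.Adj x y) :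
    ∃ a b, G.Adj x a ∧ G.Adj y a ∧ G.Adj x b ∧ G.Adj y b ∧ a ≠ b := by
  obtain ⟨c, d, hne, hset⟩ := Set.ncard_eq_two.mp (hl.1 x y h)
  have hc : c ∈ {z | G.Adj x z ∧ G.Adj y z} := by rw [hset]; simp
  have hd : d ∈ {z | G.Adj x z ∧ G.Adj y z} := by rw [hset]; simp
  exact ⟨c, d, hc.1, hc.2, hd.1, hd.2, hne⟩

/-- local solutions at `v` -/
def LS {W : Type} (G : SimpleGraph W) (z : W → W → ZMod 2) (v : W) (t : W → W → ZMod 2) : Prop :=
  (∀ y w, t y w = t w y) ∧
  (∀ y w, ¬ (G.Adj v y ∧ G.Adj v w ∧ G.Adj y w) → t y w = 0) ∧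
  (∀ y a b, G.Adj v y → G.Adj v a → G.Adj y a → G.Adj v b → G.Adj y b → a ≠ b →
    t y a + t y b = z v y)

theorem DualL_sum {W : Type} (G : SimpleGraph W) (hf : ∀ x, (G.neighborSet x).Finite)
    (z : W → W → ZMod 2) (hz0 : ∀ x y, ¬ G.Adj x y → z x y = 0) (hev : Ev z) (v : W)
    (F : Fintype {y // G.Adj v y}) : ∑ y : {y // G.Adj v y}, z v y.1 = 0 := by
  classical
  rw [← hev v, finsum_eq_sum_of_support_subset (s := (hf v).toFinset)]
  · rw [Finset.sum_subtype (p := fun y => G.Adj v y) (F := F)]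
    intro x
    simp
  · intro y hy
    simp only [Function.mem_support] at hy
    simp only [Set.Finite.coe_toFinset, SimpleGraph.mem_neighborSet]
    by_contra h
    exact hy (hz0 v y h)

/-- the coboundary-like map of a link -/
noncomputable def DualL_T {X : Type} [Fintype X] (A : X → X → Prop) [DecidableRel A] :
    (X → X → ZMod 2) →ₗ[ZMod 2] (X → ZMod 2) where
  toFun := fun t y => ∑ w, if A y w then t y w + t w y else 0
  map_add' := by
    intro t t'
    funext y
    simp only [Pi.add_apply]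
    rw [← Finset.sum_add_distrib]
    refine Finset.sum_congr rfl (fun w _ => ?_)
    split_ifs
    · ring
    · ring
  map_smul' := by
    intro c t
    funext y
    simp only [Pi.smul_apply, smul_eq_mul, RingHom.id_apply]
    rw [Finset.mul_sum]
    refine Finset.sum_congr rfl (fun w _ => ?_)
    split_ifs
    · ring
    · ring

theorem DualL_T_single {X : Type} [Fintype X] [DecidableEq X] (A : X → X → Prop) [DecidableRel A]
    (hA : ∀ y w, A y w → A w y) (y w : X) (hyw : A y w) :
    DualL_T A (fun a b => if a = y ∧ b = w then 1 else 0) =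
      (fun x => if y = x then 1 else 0) + (fun x => if w = x then 1 else 0) := by
  funext x
  change (∑ b, if A x b then (if x = y ∧ b = w then (1 : ZMod 2) else 0) +
    (if b = y ∧ x = w then 1 else 0) else 0) = (if y = x then 1 else 0) + (if w = x then 1 else 0)
  have h1 : ∀ b, (if A x b then (if x = y ∧ b = w then (1 : ZMod 2) else 0) +
      (if b = y ∧ x = w then 1 else 0) else 0) =
      (if b = w then (if y = x then 1 else 0) else 0) +
        (if b = y then (if w = x then 1 else 0) else 0) := by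
    intro b
    by_cases hb1 : x = y ∧ b = w
    · obtain ⟨rfl, rfl⟩ := hb1
      by_cases hb2 : b = x ∧ x = b
      · obtain ⟨rfl, -⟩ := hb2
        simp [hyw]
      · have hxb : ¬ b = x := fun h => hb2 ⟨h, h.symm⟩
        have hxb' : ¬ x = b := fun h => hxb h.symm
        simp [hyw, hxb]
    · by_cases hb2 : b = y ∧ x = w
      · obtain ⟨rfl, rfl⟩ := hb2
        have hxb : ¬ b = x := fun h => hb1 ⟨h.symm, h⟩
        have hxb' : ¬ x = b := fun h => hxb h.symm
        simp [hA _ _ hyw, hxb, hxb']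
      · have h2 : ¬ (b = w ∧ y = x) := fun h => hb1 ⟨h.2.symm, h.1⟩
        have h3 : ¬ (b = y ∧ w = x) := fun h => hb2 ⟨h.1, h.2.symm⟩
        rw [if_neg hb1, if_neg hb2]
        have h4 : (if b = w then (if y = x then (1 : ZMod 2) else 0) else 0) = 0 := by
          split_ifs with h5 h6
          · exact absurd ⟨h5, h6⟩ h2
          · rfl
          · rfl
        have h5 : (if b = y then (if w = x then (1 : ZMod 2) else 0) else 0) = 0 := by
          split_ifs with h5 h6
          · exact absurd ⟨h5, h6⟩ h3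
          · rfl
          · rfl
        rw [h4, h5]
        simp
  simp only [h1]
  rw [Finset.sum_add_distrib, Finset.sum_ite_eq', Finset.sum_ite_eq']
  simp

theorem DualL_exists {W : Type} (G : SimpleGraph W) (hf : ∀ x, (G.neighborSet x).Finite)
    (hl : LCy G) (z : W → W → ZMod 2)
    (hz0 : ∀ x y, ¬ G.Adj x y → z x y = 0) (hev : Ev z) (v : W) : ∃ t, LS G z v t := by
  classical
  have F : Fintype {y // G.Adj v y} := (hf v).fintype
  let A : {y // G.Adj v y} → {y // G.Adj v y} → Prop := fun a b => G.Adj a.1 b.1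
  have hA : ∀ y w, A y w → A w y := fun y w h => h.symm
  have hmem : (fun y : {y // G.Adj v y} => z v y.1) ∈ LinearMap.range (DualL_T A) := by
    by_contra hnot
    obtain ⟨φ, hφ1, hφ2⟩ := Submodule.exists_le_ker_of_notMem hnot
    apply hφ1
    have h0 : ∀ t, φ (DualL_T A t) = 0 := fun t => hφ2 (LinearMap.mem_range_self _ t)
    have hc : ∀ y w, A y w → φ (fun x => if y = x then 1 else 0) =
        φ (fun x => if w = x then 1 else 0) := by
      intro y w hyw
      have h1 := h0 (fun a b => if a = y ∧ b = w then 1 else 0)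
      rw [DualL_T_single A hA y w hyw, map_add] at h1
      exact CharTwo.add_eq_zero.1 h1
    have hc2 : ∀ (y : W) (hy : G.Adj v y) (y' : W),
        Relation.ReflTransGen (fun u w => G.Adj v u ∧ G.Adj v w ∧ G.Adj u w) y y' →
        ∀ hy' : G.Adj v y', φ (fun x => if (⟨y, hy⟩ : {y // G.Adj v y}) = x then 1 else 0) =
          φ (fun x => if (⟨y', hy'⟩ : {y // G.Adj v y}) = x then 1 else 0) := by
      intro y hy y' h
      induction h with
      | refl => intro hy'; rfl
      | tail hab hbc ih =>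
        intro hy'
        rw [ih hbc.1]
        exact hc _ _ hbc.2.2
    rw [LinearMap.pi_apply_eq_sum_univ φ]
    by_cases hne : Nonempty {y // G.Adj v y}
    · obtain ⟨y0⟩ := hne
      have h2 : ∀ y : {y // G.Adj v y}, φ (fun j => if y = j then 1 else 0) =
          φ (fun j => if y0 = j then 1 else 0) := by
        intro y
        exact hc2 y.1 y.2 y0.1 (hl.2 v y.1 y0.1 y.2 y0.2) y0.2
      have h3 : ∑ y : {y // G.Adj v y}, z v y.1 • φ (fun j => if y = j then 1 else 0) =
          (∑ y : {y // G.Adj v y}, z v y.1) • φ (fun j => if y0 = j then 1 else 0) := by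
        rw [Finset.sum_smul]
        refine Finset.sum_congr rfl (fun y _ => ?_)
        rw [h2]
      rw [h3, DualL_sum G hf z hz0 hev v F, zero_smul]
    · rw [not_nonempty_iff] at hne
      simp
  obtain ⟨t0, ht0⟩ := hmem
  refine ⟨fun y w => if h : G.Adj v y ∧ G.Adj v w ∧ G.Adj y w then
    t0 ⟨y, h.1⟩ ⟨w, h.2.1⟩ + t0 ⟨w, h.2.1⟩ ⟨y, h.1⟩ else 0, ?_, ?_, ?_⟩
  · intro y w
    by_cases h : G.Adj v y ∧ G.Adj v w ∧ G.Adj y w
    · have h' : G.Adj v w ∧ G.Adj v y ∧ G.Adj w y := ⟨h.2.1, h.1, h.2.2.symm⟩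
      simp only [dif_pos h, dif_pos h']
      ring
    · have h' : ¬ (G.Adj v w ∧ G.Adj v y ∧ G.Adj w y) :=
        fun h' => h ⟨h'.2.1, h'.1, h'.2.2.symm⟩
      simp only [dif_neg h, dif_neg h']
  · intro y w h
    simp only [dif_neg h]
  · intro y a b vy va ya vb yb hab
    have h1 := congrFun ht0 ⟨y, vy⟩
    change (∑ w : {y // G.Adj v y}, if G.Adj y w.1 then t0 ⟨y, vy⟩ w + t0 w ⟨y, vy⟩ else 0) =
      z v y at h1
    rw [Fintype.sum_eq_add ⟨a, va⟩ ⟨b, vb⟩ (by
      intro h
      exact hab (congrArg Subtype.val h)) (by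
      rintro ⟨w, hw⟩ ⟨h2, h3⟩
      rw [if_neg]
      intro h4
      rcases DualL_two hl vy va ya vb yb hab hw h4 with h5 | h5
      · exact h2 (Subtype.ext h5)
      · exact h3 (Subtype.ext h5))] at h1
    rw [if_pos ya, if_pos yb] at h1
    have ha : G.Adj v y ∧ G.Adj v a ∧ G.Adj y a := ⟨vy, va, ya⟩
    have hb : G.Adj v y ∧ G.Adj v b ∧ G.Adj y b := ⟨vy, vb, yb⟩
    simp only [dif_pos ha, dif_pos hb]
    exact h1

theorem DualL_unique {W : Type} {G : SimpleGraph W} (hl : LCy G) {z : W → W → ZMod 2} {v : W}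
    {t t' : W → W → ZMod 2} (h : LS G z v t) (h' : LS G z v t') {y w : W} (vy : G.Adj v y)
    (vw : G.Adj v w) (yw : G.Adj y w) (he : t y w = t' y w) : t = t' := by
  have step : ∀ u a b, G.Adj v u → G.Adj v a → G.Adj u a → G.Adj v b → G.Adj u b →
      t u a = t' u a → t u b = t' u b := by
    intro u a b vu va ua vb ub hh
    by_cases hab : a = b
    · rw [← hab]; exact hh
    · have h1 := h.2.2 u a b vu va ua vb ub hab
      have h2 := h'.2.2 u a b vu va ua vb ub hab
      rw [hh, ← h2] at h1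
      exact add_left_cancel h1
  have key : ∀ u, Relation.ReflTransGen (fun u w => G.Adj v u ∧ G.Adj v w ∧ G.Adj u w) y u →
      G.Adj v u → ∀ a, G.Adj v a → G.Adj u a → t u a = t' u a := by
    intro u hu
    induction hu with
    | refl =>
      intro _ a va ua
      exact step y w a vy vw yw va ua he
    | tail hab hbc ih =>
      rename_i b c
      intro vc a va ca
      have h1 := ih hbc.1 c vc hbc.2.2
      rw [h.1 b c, h'.1 b c] at h1
      exact step c b a vc hbc.1 hbc.2.2.symm va ca h1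
  funext a b
  by_cases hab : G.Adj v a ∧ G.Adj v b ∧ G.Adj a b
  · exact key a (hl.2 v y a vy hab.1) hab.1 b hab.2.1 hab.2.2
  · rw [h.2.1 a b hab, h'.2.1 a b hab]

/-- the other local solution -/
theorem DualL_other {W : Type} {G : SimpleGraph W} {z : W → W → ZMod 2} {v : W}
    {t : W → W → ZMod 2} (h : LS G z v t) : ∃ t', LS G z v t' ∧
      ∀ y w, G.Adj v y → G.Adj v w → G.Adj y w → t' y w = t y w + 1 := by
  classical
  refine ⟨fun y w => if G.Adj v y ∧ G.Adj v w ∧ G.Adj y w then t y w + 1 else 0, ⟨?_, ?_, ?_⟩, ?_⟩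
  · intro y w
    have h1 : (G.Adj v y ∧ G.Adj v w ∧ G.Adj y w) ↔ (G.Adj v w ∧ G.Adj v y ∧ G.Adj w y) :=
      ⟨fun h => ⟨h.2.1, h.1, h.2.2.symm⟩, fun h => ⟨h.2.1, h.1, h.2.2.symm⟩⟩
    simp only [h1, h.1 y w]
  · intro y w hh
    simp only [if_neg hh]
  · intro y a b vy va ya vb yb hab
    simp only [if_pos (⟨vy, va, ya⟩ : G.Adj v y ∧ G.Adj v a ∧ G.Adj y a),
      if_pos (⟨vy, vb, yb⟩ : G.Adj v y ∧ G.Adj v b ∧ G.Adj y b)]
    rw [← h.2.2 y a b vy va ya vb yb hab]
    have h2 : (1 : ZMod 2) + 1 = 0 := by decide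
    linear_combination h2
  · intro y w vy vw yw
    simp only [if_pos (⟨vy, vw, yw⟩ : G.Adj v y ∧ G.Adj v w ∧ G.Adj y w)]

theorem DualL_ne {a b : ZMod 2} (h : a ≠ b) : a + 1 = b := by
  revert a b; decide

/-- the transported local solution -/
theorem DualL_trans {W : Type} (G : SimpleGraph W) (hf : ∀ x, (G.neighborSet x).Finite)
    (hl : LCy G) (z : W → W → ZMod 2) (hzs : ∀ x y, z x y = z y x)
    (hz0 : ∀ x y, ¬ G.Adj x y → z x y = 0) (hev : Ev z) {v w : W} (hvw : G.Adj v w)
    {t : W → W → ZMod 2} (ht : LS G z v t) :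
    ∃ s, LS G z w s ∧ ∀ a, G.Adj v a → G.Adj w a → s v a = t w a := by
  obtain ⟨a, b, va, wa, vb, wb, hab⟩ := DualL_pair hl hvw
  obtain ⟨s, hs, hsa⟩ : ∃ s, LS G z w s ∧ s v a = t w a := by
    obtain ⟨s0, hs0⟩ := DualL_exists G hf hl z hz0 hev w
    by_cases h : s0 v a = t w a
    · exact ⟨s0, hs0, h⟩
    · obtain ⟨s1, hs1, hs2⟩ := DualL_other hs0
      refine ⟨s1, hs1, ?_⟩
      rw [hs2 v a hvw.symm wa va]
      exact DualL_ne h
  refine ⟨s, hs, ?_⟩
  intro c vc wc
  rcases DualL_two hl hvw va wa vb wb hab vc wc with rfl | rfl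
  · exact hsa
  · have h1 := hs.2.2 v a c hvw.symm wa va wb vb hab
    have h2 := ht.2.2 w a c hvw va wa vb wb hab
    rw [hzs w v, ← h2, hsa] at h1
    exact add_left_cancel h1

theorem dual_lemma {W : Type} (G : SimpleGraph W) (hf : ∀ x, (G.neighborSet x).Finite)
    (hl : LCy G) (hsc : SC (RG G)) (z : W → W → ZMod 2) (hzs : ∀ x y, z x y = z y x)
    (hz0 : ∀ x y, ¬ G.Adj x y → z x y = 0) (hev : Ev z) :
    ∃ θ : Set W → ZMod 2, Bdy G θ z := by
  classical
  by_cases hW : Nonempty W
  swap
  · refine ⟨fun _ => 0, ?_⟩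
    intro x
    exact absurd ⟨x⟩ hW
  obtain ⟨v₀⟩ := hW
  obtain ⟨t₀, ht₀⟩ := DualL_exists G hf hl z hz0 hev v₀
  let U : Type := {p : W × (W → W → ZMod 2) // LS G z p.1 p.2}
  have tr : ∀ (u : U) (w : W), G.Adj u.1.1 w → ∃ s, LS G z w s ∧
      ∀ a, G.Adj u.1.1 a → G.Adj w a → s u.1.1 a = u.1.2 w a := by
    intro u w h
    exact DualL_trans G hf hl z hzs hz0 hev h u.2
  let st : U → W → U := fun u w =>
    if h : G.Adj u.1.1 w then ⟨(w, (tr u w h).choose), (tr u w h).choose_spec.1⟩ else u
  have st1 : ∀ (u : U) (w : W), G.Adj u.1.1 w → (st u w).1.1 = w := by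
    intro u w h
    simp only [st, dif_pos h]
  have st2 : ∀ (u : U) (w : W), G.Adj u.1.1 w → ∀ a, G.Adj u.1.1 a → G.Adj w a →
      (st u w).1.2 u.1.1 a = u.1.2 w a := by
    intro u w h a
    simp only [st, dif_pos h]
    exact (tr u w h).choose_spec.2 a
  have st0 : ∀ (u : U) (w : W), ¬ G.Adj u.1.1 w → st u w = u := by
    intro u w h
    simp only [st, dif_neg h]
  have ext : ∀ (p q : U) (x y w : W), p.1.1 = x → q.1.1 = x → G.Adj x y → G.Adj x w → G.Adj y w →
      p.1.2 y w = q.1.2 y w → p = q := by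
    rintro ⟨⟨x1, t1⟩, h1⟩ ⟨⟨x2, t2⟩, h2⟩ x y w hx1 hx2 xy xw yw he
    simp only at h1 h2 hx1 hx2 he
    subst hx1
    subst hx2
    have := DualL_unique hl h1 h2 xy xw yw he
    subst this
    rfl
  obtain ⟨σ, hσ0, hσ1, hσ2⟩ := hsc U (fun u => u.1.1) st (by
      rintro u y (h | h)
      · have h' : u.1.1 = y := h
        have hn : ¬ G.Adj u.1.1 y := by rw [h']; exact G.loopless.irrefl y
        rw [st0 u y hn]
        exact h'
      · exact st1 u y h) (by
      intro u
      exact st0 u _ (G.loopless.irrefl _)) (by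
      intro u y z' h1 h2 h3
      rcases h1 with h1 | h1
      · have hn : ¬ G.Adj u.1.1 y := by
          have h1' : u.1.1 = y := h1
          rw [h1']; exact G.loopless.irrefl y
        rw [st0 u y hn]
      have e1 : (st u y).1.1 = y := st1 u y h1
      rcases h2 with h2 | h2
      · subst h2
        exact st0 _ _ (by rw [e1]; exact G.loopless.irrefl y)
      rcases h3 with h3 | h3
      · have h3' : u.1.1 = z' := h3
        subst h3'
        rw [st0 u _ (G.loopless.irrefl _)]
        have h4 : G.Adj (st u y).1.1 u.1.1 := by rw [e1]; exact h2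
        obtain ⟨a, b, xa, ya, -⟩ := DualL_pair hl h1
        have e2 : (st (st u y) u.1.1).1.1 = u.1.1 := st1 _ _ h4
        have h5 := st2 (st u y) u.1.1 h4 a (by rw [e1]; exact ya) xa
        rw [e1] at h5
        have h6 := st2 u y h1 a xa ya
        refine ext _ _ u.1.1 y a e2 rfl h1 xa ya ?_
        rw [h5, h6]
      · have h4 : G.Adj (st u y).1.1 z' := by rw [e1]; exact h2
        have e2 : (st (st u y) z').1.1 = z' := st1 _ _ h4
        have e3 : (st u z').1.1 = z' := st1 _ _ h3
        have h1a : G.Adj u.1.1 y := h1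
        have h3a : G.Adj u.1.1 z' := h3
        have h5 := st2 (st u y) z' h4 u.1.1 (by rw [e1]; exact h1a.symm) h3a.symm
        rw [e1] at h5
        have h6 := st2 u y h1 z' h3 h2
        have h7 := st2 u z' h3 y h1 h2.symm
        refine ext _ _ z' y u.1.1 e2 e3 h2.symm h3a.symm h1a.symm ?_
        rw [h5, (st u y).2.1 z' u.1.1, h6, (st u z').2.1 y u.1.1, h7, u.2.1 z' y]) ⟨(v₀, t₀), ht₀⟩
  -- the local solutions of the section
  have hLS : ∀ x, LS G z x (σ x).1.2 := by
    intro x
    have h1 := (σ x).2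
    have h2 : (σ x).1.1 = x := hσ1 x
    rw [h2] at h1
    exact h1
  have hsw : ∀ x y a, G.Adj x y → G.Adj x a → G.Adj y a → (σ y).1.2 x a = (σ x).1.2 y a := by
    intro x y a xy xa ya
    have h2 : (σ x).1.1 = x := hσ1 x
    have h1 := st2 (σ x) y (by rw [h2]; exact xy) a (by rw [h2]; exact xa) ya
    rw [hσ2 x y (Or.inr xy), h2] at h1
    exact h1
  have hsm : ∀ x y a, (σ x).1.2 y a = (σ x).1.2 a y := fun x y a => (hLS x).1 y a
  let P : Set W → Prop := fun s => ∃ p : W × W × W, G.Adj p.1 p.2.1 ∧ G.Adj p.1 p.2.2 ∧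
    G.Adj p.2.1 p.2.2 ∧ s = {p.1, p.2.1, p.2.2}
  let θ : Set W → ZMod 2 := fun s => if h : P s then
    (σ h.choose.1).1.2 h.choose.2.1 h.choose.2.2 else 0
  have hθ : ∀ x y a, G.Adj x y → G.Adj x a → G.Adj y a → θ {x, y, a} = (σ x).1.2 y a := by
    intro x y a xy xa ya
    have hP : P {x, y, a} := ⟨(x, y, a), xy, xa, ya, rfl⟩
    simp only [θ, dif_pos hP]
    have hspec := hP.choose_spec
    generalize hP.choose = p at hspec ⊢
    obtain ⟨x', y', a'⟩ := p
    simp only at hspec ⊢
    obtain ⟨xy', xa', ya', hs⟩ := hspec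
    have m1 : x' ∈ ({x, y, a} : Set W) := by rw [hs]; simp
    have m2 : y' ∈ ({x, y, a} : Set W) := by rw [hs]; simp
    have m3 : a' ∈ ({x, y, a} : Set W) := by rw [hs]; simp
    simp only [Set.mem_insert_iff, Set.mem_singleton_iff] at m1 m2 m3
    have n1 := xy'.ne
    have n2 := xa'.ne
    have n3 := ya'.ne
    rcases m1 with rfl | rfl | rfl <;> rcases m2 with rfl | rfl | rfl <;>
      rcases m3 with rfl | rfl | rfl <;>
      (first | (exact absurd rfl n1) | (exact absurd rfl n2) | (exact absurd rfl n3) | skip)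
    · rfl
    · exact hsm _ _ _
    · exact hsw _ _ _ xy xa ya
    · rw [hsm, hsw _ _ _ xy xa ya]
    · rw [hsw _ _ _ xa xy ya.symm, hsm]
    · rw [hsm, hsw _ _ _ xa xy ya.symm, hsm]
  refine ⟨θ, ?_⟩
  intro x y a b xy xa ya xb yb hab
  rw [hθ x y a xy xa ya, hθ x y b xy xb yb]
  exact (hLS x).2.2 y a b xy xa ya xb yb hab

end Pool.Agent.H71.Clq
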