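import Mathlib
import Pool.Agent.H71.Clq.Defs

set_option autoImplicit false

/-!
# Distances in a connected reflexive symmetric relation
-/

namespace Pool.Agent.H71.Clq

/-- walks of length `n` -/
def Wk {V : Type} (R : V → V → Prop) : ℕ → V → V → Prop
  | 0, x, y => x = y
  | n + 1, x, y => ∃ z, Wk R n x z ∧ R z y

/-- the distance -/
noncomputable def ds {V : Type} (R : V → V → Prop) (x y : V) : ℕ := sInf {n | Wk R n x y}

section

variable {V : Type} {R : V → V → Prop}

theorem wk_refl (x : V) : Wk R 0 x x := rfl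

theorem wk_one {x y : V} (h : R x y) : Wk R 1 x y := ⟨x, rfl, h⟩

theorem wk_trans {n m : ℕ} {x y z : V} (h : Wk R n x y) (h' : Wk R m y z) : Wk R (n + m) x z := by
  induction m generalizing z with
  | zero =>
    obtain rfl : y = z := h'
    exact h
  | succ m ih =>
    obtain ⟨w, h1, h2⟩ := h'
    exact ⟨w, ih h1, h2⟩

theorem wk_mono (hr : ∀ x, R x x) {n m : ℕ} {x y : V} (h : Wk R n x y) (hnm : n ≤ m) :
    Wk R m x y := by
  induction hnm with
  | refl => exact h
  | step _ ih => exact ⟨y, ih, hr y⟩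

theorem wk_head {n : ℕ} {x y : V} (h : Wk R (n + 1) x y) : ∃ z, R x z ∧ Wk R n z y := by
  induction n generalizing y with
  | zero =>
    obtain ⟨z, h1, h2⟩ := h
    obtain rfl : x = z := h1
    exact ⟨y, h2, rfl⟩
  | succ n ih =>
    obtain ⟨z, h1, h2⟩ := h
    obtain ⟨w, h3, h4⟩ := ih h1
    exact ⟨w, h3, z, h4, h2⟩

theorem wk_symm (hs : ∀ x y, R x y → R y x) {n : ℕ} {x y : V} (h : Wk R n x y) :
    Wk R n y x := by
  induction n generalizing y with
  | zero => exact Eq.symm h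
  | succ n ih =>
    obtain ⟨z, h1, h2⟩ := h
    have := wk_trans (wk_one (hs _ _ h2)) (ih h1)
    rwa [Nat.add_comm] at this

theorem wk_split {n m : ℕ} {x y : V} (h : Wk R (n + m) x y) : ∃ z, Wk R n x z ∧ Wk R m z y := by
  induction m generalizing y with
  | zero => exact ⟨y, h, rfl⟩
  | succ m ih =>
    obtain ⟨z, h1, h2⟩ := h
    obtain ⟨w, h3, h4⟩ := ih h1
    exact ⟨w, h3, z, h4, h2⟩

theorem wk_seq {n : ℕ} {x y : V} (h : Wk R n x y) :
    ∃ f : ℕ → V, f 0 = x ∧ f n = y ∧ ∀ i < n, R (f i) (f (i + 1)) := by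
  induction n generalizing y with
  | zero =>
    obtain rfl : x = y := h
    exact ⟨fun _ => x, rfl, rfl, fun i hi => absurd hi (Nat.not_lt_zero i)⟩
  | succ n ih =>
    obtain ⟨z, h1, h2⟩ := h
    obtain ⟨f, h3, h4, h5⟩ := ih h1
    refine ⟨fun i => if i ≤ n then f i else y, by simp [h3], by simp, ?_⟩
    intro i hi
    by_cases hin : i = n
    · subst hin
      simp [h4, h2]
    · have h6 : i < n := by omega
      have h7 : i + 1 ≤ n := by omega
      have h8 : i ≤ n := by omega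
      simp only [h7, h8, if_true]
      exact h5 i h6

theorem wk_of_seq {f : ℕ → V} {n : ℕ} (h : ∀ i < n, R (f i) (f (i + 1))) : Wk R n (f 0) (f n) := by
  induction n with
  | zero => rfl
  | succ n ih => exact ⟨f n, ih fun i hi => h i (by omega), h n (by omega)⟩

theorem exists_wk (hc : Cn R) (x y : V) : ∃ n, Wk R n x y := by
  induction hc x y with
  | refl => exact ⟨0, rfl⟩
  | tail _ h ih =>
    obtain ⟨n, hn⟩ := ih
    exact ⟨n + 1, _, hn, h⟩

theorem wk_map {W : Type} {R' : W → W → Prop} (f : V → W) (hf : ∀ x y, R x y → R' (f x) (f y))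
    {n : ℕ} {x y : V} (h : Wk R n x y) : Wk R' n (f x) (f y) := by
  induction n generalizing y with
  | zero =>
    obtain rfl : x = y := h
    rfl
  | succ n ih =>
    obtain ⟨z, h1, h2⟩ := h
    exact ⟨f z, ih h1, hf _ _ h2⟩

theorem ds_wk (hc : Cn R) (x y : V) : Wk R (ds R x y) x y := by
  have h : {n | Wk R n x y}.Nonempty := exists_wk hc x y
  exact Nat.sInf_mem h

theorem ds_le {n : ℕ} {x y : V} (h : Wk R n x y) : ds R x y ≤ n := Nat.sInf_le h

theorem ds_le_iff (hr : ∀ x, R x x) (hc : Cn R) {n : ℕ} {x y : V} :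
    ds R x y ≤ n ↔ Wk R n x y :=
  ⟨fun h => wk_mono hr (ds_wk hc x y) h, ds_le⟩

theorem ds_self (x : V) : ds R x x = 0 := Nat.le_zero.1 (ds_le rfl)

theorem ds_eq_zero (hc : Cn R) {x y : V} : ds R x y = 0 ↔ x = y := by
  constructor
  · intro h
    have := ds_wk hc x y
    rw [h] at this
    exact this
  · rintro rfl
    exact ds_self x

theorem ds_comm (hs : ∀ x y, R x y → R y x) (hc : Cn R) (x y : V) : ds R x y = ds R y x :=
  le_antisymm (ds_le (wk_symm hs (ds_wk hc y x))) (ds_le (wk_symm hs (ds_wk hc x y)))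

theorem ds_tri (hc : Cn R) (x y z : V) : ds R x z ≤ ds R x y + ds R y z :=
  ds_le (wk_trans (ds_wk hc x y) (ds_wk hc y z))

theorem ds_le_one (hr : ∀ x, R x x) (hc : Cn R) {x y : V} : ds R x y ≤ 1 ↔ R x y := by
  rw [ds_le_iff hr hc]
  constructor
  · rintro ⟨z, h1, h2⟩
    obtain rfl : x = z := h1
    exact h2
  · exact wk_one

theorem ds_le_one_of {x y : V} (h : R x y) : ds R x y ≤ 1 := ds_le (wk_one h)

/-- a neighbour closer to `y` -/
theorem ds_step (hc : Cn R) {n : ℕ} {x y : V} (h : ds R x y = n + 1) :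
    ∃ z, R x z ∧ ds R z y = n := by
  have h1 := ds_wk hc x y
  rw [h] at h1
  obtain ⟨z, h2, h3⟩ := wk_head h1
  refine ⟨z, h2, le_antisymm (ds_le h3) ?_⟩
  have h4 := ds_tri hc x z y
  have h5 : ds R x z ≤ 1 := ds_le_one_of h2
  omega

/-- a point on a geodesic -/
theorem ds_split (hc : Cn R) {n m : ℕ} {x y : V} (h : ds R x y = n + m) :
    ∃ z, ds R x z = n ∧ ds R z y = m := by
  have h1 := ds_wk hc x y
  rw [h] at h1
  obtain ⟨z, h2, h3⟩ := wk_split h1
  have h4 := ds_tri hc x z y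
  have h5 := ds_le h2
  have h6 := ds_le h3
  exact ⟨z, by omega, by omega⟩

theorem ds_map {W : Type} {R' : W → W → Prop} (hc : Cn R) (f : V → W)
    (hf : ∀ x y, R x y → R' (f x) (f y)) (x y : V) : ds R' (f x) (f y) ≤ ds R x y :=
  ds_le (wk_map f hf (ds_wk hc x y))

end

section

variable {A : Type} [Group A]

theorem ds_act (Γ : AG A) (hc : Cn Γ.R) (a : A) (x y : Γ.V) :
    ds Γ.R (Γ.act a x) (Γ.act a y) = ds Γ.R x y := by
  apply le_antisymm (ds_map hc (Γ.act a) (Γ.act_R a) x y)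
  have h := ds_map hc (Γ.act a⁻¹) (Γ.act_R a⁻¹) (Γ.act a x) (Γ.act a y)
  have hinv : ∀ z, Γ.act a⁻¹ (Γ.act a z) = z := fun z => by
    rw [← Γ.act_mul, inv_mul_cancel, Γ.act_one]
  rwa [hinv, hinv] at h

end

end Pool.Agent.H71.Clq
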