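import Mathlib
import Pool.Agent.H71.Clq.Dst
import Pool.Agent.H71.Clq.Pres

set_option autoImplicit false

/-!
# Module UFUN: Lipschitz functions shifted by a homomorphism, lines along which they grow

* `exists_ef`: fix `x₀`; `U x = min over γ of (ds x (γ x₀) + p γ)`. It is bounded below by `- ds x x₀` because
  `- p γ = p γ⁻¹ ≤ ds x₀ (γ⁻¹ x₀) = ds (γ x₀) x₀ ≤ ds x x₀ + ds x (γ x₀)`. Use `Int.exists_least_of_bdd` or `sInf`.
* `tline_descend`: `u' Q = min of u over Q` (the values of `u` on a clique differ by at most one; cliques are nonempty).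
  Given a line `f` in `Γ.K` choose `w j ∈ f j ∩ f (j+1)` for `0 ≤ j < N` and extend by
  `w (j + N) = c (w j)` (write `j = N * (j / N) + j % N`). Then `u (w j)` is at least `u' (f j)`, `u' (f (j+1))`
  and at most each of them plus one. So if the two differ by one, `u (w j)` is their maximum.
* `tline_iter`: induction on `m`, generalising `Γ`: `K^[m+1] Γ = K^[m] (K Γ)` (`Function.iterate_succ_apply`).
-/

namespace Pool.Agent.H71.Clq

variable {A : Type} [Group A]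

/-- Lipschitz integer valued functions shifted by `p` -/
structure EF (Γ : AG A) (p : A → ℤ) where
  /-- the function -/
  U : Γ.V → ℤ
  lip : ∀ x y, Γ.R x y → U y ≤ U x + 1
  eqv : ∀ a x, U (Γ.act a x) = U x + p a

theorem ef_ds (Γ : AG A) (hc : Cn Γ.R) {p : A → ℤ} (u : EF Γ p) (x y : Γ.V) :
    u.U y ≤ u.U x + ds Γ.R x y := by
  have key : ∀ (n : ℕ) (y : Γ.V), Wk Γ.R n x y → u.U y ≤ u.U x + n := by
    intro n
    induction n with
    | zero =>
      intro y h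
      obtain rfl : x = y := h
      simp
    | succ n ih =>
      rintro y ⟨z, h1, h2⟩
      have h3 := ih z h1
      have h4 := u.lip z y h2
      push_cast
      omega
  exact key _ y (ds_wk hc x y)

private theorem hom_one {p : A → ℤ} (hp : ∀ a b, p (a * b) = p a + p b) : p 1 = 0 := by
  have := hp 1 1
  rw [mul_one] at this
  omega

private theorem hom_inv {p : A → ℤ} (hp : ∀ a b, p (a * b) = p a + p b) (a : A) :
    p a⁻¹ = - p a := by
  have := hp a⁻¹ a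
  rw [inv_mul_cancel, hom_one hp] at this
  omega

/-- the set whose least element is the value at `x` -/
private def efSet (Γ : AG A) (p : A → ℤ) (x₀ x : Γ.V) : Set ℤ :=
  {t | ∃ γ : A, t = (ds Γ.R x (Γ.act γ x₀) : ℤ) + p γ}

theorem exists_ef (Γ : AG A) (hc : Cn Γ.R) (hne : Nonempty Γ.V) (p : A → ℤ)
    (hp : ∀ a b, p (a * b) = p a + p b)
    (h : ∀ a x, p a ≤ (ds Γ.R x (Γ.act a x) : ℤ)) : Nonempty (EF Γ p) := by
  obtain ⟨x₀⟩ := hne
  have hinv : ∀ (γ : A) z, Γ.act γ (Γ.act γ⁻¹ z) = z := fun γ z => by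
    rw [← Γ.act_mul, mul_inv_cancel, Γ.act_one]
  have hlow : ∀ x t, t ∈ efSet Γ p x₀ x → -(ds Γ.R x x₀ : ℤ) ≤ t := by
    rintro x t ⟨γ, rfl⟩
    have h1 := h γ⁻¹ x₀
    rw [hom_inv hp, ← ds_act Γ hc γ, hinv] at h1
    have h2 := ds_tri hc (Γ.act γ x₀) x x₀
    have h3 := ds_comm Γ.symm hc (Γ.act γ x₀) x
    omega
  have hbdd : ∀ x, BddBelow (efSet Γ p x₀ x) := fun x => ⟨_, fun t ht => hlow x t ht⟩
  have hne' : ∀ x, (efSet Γ p x₀ x).Nonempty := fun x => ⟨_, 1, rfl⟩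
  have hmem : ∀ x, sInf (efSet Γ p x₀ x) ∈ efSet Γ p x₀ x := fun x =>
    Int.csInf_mem (hne' x) (hbdd x)
  have hle : ∀ x t, t ∈ efSet Γ p x₀ x → sInf (efSet Γ p x₀ x) ≤ t := fun x t ht =>
    csInf_le (hbdd x) ht
  have hact : ∀ a x, sInf (efSet Γ p x₀ (Γ.act a x)) ≤ sInf (efSet Γ p x₀ x) + p a := by
    intro a x
    obtain ⟨γ, hγ⟩ := hmem x
    apply hle
    refine ⟨a * γ, ?_⟩
    rw [Γ.act_mul, ds_act Γ hc, hp, hγ]
    ring
  refine ⟨⟨fun x => sInf (efSet Γ p x₀ x), ?_, ?_⟩⟩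
  · intro x y hxy
    obtain ⟨γ, hγ⟩ := hmem x
    have h1 := hle y _ ⟨γ, rfl⟩
    have h2 := ds_tri hc y x (Γ.act γ x₀)
    have h3 := ds_le_one_of (Γ.symm _ _ hxy)
    show sInf (efSet Γ p x₀ y) ≤ sInf (efSet Γ p x₀ x) + 1
    rw [hγ]
    omega
  · intro a x
    apply le_antisymm (hact a x)
    have h1 := hact a⁻¹ (Γ.act a x)
    rw [← Γ.act_mul, inv_mul_cancel, Γ.act_one, hom_inv hp] at h1
    omega

/-- periodic walks -/
def PW (Γ : AG A) (f : ℤ → Γ.V) (c : A) (N : ℕ) : Prop :=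
  1 ≤ N ∧ (∀ j, Γ.R (f j) (f (j + 1))) ∧ ∀ j : ℤ, f (j + N) = Γ.act c (f j)

/-- a closed walk up to `c` extends to a periodic walk -/
theorem exists_pw (Γ : AG A) (c : A) (N : ℕ) (hN : 1 ≤ N) (f : ℕ → Γ.V)
    (hf : ∀ j < N, Γ.R (f j) (f (j + 1))) (hc : f N = Γ.act c (f 0)) :
    ∃ g : ℤ → Γ.V, PW Γ g c N ∧ ∀ j : ℕ, j ≤ N → g j = f j := by
  have hN0 : (0 : ℤ) < N := by exact_mod_cast hN
  have hNne : (N : ℤ) ≠ 0 := ne_of_gt hN0
  have hr : ∀ j : ℤ, 0 ≤ j % N ∧ j % N < N := fun j =>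
    ⟨Int.emod_nonneg j hNne, Int.emod_lt_of_pos j hN0⟩
  refine ⟨fun j => Γ.act (c ^ (j / (N : ℤ))) (f (j % (N : ℤ)).toNat), ⟨hN, ?_, ?_⟩, ?_⟩
  · intro j
    obtain ⟨h0, h1⟩ := hr j
    have h2 := Int.emod_add_mul_ediv j N
    set q := j / (N : ℤ) with hq
    set r := (j % (N : ℤ)).toNat with hrr
    have h3 : (r : ℤ) = j % (N : ℤ) := Int.toNat_of_nonneg h0
    have h4 : r < N := by omega
    by_cases h5 : r + 1 < N
    · have e1 : (j + 1) / (N : ℤ) = q := by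
        have : j + 1 = (r + 1 : ℤ) + N * q := by omega
        rw [this, Int.add_mul_ediv_left _ _ hNne, Int.ediv_eq_zero_of_lt (by omega) (by omega)]
        ring
      have e2 : (j + 1) % (N : ℤ) = r + 1 := by
        have : j + 1 = (r + 1 : ℤ) + N * q := by omega
        rw [this, Int.add_mul_emod_self_left, Int.emod_eq_of_lt (by omega) (by omega)]
      have e3 : ((j + 1) % (N : ℤ)).toNat = r + 1 := by omega
      show Γ.R _ (Γ.act (c ^ ((j + 1) / (N : ℤ))) (f ((j + 1) % (N : ℤ)).toNat))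
      rw [e1, e3]
      exact Γ.act_R _ _ _ (hf r h4)
    · have h6 : r + 1 = N := by omega
      have e0 : j + 1 = (N : ℤ) * (q + 1) := by
        rw [mul_add, mul_one]
        omega
      have e1 : (j + 1) / (N : ℤ) = q + 1 := by
        rw [e0, Int.mul_ediv_cancel_left _ hNne]
      have e3 : ((j + 1) % (N : ℤ)).toNat = 0 := by
        rw [e0, Int.mul_emod_right]
        rfl
      show Γ.R _ (Γ.act (c ^ ((j + 1) / (N : ℤ))) (f ((j + 1) % (N : ℤ)).toNat))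
      rw [e1, e3, zpow_add, zpow_one, Γ.act_mul, ← hc]
      have := hf r h4
      rw [h6] at this
      exact Γ.act_R _ _ _ this
  · intro j
    show Γ.act (c ^ ((j + N) / (N : ℤ))) (f ((j + N) % (N : ℤ)).toNat) = _
    have e1 : (j + N) / (N : ℤ) = 1 + j / (N : ℤ) := by
      have := Int.add_mul_ediv_right j 1 hNne
      rw [one_mul] at this
      rw [this]; ring
    rw [Int.add_emod_right, e1, zpow_add, zpow_one, Γ.act_mul]
  · intro j hj
    rcases Nat.lt_or_ge j N with h1 | h1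
    · show Γ.act (c ^ ((j : ℤ) / (N : ℤ))) (f ((j : ℤ) % (N : ℤ)).toNat) = _
      rw [Int.ediv_eq_zero_of_lt (by omega) (by omega), Int.emod_eq_of_lt (by omega) (by omega),
        zpow_zero, Γ.act_one]
      rfl
    · have h2 : j = N := le_antisymm hj h1
      subst h2
      show Γ.act (c ^ ((j : ℤ) / (j : ℤ))) (f ((j : ℤ) % (j : ℤ)).toNat) = _
      rw [Int.ediv_self hNne, Int.emod_self, zpow_one, hc]
      rfl

private theorem pw_mul (Γ : AG A) {f : ℤ → Γ.V} {c : A} {N : ℕ} (h : PW Γ f c N) (j q : ℤ) :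
    f (j + N * q) = Γ.act (c ^ q) (f j) := by
  induction q using Int.induction_on with
  | zero => simp [Γ.act_one]
  | succ i ih =>
    have e : j + (N : ℤ) * ((i : ℤ) + 1) = (j + N * i) + N := by ring
    rw [e, h.2.2, ih, ← Γ.act_mul]
    congr 1
    rw [add_comm, zpow_add, zpow_one]
  | pred i ih =>
    have e : j + (N : ℤ) * (-(i : ℤ)) = (j + N * (-(i : ℤ) - 1)) + N := by ring
    rw [e, h.2.2] at ih
    have h1 := congrArg (Γ.act c⁻¹) ih
    rw [← Γ.act_mul, inv_mul_cancel, Γ.act_one, ← Γ.act_mul] at h1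
    rw [h1]
    congr 1
    rw [show (-(i : ℤ) - 1) = -1 + -(i : ℤ) by ring, zpow_add, zpow_neg_one]

/-- least value on a clique -/
private noncomputable def efK (Γ : AG A) (hne : Nonempty Γ.V) {p : A → ℤ} (u : EF Γ p) :
    {u' : EF Γ.K p // ∀ (Q : Γ.K.V) (x : Γ.V), x ∈ Q.1 → u'.U Q ≤ u.U x ∧ u.U x ≤ u'.U Q + 1} := by
  haveI := hne
  have hQne : ∀ Q : Γ.K.V, Q.1.Nonempty := fun Q => mc_nonempty (V := Γ.V) (R := Γ.R) Q
  have hbdd : ∀ Q : Γ.K.V, BddBelow (u.U '' Q.1) := by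
    intro Q
    obtain ⟨x, hx⟩ := hQne Q
    refine ⟨u.U x - 1, ?_⟩
    rintro _ ⟨y, hy, rfl⟩
    have := u.lip y x (Q.2.1 y hy x hx)
    omega
  have hmem : ∀ Q : Γ.K.V, sInf (u.U '' Q.1) ∈ u.U '' Q.1 := fun Q =>
    Int.csInf_mem ((hQne Q).image _) (hbdd Q)
  have hle : ∀ (Q : Γ.K.V) (x : Γ.V), x ∈ Q.1 → sInf (u.U '' Q.1) ≤ u.U x := fun Q x hx =>
    csInf_le (hbdd Q) ⟨x, hx, rfl⟩
  have hge : ∀ (Q : Γ.K.V) (x : Γ.V), x ∈ Q.1 → u.U x ≤ sInf (u.U '' Q.1) + 1 := by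
    intro Q x hx
    obtain ⟨y, hy, hy'⟩ := hmem Q
    rw [← hy']
    exact u.lip y x (Q.2.1 y hy x hx)
  have hact : ∀ (a : A) (Q : Γ.K.V),
      sInf (u.U '' (Γ.K.act a Q).1) ≤ sInf (u.U '' Q.1) + p a := by
    intro a Q
    obtain ⟨y, hy, hy'⟩ := hmem Q
    rw [← hy', ← u.eqv]
    exact hle (Γ.K.act a Q) _ ⟨y, hy, rfl⟩
  refine ⟨⟨fun Q => sInf (u.U '' Q.1), ?_, ?_⟩, fun Q x hx => ⟨hle Q x hx, hge Q x hx⟩⟩
  · intro Q Q' h
    rcases (show KR Γ.R Q Q' from h) with h | ⟨x, hx, hx'⟩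
    · rw [h]; omega
    · exact (hle Q' x hx').trans (hge Q x hx)
  · intro a Q
    apply le_antisymm (hact a Q)
    obtain ⟨z, ⟨y, hy, hyz⟩, hz'⟩ := hmem (Γ.K.act a Q)
    have h1 := hle Q y hy
    rw [← hz', ← hyz, u.eqv]
    omega

/-- periodic lines along which `u` grows by one and `v` by `ε` in every step -/
def TLine (Γ : AG A) {p q : A → ℤ} (u : EF Γ p) (v : EF Γ q) (ε a b : ℤ) (c : A) (N : ℕ) : Prop :=
  ∃ f : ℤ → Γ.V, PW Γ f c N ∧ (∀ j, u.U (f j) = a + j) ∧ ∀ j, v.U (f j) = b + ε * j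

theorem tline_descend (Γ : AG A) (hne : Nonempty Γ.V) {p q : A → ℤ} (u : EF Γ p) (v : EF Γ q) :
    ∃ (u' : EF Γ.K p) (v' : EF Γ.K q), ∀ (ε a b : ℤ) (c : A) (N : ℕ), (ε = 1 ∨ ε = -1) →
      TLine Γ.K u' v' ε a b c N → TLine Γ u v ε (a + 1) (if ε = 1 then b + 1 else b) c N := by
  obtain ⟨u', hu'⟩ := efK Γ hne u
  obtain ⟨v', hv'⟩ := efK Γ hne v
  refine ⟨u', v', ?_⟩
  rintro ε a b c N hε ⟨f, hf, hfu, hfv⟩
  haveI := hne
  have hmeet : ∀ r : ℕ, ∃ x : Γ.V, x ∈ (f r).1 ∧ x ∈ (f ((r : ℤ) + 1)).1 := by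
    intro r
    rcases (show KR Γ.R (f r) (f ((r : ℤ) + 1)) from hf.2.1 r) with h | ⟨x, hx, hx'⟩
    · obtain ⟨x, hx⟩ := mc_nonempty (V := Γ.V) (R := Γ.R) (f r)
      exact ⟨x, hx, h ▸ hx⟩
    · exact ⟨x, hx, hx'⟩
  choose w hw1 hw2 using hmeet
  have hN0 : (0 : ℤ) < N := by exact_mod_cast hf.1
  have hNne : (N : ℤ) ≠ 0 := ne_of_gt hN0
  let g : ℤ → Γ.V := fun j => Γ.act (c ^ (j / (N : ℤ))) (w (j % (N : ℤ)).toNat)
  have hg : ∀ j, g j ∈ (f j).1 ∧ g j ∈ (f (j + 1)).1 := by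
    intro j
    have h0 := Int.emod_nonneg j hNne
    have h2 := Int.emod_add_mul_ediv j N
    set q := j / (N : ℤ) with hq
    set r := (j % (N : ℤ)).toNat with hrr
    have h3 : (r : ℤ) = j % (N : ℤ) := Int.toNat_of_nonneg h0
    have e1 : f j = Γ.K.act (c ^ q) (f (r : ℤ)) := by
      rw [← pw_mul Γ.K hf]
      congr 1
      omega
    have e2 : f (j + 1) = Γ.K.act (c ^ q) (f ((r : ℤ) + 1)) := by
      rw [← pw_mul Γ.K hf]
      congr 1
      omega
    constructor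
    · rw [e1]
      exact ⟨w r, hw1 r, rfl⟩
    · rw [e2]
      exact ⟨w r, hw2 r, rfl⟩
  refine ⟨g, ⟨hf.1, ?_, ?_⟩, ?_, ?_⟩
  · intro j
    exact (f (j + 1)).2.1 _ (hg j).2 _ (hg (j + 1)).1
  · intro j
    show Γ.act (c ^ ((j + N) / (N : ℤ))) (w ((j + N) % (N : ℤ)).toNat) = _
    have e1 : (j + N) / (N : ℤ) = 1 + j / (N : ℤ) := by
      have := Int.add_mul_ediv_right j 1 hNne
      rw [one_mul] at this
      rw [this]; ring
    rw [Int.add_emod_right, e1, zpow_add, zpow_one, Γ.act_mul]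
  · intro j
    have h1 := (hu' _ _ (hg j).1).2
    have h2 := (hu' _ _ (hg j).2).1
    rw [hfu] at h1 h2
    omega
  · intro j
    have h1 := (hv' _ _ (hg j).1)
    have h2 := (hv' _ _ (hg j).2)
    rw [hfv] at h1 h2
    rcases hε with rfl | rfl
    · simp only [if_true]
      omega
    · have : ¬ ((-1 : ℤ) = 1) := by decide
      simp only [this, if_false]
      omega

theorem tline_iter (Γ : AG A) (hne : Nonempty Γ.V) {p q : A → ℤ} (u : EF Γ p) (v : EF Γ q)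
    (m : ℕ) :
    ∃ (u' : EF (AG.K^[m] Γ) p) (v' : EF (AG.K^[m] Γ) q),
      ∀ (ε a b : ℤ) (c : A) (N : ℕ), (ε = 1 ∨ ε = -1) →
      TLine (AG.K^[m] Γ) u' v' ε a b c N →
        TLine Γ u v ε (a + m) (if ε = 1 then b + m else b) c N := by
  induction m generalizing Γ with
  | zero =>
    refine ⟨u, v, ?_⟩
    intro ε a b c N _ h
    simpa using h
  | succ m ih =>
    obtain ⟨u1, v1, h1⟩ := tline_descend Γ hne u v
    obtain ⟨u', v', h2⟩ := ih Γ.K (nonempty_K Γ hne) u1 v1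
    refine ⟨u', v', ?_⟩
    intro ε a b c N hε h
    have h3 := h1 ε _ _ c N hε (h2 ε a b c N hε h)
    have e1 : a + (m : ℤ) + 1 = a + ((m + 1 : ℕ) : ℤ) := by push_cast; ring
    rw [e1] at h3
    rcases hε with rfl | rfl
    · simp only [if_true] at h3 ⊢
      have e2 : b + (m : ℤ) + 1 = b + ((m + 1 : ℕ) : ℤ) := by push_cast; ring
      rwa [e2] at h3
    · have hn : ¬ ((-1 : ℤ) = 1) := by decide
      simp only [hn, if_false] at h3 ⊢
      exact h3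

end Pool.Agent.H71.Clq
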