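import Mathlib
import Pool.Agent.H71.Clq.DualL
import Pool.Agent.H71.Clq.UFun

set_option autoImplicit false

/-!
# Module CROSS: two independent periodic lines in the plane share a vertex

Suppose `α i ≠ β j` for all `i, j`. `β` is injective (by `u`). Let `z x y = 1` iff `{x, y} = {β j, β (j+1)}` for some `j`; it
is even (at `β j` the two edges to `β (j-1)`, `β (j+1)`). `θ` from `dual_lemma`. Let `B = {β j}`.
* `side`: for `x ∉ B` all triangles at `x` have the same `θ` (consecutive triangles share an edge at `x`, walk in the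
  link). Adjacent `x, y ∉ B` have the same side (a common triangle).
* `p, q` are additive (evaluate `u`, `v`). Put `T = q(c') u - p(c') v`, `H = p(c') u + q(c') v` and `τ`, `η` the same
  combinations of `p, q`: `τ(c') = 0`, `η(c') > 0`, `τ(c) ≠ 0`; replace `T, τ` by `-T, -τ` if needed so that
  `τ(c) > 0`. `T, H` change by at most `C = |p(c')| + |q(c')|` along `R`. `{x | |T x| ≤ M, |H x| ≤ M}` is finite for all `M`:
  `u` and `v` are bounded on it (`T, H` determine `u, v`), `x = γ y` with `y ∈ S` (`CoF`), `p γ`, `q γ` are bounded, and `γ ↦ (p γ, q γ)` is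
  injective by `hinj`.
* `T` is bounded by `M` on `B` (periodicity, `τ(c') = 0`).
* far points: there is `K₀` such that all `x` with `T x ≥ K₀` have the same side `σ₊`, all `x` with `T x ≤ -K₀` have the same
  side `σ₋`. Let `L` be the maximum over `y ∈ S` of `ds y (c y)`. If `T x ≥ M + 1 + C L` then a geodesic from `x` to
  `c x` (translate of one from `y ∈ S`; length `≤ L`) avoids `B`, so `side x = side (c x) = side (c^k x)`. For two such points `x, y` and
  large `k` a walk from `c^k x` to `c^k y` (translate of a walk from `x` to `y`) avoids `B`.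
* `α` avoids `B` and `T (α (k N)) = T (α 0) + k τ(c)`, so `σ₊ = σ₋ = σ`.
* If `{x,y,w}` is a triangle with `θ ≠ σ` then `|T| ≤ max K₀ M` on it.
* parity: `χ x = (0 ≤ H x)`. Let `P` be the set of `(x, y, w)` pairwise adjacent with `¬ χ x`, `χ y`, `θ {x,y,w} ≠ σ`. It is
  finite (`|H| ≤ 2 C + ...` on it) and has an involution without fixed points: `(x, y, w) ↦ (w, y, x)` if `¬ χ w`, `(x, w, y)` if `χ w`. So
  `|P|` is even. For fixed adjacent `x, y` with `¬ χ x`, `χ y` the number of `w` has the parity of `z x y`. So the number of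
  such `(x, y)` with `z x y = 1` is even. But it is the number of `j` such that `χ (β j) ≠ χ (β (j+1))`, which
  is odd because `H (β j) → ± ∞` for `j → ± ∞` (`η(c') > 0`).
-/

namespace Pool.Agent.H71.Clq

namespace Crs

section add

variable {A : Type} [CommGroup A] {Γ : AG A} {p : A → ℤ}

theorem p_mul (hne : Nonempty Γ.V) (u : EF Γ p) (a b : A) : p (a * b) = p a + p b := by
  obtain ⟨x⟩ := hne
  have h1 := u.eqv (a * b) x
  have h2 := u.eqv a (Γ.act b x)
  have h3 := u.eqv b x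
  rw [Γ.act_mul] at h1
  linarith

theorem p_one (hne : Nonempty Γ.V) (u : EF Γ p) : p 1 = 0 := by
  have := p_mul hne u 1 1
  rw [mul_one] at this
  linarith

theorem p_inv (hne : Nonempty Γ.V) (u : EF Γ p) (a : A) : p a⁻¹ = - p a := by
  have := p_mul hne u a a⁻¹
  rw [mul_inv_cancel, p_one hne u] at this
  linarith

theorem act_inj (Γ : AG A) (a : A) {x y : Γ.V} (h : Γ.act a x = Γ.act a y) : x = y := by
  have h1 : Γ.act a⁻¹ (Γ.act a x) = Γ.act a⁻¹ (Γ.act a y) := by rw [h]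
  rwa [← Γ.act_mul, ← Γ.act_mul, inv_mul_cancel, Γ.act_one, Γ.act_one] at h1

/-- the displacement of `c` is bounded -/
theorem disp_bdd (Γ : AG A) (hc : Cn Γ.R) (hf : CoF Γ) (c : A) :
    ∃ L : ℕ, ∀ x, Wk Γ.R L x (Γ.act c x) := by
  obtain ⟨S, hS, hcov⟩ := hf
  obtain ⟨L, hL⟩ := (hS.image (fun y => ds Γ.R y (Γ.act c y))).bddAbove
  refine ⟨L, fun x => ?_⟩
  obtain ⟨a, y, hy, rfl⟩ := hcov x
  rw [← ds_le_iff Γ.refl hc]
  have e : Γ.act c (Γ.act a y) = Γ.act a (Γ.act c y) := by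
    rw [← Γ.act_mul, ← Γ.act_mul, mul_comm]
  rw [e, ds_act Γ hc]
  exact hL ⟨y, hy, rfl⟩

theorem fin_uv (Γ : AG A) (hf : CoF Γ) {p q : A → ℤ} (hne : Nonempty Γ.V) (u : EF Γ p)
    (v : EF Γ q) (hinj : ∀ a, p a = 0 → q a = 0 → a = 1) (M : ℤ) :
    {x | |u.U x| ≤ M ∧ |v.U x| ≤ M}.Finite := by
  obtain ⟨S, hS, hcov⟩ := hf
  have h1 : {x | |u.U x| ≤ M ∧ |v.U x| ≤ M} ⊆
      ⋃ y ∈ S, {x | (∃ a, x = Γ.act a y) ∧ |u.U x| ≤ M ∧ |v.U x| ≤ M} := by
    intro x hx
    obtain ⟨a, y, hy, hxy⟩ := hcov x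
    rw [Set.mem_iUnion₂]
    exact ⟨y, hy, ⟨a, hxy⟩, hx⟩
  refine (hS.biUnion fun y _ => ?_).subset h1
  refine Set.Finite.of_finite_image (f := fun x => (u.U x, v.U x)) ?_ ?_
  · refine ((Set.finite_Icc (-M) M).prod (Set.finite_Icc (-M) M)).subset ?_
    rintro _ ⟨x, ⟨_, hx1, hx2⟩, rfl⟩
    exact ⟨abs_le.1 hx1, abs_le.1 hx2⟩
  · rintro x ⟨⟨a, rfl⟩, _⟩ x' ⟨⟨b, rfl⟩, _⟩ hxx
    have h2 : u.U (Γ.act a y) = u.U (Γ.act b y) := congrArg Prod.fst hxx
    have h3 : v.U (Γ.act a y) = v.U (Γ.act b y) := congrArg Prod.snd hxx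
    rw [u.eqv, u.eqv] at h2
    rw [v.eqv, v.eqv] at h3
    have h4 : a * b⁻¹ = 1 := by
      apply hinj
      · rw [p_mul hne u, p_inv hne u]; linarith
      · rw [p_mul hne v, p_inv hne v]; linarith
    rw [mul_inv_eq_one.1 h4]

end add

section side

variable {W : Type} (G : SimpleGraph W) (θ : Set W → ZMod 2) (z : W → W → ZMod 2)

/-- all triangles at `x` have the value `σ` -/
def Sd (x : W) (σ : ZMod 2) : Prop :=
  ∀ y w, G.Adj x y → G.Adj x w → G.Adj y w → θ {x, y, w} = σ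

/-- no marked edge at `x` -/
def Off (x : W) : Prop := ∀ y, z x y = 0

variable {G θ z}

theorem zmod_eq_of_add {a b : ZMod 2} (h : a + b = 0) : a = b := by
  revert a b; decide

theorem sd_exists (hl : LCy G) (hb : Bdy G θ z) (x : W) (hx : Off z x) : ∃ σ, Sd G θ x σ := by
  classical
  have loc : ∀ y a b, G.Adj x y → G.Adj x a → G.Adj y a → G.Adj x b → G.Adj y b →
      θ {x, y, a} = θ {x, y, b} := by
    intro y a b h1 h2 h3 h4 h5
    by_cases hab : a = b
    · rw [hab]
    · have := hb x y a b h1 h2 h3 h4 h5 hab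
      rw [hx y] at this
      exact zmod_eq_of_add this
  by_cases h : ∃ y w, G.Adj x y ∧ G.Adj x w ∧ G.Adj y w
  · obtain ⟨y0, w0, h1, h2, h3⟩ := h
    refine ⟨θ {x, y0, w0}, ?_⟩
    have key : ∀ y, Relation.ReflTransGen (fun u v => G.Adj x u ∧ G.Adj x v ∧ G.Adj u v) y0 y →
        ∀ w, G.Adj x w → G.Adj y w → θ {x, y, w} = θ {x, y0, w0} := by
      intro y hy
      induction hy with
      | refl =>
        intro w hw1 hw2
        exact loc y0 w w0 h1 hw1 hw2 h2 h3
      | @tail b c hb hbc ih =>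
        intro w hw1 hw2
        rw [loc c w b hbc.2.1 hw1 hw2 hbc.1 hbc.2.2.symm, ← ih c hbc.2.1 hbc.2.2]
        congr 1
        ext t
        simp only [Set.mem_insert_iff, Set.mem_singleton_iff]
        tauto
    intro y w hy hw hyw
    exact key y (hl.2 x y0 y h1 hy) w hw hyw
  · exact ⟨0, fun y w h1 h2 h3 => absurd ⟨y, w, h1, h2, h3⟩ h⟩

theorem exists_common (hl : LCy G) {x y : W} (h : G.Adj x y) :
    ∃ a b, a ≠ b ∧ G.Adj x a ∧ G.Adj y a ∧ G.Adj x b ∧ G.Adj y b ∧
      ∀ w, G.Adj x w → G.Adj y w → w = a ∨ w = b := by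
  obtain ⟨a, b, hne, hset⟩ := Set.ncard_eq_two.mp (hl.1 x y h)
  have ha : a ∈ {z | G.Adj x z ∧ G.Adj y z} := by rw [hset]; exact Or.inl rfl
  have hb : b ∈ {z | G.Adj x z ∧ G.Adj y z} := by rw [hset]; exact Or.inr rfl
  refine ⟨a, b, hne, ha.1, ha.2, hb.1, hb.2, fun w h1 h2 => ?_⟩
  have hw : w ∈ {z | G.Adj x z ∧ G.Adj y z} := ⟨h1, h2⟩
  rw [hset] at hw
  exact hw

theorem sd_unique (hl : LCy G) {x y : W} (h : G.Adj x y) {σ σ' : ZMod 2} (h1 : Sd G θ x σ)
    (h2 : Sd G θ x σ') : σ = σ' := by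
  obtain ⟨a, b, _, ha, hya, _⟩ := exists_common hl h
  rw [← h1 y a h ha hya, ← h2 y a h ha hya]

theorem sd_step (hl : LCy G) (hb : Bdy G θ z) {x y : W} (h : RG G x y) {σ : ZMod 2}
    (hx : Sd G θ x σ) (hy : Off z y) : Sd G θ y σ := by
  rcases h with rfl | h
  · exact hx
  · obtain ⟨σ', hσ'⟩ := sd_exists hl hb y hy
    obtain ⟨a, b, _, ha, hya, _⟩ := exists_common hl h
    have h1 := hx y a h ha hya
    have h2 := hσ' x a h.symm hya ha
    rw [Set.insert_comm] at h2
    rw [h1] at h2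
    rw [h2]
    exact hσ'

end side

section far

variable {A : Type} [CommGroup A] {Γ : AG A} {G : SimpleGraph Γ.V}
  {θ : Set Γ.V → ZMod 2} {z : Γ.V → Γ.V → ZMod 2}

theorem T_wk {T : Γ.V → ℤ} {C : ℤ} (hT : ∀ x y, Γ.R x y → T x - C ≤ T y) {n : ℕ} {x y : Γ.V}
    (h : Wk Γ.R n x y) : T x - C * n ≤ T y := by
  induction n generalizing y with
  | zero =>
    obtain rfl : x = y := h
    simp
  | succ n ih =>
    obtain ⟨w, h1, h2⟩ := h
    have h3 := ih h1
    have h4 := hT _ _ h2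
    push_cast
    linarith

theorem sd_wk (hG : Γ.R = RG G) (hl : LCy G) (hb : Bdy G θ z) {T : Γ.V → ℤ} {C : ℤ}
    (hC : 0 ≤ C)
    (hT : ∀ x y, Γ.R x y → T x - C ≤ T y) {m : ℤ} (hm : ∀ w, m ≤ T w → Off z w) {n : ℕ}
    {x y : Γ.V} (h : Wk Γ.R n x y) (hx : m ≤ T x - C * n) {σ : ZMod 2} (hσ : Sd G θ x σ) :
    Sd G θ y σ := by
  induction n generalizing y with
  | zero =>
    obtain rfl : x = y := h
    exact hσ
  | succ n ih =>
    obtain ⟨w, h1, h2⟩ := h
    have h3 : m ≤ T x - C * n := by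
      push_cast at hx
      linarith
    have h4 := T_wk hT h1
    have h5 := hT _ _ h2
    rw [hG] at h2
    apply sd_step hl hb h2 (ih h1 h3) (hm _ _)
    push_cast at hx
    linarith

theorem far (hn : Nice Γ) (hG : Γ.R = RG G) (hl : LCy G) (hb : Bdy G θ z)
    (hadj : ∀ x, ∃ y, G.Adj x y) {T : Γ.V → ℤ} {C : ℤ} (hC : 0 ≤ C)
    (hT : ∀ x y, Γ.R x y → T x - C ≤ T y) {m : ℤ} (hm : ∀ w, m ≤ T w → Off z w) {c : A} {t : ℤ}
    (ht : 0 < t) (hc : ∀ x, T (Γ.act c x) = T x + t) :
    ∃ (K₀ : ℤ) (σ : ZMod 2), ∀ x, K₀ ≤ T x → Sd G θ x σ := by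
  obtain ⟨L, hL⟩ := disp_bdd Γ hn.cn hn.cof c
  by_cases hex : ∃ x0, m + C * L ≤ T x0
  swap
  · exact ⟨m + C * L, 0, fun x hx => absurd ⟨x, hx⟩ hex⟩
  obtain ⟨x0, hx0⟩ := hex
  have hCL : 0 ≤ C * L := mul_nonneg hC (by positivity)
  have hTk : ∀ (k : ℕ) (x : Γ.V), T (Γ.act (c ^ k) x) = T x + k * t := by
    intro k
    induction k with
    | zero =>
      intro x
      rw [pow_zero, Γ.act_one]
      simp
    | succ k ih =>
      intro x
      rw [pow_succ, Γ.act_mul, ih, hc]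
      push_cast
      ring
  have hk : ∀ (k : ℕ) (x : Γ.V) (σ : ZMod 2), m + C * L ≤ T x → Sd G θ x σ →
      Sd G θ (Γ.act (c ^ k) x) σ := by
    intro k
    induction k with
    | zero =>
      intro x σ _ h
      rw [pow_zero, Γ.act_one]
      exact h
    | succ k ih =>
      intro x σ hx h
      rw [pow_succ, Γ.act_mul]
      apply ih
      · rw [hc]; linarith
      · exact sd_wk hG hl hb hC hT hm (hL x) (by linarith) h
  obtain ⟨σ, hσ⟩ := sd_exists hl hb x0 (hm x0 (by linarith))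
  refine ⟨m + C * L, σ, fun x hx => ?_⟩
  obtain ⟨σ', hσ'⟩ := sd_exists hl hb x (hm x (by linarith))
  obtain ⟨n, hwk⟩ := exists_wk hn.cn x0 x
  -- translate far out
  have hwk' : Wk Γ.R n (Γ.act (c ^ (C * n).toNat) x0) (Γ.act (c ^ (C * n).toNat) x) :=
    wk_map _ (Γ.act_R _) hwk
  have h1 := hk (C * n).toNat x0 σ hx0 hσ
  have h2 := hk (C * n).toNat x σ' hx hσ'
  have hCn : 0 ≤ C * n := mul_nonneg hC (by positivity)
  have h3 : m ≤ T (Γ.act (c ^ (C * n).toNat) x0) - C * n := by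
    rw [hTk, Int.toNat_of_nonneg hCn]
    nlinarith
  have h4 := sd_wk hG hl hb hC hT hm hwk' h3 h1
  obtain ⟨y, hy⟩ := hadj (Γ.act (c ^ (C * n).toNat) x)
  rw [sd_unique hl hy h4 h2]
  exact hσ'

end far

end Crs

namespace Crs

section main

variable {A : Type} [CommGroup A]

/-- marked edges: the edges of the walk -/
def Mk {W : Type} (β : ℤ → W) (x y : W) : Prop :=
  ∃ j, (x = β j ∧ y = β (j + 1)) ∨ (x = β (j + 1) ∧ y = β j)

theorem mk_symm {W : Type} {β : ℤ → W} {x y : W} (h : Mk β x y) : Mk β y x := by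
  obtain ⟨j, h | h⟩ := h
  · exact ⟨j, Or.inr ⟨h.2, h.1⟩⟩
  · exact ⟨j, Or.inl ⟨h.2, h.1⟩⟩

open Classical in
/-- the indicator -/
noncomputable def zf {W : Type} (β : ℤ → W) (x y : W) : ZMod 2 := if Mk β x y then 1 else 0

theorem zf_symm {W : Type} (β : ℤ → W) (x y : W) : zf β x y = zf β y x := by
  unfold zf
  by_cases h : Mk β x y
  · rw [if_pos h, if_pos (mk_symm h)]
  · rw [if_neg h, if_neg (fun h' => h (mk_symm h'))]

theorem zf_off {W : Type} (β : ℤ → W) (x : W) (h : ∀ j, x ≠ β j) : Off (zf β) x := by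
  intro y
  unfold zf
  rw [if_neg]
  rintro ⟨j, h' | h'⟩
  · exact h j h'.1
  · exact h (j + 1) h'.1

theorem zf_ev {W : Type} (β : ℤ → W) (hβ : Function.Injective β) : Ev (zf β) := by
  classical
  intro x
  by_cases hx : ∃ j, x = β j
  · obtain ⟨j, rfl⟩ := hx
    have hne : β (j + 1) ≠ β (j - 1) := fun h => by
      have := hβ h
      omega
    have h1 : ∀ y, zf β (β j) y ≠ 0 → y ∈ ({β (j + 1), β (j - 1)} : Finset W) := by
      intro y hy
      unfold zf at hy
      have h2 : Mk β (β j) y := by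
        by_contra h
        exact hy (if_neg h)
      obtain ⟨i, ⟨h3, h4⟩ | ⟨h3, h4⟩⟩ := h2
      · have := hβ h3
        subst this
        simp [h4]
      · have h5 := hβ h3
        have : i = j - 1 := by omega
        subst this
        simp [h4]
    have h2 : Function.support (zf β (β j)) ⊆ (({β (j + 1), β (j - 1)} : Finset W) : Set W) :=
      fun y hy => h1 y hy
    rw [finsum_eq_sum_of_support_subset _ h2, Finset.sum_pair hne]
    have h3 : zf β (β j) (β (j + 1)) = 1 := if_pos ⟨j, Or.inl ⟨rfl, rfl⟩⟩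
    have h4 : zf β (β j) (β (j - 1)) = 1 := if_pos ⟨j - 1, Or.inr ⟨by simp, rfl⟩⟩
    rw [h3, h4]
    decide
  · have h1 : ∀ y, zf β x y = 0 := zf_off β x (fun j hj => hx ⟨j, hj⟩)
    rw [finsum_congr h1, finsum_zero]

theorem add_self2 (σ : ZMod 2) : σ + σ = 0 := by
  revert σ; decide

theorem ite_add (s σ : ZMod 2) : (if s ≠ σ then (1 : ZMod 2) else 0) = s + σ := by
  revert s σ; decide

/-- parity argument -/
theorem parity {W : Type} (G : SimpleGraph W) (hl : LCy G) (θ : Set W → ZMod 2) (β : ℤ → W)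
    (hadj : ∀ j, G.Adj (β j) (β (j + 1)))
    (hb : Bdy G θ (zf β)) (U : W → ℤ) (hU : ∀ j, U (β j) = U (β 0) + j) (σ : ZMod 2)
    (hfin : {t : W × W × W | G.Adj t.1 t.2.1 ∧ G.Adj t.1 t.2.2 ∧ G.Adj t.2.1 t.2.2 ∧
      U t.1 < 0 ∧ 0 ≤ U t.2.1 ∧ θ {t.1, t.2.1, t.2.2} ≠ σ}.Finite) : False := by
  classical
  set P := hfin.toFinset with hP
  have hmem : ∀ t : W × W × W, t ∈ P ↔ G.Adj t.1 t.2.1 ∧ G.Adj t.1 t.2.2 ∧ G.Adj t.2.1 t.2.2 ∧
      U t.1 < 0 ∧ 0 ≤ U t.2.1 ∧ θ {t.1, t.2.1, t.2.2} ≠ σ := by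
    intro t
    rw [hP, Set.Finite.mem_toFinset]
    rfl
  let g : W × W × W → W × W × W := fun t =>
    if U t.2.2 < 0 then (t.2.2, t.2.1, t.1) else (t.1, t.2.2, t.2.1)
  have s1 : ∑ t ∈ P, (1 : ZMod 2) = 0 := by
    apply Finset.sum_involution (fun t _ => g t)
    · intro t _
      decide
    · intro t ht _ he
      have h := (hmem t).1 ht
      by_cases hu : U t.2.2 < 0
      · simp only [g, if_pos hu] at he
        exact h.2.1.ne (congrArg Prod.fst he).symm
      · simp only [g, if_neg hu] at he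
        exact h.2.2.1.ne (congrArg (fun t => t.2.1) he).symm
    · intro t ht
      obtain ⟨h1, h2, h3, h4, h5, h6⟩ := (hmem t).1 ht
      by_cases hu : U t.2.2 < 0
      · simp only [g, if_pos hu]
        rw [hmem]
        refine ⟨h3.symm, h2.symm, h1.symm, hu, h5, ?_⟩
        have e : ({t.2.2, t.2.1, t.1} : Set W) = {t.1, t.2.1, t.2.2} := by
          ext s
          simp only [Set.mem_insert_iff, Set.mem_singleton_iff]
          tauto
        simp only [e]
        exact h6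
      · simp only [g, if_neg hu]
        rw [hmem]
        refine ⟨h2, h1, h3.symm, h4, not_lt.1 hu, ?_⟩
        have e : ({t.1, t.2.2, t.2.1} : Set W) = {t.1, t.2.1, t.2.2} := by
          ext s
          simp only [Set.mem_insert_iff, Set.mem_singleton_iff]
          tauto
        simp only [e]
        exact h6
    · intro t ht
      obtain ⟨h1, h2, h3, h4, h5, h6⟩ := (hmem t).1 ht
      by_cases hu : U t.2.2 < 0
      · simp only [g, if_pos hu, if_pos h4]
      · simp only [g, if_neg hu, if_neg (not_lt.2 h5)]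
  -- fibres
  have s2 := Finset.sum_fiberwise_of_maps_to (s := P) (t := P.image (fun t => (t.1, t.2.1)))
    (g := fun t => (t.1, t.2.1)) (fun t ht => Finset.mem_image_of_mem _ ht)
    (fun _ => (1 : ZMod 2))
  have s3 : ∀ e ∈ P.image (fun t => (t.1, t.2.1)),
      ∑ t ∈ P with (t.1, t.2.1) = e, (1 : ZMod 2) = zf β e.1 e.2 := by
    intro e he
    obtain ⟨t, ht, rfl⟩ := Finset.mem_image.1 he
    obtain ⟨h1, h2, h3, h4, h5, h6⟩ := (hmem t).1 ht
    obtain ⟨x, y, w⟩ := t
    simp only at h1 h2 h3 h4 h5 h6 ⊢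
    obtain ⟨a, b, hab, ha, ha', hb1, hb2, hall⟩ := exists_common hl h1
    have e1 : P.filter (fun t => (t.1, t.2.1) = (x, y)) =
        ((({a, b} : Finset W).filter (fun w => θ {x, y, w} ≠ σ)).image (fun w => (x, y, w))) := by
      ext ⟨x', y', w'⟩
      rw [Finset.mem_filter, hmem, Finset.mem_image]
      simp only [Prod.mk.injEq, Finset.mem_filter, Finset.mem_insert, Finset.mem_singleton]
      constructor
      · rintro ⟨⟨k1, k2, k3, k4, k5, k6⟩, rfl, rfl⟩
        exact ⟨w', ⟨hall w' k2 k3, k6⟩, rfl, rfl, rfl⟩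
      · rintro ⟨w'', ⟨hw, hw'⟩, rfl, rfl, rfl⟩
        refine ⟨⟨h1, ?_, ?_, h4, h5, hw'⟩, rfl, rfl⟩
        · rcases hw with rfl | rfl
          · exact ha
          · exact hb1
        · rcases hw with rfl | rfl
          · exact ha'
          · exact hb2
    rw [e1, Finset.sum_image, Finset.sum_filter, Finset.sum_pair hab, ite_add, ite_add]
    · rw [← hb x y a b h1 ha ha' hb1 hb2 hab]
      linear_combination add_self2 σ
    · intro w1 _ w2 _ hw
      exact congrArg (fun t : W × W × W => t.2.2) hw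
  rw [Finset.sum_congr rfl s3, s1] at s2
  -- the only crossing
  set j0 : ℤ := - U (β 0) - 1 with hj0
  have e0 : ((β j0, β (j0 + 1)) : W × W) ∈ P.image (fun t => (t.1, t.2.1)) := by
    obtain ⟨a, b, hab, ha, ha', hb1, hb2, hall⟩ := exists_common hl (hadj j0)
    have h1 := hb _ _ a b (hadj j0) ha ha' hb1 hb2 hab
    have h2 : zf β (β j0) (β (j0 + 1)) = 1 := if_pos ⟨j0, Or.inl ⟨rfl, rfl⟩⟩
    rw [h2] at h1
    have hu1 : U (β j0) < 0 := by rw [hU]; omega
    have hu2 : 0 ≤ U (β (j0 + 1)) := by rw [hU]; omega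
    have h3 : θ {β j0, β (j0 + 1), a} ≠ σ ∨ θ {β j0, β (j0 + 1), b} ≠ σ := by
      by_contra hcon
      rw [not_or, not_not, not_not] at hcon
      rw [hcon.1, hcon.2, add_self2] at h1
      exact zero_ne_one h1
    rcases h3 with h3 | h3
    · exact Finset.mem_image.2 ⟨(β j0, β (j0 + 1), a),
        (hmem _).2 ⟨hadj j0, ha, ha', hu1, hu2, h3⟩, rfl⟩
    · exact Finset.mem_image.2 ⟨(β j0, β (j0 + 1), b),
        (hmem _).2 ⟨hadj j0, hb1, hb2, hu1, hu2, h3⟩, rfl⟩
  rw [Finset.sum_eq_single_of_mem _ e0] at s2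
  · have h2 : zf β (β j0) (β (j0 + 1)) = 1 := if_pos ⟨j0, Or.inl ⟨rfl, rfl⟩⟩
    rw [h2] at s2
    exact one_ne_zero s2
  · rintro e he hne
    obtain ⟨t, ht, rfl⟩ := Finset.mem_image.1 he
    obtain ⟨h1, h2, h3, h4, h5, h6⟩ := (hmem t).1 ht
    apply if_neg
    rintro ⟨j, ⟨k1, k2⟩ | ⟨k1, k2⟩⟩
    · simp only at k1 k2
      rw [k1, hU] at h4
      rw [k2, hU] at h5
      have : j = j0 := by omega
      subst this
      apply hne
      simp only [k1, k2]
    · simp only at k1 k2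
      rw [k1, hU] at h4
      rw [k2, hU] at h5
      omega

end main

end Crs

open Crs in
theorem crossing {A : Type} [CommGroup A] (Γ : AG A) (hn : Nice Γ) (G : SimpleGraph Γ.V)
    (hG : Γ.R = RG G) (hl : LCy G) {p q : A → ℤ} (hinj : ∀ a, p a = 0 → q a = 0 → a = 1)
    (u : EF Γ p) (v : EF Γ q) (α β : ℤ → Γ.V) (c c' : A) (N N' : ℕ) (hα : PW Γ α c N)
    (hβ : PW Γ β c' N') (hu : ∀ j : ℤ, u.U (β j) = u.U (β 0) + j)
    (hdet : p c * q c' ≠ p c' * q c) : ∃ i j : ℤ, α i = β j := by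
  classical
  by_contra hcon
  have hcon' : ∀ i j, α i ≠ β j := fun i j h => hcon ⟨i, j, h⟩
  have hβi : Function.Injective β := by
    intro i j h
    have h1 := hu i
    have h2 := hu j
    rw [h] at h1
    linarith
  have hRadj : ∀ x y, Γ.R x y → x ≠ y → G.Adj x y := by
    intro x y h hxy
    rw [hG] at h
    rcases h with h | h
    · exact absurd h hxy
    · exact h
  have hadjβ : ∀ j, G.Adj (β j) (β (j + 1)) := fun j =>
    hRadj _ _ (hβ.2.1 j) (fun h => by have := hβi h; omega)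
  have hadjR : ∀ x y, G.Adj x y → Γ.R x y := by
    intro x y h
    rw [hG]
    exact Or.inr h
  -- every vertex has a neighbour
  have hnb : ∀ x, ∃ y, G.Adj x y := by
    intro x
    obtain ⟨x', hx'⟩ : ∃ x', x ≠ x' := by
      by_cases h : x = β 0
      · exact ⟨β 1, by rw [h]; intro h'; have := hβi h'; omega⟩
      · exact ⟨β 0, h⟩
    have key : ∀ y, Relation.ReflTransGen Γ.R x y → x ≠ y → ∃ y, G.Adj x y := by
      intro y hy
      induction hy with
      | refl => intro h; exact absurd rfl h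
      | @tail b c _ hbc ih =>
        intro h
        by_cases hb : x = b
        · exact ⟨c, hRadj _ _ (by rw [hb]; exact hbc) h⟩
        · exact ih hb
    exact key x' (hn.cn x x') hx'
  obtain ⟨θ, hb⟩ := dual_lemma G (fun x => (hn.lf x).subset (fun y hy => hadjR x y hy)) hl
    (by rw [← hG]; exact hn.sc) (zf β) (zf_symm β)
    (by
      intro x y hxy
      apply if_neg
      rintro ⟨j, ⟨rfl, rfl⟩ | ⟨rfl, rfl⟩⟩
      · exact hxy (hadjβ j)
      · exact hxy (hadjβ j).symm) (zf_ev β hβi)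
  -- the function T
  have hpc : p c' = N' := by
    have h1 := hβ.2.2 0
    have h2 := hu (0 + N')
    rw [h1, u.eqv] at h2
    linarith
  have hN' : (1 : ℤ) ≤ N' := by exact_mod_cast hβ.1
  obtain ⟨a, b, hb0, h0, ht⟩ : ∃ a b : ℤ, b ≠ 0 ∧ a * p c' + b * q c' = 0 ∧
      0 < a * p c + b * q c := by
    rcases lt_or_gt_of_ne hdet with h | h
    · exact ⟨- q c', p c', by omega, by ring, by linarith⟩
    · exact ⟨q c', - p c', by omega, by ring, by linarith⟩
  set T : Γ.V → ℤ := fun x => a * u.U x + b * v.U x with hT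
  set t := a * p c + b * q c with htdef
  have hTc : ∀ x, T (Γ.act c x) = T x + t := by
    intro x
    simp only [hT, u.eqv, v.eqv, htdef]
    ring
  have hTc' : ∀ x, T (Γ.act c' x) = T x := by
    intro x
    simp only [hT, u.eqv, v.eqv]
    linarith
  set C : ℤ := |a| + |b| with hC
  have hC0 : 0 ≤ C := by positivity
  have hTl : ∀ x y, Γ.R x y → |T y - T x| ≤ C := by
    intro x y hxy
    have h1 := u.lip x y hxy
    have h2 := u.lip y x (Γ.symm _ _ hxy)
    have h3 := v.lip x y hxy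
    have h4 := v.lip y x (Γ.symm _ _ hxy)
    have e : T y - T x = a * (u.U y - u.U x) + b * (v.U y - v.U x) := by
      simp only [hT]; ring
    rw [e]
    have h5 : |u.U y - u.U x| ≤ 1 := abs_le.2 ⟨by linarith, by linarith⟩
    have h6 : |v.U y - v.U x| ≤ 1 := abs_le.2 ⟨by linarith, by linarith⟩
    calc |a * (u.U y - u.U x) + b * (v.U y - v.U x)|
        ≤ |a * (u.U y - u.U x)| + |b * (v.U y - v.U x)| := abs_add_le _ _
      _ = |a| * |u.U y - u.U x| + |b| * |v.U y - v.U x| := by rw [abs_mul, abs_mul]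
      _ ≤ |a| * 1 + |b| * 1 := add_le_add (mul_le_mul_of_nonneg_left h5 (abs_nonneg _))
          (mul_le_mul_of_nonneg_left h6 (abs_nonneg _))
      _ = C := by rw [hC]; ring
  -- T is bounded on β
  obtain ⟨m, hm0, hm⟩ : ∃ m : ℤ, 0 ≤ m ∧ ∀ j, |T (β j)| < m := by
    obtain ⟨m, hm⟩ := ((Set.finite_Icc (0 : ℤ) N').image (fun j => |T (β j)|)).bddAbove
    have hper : ∀ (k : ℤ) (j : ℤ), T (β (j + k * N')) = T (β j) := by
      intro k
      induction k using Int.induction_on with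
      | zero => intro j; simp
      | succ k ih =>
        intro j
        have e : j + ((k : ℤ) + 1) * N' = (j + k * N') + N' := by ring
        rw [e, hβ.2.2, hTc', ih]
      | pred k ih =>
        intro j
        have e : (j + (-(k : ℤ) - 1) * N') + N' = j + -(k : ℤ) * N' := by ring
        rw [← ih j, ← e, hβ.2.2, hTc']
    have h1 : ∀ j, |T (β j)| ≤ m := by
      intro j
      have e : j = j % N' + (j / N') * N' := by
        have := Int.emod_add_mul_ediv j N'
        linarith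
      rw [e, hper]
      apply hm
      refine ⟨j % N', ⟨Int.emod_nonneg _ (by omega), (Int.emod_lt_of_pos _ (by omega)).le⟩, rfl⟩
    refine ⟨m + 1, ?_, fun j => ?_⟩
    · have := h1 0
      have := abs_nonneg (T (β 0))
      linarith
    · have := h1 j
      linarith
  have hoff : ∀ x, m ≤ |T x| → Off (zf β) x := by
    intro x hx
    apply zf_off
    rintro j rfl
    have := hm j
    linarith
  obtain ⟨K₁, σ₁, hK₁⟩ := far (c := c) hn hG hl hb hnb (T := T) hC0
    (fun x y h => by have := (abs_le.1 (hTl x y h)).1; linarith) (m := m)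
    (fun w hw => hoff w (le_trans hw (le_abs_self _))) ht hTc
  obtain ⟨K₂, σ₂, hK₂⟩ := far (c := c⁻¹) hn hG hl hb hnb (T := fun x => - T x) hC0
    (fun x y h => by have := (abs_le.1 (hTl x y h)).2; linarith) (m := m)
    (fun w hw => hoff w (le_trans hw (neg_le_abs _))) ht
    (fun x => by
      have h1 := hTc (Γ.act c⁻¹ x)
      rw [← Γ.act_mul, mul_inv_cancel, Γ.act_one] at h1
      linarith)
  -- the two sides agree
  have hoffα : ∀ i, Off (zf β) (α i) := fun i => zf_off β _ (hcon' i)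
  obtain ⟨σ, hσ⟩ := sd_exists hl hb (α 0) (hoffα 0)
  have hside : ∀ i, Sd G θ (α i) σ := by
    intro i
    induction i using Int.induction_on with
    | zero => exact hσ
    | succ i ih =>
      have h1 := hα.2.1 i
      rw [hG] at h1
      exact sd_step hl hb h1 ih (hoffα _)
    | pred i ih =>
      have h1 := Γ.symm _ _ (hα.2.1 (-(i : ℤ) - 1))
      rw [hG] at h1
      have e : -(i : ℤ) - 1 + 1 = -i := by ring
      rw [e] at h1
      exact sd_step hl hb h1 ih (hoffα _)
  have hTα : ∀ k : ℤ, T (α (k * N)) = T (α 0) + k * t := by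
    intro k
    induction k using Int.induction_on with
    | zero => simp
    | succ k ih =>
      have e : ((k : ℤ) + 1) * N = k * N + N := by ring
      rw [e, hα.2.2, hTc, ih]
      ring
    | pred k ih =>
      have e : (-(k : ℤ) - 1) * N + N = -k * N := by ring
      have h1 := hα.2.2 ((-(k : ℤ) - 1) * N)
      rw [e] at h1
      rw [h1, hTc] at ih
      linarith
  have e1 : σ = σ₁ := by
    obtain ⟨y, hy⟩ := hnb (α ((|K₁| + |T (α 0)|) * N))
    refine sd_unique hl hy (hside _) (hK₁ _ ?_)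
    rw [hTα]
    have h1 := le_abs_self K₁
    have h2 := neg_abs_le (T (α 0))
    have h3 : 0 ≤ |K₁| + |T (α 0)| := by positivity
    nlinarith
  have e2 : σ = σ₂ := by
    obtain ⟨y, hy⟩ := hnb (α (-(|K₂| + |T (α 0)|) * N))
    refine sd_unique hl hy (hside _) (hK₂ _ ?_)
    rw [hTα]
    have h1 := le_abs_self K₂
    have h2 := le_abs_self (T (α 0))
    have h3 : 0 ≤ |K₂| + |T (α 0)| := by positivity
    nlinarith
  -- vertices of triangles with the other value
  set K : ℤ := |K₁| + |K₂| with hK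
  have hTb : ∀ x y w, G.Adj x y → G.Adj x w → G.Adj y w → θ {x, y, w} ≠ σ → |T x| ≤ K := by
    intro x y w h1 h2 h3 h4
    have h5 : T x < K₁ := by
      by_contra h
      rw [not_lt] at h
      exact h4 ((hK₁ x h y w h1 h2 h3).trans e1.symm)
    have h6 : - T x < K₂ := by
      by_contra h
      rw [not_lt] at h
      exact h4 ((hK₂ x h y w h1 h2 h3).trans e2.symm)
    have h7 := le_abs_self K₁
    have h8 := le_abs_self K₂
    have h9 := abs_nonneg K₁
    have h10 := abs_nonneg K₂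
    rw [abs_le]
    constructor <;> linarith
  have hX : {x | |T x| ≤ K ∧ |u.U x| ≤ 1}.Finite := by
    refine (fin_uv Γ hn.cof hn.ne u v hinj (K + |a| + 1)).subset ?_
    rintro x ⟨h1, h2⟩
    have h3 : 0 ≤ K := by positivity
    have h4 : 0 ≤ |a| := abs_nonneg a
    refine ⟨by linarith, ?_⟩
    have e : b * v.U x = T x - a * u.U x := by simp only [hT]; ring
    have h5 : |b| * |v.U x| ≤ K + |a| := by
      rw [← abs_mul, e]
      calc |T x - a * u.U x| ≤ |T x| + |a * u.U x| := abs_sub _ _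
        _ = |T x| + |a| * |u.U x| := by rw [abs_mul]
        _ ≤ K + |a| * 1 := add_le_add h1 (mul_le_mul_of_nonneg_left h2 h4)
        _ = K + |a| := by ring
    have h6 : 1 ≤ |b| := Int.one_le_abs hb0
    have h7 := abs_nonneg (v.U x)
    nlinarith
  refine parity G hl θ β hadjβ hb u.U hu σ ((hX.prod (hX.prod hX)).subset ?_)
  rintro ⟨x, y, w⟩ ⟨h1, h2, h3, h4, h5, h6⟩
  simp only at h1 h2 h3 h4 h5 h6
  have l1 := u.lip x y (hadjR _ _ h1)
  have l2 := u.lip x w (hadjR _ _ h2)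
  have l3 := u.lip w y (hadjR _ _ h3.symm)
  refine ⟨⟨hTb x y w h1 h2 h3 h6, ?_⟩, ⟨hTb y x w h1.symm h3 h2 ?_, ?_⟩,
    ⟨hTb w x y h2.symm h3.symm h1 ?_, ?_⟩⟩
  · rw [abs_le]; constructor <;> linarith
  · rw [Set.insert_comm]; exact h6
  · rw [abs_le]; constructor <;> linarith
  · have e : ({w, x, y} : Set Γ.V) = {x, y, w} := by
      ext s
      simp only [Set.mem_insert_iff, Set.mem_singleton_iff]
      tauto
    rw [e]; exact h6
  · rw [abs_le]; constructor <;> linarith

end Pool.Agent.H71.Clq
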