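import Mathlib
import Pool.Agent.H71.Clq.DualL
import Pool.Agent.H71.Clq.Sph

set_option autoImplicit false
set_option linter.unusedSectionVars false

/-!
# Module CYC: on a closed surface with `χ = 0` three even sets are dependent modulo boundaries

Linear algebra over `ZMod 2`. Spaces: `C₁` = symmetric functions on pairs supported on adjacent pairs (or functions on the edge set),
`Z` = even ones, `C₂` = functions on the triangles (elements of `G.cliqueFinset 3`, `θ {x,y,w}`), `∂ : C₂ → Z`
(the boundary of `θ` at the edge `x y` is `θ {x,y,a} + θ {x,y,b}`, `a ≠ b` the two common neighbours (`two_faces`); it is even).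

Proof: the map `(a, θ) ↦ ∑ a_i z_i + ∂ θ` restricted to the non-tree edges goes from dimension `3 + F` to
dimension `E - V + 1 = F + 1`, so its kernel has dimension at least two. If `a = 0` for an element
of the kernel then `θ` is constant (`dual_conn`); so there is an element of the kernel with `a ≠ 0`. The
function `∑ a_i z_i + ∂ θ` is even and supported on tree edges, so it is zero.
-/

namespace Pool.Agent.H71.Clq

variable {V : Type} [Fintype V] [DecidableEq V]

/-- extension by zero of a function on the triangles -/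
def extF (G : SimpleGraph V) [DecidableRel G.Adj]
    (θ : {t : Finset V // t ∈ G.cliqueFinset 3} → ZMod 2) (t : Finset V) : ZMod 2 :=
  if h : t ∈ G.cliqueFinset 3 then θ ⟨t, h⟩ else 0

/-- the boundary of a function on the triangles -/
def bdF (G : SimpleGraph V) [DecidableRel G.Adj]
    (θ : {t : Finset V // t ∈ G.cliqueFinset 3} → ZMod 2) (x y : V) : ZMod 2 :=
  ∑ w, extF G θ {x, y, w}

theorem extF_add (G : SimpleGraph V) [DecidableRel G.Adj]
    (θ θ' : {t : Finset V // t ∈ G.cliqueFinset 3} → ZMod 2) (t : Finset V) :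
    extF G (θ + θ') t = extF G θ t + extF G θ' t := by
  unfold extF
  split_ifs <;> simp

theorem extF_smul (G : SimpleGraph V) [DecidableRel G.Adj] (c : ZMod 2)
    (θ : {t : Finset V // t ∈ G.cliqueFinset 3} → ZMod 2) (t : Finset V) :
    extF G (c • θ) t = c * extF G θ t := by
  unfold extF
  split_ifs <;> simp

theorem bdF_add (G : SimpleGraph V) [DecidableRel G.Adj]
    (θ θ' : {t : Finset V // t ∈ G.cliqueFinset 3} → ZMod 2) (x y : V) :
    bdF G (θ + θ') x y = bdF G θ x y + bdF G θ' x y := by
  unfold bdF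
  rw [← Finset.sum_add_distrib]
  exact Finset.sum_congr rfl fun w _ => extF_add G θ θ' _

theorem bdF_smul (G : SimpleGraph V) [DecidableRel G.Adj] (c : ZMod 2)
    (θ : {t : Finset V // t ∈ G.cliqueFinset 3} → ZMod 2) (x y : V) :
    bdF G (c • θ) x y = c * bdF G θ x y := by
  unfold bdF
  rw [Finset.mul_sum]
  exact Finset.sum_congr rfl fun w _ => extF_smul G c θ _

theorem extF_zero_of {G : SimpleGraph V} [DecidableRel G.Adj]
    {θ : {t : Finset V // t ∈ G.cliqueFinset 3} → ZMod 2} {x y w : V}
    (h : ¬ (G.Adj x y ∧ G.Adj x w ∧ G.Adj y w)) : extF G θ {x, y, w} = 0 := by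
  unfold extF
  rw [dif_neg]
  rw [mem_face]
  exact h

theorem bdF_symm (G : SimpleGraph V) [DecidableRel G.Adj]
    (θ : {t : Finset V // t ∈ G.cliqueFinset 3} → ZMod 2) (x y : V) :
    bdF G θ x y = bdF G θ y x := by
  unfold bdF
  apply Finset.sum_congr rfl
  intro w _
  congr 1
  ext u; simp only [Finset.mem_insert, Finset.mem_singleton]; tauto

theorem bdF_zero (G : SimpleGraph V) [DecidableRel G.Adj]
    (θ : {t : Finset V // t ∈ G.cliqueFinset 3} → ZMod 2) (x y : V) (h : ¬ G.Adj x y) :
    bdF G θ x y = 0 := by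
  unfold bdF
  apply Finset.sum_eq_zero
  intro w _
  exact extF_zero_of fun h' => h h'.1

theorem bdF_even (G : SimpleGraph V) [DecidableRel G.Adj]
    (θ : {t : Finset V // t ∈ G.cliqueFinset 3} → ZMod 2) (x : V) : ∑ y, bdF G θ x y = 0 := by
  have hzero : ∑ a ∈ (Finset.univ : Finset (V × V)), extF G θ {x, a.1, a.2} = 0 := by
    apply Finset.sum_involution (fun a _ => (a.2, a.1))
    · rintro ⟨y, z⟩ _
      simp only
      have : ({x, z, y} : Finset V) = {x, y, z} := by
        ext u; simp only [Finset.mem_insert, Finset.mem_singleton]; tauto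
      rw [this]
      exact CharTwo.add_self_eq_zero _
    · rintro ⟨y, z⟩ _ hne heq
      simp only [Prod.mk.injEq] at heq
      apply hne
      simp only
      rw [heq.1]
      exact extF_zero_of fun h => G.loopless.irrefl _ h.2.2
    · rintro ⟨y, z⟩ _
      exact Finset.mem_univ _
    · rintro ⟨y, z⟩ _
      rfl
  rw [← Finset.univ_product_univ, Finset.sum_product] at hzero
  exact hzero

theorem bdF_eq (G : SimpleGraph V) [DecidableRel G.Adj] (hl : LCy G)
    (θ : {t : Finset V // t ∈ G.cliqueFinset 3} → ZMod 2) {x y a b : V} (hxy : G.Adj x y)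
    (hxa : G.Adj x a) (hya : G.Adj y a) (hxb : G.Adj x b) (hyb : G.Adj y b) (hab : a ≠ b) :
    extF G θ {x, y, a} + extF G θ {x, y, b} = bdF G θ x y := by
  unfold bdF
  obtain ⟨z, w, hzw, -, -, -, -, hu⟩ := two_faces G hl hxy
  have hu' : ∀ c, G.Adj x c → G.Adj y c → c = a ∨ c = b := by
    intro c h1 h2
    rcases hu c h1 h2 with rfl | rfl <;> rcases hu a hxa hya with rfl | rfl <;>
      rcases hu b hxb hyb with rfl | rfl <;> simp_all
  rw [Finset.sum_eq_add a b hab (by
      intro c _ hc
      apply extF_zero_of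
      rintro ⟨-, h2, h3⟩
      rcases hu' c h2 h3 with h | h
      · exact hc.1 h
      · exact hc.2 h) (by intro h; exact absurd (Finset.mem_univ _) h)
      (by intro h; exact absurd (Finset.mem_univ _) h)]

/-- even functions supported on tree edges vanish -/
theorem tree_zero (G : SimpleGraph V) (r : V) (p : V → V) (h : V → ℕ)
    (hp : ∀ x, x ≠ r → G.Adj x (p x) ∧ h x = h (p x) + 1) (D : V → V → ZMod 2)
    (hs : ∀ x y, D x y = D y x) (h0 : ∀ x y, ¬ TE p r x y → D x y = 0)
    (hev : ∀ x, ∑ y, D x y = 0) : ∀ x y, D x y = 0 := by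
  classical
  have key : ∀ x, x ≠ r → D x (p x) = 0 := by
    by_contra hcon
    push Not at hcon
    obtain ⟨x₀, hx₀, hD₀⟩ := hcon
    have hne : (Finset.univ.filter (fun x => x ≠ r ∧ D x (p x) ≠ 0)).Nonempty :=
      ⟨x₀, by simp only [Finset.mem_filter, Finset.mem_univ, true_and]; exact ⟨hx₀, hD₀⟩⟩
    obtain ⟨x, hx, hmax⟩ := Finset.exists_max_image _ h hne
    simp only [Finset.mem_filter, Finset.mem_univ, true_and] at hx hmax
    obtain ⟨hxr, hxb⟩ := hx
    have h1 := hev x
    rw [Finset.sum_eq_single (p x)] at h1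
    · exact hxb h1
    · intro y _ hy
      by_contra hDy
      have hT : TE p r x y := by
        by_contra hT
        exact hDy (h0 x y hT)
      rcases hT with ⟨_, k⟩ | ⟨k1, k2⟩
      · exact hy k
      · have k3 := hmax y ⟨k1, by rw [← k2, hs]; exact hDy⟩
        have k4 := (hp y k1).2
        rw [← k2] at k4
        omega
    · intro h; exact absurd (Finset.mem_univ _) h
  intro x y
  by_cases hT : TE p r x y
  · rcases hT with ⟨h1, h2⟩ | ⟨h1, h2⟩
    · rw [h2]; exact key x h1
    · rw [h2, hs]; exact key y h1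
  · exact h0 x y hT

theorem tf3 (x y a : V) : (Set.toFinite ({x, y, a} : Set V)).toFinset = {x, y, a} := by
  ext u
  rw [Set.Finite.mem_toFinset]
  simp only [Set.mem_insert_iff, Set.mem_singleton_iff, Finset.mem_insert, Finset.mem_singleton]

theorem three_dep {V : Type} [Fintype V] [DecidableEq V] (G : SimpleGraph V)
    [DecidableRel G.Adj] (hc : G.Connected) (hl : LCy G)
    (hχ : (Fintype.card V : ℤ) - (G.edgeFinset.card : ℤ) + ((G.cliqueFinset 3).card : ℤ) = 0)
    (z : Fin 3 → V → V → ZMod 2) (hzs : ∀ i x y, z i x y = z i y x)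
    (hz0 : ∀ i x y, ¬ G.Adj x y → z i x y = 0) (hev : ∀ i, Ev (z i)) :
    ∃ a : Fin 3 → ZMod 2, a ≠ 0 ∧ ∃ θ : Set V → ZMod 2,
      Bdy G θ (fun x y => ∑ i, a i * z i x y) := by
  classical
  obtain ⟨r⟩ := hc.nonempty
  obtain ⟨p, h, hr, hp⟩ := exists_tree G hc r
  let Fc := {t : Finset V // t ∈ G.cliqueFinset 3}
  let NT := {e : Sym2 V // e ∈ G.edgeFinset \ TS p r}
  let D : (Fin 3 → ZMod 2) × (Fc → ZMod 2) → V → V → ZMod 2 := fun q x y =>
    (∑ i, q.1 i * z i x y) + bdF G q.2 x y
  have hDs : ∀ q x y, D q x y = D q y x := by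
    intro q x y
    simp only [D]
    rw [bdF_symm]
    congr 1
    exact Finset.sum_congr rfl fun i _ => by rw [hzs]
  have hD0 : ∀ q x y, ¬ G.Adj x y → D q x y = 0 := by
    intro q x y hxy
    simp only [D]
    rw [bdF_zero G _ _ _ hxy, Finset.sum_eq_zero (fun i _ => by rw [hz0 i x y hxy, mul_zero]), add_zero]
  have hDe : ∀ q x, ∑ y, D q x y = 0 := by
    intro q x
    simp only [D]
    rw [Finset.sum_add_distrib, bdF_even, add_zero, Finset.sum_comm]
    apply Finset.sum_eq_zero
    intro i _
    rw [← Finset.mul_sum]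
    have h1 := hev i x
    rw [finsum_eq_sum_of_fintype] at h1
    rw [h1, mul_zero]
  let L : ((Fin 3 → ZMod 2) × (Fc → ZMod 2)) →ₗ[ZMod 2] (NT → ZMod 2) :=
    { toFun := fun q e => D q (Quot.out e.1).1 (Quot.out e.1).2
      map_add' := by
        intro q q'
        funext e
        simp only [D, Prod.fst_add, Prod.snd_add, Pi.add_apply]
        rw [bdF_add]
        simp only [add_mul, Finset.sum_add_distrib]
        ring
      map_smul' := by
        intro c q
        funext e
        simp only [D, Prod.smul_fst, Prod.smul_snd, Pi.smul_apply, smul_eq_mul, RingHom.id_apply]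
        rw [bdF_smul]
        simp only [mul_add, Finset.mul_sum, mul_assoc] }
  have hLa : ∀ q, L q = 0 → ∀ x y, G.Adj x y → ¬ TE p r x y → D q x y = 0 := by
    intro q hq x y hxy hT
    have hm : s(x, y) ∈ G.edgeFinset \ TS p r := by
      rw [Finset.mem_sdiff, SimpleGraph.mem_edgeFinset, SimpleGraph.mem_edgeSet, mem_TS]
      exact ⟨hxy, hT⟩
    have h1 := congrFun hq ⟨s(x, y), hm⟩
    change D q (Quot.out s(x, y)).1 (Quot.out s(x, y)).2 = 0 at h1
    have h2 : s((Quot.out s(x, y)).1, (Quot.out s(x, y)).2) = s(x, y) := Quot.out_eq s(x, y)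
    rw [Sym2.eq_iff] at h2
    rcases h2 with ⟨e1, e2⟩ | ⟨e1, e2⟩
    · rw [e1, e2] at h1; exact h1
    · rw [e1, e2, hDs] at h1; exact h1
  -- dimensions
  have hcF : Fintype.card Fc = (G.cliqueFinset 3).card := Fintype.card_coe _
  have hcN : Fintype.card NT = (G.cliqueFinset 3).card + 1 := by
    have h1 : Fintype.card NT = (G.edgeFinset \ TS p r).card := Fintype.card_coe _
    rw [h1, Finset.card_sdiff_of_subset (TS_sub G r p h hp), card_TS G r p h hp]
    have hV : 1 ≤ Fintype.card V := Fintype.card_pos_iff.mpr ⟨r⟩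
    omega
  have hdom : Module.finrank (ZMod 2) ((Fin 3 → ZMod 2) × (Fc → ZMod 2)) =
      3 + (G.cliqueFinset 3).card := by
    rw [Module.finrank_prod, Module.finrank_fintype_fun_eq_card,
      Module.finrank_fintype_fun_eq_card, hcF, Fintype.card_fin]
  have hcod : Module.finrank (ZMod 2) (NT → ZMod 2) = (G.cliqueFinset 3).card + 1 := by
    rw [Module.finrank_fintype_fun_eq_card, hcN]
  have hker : 2 ≤ Module.finrank (ZMod 2) (LinearMap.ker L) := by
    have h1 := LinearMap.finrank_range_add_finrank_ker L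
    have h2 := Submodule.finrank_le (LinearMap.range L)
    rw [hdom] at h1
    rw [hcod] at h2
    omega
  let v1 : (Fin 3 → ZMod 2) × (Fc → ZMod 2) := (0, fun _ => 1)
  have hex : ∃ q ∈ LinearMap.ker L, q ∉ Submodule.span (ZMod 2) {v1} := by
    by_contra hcon
    push Not at hcon
    have h1 : LinearMap.ker L ≤ Submodule.span (ZMod 2) {v1} := fun q hq => hcon q hq
    have h2 := Submodule.finrank_mono h1
    have h3 : Module.finrank (ZMod 2) (Submodule.span (ZMod 2) {v1}) ≤ 1 := by
      have := finrank_span_le_card (R := ZMod 2) ({v1} : Set ((Fin 3 → ZMod 2) × (Fc → ZMod 2)))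
      simpa using this
    omega
  obtain ⟨q, hq, hq1⟩ := hex
  rw [LinearMap.mem_ker] at hq
  have hv := hLa q hq
  have ha : q.1 ≠ 0 := by
    intro ha
    apply hq1
    have hbd : ∀ x y, G.Adj x y → ¬ TE p r x y → bdF G q.2 x y = 0 := by
      intro x y hxy hT
      have h1 := hv x y hxy hT
      simp only [D] at h1
      rw [ha] at h1
      simpa using h1
    have h2 : ∀ c : ZMod 2, c ≠ 1 → c = 0 := by decide
    have h3 := dual_conn G hc hl r p h hp (fun s => extF G q.2 s = 1) (by
      intro x y a b hxy hT hxa hya hxb hyb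
      by_cases hab : a = b
      · rw [hab]
      · have h4 := bdF_eq G hl q.2 hxy hxa hya hxb hyb hab
        rw [hbd x y hxy hT] at h4
        have h5 : extF G q.2 {x, y, a} = extF G q.2 {x, y, b} := by
          have : ∀ c d : ZMod 2, c + d = 0 → c = d := by decide
          exact this _ _ h4
        rw [h5])
    rw [Submodule.mem_span_singleton]
    rcases h3 with h3 | h3
    · refine ⟨1, ?_⟩
      rw [one_smul]
      apply Prod.ext
      · exact ha.symm
      · funext t
        have h4 : t.1.card = 3 := (SimpleGraph.mem_cliqueFinset_iff.mp t.2).card_eq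
        obtain ⟨x, y, w, hxy, hxz, hyz, he⟩ := Finset.card_eq_three.mp h4
        have h5 := t.2
        rw [he, mem_face] at h5
        have h6 := h3 x y w h5.1 h5.2.2 h5.2.1
        rw [← he] at h6
        unfold extF at h6
        rw [dif_pos t.2] at h6
        exact h6.symm
    · refine ⟨0, ?_⟩
      rw [zero_smul]
      apply Prod.ext
      · exact ha.symm
      · funext t
        have h4 : t.1.card = 3 := (SimpleGraph.mem_cliqueFinset_iff.mp t.2).card_eq
        obtain ⟨x, y, w, hxy, hxz, hyz, he⟩ := Finset.card_eq_three.mp h4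
        have h5 := t.2
        rw [he, mem_face] at h5
        have h6 := h3 x y w h5.1 h5.2.2 h5.2.1
        rw [← he] at h6
        unfold extF at h6
        rw [dif_pos t.2] at h6
        exact (h2 _ h6).symm
  refine ⟨q.1, ha, fun s => extF G q.2 (Set.toFinite s).toFinset, ?_⟩
  intro x y a b hxy hxa hya hxb hyb hab
  have hDz : ∀ x y, D q x y = 0 := by
    apply tree_zero G r p h hp (D q) (hDs q) _ (hDe q)
    intro x y hT
    by_cases hxy : G.Adj x y
    · exact hv x y hxy hT
    · exact hD0 q x y hxy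
  have h1 := bdF_eq G hl q.2 hxy hxa hya hxb hyb hab
  have h2 := hDz x y
  simp only [D] at h2
  have h3 : ∀ c d : ZMod 2, c + d = 0 → d = c := by decide
  have e1 := tf3 x y a
  have e2 := tf3 x y b
  beta_reduce
  rw [e1, e2, h1]
  exact h3 _ _ h2

end Pool.Agent.H71.Clq
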