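import Mathlib
import Pool.Agent.H71.Clq.DualL

set_option autoImplicit false

/-!
# Module LSC: an open surface in which finite even sets bound finite sets is simply connected

Let `(U, f, st)` be a covering of `RG G`, `u₀ : U`, `r = f u₀`. Tree: distances from `r`, `p x` a neighbour with smaller distance `h`
(as in `exists_tree`, which is stated for finite graphs; here `G` is infinite but connected). `σ r = u₀`, `σ x = st (σ (p x)) x`.
An adjacent pair `x y` is good if `st (σ x) y = σ y` (symmetric, tree edges are good, in a triangle two good edges imply that the third is good;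
see `Sph.lean`).
* For a non-tree edge `e = {x, y}` let `z_e` be the sum of `e` and the tree edges on the paths `x, p x, …, r` and `y, p y, …, r`
  (with multiplicity mod 2): finite, even. `hBd` gives `θ_e` with finite support on triangles (values on sets that are not triangles do not
  matter: make them zero), `Φ_e` = its support, a finite set of triangles. For a non-tree edge `e'` exactly one of the two triangles
  at `e'` is in `Φ_e` if `e' = e`, and both or none otherwise.
* (N) a finite set `Φ` of triangles such that at every non-tree edge both or none of the two triangles are in `Φ` is empty: the set of edges with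
  exactly one triangle in `Φ` is finite, consists of tree edges, and is even at every vertex; an edge `x, p x` in it with `h x`
  maximal gives a contradiction, so it is empty; then by connectedness of links and of `G` the set `Φ` is empty or contains all
  triangles, and there are infinitely many.
* Suppose there is a bad edge; choose a bad edge `e` with `|Φ_e|` minimal. Let `t` be the triangle at `e` in `Φ_e`. Another edge `e'` of
  `t` is bad, so a non-tree edge; both triangles at `e'` are in `Φ_e` (`e' ≠ e`). Let `B = Φ_{e'} \ Φ_e`. Two triangles sharing a non-tree edge, one in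
  `B` and one not: the edge is `e` (`e'` is excluded since both its triangles are in `Φ_e`). So either no such edge, then `B = ∅` by (N);
  or `e` is such an edge, then `B ∪ Φ_e` has no such edge and is not empty, contradiction to (N). So `Φ_{e'} ⊆ Φ_e`, and they differ
  because of `e`; contradiction to minimality. So all edges are good and `σ` is the section.
-/

namespace Pool.Agent.H71.Clq

theorem Lsc_tree {W : Type} (G : SimpleGraph W) (hc : G.Connected) (r : W) :
    ∃ (p : W → W) (h : W → ℕ), h r = 0 ∧ ∀ x, x ≠ r → G.Adj x (p x) ∧ h x = h (p x) + 1 := by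
  have key : ∀ x, ∃ y, x ≠ r → G.Adj x y ∧ G.dist x r = G.dist y r + 1 := by
    intro x
    obtain ⟨w, hw⟩ := (hc.preconnected x r).exists_walk_length_eq_dist
    cases w with
    | nil => exact ⟨r, fun h => absurd rfl h⟩
    | @cons _ y _ hadj q =>
      refine ⟨y, fun _ => ⟨hadj, ?_⟩⟩
      have h1 : G.dist y r ≤ q.length := SimpleGraph.dist_le q
      have h2 : q.length + 1 = G.dist x r := by simpa using hw
      have h3 : G.dist x r ≤ G.dist y r + 1 := by
        obtain ⟨q', hq'⟩ := (hc.preconnected y r).exists_walk_length_eq_dist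
        have := SimpleGraph.dist_le (SimpleGraph.Walk.cons hadj q')
        simpa [hq'] using this
      omega
  choose p hp using key
  exact ⟨p, fun x => G.dist x r, by simp, hp⟩

/-- the number of bad edges at a vertex is not one -/
theorem Lsc_even {W : Type} (G : SimpleGraph W) (hl : LCy G) (Φ : Set W → Prop) (x q : W)
    (hfx : (G.neighborSet x).Finite)
    (hxq : G.Adj x q) (z₀ w₀ : W) (hz1 : G.Adj x z₀) (hz2 : G.Adj q z₀) (hw1 : G.Adj x w₀)
    (hw2 : G.Adj q w₀) (hz : Φ {x, q, z₀}) (hw : ¬ Φ {x, q, w₀})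
    (hother : ∀ y, G.Adj x y → y ≠ q → ∀ z w, G.Adj x z → G.Adj y z → G.Adj x w → G.Adj y w →
      (Φ {x, y, z} ↔ Φ {x, y, w})) : False := by
  classical
  let N : Finset W := hfx.toFinset
  have hN : ∀ y, y ∈ N ↔ G.Adj x y := by
    intro y
    simp [N]
  let f : W → W → ZMod 2 := fun y z =>
    if G.Adj x y ∧ G.Adj x z ∧ G.Adj y z ∧ Φ {x, y, z} then 1 else 0
  have hfs : ∀ y z, f y z = f z y := by
    intro y z
    have h1 : ({x, y, z} : Set W) = {x, z, y} := by
      ext u; simp only [Set.mem_insert_iff, Set.mem_singleton_iff]; tauto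
    simp only [f]
    rw [h1]
    congr 1
    apply propext
    constructor
    · rintro ⟨a, b, c, d⟩; exact ⟨b, a, c.symm, d⟩
    · rintro ⟨a, b, c, d⟩; exact ⟨b, a, c.symm, d⟩
  have hfd : ∀ y, f y y = 0 := by
    intro y
    simp [f]
  have hzero : ∑ a ∈ N ×ˢ N, f a.1 a.2 = 0 := by
    apply Finset.sum_involution (fun a _ => (a.2, a.1))
    · rintro ⟨y, z⟩ _
      simp only
      rw [hfs y z]
      exact CharTwo.add_self_eq_zero _
    · rintro ⟨y, z⟩ _ hne heq
      simp only [Prod.mk.injEq] at heq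
      apply hne
      simp only
      rw [heq.1]
      exact hfd _
    · rintro ⟨y, z⟩ hyz
      simp only [Finset.mem_product] at hyz ⊢
      exact ⟨hyz.2, hyz.1⟩
    · rintro ⟨y, z⟩ _
      rfl
  rw [Finset.sum_product] at hzero
  have hout : ∀ y z, z ∉ N → f y z = 0 := by
    intro y z h
    simp only [f]
    rw [if_neg]
    rintro ⟨b1, b2, b3, b4⟩
    exact h ((hN z).2 b2)
  have hrow : ∀ y, y ≠ q → ∑ z ∈ N, f y z = 0 := by
    intro y hyq
    by_cases hxy : G.Adj x y
    · obtain ⟨z, w, a1, a2, a3, a4, hzw⟩ := DualL_pair hl hxy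
      rw [Finset.sum_eq_add z w hzw (by
          intro c _ hc
          simp only [f]
          rw [if_neg]
          rintro ⟨b1, b2, b3, b4⟩
          rcases DualL_two hl hxy a1 a2 a3 a4 hzw b2 b3 with h | h
          · exact hc.1 h
          · exact hc.2 h) (hout y z) (hout y w)]
      have he : f y z = f y w := by
        simp only [f]
        congr 1
        apply propext
        constructor
        · rintro ⟨b1, b2, b3, b4⟩
          exact ⟨b1, a3, a4, (hother y hxy hyq z w a1 a2 a3 a4).1 b4⟩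
        · rintro ⟨b1, b2, b3, b4⟩
          exact ⟨b1, a1, a2, (hother y hxy hyq z w a1 a2 a3 a4).2 b4⟩
      rw [he]
      exact CharTwo.add_self_eq_zero _
    · apply Finset.sum_eq_zero
      intro z _
      simp only [f]
      rw [if_neg]
      rintro ⟨b1, _⟩
      exact hxy b1
  have hrowq : ∑ z ∈ N, f q z = 1 := by
    rw [Finset.sum_eq_single z₀]
    · simp only [f]
      rw [if_pos ⟨hxq, hz1, hz2, hz⟩]
    · intro u _ hu
      simp only [f]
      rw [if_neg]
      rintro ⟨b1, b2, b3, b4⟩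
      have hne : z₀ ≠ w₀ := by
        rintro rfl
        exact hw hz
      rcases DualL_two hl hxq hz1 hz2 hw1 hw2 hne b2 b3 with h | h
      · exact hu h
      · rw [h] at b4
        exact hw b4
    · intro h; exact hout q z₀ h
  rw [Finset.sum_eq_single q (fun y _ hy => hrow y hy)
    (fun h => absurd ((hN q).2 hxq) h), hrowq] at hzero
  exact one_ne_zero hzero

theorem Lsc_N {W : Type} (G : SimpleGraph W) (hinf : Infinite W) (hc : G.Connected)
    (hf : ∀ x, (G.neighborSet x).Finite) (hl : LCy G) (r : W) (p : W → W)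
    (h : W → ℕ) (hp : ∀ x, x ≠ r → G.Adj x (p x) ∧ h x = h (p x) + 1) (Φ : Set W → Prop)
    (hfin : {s | Φ s}.Finite)
    (hΦ : ∀ x y z w, G.Adj x y → ¬ TE p r x y → G.Adj x z → G.Adj y z → G.Adj x w → G.Adj y w →
      (Φ {x, y, z} ↔ Φ {x, y, w})) :
    ∀ x y z, G.Adj x y → G.Adj y z → G.Adj x z → ¬ Φ {x, y, z} := by
  classical
  -- the vertices of the triangles in `Φ`
  have hVfin : {x : W | ∃ y z, Φ {x, y, z}}.Finite := by
    refine (hfin.biUnion (t := fun s => {x | x ∈ s ∧ s.Finite}) ?_).subset ?_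
    · intro s _
      by_cases hs : s.Finite
      · exact hs.subset (fun x hx => hx.1)
      · refine Set.finite_empty.subset (fun x hx => hs hx.2)
    · rintro x ⟨y, z, hx⟩
      rw [Set.mem_iUnion₂]
      exact ⟨{x, y, z}, hx, by simp, by simp⟩
  -- bad edges
  let Bad : W → W → Prop := fun x y => G.Adj x y ∧ ∃ z w, G.Adj x z ∧ G.Adj y z ∧ G.Adj x w ∧
    G.Adj y w ∧ Φ {x, y, z} ∧ ¬ Φ {x, y, w}
  have hswap : ∀ a b c : W, ({a, b, c} : Set W) = {b, a, c} := by
    intro a b c
    ext u; simp only [Set.mem_insert_iff, Set.mem_singleton_iff]; tauto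
  have hbs : ∀ x y, Bad x y → Bad y x := by
    rintro x y ⟨h1, z, w, h2, h3, h4, h5, h6, h7⟩
    exact ⟨h1.symm, z, w, h3, h2, h5, h4, by rwa [hswap y x z], by rwa [hswap y x w]⟩
  have hbt : ∀ x y, Bad x y → TE p r x y := by
    rintro x y ⟨h1, z, w, h2, h3, h4, h5, h6, h7⟩
    by_contra hcon
    exact h7 ((hΦ x y z w h1 hcon h2 h3 h4 h5).1 h6)
  have hnb : ∀ x y, ¬ Bad x y := by
    by_contra hcon
    push Not at hcon
    have hne : {x | x ≠ r ∧ Bad x (p x)}.Nonempty := by
      obtain ⟨x, y, hxy⟩ := hcon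
      rcases hbt x y hxy with ⟨h1, h2⟩ | ⟨h1, h2⟩
      · exact ⟨x, h1, by rw [← h2]; exact hxy⟩
      · exact ⟨y, h1, by rw [← h2]; exact hbs _ _ hxy⟩
    have hfinS : {x | x ≠ r ∧ Bad x (p x)}.Finite := by
      refine hVfin.subset ?_
      rintro x ⟨-, -, z, w, -, -, -, -, h6, -⟩
      exact ⟨p x, z, h6⟩
    obtain ⟨x, hx, hmax⟩ := Set.exists_max_image _ h hfinS hne
    obtain ⟨hxr, hxb⟩ := hx
    obtain ⟨h1, z, w, h2, h3, h4, h5, h6, h7⟩ := id hxb
    apply Lsc_even G hl Φ x (p x) (hf x) h1 z w h2 h3 h4 h5 h6 h7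
    intro y hxy hyp
    -- `x y` is not bad
    have hnbad : ¬ Bad x y := by
      intro hb
      rcases hbt x y hb with ⟨_, k⟩ | ⟨k1, k2⟩
      · exact hyp k
      · have k3 := hmax y ⟨k1, by rw [← k2]; exact hbs _ _ hb⟩
        have k4 := (hp y k1).2
        rw [← k2] at k4
        omega
    intro z' w' e1 e2 e3 e4
    by_contra hcon2
    apply hnbad
    refine ⟨hxy, ?_⟩
    by_cases hz' : Φ {x, y, z'}
    · exact ⟨z', w', e1, e2, e3, e4, hz', fun hw' => hcon2 ⟨fun _ => hw', fun _ => hz'⟩⟩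
    · refine ⟨w', z', e3, e4, e1, e2, ?_, hz'⟩
      by_contra hw'
      exact hcon2 ⟨fun k => absurd k hz', fun k => absurd k hw'⟩
  -- same status at an edge
  have hedge : ∀ x y z w, G.Adj x y → G.Adj x z → G.Adj y z → G.Adj x w → G.Adj y w →
      Φ {x, y, z} → Φ {x, y, w} := by
    intro x y z w a b c d e k
    by_contra hcon
    exact hnb x y ⟨a, z, w, b, c, d, e, k, hcon⟩
  have hswap' : ∀ a b c : W, ({a, b, c} : Set W) = {a, c, b} := by
    intro a b c
    ext u; simp only [Set.mem_insert_iff, Set.mem_singleton_iff]; tauto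
  -- same status at a vertex
  have hvert : ∀ x y z y' z', G.Adj x y → G.Adj x z → G.Adj y z → G.Adj x y' → G.Adj x z' →
      G.Adj y' z' → Φ {x, y, z} → Φ {x, y', z'} := by
    intro x y z y' z' a b c d e f k
    have hlink := hl.2 x y y' a d
    have : ∀ u, Relation.ReflTransGen (fun u v => G.Adj x u ∧ G.Adj x v ∧ G.Adj u v) y u →
        ∀ v, G.Adj x u → G.Adj x v → G.Adj u v → Φ {x, u, v} := by
      intro u hu
      induction hu with
      | refl =>
        intro v hv1 hv2 hv3
        exact hedge x y z v a b c hv2 hv3 k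
      | @tail u' v' _ huv ih =>
        intro v hv1 hv2 hv3
        have h1 := ih v' huv.1 huv.2.1 huv.2.2
        rw [hswap'] at h1
        exact hedge x v' u' v hv1 huv.1 huv.2.2.symm hv2 hv3 h1
    exact this y' hlink z' d e f
  -- same status at adjacent vertices
  have hadj : ∀ x x', Relation.ReflTransGen G.Adj x x' → ∀ y z y' z', G.Adj x y → G.Adj x z →
      G.Adj y z → G.Adj x' y' → G.Adj x' z' → G.Adj y' z' → Φ {x, y, z} → Φ {x', y', z'} := by
    intro x x' hxx
    induction hxx with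
    | refl =>
      intro y z y' z' a b c d e f k
      exact hvert x y z y' z' a b c d e f k
    | @tail u v _ huv ih =>
      intro y z y' z' a b c d e f k
      obtain ⟨s, t, s1, s2, _⟩ := DualL_pair hl huv
      have k1 := ih y z v s a b c huv s1 s2 k
      rw [hswap] at k1
      exact hvert v u s y' z' huv.symm s2 s1 d e f k1
  intro x y z a b c k
  -- all vertices are in triangles of `Φ`
  have hall : (Set.univ : Set W) ⊆ {x : W | ∃ y z, Φ {x, y, z}} := by
    intro x' _
    have hr : Relation.ReflTransGen G.Adj x x' := by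
      rw [← SimpleGraph.reachable_iff_reflTransGen]
      exact hc.preconnected x x'
    obtain ⟨y', hy'⟩ : ∃ y', G.Adj x' y' := by
      by_cases hx' : x' = r
      · obtain ⟨w, hw⟩ := hc.preconnected.exists_adj_of_nontrivial x'
        exact ⟨w, hw⟩
      · exact ⟨p x', (hp x' hx').1⟩
    obtain ⟨s, t, s1, s2, _⟩ := DualL_pair hl hy'
    exact ⟨y', s, hadj x x' hr y z y' s a c b hy' s1 s2 k⟩
  exact Set.infinite_univ (hVfin.subset hall)

/-- an edge as a function -/
def Lsc_e {W : Type} [DecidableEq W] (u v : W) : W → W → ZMod 2 :=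
  fun a b => if (a = u ∧ b = v) ∨ (a = v ∧ b = u) then 1 else 0

theorem Lsc_e_symm {W : Type} [DecidableEq W] (u v a b : W) : Lsc_e u v a b = Lsc_e u v b a := by
  unfold Lsc_e
  congr 1
  apply propext
  tauto

theorem Lsc_e_fin {W : Type} [DecidableEq W] (u v : W) :
    {q : W × W | Lsc_e u v q.1 q.2 ≠ 0}.Finite := by
  refine (Set.toFinite {(u, v), (v, u)}).subset ?_
  rintro ⟨a, b⟩ hab
  simp only [Set.mem_ofPred_eq, Lsc_e, ne_eq, ite_eq_right_iff, one_ne_zero, imp_false,
    not_not] at hab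
  rcases hab with ⟨rfl, rfl⟩ | ⟨rfl, rfl⟩ <;> simp

theorem Lsc_e_row {W : Type} [DecidableEq W] (u v : W) (huv : u ≠ v) (a : W) :
    ∑ᶠ b, Lsc_e u v a b = (if a = u then 1 else 0) + (if a = v then 1 else 0) := by
  by_cases h1 : a = u
  · subst h1
    have : ∀ b, b ≠ v → Lsc_e a v a b = 0 := by
      intro b hb
      unfold Lsc_e
      rw [if_neg]
      rintro (⟨_, h⟩ | ⟨h, _⟩)
      · exact hb h
      · exact huv h
    rw [finsum_eq_single _ v this]
    simp [Lsc_e, huv]
  · by_cases h2 : a = v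
    · subst h2
      have : ∀ b, b ≠ u → Lsc_e u a a b = 0 := by
        intro b hb
        unfold Lsc_e
        rw [if_neg]
        rintro (⟨h, _⟩ | ⟨_, h⟩)
        · exact h1 h
        · exact hb h
      rw [finsum_eq_single _ u this]
      simp [Lsc_e, h1]
    · have : ∀ b, Lsc_e u v a b = 0 := by
        intro b
        unfold Lsc_e
        rw [if_neg]
        rintro (⟨h, _⟩ | ⟨h, _⟩)
        · exact h1 h
        · exact h2 h
      simp [this, h1, h2]

theorem Lsc_row_fin {W : Type} {P : W → W → ZMod 2} (h : {q : W × W | P q.1 q.2 ≠ 0}.Finite)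
    (a : W) : (Function.support (P a)).Finite := by
  have := h.preimage (f := fun b => (a, b)) (by
    intro x _ y _ hxy
    simpa using hxy)
  exact this

theorem Lsc_add {W : Type} {P Q : W → W → ZMod 2} (hP : {q : W × W | P q.1 q.2 ≠ 0}.Finite)
    (hQ : {q : W × W | Q q.1 q.2 ≠ 0}.Finite) :
    {q : W × W | P q.1 q.2 + Q q.1 q.2 ≠ 0}.Finite ∧
      ∀ a, ∑ᶠ b, (P a b + Q a b) = ∑ᶠ b, P a b + ∑ᶠ b, Q a b := by
  constructor
  · refine (hP.union hQ).subset ?_
    rintro q hq
    by_contra hcon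
    simp only [Set.mem_union, Set.mem_ofPred_eq, not_or, not_not] at hcon
    exact hq (by rw [hcon.1, hcon.2, add_zero])
  · intro a
    exact finsum_add_distrib (Lsc_row_fin hP a) (Lsc_row_fin hQ a)

theorem Lsc_path {W : Type} [DecidableEq W] (G : SimpleGraph W) (r : W) (p : W → W)
    (h : W → ℕ) (hp : ∀ x, x ≠ r → G.Adj x (p x) ∧ h x = h (p x) + 1) :
    ∀ n x, h x = n → ∃ P : W → W → ZMod 2, (∀ a b, P a b = P b a) ∧
      (∀ a b, P a b ≠ 0 → TE p r a b) ∧ {q : W × W | P q.1 q.2 ≠ 0}.Finite ∧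
      ∀ a, ∑ᶠ b, P a b = (if a = x then 1 else 0) + (if a = r then 1 else 0) := by
  have base : ∃ P : W → W → ZMod 2, (∀ a b, P a b = P b a) ∧
      (∀ a b, P a b ≠ 0 → TE p r a b) ∧ {q : W × W | P q.1 q.2 ≠ 0}.Finite ∧
      ∀ a, ∑ᶠ b, P a b = (if a = r then 1 else 0) + (if a = r then 1 else 0) := by
    refine ⟨fun _ _ => 0, fun _ _ => rfl, fun _ _ h => absurd rfl h, by simp, ?_⟩
    intro a
    rw [CharTwo.add_self_eq_zero]
    simp
  intro n
  induction n with
  | zero =>
    intro x hx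
    by_cases hxr : x = r
    · rw [hxr]; exact base
    · have := (hp x hxr).2
      omega
  | succ n ih =>
    intro x hx
    by_cases hxr : x = r
    · rw [hxr]; exact base
    · obtain ⟨hadj, hh⟩ := hp x hxr
      obtain ⟨P, h1, h2, h3, h4⟩ := ih (p x) (by omega)
      obtain ⟨h5, h6⟩ := Lsc_add (Lsc_e_fin x (p x)) h3
      refine ⟨fun a b => Lsc_e x (p x) a b + P a b, ?_, ?_, h5, ?_⟩
      · intro a b
        change Lsc_e x (p x) a b + P a b = Lsc_e x (p x) b a + P b a
        rw [Lsc_e_symm, h1]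
      · intro a b hab
        by_cases hP : P a b = 0
        · simp only [hP, add_zero, Lsc_e, ne_eq, ite_eq_right_iff, one_ne_zero, imp_false,
            not_not] at hab
          rcases hab with ⟨rfl, hb⟩ | ⟨ha, rfl⟩
          · exact Or.inl ⟨hxr, hb⟩
          · exact Or.inr ⟨hxr, ha⟩
        · exact h2 a b hP
      · intro a
        rw [h6 a, h4 a, Lsc_e_row x (p x) hadj.ne a]
        have h7 : (if a = p x then (1 : ZMod 2) else 0) + (if a = p x then 1 else 0) = 0 :=
          CharTwo.add_self_eq_zero _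
        linear_combination h7

theorem Lsc_phi {W : Type} (G : SimpleGraph W) (r : W) (p : W → W)
    (h : W → ℕ) (hp : ∀ x, x ≠ r → G.Adj x (p x) ∧ h x = h (p x) + 1)
    (hBd : ∀ z : W → W → ZMod 2, (∀ x y, z x y = z y x) → (∀ x y, ¬ G.Adj x y → z x y = 0) →
      {x : W × W | z x.1 x.2 ≠ 0}.Finite → Ev z →
      ∃ θ : Set W → ZMod 2, {s | θ s ≠ 0}.Finite ∧ Bdy G θ z) (x y : W) (hxy : G.Adj x y) :
    ∃ Φ : Set (Set W), Φ.Finite ∧ (∀ s ∈ Φ, ∃ a b c, s = {a, b, c} ∧ G.Adj a b ∧ G.Adj b c ∧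
      G.Adj a c) ∧ ∀ u v a b, G.Adj u v → ¬ TE p r u v → G.Adj u a → G.Adj v a → G.Adj u b →
        G.Adj v b → a ≠ b → (({u, v, a} ∈ Φ ↔ {u, v, b} ∈ Φ) ↔
          ¬ ((u = x ∧ v = y) ∨ (u = y ∧ v = x))) := by
  classical
  obtain ⟨P, p1, p2, p3, p4⟩ := Lsc_path G r p h hp (h x) x rfl
  obtain ⟨Q, q1, q2, q3, q4⟩ := Lsc_path G r p h hp (h y) y rfl
  obtain ⟨a1, a2⟩ := Lsc_add p3 q3
  obtain ⟨b1, b2⟩ := Lsc_add (P := Lsc_e x y) (Q := fun a b => P a b + Q a b) (Lsc_e_fin x y) a1
  have hTE : ∀ a b, TE p r a b → G.Adj a b := by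
    rintro a b (⟨h1, rfl⟩ | ⟨h1, rfl⟩)
    · exact (hp a h1).1
    · exact (hp b h1).1.symm
  obtain ⟨θ, t1, t2⟩ := hBd (fun a b => Lsc_e x y a b + (P a b + Q a b)) (by
      intro a b
      rw [Lsc_e_symm, p1, q1]) (by
      intro a b hab
      have e1 : Lsc_e x y a b = 0 := by
        unfold Lsc_e
        rw [if_neg]
        rintro (⟨rfl, rfl⟩ | ⟨rfl, rfl⟩)
        · exact hab hxy
        · exact hab hxy.symm
      have e2 : P a b = 0 := by
        by_contra hne
        exact hab (hTE _ _ (p2 _ _ hne))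
      have e3 : Q a b = 0 := by
        by_contra hne
        exact hab (hTE _ _ (q2 _ _ hne))
      rw [e1, e2, e3]
      simp) b1 (by
      intro a
      rw [b2 a, a2 a, p4 a, q4 a, Lsc_e_row x y hxy.ne a]
      have h7 : (if a = x then (1 : ZMod 2) else 0) + (if a = x then 1 else 0) = 0 :=
        CharTwo.add_self_eq_zero _
      have h8 : (if a = y then (1 : ZMod 2) else 0) + (if a = y then 1 else 0) = 0 :=
        CharTwo.add_self_eq_zero _
      have h9 : (if a = r then (1 : ZMod 2) else 0) + (if a = r then 1 else 0) = 0 :=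
        CharTwo.add_self_eq_zero _
      linear_combination h7 + h8 + h9)
  refine ⟨{s | θ s ≠ 0} ∩ {s | ∃ a b c, s = {a, b, c} ∧ G.Adj a b ∧ G.Adj b c ∧ G.Adj a c},
    t1.subset Set.inter_subset_left, fun s hs => hs.2, ?_⟩
  intro u v a b huv hT ua va ub vb hab
  have m1 : ∀ c, G.Adj u c → G.Adj v c → (({u, v, c} : Set W) ∈ {s | θ s ≠ 0} ∩
      {s | ∃ a b c, s = {a, b, c} ∧ G.Adj a b ∧ G.Adj b c ∧ G.Adj a c} ↔ θ {u, v, c} ≠ 0) := by
    intro c uc vc
    constructor
    · intro hh; exact hh.1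
    · intro hh; exact ⟨hh, u, v, c, rfl, huv, vc, uc⟩
  rw [m1 a ua va, m1 b ub vb]
  have h1 := t2 u v a b huv ua va ub vb hab
  have e2 : P u v = 0 := by
    by_contra hne
    exact hT (p2 _ _ hne)
  have e3 : Q u v = 0 := by
    by_contra hne
    exact hT (q2 _ _ hne)
  simp only [e2, e3, add_zero] at h1
  unfold Lsc_e at h1
  by_cases hh : (u = x ∧ v = y) ∨ (u = y ∧ v = x)
  · rw [if_pos hh] at h1
    have key : ∀ s t : ZMod 2, s + t = 1 → ¬ (s ≠ 0 ↔ t ≠ 0) := by decide
    exact ⟨fun h2 => absurd h2 (key _ _ h1), fun h2 => absurd hh h2⟩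
  · rw [if_neg hh] at h1
    have key : ∀ s t : ZMod 2, s + t = 0 → (s ≠ 0 ↔ t ≠ 0) := by decide
    exact ⟨fun _ => hh, fun _ => key _ _ h1⟩

theorem Lsc_good {W : Type} (G : SimpleGraph W) (hinf : Infinite W) (hc : G.Connected)
    (hf : ∀ x, (G.neighborSet x).Finite) (hl : LCy G) (r : W) (p : W → W)
    (h : W → ℕ) (hp : ∀ x, x ≠ r → G.Adj x (p x) ∧ h x = h (p x) + 1)
    (hBd : ∀ z : W → W → ZMod 2, (∀ x y, z x y = z y x) → (∀ x y, ¬ G.Adj x y → z x y = 0) →
      {x : W × W | z x.1 x.2 ≠ 0}.Finite → Ev z →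
      ∃ θ : Set W → ZMod 2, {s | θ s ≠ 0}.Finite ∧ Bdy G θ z)
    (Gd : W → W → Prop) (hsymm : ∀ x y, G.Adj x y → Gd x y → Gd y x)
    (htree : ∀ x y, G.Adj x y → TE p r x y → Gd x y)
    (htri : ∀ x y z, G.Adj x y → G.Adj y z → G.Adj x z → Gd x y → Gd y z → Gd x z) :
    ∀ x y, G.Adj x y → Gd x y := by
  classical
  have hex : ∀ x y, ∃ Φ : Set (Set W), G.Adj x y → Φ.Finite ∧
      (∀ s ∈ Φ, ∃ a b c, s = {a, b, c} ∧ G.Adj a b ∧ G.Adj b c ∧
      G.Adj a c) ∧ ∀ u v a b, G.Adj u v → ¬ TE p r u v → G.Adj u a → G.Adj v a → G.Adj u b →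
        G.Adj v b → a ≠ b → (({u, v, a} ∈ Φ ↔ {u, v, b} ∈ Φ) ↔
          ¬ ((u = x ∧ v = y) ∨ (u = y ∧ v = x))) := by
    intro x y
    by_cases hxy : G.Adj x y
    · obtain ⟨Φ, h1⟩ := Lsc_phi G r p h hp hBd x y hxy
      exact ⟨Φ, fun _ => h1⟩
    · exact ⟨∅, fun hh => absurd hh hxy⟩
  choose Φ hΦ using hex
  have hswap' : ∀ a b c : W, ({a, b, c} : Set W) = {a, c, b} := by
    intro a b c
    ext u; simp only [Set.mem_insert_iff, Set.mem_singleton_iff]; tauto
  have hswp : ∀ a b c : W, ({a, b, c} : Set W) = {b, a, c} := by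
    intro a b c
    ext u; simp only [Set.mem_insert_iff, Set.mem_singleton_iff]; tauto
  have hrot : ∀ a b c : W, ({a, b, c} : Set W) = {c, b, a} := by
    intro a b c
    ext u; simp only [Set.mem_insert_iff, Set.mem_singleton_iff]; tauto
  -- the main step
  have step : ∀ x y x' y' c, G.Adj x y → ¬ TE p r x y → G.Adj x' y' → ¬ TE p r x' y' →
      ¬ ((x' = x ∧ y' = y) ∨ (x' = y ∧ y' = x)) → G.Adj x' c → G.Adj y' c →
      {x', y', c} ∈ Φ x y → (Φ x' y').ncard < (Φ x y).ncard := by
    intro x y x' y' c hxy hT hxy' hT' hne hc1 hc2 hmem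
    obtain ⟨f1, g1, k1⟩ := hΦ x y hxy
    obtain ⟨f2, g2, k2⟩ := hΦ x' y' hxy'
    -- both triangles at `x' y'` are in `Φ x y`
    have both : ∀ d, G.Adj x' d → G.Adj y' d → {x', y', d} ∈ Φ x y := by
      intro d hd1 hd2
      by_cases hcd : c = d
      · rw [← hcd]; exact hmem
      · exact ((k1 x' y' c d hxy' hT' hc1 hc2 hd1 hd2 hcd).2 hne).1 hmem
    obtain ⟨a, b, xa, ya, xb, yb, hab⟩ := DualL_pair hl hxy
    obtain ⟨a', b', xa', ya', xb', yb', hab'⟩ := DualL_pair hl hxy'
    have both' : ∀ u v d, ((u = x' ∧ v = y') ∨ (u = y' ∧ v = x')) → G.Adj u d → G.Adj v d →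
        ({u, v, d} : Set W) ∈ Φ x y := by
      rintro u v d (⟨rfl, rfl⟩ | ⟨rfl, rfl⟩) hd1 hd2
      · exact both d hd1 hd2
      · have := both d hd2 hd1
        rwa [hswp] at this
    -- status of `Φ x' y'` at the edge `x y`
    have hc3 := (k2 x y a b hxy hT xa ya xb yb hab).2 (by
      rintro (⟨rfl, rfl⟩ | ⟨rfl, rfl⟩)
      · exact hne (Or.inl ⟨rfl, rfl⟩)
      · exact hne (Or.inr ⟨rfl, rfl⟩))
    by_cases hA : ({x, y, a} : Set W) ∈ Φ x' y'
    · -- contradiction
      exfalso
      have hBm : ({x, y, b} : Set W) ∈ Φ x' y' := hc3.1 hA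
      have all : ∀ d, G.Adj x d → G.Adj y d → ({x, y, d} : Set W) ∈ Φ x' y' := by
        intro d hd1 hd2
        rcases DualL_two hl hxy xa ya xb yb hab hd1 hd2 with rfl | rfl
        · exact hA
        · exact hBm
      have all' : ∀ u v d, ((u = x ∧ v = y) ∨ (u = y ∧ v = x)) → G.Adj u d → G.Adj v d →
          ({u, v, d} : Set W) ∈ Φ x' y' := by
        rintro u v d (⟨rfl, rfl⟩ | ⟨rfl, rfl⟩) hd1 hd2
        · exact all d hd1 hd2
        · have := all d hd2 hd1
          rwa [hswp] at this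
      have hN := Lsc_N G hinf hc hf hl r p h hp (fun s => s ∈ Φ x y ∨ s ∈ Φ x' y')
        (f1.union f2) (by
          intro u v z w huv hTuv uz vz uw vw
          by_cases hzw : z = w
          · rw [hzw]
          by_cases e1 : (u = x ∧ v = y) ∨ (u = y ∧ v = x)
          · exact ⟨fun _ => Or.inr (all' u v w e1 uw vw), fun _ => Or.inr (all' u v z e1 uz vz)⟩
          by_cases e2 : (u = x' ∧ v = y') ∨ (u = y' ∧ v = x')
          · exact ⟨fun _ => Or.inl (both' u v w e2 uw vw), fun _ => Or.inl (both' u v z e2 uz vz)⟩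
          have e3 := (k1 u v z w huv hTuv uz vz uw vw hzw).2 e1
          have e4 := (k2 u v z w huv hTuv uz vz uw vw hzw).2 e2
          simp only [e3, e4])
      exact hN x' y' c hxy' hc2 hc1 (Or.inl hmem)
    · have hBm : ({x, y, b} : Set W) ∉ Φ x' y' := fun hh => hA (hc3.2 hh)
      have all : ∀ d, G.Adj x d → G.Adj y d → ({x, y, d} : Set W) ∉ Φ x' y' := by
        intro d hd1 hd2
        rcases DualL_two hl hxy xa ya xb yb hab hd1 hd2 with rfl | rfl
        · exact hA
        · exact hBm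
      have all' : ∀ u v d, ((u = x ∧ v = y) ∨ (u = y ∧ v = x)) → G.Adj u d → G.Adj v d →
          ({u, v, d} : Set W) ∉ Φ x' y' := by
        rintro u v d (⟨rfl, rfl⟩ | ⟨rfl, rfl⟩) hd1 hd2
        · exact all d hd1 hd2
        · have := all d hd2 hd1
          rwa [hswp] at this
      have hN := Lsc_N G hinf hc hf hl r p h hp (fun s => s ∈ Φ x' y' ∧ s ∉ Φ x y)
        (f2.subset (fun s hs => hs.1)) (by
          intro u v z w huv hTuv uz vz uw vw
          by_cases hzw : z = w
          · rw [hzw]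
          by_cases e1 : (u = x ∧ v = y) ∨ (u = y ∧ v = x)
          · exact ⟨fun hh => absurd hh.1 (all' u v z e1 uz vz),
              fun hh => absurd hh.1 (all' u v w e1 uw vw)⟩
          by_cases e2 : (u = x' ∧ v = y') ∨ (u = y' ∧ v = x')
          · exact ⟨fun hh => absurd (both' u v z e2 uz vz) hh.2,
              fun hh => absurd (both' u v w e2 uw vw) hh.2⟩
          have e3 := (k1 u v z w huv hTuv uz vz uw vw hzw).2 e1
          have e4 := (k2 u v z w huv hTuv uz vz uw vw hzw).2 e2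
          simp only [e3, e4])
      have hsub : Φ x' y' ⊆ Φ x y := by
        intro s hs
        by_contra hcon
        obtain ⟨a0, b0, c0, rfl, j1, j2, j3⟩ := g2 s hs
        exact hN a0 b0 c0 j1 j2 j3 ⟨hs, hcon⟩
      have hssub : Φ x' y' ⊂ Φ x y := by
        refine ⟨hsub, fun hsup => ?_⟩
        have e1 := (k2 x' y' a' b' hxy' hT' xa' ya' xb' yb' hab').1
          ⟨fun _ => hsup (both b' xb' yb'), fun _ => hsup (both a' xa' ya')⟩
        exact e1 (Or.inl ⟨rfl, rfl⟩)
      exact Set.ncard_lt_ncard hssub f1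
  have key : ∀ n x y, G.Adj x y → (Φ x y).ncard = n → Gd x y := by
    intro n
    induction n using Nat.strong_induction_on with
    | _ n ih =>
      intro x y hxy hn
      by_contra hbad
      have hT : ¬ TE p r x y := fun hT => hbad (htree x y hxy hT)
      obtain ⟨f1, g1, k1⟩ := hΦ x y hxy
      obtain ⟨a, b, xa, ya, xb, yb, hab⟩ := DualL_pair hl hxy
      have hc3 : ¬ (({x, y, a} : Set W) ∈ Φ x y ↔ ({x, y, b} : Set W) ∈ Φ x y) := by
        intro hh
        exact (k1 x y a b hxy hT xa ya xb yb hab).1 hh (Or.inl ⟨rfl, rfl⟩)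
      obtain ⟨c, xc, yc, hcm⟩ : ∃ c, G.Adj x c ∧ G.Adj y c ∧ ({x, y, c} : Set W) ∈ Φ x y := by
        by_cases h1 : ({x, y, a} : Set W) ∈ Φ x y
        · exact ⟨a, xa, ya, h1⟩
        · by_cases h2 : ({x, y, b} : Set W) ∈ Φ x y
          · exact ⟨b, xb, yb, h2⟩
          · exact absurd ⟨fun hh => absurd hh h1, fun hh => absurd hh h2⟩ hc3
      by_cases hg1 : Gd x c
      · by_cases hg2 : Gd c y
        · exact hbad (htri x c y xc yc.symm hxy hg1 hg2)
        · have hT2 : ¬ TE p r c y := fun hT => hg2 (htree c y yc.symm hT)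
          have h1 := step x y c y x hxy hT yc.symm hT2 (by
            rintro (⟨h1, h2⟩ | ⟨h1, h2⟩)
            · exact xc.ne h1.symm
            · exact yc.ne h1.symm) xc.symm hxy.symm (by rwa [hrot])
          exact hg2 (ih _ (hn ▸ h1) c y yc.symm rfl)
      · have hT2 : ¬ TE p r x c := fun hT => hg1 (htree x c xc hT)
        have h1 := step x y x c y hxy hT xc hT2 (by
            rintro (⟨h1, h2⟩ | ⟨h1, h2⟩)
            · exact yc.ne h2.symm
            · exact hxy.ne h1) hxy yc.symm (by rwa [hswap'])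
        exact hg1 (ih _ (hn ▸ h1) x c xc rfl)
  exact fun x y hxy => key _ x y hxy rfl

theorem sc_of_bd {W : Type} (G : SimpleGraph W) (hinf : Infinite W) (hc : G.Connected)
    (hf : ∀ x, (G.neighborSet x).Finite) (hl : LCy G)
    (hBd : ∀ z : W → W → ZMod 2, (∀ x y, z x y = z y x) → (∀ x y, ¬ G.Adj x y → z x y = 0) →
      {x : W × W | z x.1 x.2 ≠ 0}.Finite → Ev z →
      ∃ θ : Set W → ZMod 2, {s | θ s ≠ 0}.Finite ∧ Bdy G θ z) :
    SC (RG G) := by
  classical
  intro U f st h1 h2 h3 u₀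
  obtain ⟨p, h, hr, hp⟩ := Lsc_tree G hc (f u₀)
  -- the section
  let s : ℕ → W → U := fun n => Nat.rec (fun _ => u₀)
    (fun _ g x => if x = f u₀ then u₀ else st (g (p x)) x) n
  have s0 : ∀ x, s 0 x = u₀ := fun x => rfl
  have sS : ∀ n x, s (n + 1) x = if x = f u₀ then u₀ else st (s n (p x)) x := fun n x => by
    simp only [s]
  let σ : W → U := fun x => s (h x) x
  have σr : σ (f u₀) = u₀ := by simp only [σ, hr, s0]
  have σx : ∀ x, x ≠ f u₀ → σ x = st (σ (p x)) x := by
    intro x hx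
    simp only [σ]
    rw [(hp x hx).2, sS, if_neg hx]
  have fσ : ∀ n x, h x = n → f (σ x) = x := by
    intro n
    induction n with
    | zero =>
      intro x hx
      by_cases hxr : x = f u₀
      · rw [hxr, σr]
      · have := (hp x hxr).2; omega
    | succ n ih =>
      intro x hx
      by_cases hxr : x = f u₀
      · rw [hxr, σr]
      · rw [σx x hxr]
        apply h1
        rw [ih (p x) (by have := (hp x hxr).2; omega)]
        exact Or.inr (hp x hxr).1.symm
  have fσ' : ∀ x, f (σ x) = x := fun x => fσ _ x rfl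
  have hrefl : ∀ x, st (σ x) x = σ x := by
    intro x
    have := h2 (σ x)
    rwa [fσ' x] at this
  have hsy : ∀ x y, G.Adj x y → st (σ x) y = σ y → st (σ y) x = σ x := by
    intro x y hxy hg
    rw [← hg]
    have := h3 (σ x) y x (by rw [fσ']; exact Or.inr hxy) (Or.inr hxy.symm) (by rw [fσ']; exact Or.inl rfl)
    rw [this, hrefl]
  have hall := Lsc_good G hinf hc hf hl (f u₀) p h hp hBd (fun x y => st (σ x) y = σ y) hsy ?_ ?_
  · refine ⟨σ, σr, fσ', ?_⟩
    rintro x y (rfl | hxy)
    · exact hrefl x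
    · exact hall x y hxy
  · rintro x y hxy (⟨hx, rfl⟩ | ⟨hy, rfl⟩)
    · exact hsy _ _ hxy.symm (σx x hx).symm
    · exact (σx y hy).symm
  · intro x y z hxy hyz hxz g1 g2
    rw [← h3 (σ x) y z (by rw [fσ']; exact Or.inr hxy) (Or.inr hyz) (by rw [fσ']; exact Or.inr hxz),
      g1, g2]

end Pool.Agent.H71.Clq
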