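import Mathlib

set_option autoImplicit false

/-!
# Module LP: two neighbouring vertices of a polygon

Everything over the rationals. `S` is not contained in a line through the origin. Choose `c1 ∈ S`, `c1 ≠ 0`, maximising
`|s|² / l(s)²` (`|s|² = s.1² + s.2²`). `p₀ = l(c1) c1 / |c1|²`: `p₀ · s ≤ l(s)` for all `s ∈ S` by Cauchy-Schwarz
(`l(c1) (c1 · s) / |c1|² ≤ l(c1) |s| / |c1| ≤ l(s)`), with equality only if `s` is a multiple of `c1`. Let
`e = (-c1.2, c1.1)`. So `p₀ · s < l(s)` if `e · s ≠ 0`. Let `t` be the minimum of `(l(s) - p₀ · s) / (e · s)` over `s ∈ S` with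
`e · s > 0` (there is one by the spanning hypothesis and symmetry), attained at `c2`, and `t'` the minimum of
`(l(s) - p₀ · s) / (-(e · s))` over `s ∈ S` with `e · s < 0`, attained at `c3`. `t, t' > 0`. Put `p = p₀ + t e`,
`q = p₀ - t' e`, and multiply by a common denominator `N`.
`p · c3 = q · c3 + (t + t') (e · c3) < q · c3`; `det c1 c2 = e · c2 ≠ 0`; if `det p q = 0` then, as `p · c1 = q · c1 > 0`,
`p = q`, contradiction.
-/

namespace Pool.Agent.H71.Clq

/-- dot product -/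
def dt (a b : ℤ × ℤ) : ℤ := a.1 * b.1 + a.2 * b.2

/-- determinant -/
def dte (a b : ℤ × ℤ) : ℤ := a.1 * b.2 - a.2 * b.1

theorem lp_lemma (S : Finset (ℤ × ℤ)) (l : ℤ × ℤ → ℤ) (h0 : ∀ s ∈ S, 0 < l s)
    (hneg : ∀ s ∈ S, -s ∈ S ∧ l (-s) = l s) (hsp : ∀ v : ℤ × ℤ, v ≠ 0 → ∃ s ∈ S, dt v s ≠ 0) :
    ∃ (N : ℕ) (p q c1 c2 c3 : ℤ × ℤ), 1 ≤ N ∧ c1 ∈ S ∧ c2 ∈ S ∧ c3 ∈ S ∧
      (∀ s ∈ S, dt p s ≤ N * l s) ∧ (∀ s ∈ S, dt q s ≤ N * l s) ∧
      dt p c1 = N * l c1 ∧ dt q c1 = N * l c1 ∧ dt p c2 = N * l c2 ∧ dt q c3 = N * l c3 ∧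
      dt p c3 < dt q c3 ∧ dte c1 c2 ≠ 0 ∧ dte c1 c3 ≠ 0 ∧ dte p q ≠ 0 := by
  obtain ⟨s0, hs0, hs0'⟩ := hsp (1, 0) (by simp)
  obtain ⟨c1, hc1, hmax⟩ := Finset.exists_max_image S (fun s => (dt s s : ℚ) / (l s : ℚ) ^ 2)
    ⟨s0, hs0⟩
  have hl1 := h0 c1 hc1
  -- the maximality, in integers
  have hmax' : ∀ s ∈ S, dt s s * l c1 ^ 2 ≤ dt c1 c1 * l s ^ 2 := by
    intro s hs
    have h1 := hmax s hs
    have h2 : (0 : ℚ) < (l s : ℚ) ^ 2 := by
      have : (0 : ℚ) < l s := by exact_mod_cast h0 s hs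
      positivity
    have h3 : (0 : ℚ) < (l c1 : ℚ) ^ 2 := by
      have : (0 : ℚ) < l c1 := by exact_mod_cast hl1
      positivity
    rw [div_le_div_iff₀ h2 h3] at h1
    exact_mod_cast h1
  have hD : 0 < dt c1 c1 := by
    have h1 := hmax' s0 hs0
    have h2 : 0 < dt s0 s0 := by
      have : s0.1 ≠ 0 := by
        intro h
        apply hs0'
        simp [dt, h]
      simp only [dt]
      have h3 : 0 < s0.1 * s0.1 := by
        rcases lt_or_gt_of_ne this with h | h <;> nlinarith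
      nlinarith [mul_self_nonneg s0.2]
    have h3 : 0 < dt s0 s0 * l c1 ^ 2 := by positivity
    have h4 := h0 s0 hs0
    by_contra hc
    push Not at hc
    have h5 : dt c1 c1 * l s0 ^ 2 ≤ 0 := mul_nonpos_of_nonpos_of_nonneg hc (by positivity)
    linarith
  set D := dt c1 c1 with hDdef
  set a : ℤ × ℤ → ℤ := fun s => D * l s - l c1 * dt c1 s with ha
  have hlag : ∀ s, dt c1 s ^ 2 + dte c1 s ^ 2 = D * dt s s := by
    intro s
    rw [hDdef]
    simp only [dt, dte]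
    ring
  have hsq : ∀ s ∈ S, (l c1 * dt c1 s) ^ 2 + (l c1 * dte c1 s) ^ 2 ≤ (D * l s) ^ 2 := by
    intro s hs
    have h1 := hmax' s hs
    have h2 : (l c1 * dt c1 s) ^ 2 + (l c1 * dte c1 s) ^ 2 = D * (dt s s * l c1 ^ 2) := by
      calc _ = l c1 ^ 2 * (dt c1 s ^ 2 + dte c1 s ^ 2) := by ring
        _ = _ := by rw [hlag]; ring
    rw [h2]
    have h3 : D * (dt s s * l c1 ^ 2) ≤ D * (D * l s ^ 2) := mul_le_mul_of_nonneg_left h1 hD.le
    calc _ ≤ _ := h3
      _ = _ := by ring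
  have ha0 : ∀ s ∈ S, 0 ≤ a s := by
    intro s hs
    have h1 := hsq s hs
    have h2 : 0 < D * l s := mul_pos hD (h0 s hs)
    simp only [ha]
    by_contra hc
    push Not at hc
    nlinarith [sq_nonneg (l c1 * dte c1 s)]
  have hapos : ∀ s ∈ S, dte c1 s ≠ 0 → 0 < a s := by
    intro s hs hb
    have h1 := hsq s hs
    have h2 : 0 < D * l s := mul_pos hD (h0 s hs)
    have h3 : 0 < (l c1 * dte c1 s) ^ 2 := by
      have : l c1 * dte c1 s ≠ 0 := mul_ne_zero hl1.ne' hb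
      positivity
    simp only [ha]
    by_contra hc
    push Not at hc
    nlinarith
  obtain ⟨s1, hs1, hb1⟩ : ∃ s ∈ S, 0 < dte c1 s := by
    obtain ⟨s, hs, h⟩ := hsp (-c1.2, c1.1) (by
      intro h
      rw [Prod.mk_eq_zero] at h
      have : D = 0 := by
        rw [hDdef]
        simp only [dt]
        rw [h.2, neg_eq_zero.1 h.1]
        ring
      omega)
    have e : dt (-c1.2, c1.1) s = dte c1 s := by
      simp only [dt, dte]
      ring
    rw [e] at h
    rcases lt_or_gt_of_ne h with h | h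
    · refine ⟨-s, (hneg s hs).1, ?_⟩
      have : dte c1 (-s) = -dte c1 s := by
        simp only [dte, Prod.fst_neg, Prod.snd_neg]
        ring
      rw [this]
      omega
    · exact ⟨s, hs, h⟩
  -- c2 and c3
  obtain ⟨c2, hc2, hmin2⟩ := Finset.exists_min_image (S.filter (fun s => 0 < dte c1 s))
    (fun s => (a s : ℚ) / (dte c1 s : ℚ)) ⟨s1, Finset.mem_filter.2 ⟨hs1, hb1⟩⟩
  obtain ⟨c3, hc3, hmin3⟩ := Finset.exists_min_image (S.filter (fun s => dte c1 s < 0))
    (fun s => (a s : ℚ) / (-dte c1 s : ℚ)) ⟨-s1, Finset.mem_filter.2 ⟨(hneg s1 hs1).1, by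
      have : dte c1 (-s1) = -dte c1 s1 := by
        simp only [dte, Prod.fst_neg, Prod.snd_neg]
        ring
      rw [this]
      omega⟩⟩
  rw [Finset.mem_filter] at hc2 hc3
  obtain ⟨hc2S, hb2⟩ := hc2
  obtain ⟨hc3S, hb3⟩ := hc3
  set b2 := dte c1 c2 with hb2def
  set b3 := -dte c1 c3 with hb3def
  have hb3' : 0 < b3 := by omega
  have ha2 : 0 < a c2 := hapos c2 hc2S hb2.ne'
  have ha3 : 0 < a c3 := hapos c3 hc3S hb3.ne
  have hm2 : ∀ s ∈ S, a c2 * dte c1 s ≤ a s * b2 := by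
    intro s hs
    by_cases hb : 0 < dte c1 s
    · have h1 := hmin2 s (Finset.mem_filter.2 ⟨hs, hb⟩)
      have h2 : (0 : ℚ) < dte c1 s := by exact_mod_cast hb
      have h3 : (0 : ℚ) < dte c1 c2 := by exact_mod_cast hb2
      rw [div_le_div_iff₀ h3 h2] at h1
      exact_mod_cast h1
    · push Not at hb
      have h1 : a c2 * dte c1 s ≤ 0 := mul_nonpos_of_nonneg_of_nonpos ha2.le hb
      have h2 : 0 ≤ a s * b2 := mul_nonneg (ha0 s hs) hb2.le
      linarith
  have hm3 : ∀ s ∈ S, a c3 * (-dte c1 s) ≤ a s * b3 := by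
    intro s hs
    by_cases hb : dte c1 s < 0
    · have h1 := hmin3 s (Finset.mem_filter.2 ⟨hs, hb⟩)
      have h2 : (0 : ℚ) < -dte c1 s := by
        have : (dte c1 s : ℚ) < 0 := by exact_mod_cast hb
        linarith
      have h3 : (0 : ℚ) < -dte c1 c3 := by
        have : (dte c1 c3 : ℚ) < 0 := by exact_mod_cast hb3
        linarith
      rw [div_le_div_iff₀ h3 h2] at h1
      exact_mod_cast h1
    · push Not at hb
      have h1 : a c3 * (-dte c1 s) ≤ 0 := mul_nonpos_of_nonneg_of_nonpos ha3.le (by omega)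
      have h2 : 0 ≤ a s * b3 := mul_nonneg (ha0 s hs) hb3'.le
      linarith
  set P : ℤ × ℤ := (b3 * (b2 * l c1 * c1.1 - a c2 * c1.2), b3 * (b2 * l c1 * c1.2 + a c2 * c1.1))
    with hP
  set Q : ℤ × ℤ := (b2 * (b3 * l c1 * c1.1 + a c3 * c1.2), b2 * (b3 * l c1 * c1.2 - a c3 * c1.1))
    with hQ
  have hN : 0 < D * b2 * b3 := by positivity
  have hNc : (((D * b2 * b3).toNat : ℕ) : ℤ) = D * b2 * b3 := Int.toNat_of_nonneg hN.le
  have hPs : ∀ s, D * b2 * b3 * l s - dt P s = b3 * (a s * b2 - a c2 * dte c1 s) := by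
    intro s
    simp only [hP, dt, dte, ha]
    ring
  have hQs : ∀ s, D * b2 * b3 * l s - dt Q s = b2 * (a s * b3 - a c3 * (-dte c1 s)) := by
    intro s
    simp only [hQ, dt, dte, ha]
    ring
  have hac1 : a c1 = 0 := by
    simp only [ha]
    rw [← hDdef]
    ring
  have hbc1 : dte c1 c1 = 0 := by
    simp only [dte]
    ring
  refine ⟨(D * b2 * b3).toNat, P, Q, c1, c2, c3, ?_, hc1, hc2S, hc3S, ?_, ?_, ?_, ?_, ?_, ?_, ?_,
    hb2.ne', hb3.ne, ?_⟩
  · omega
  · intro s hs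
    rw [hNc]
    have h1 := hPs s
    have h2 : 0 ≤ b3 * (a s * b2 - a c2 * dte c1 s) := by
      apply mul_nonneg hb3'.le
      have := hm2 s hs
      linarith
    linarith
  · intro s hs
    rw [hNc]
    have h1 := hQs s
    have h2 : 0 ≤ b2 * (a s * b3 - a c3 * (-dte c1 s)) := by
      apply mul_nonneg hb2.le
      have := hm3 s hs
      linarith
    linarith
  · rw [hNc]
    have h1 := hPs c1
    rw [hac1, hbc1, zero_mul, mul_zero, sub_zero, mul_zero] at h1
    linarith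
  · rw [hNc]
    have h1 := hQs c1
    rw [hac1, hbc1, neg_zero, zero_mul, mul_zero, sub_zero, mul_zero] at h1
    linarith
  · rw [hNc]
    have h1 := hPs c2
    rw [← hb2def, sub_self, mul_zero] at h1
    linarith
  · rw [hNc]
    have h1 := hQs c3
    rw [← hb3def, sub_self, mul_zero] at h1
    linarith
  · have h1 := hPs c3
    have h2 := hQs c3
    rw [← hb3def, sub_self, mul_zero] at h2
    have h3 : dte c1 c3 = -b3 := by rw [hb3def, neg_neg]
    rw [h3] at h1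
    have h4 : 0 < b3 * (a c3 * b2 - a c2 * -b3) := by
      apply mul_pos hb3'
      have h5 : 0 < a c3 * b2 := mul_pos ha3 hb2
      have h6 : 0 < a c2 * b3 := mul_pos ha2 hb3'
      linarith
    linarith
  · have e : dte P Q = -(b2 * b3 * l c1 * (b2 * a c3 + a c2 * b3) * D) := by
      rw [hDdef]
      simp only [hP, hQ, dt, dte]
      ring
    rw [e]
    have h5 : 0 < b2 * a c3 := mul_pos hb2 ha3
    have h6 : 0 < a c2 * b3 := mul_pos ha2 hb3'
    have : 0 < b2 * b3 * l c1 * (b2 * a c3 + a c2 * b3) * D := by positivity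
    omega

end Pool.Agent.H71.Clq
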