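import Mathlib
import Pool.Agent.H71.Clq.LPl
import Pool.Agent.H71.Clq.Dst
import Pool.Agent.H71.Clq.Pig

set_option autoImplicit false

/-!
# Module LEN: homomorphisms bounded by the displacement

* `short_walks`: let `n₀` be the number of orbits (`CoF`: `n₀ = |S|`). If `x = v₀, …, v_n = a x` is a walk with `n > n₀` then two
  of `v₀, …, v_{n-1}` are in one orbit: `v_j = δ v_i`, `i < j ≤ n - 1`. This gives a walk of length `j - i` from `v_i` to
  `δ v_i` and a walk of length `n - (j - i)` from `x` to `δ⁻¹ a x` (`v₀, …, v_i = δ⁻¹ v_j, …, δ⁻¹ v_n`). Induction on `n`, for the inequality and for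
  the generation statement (for every `a` there is a walk from `x` to `a x` by connectedness).
  Finiteness: see `Pig` (there `WL`, `Rn` instead of `Wk`); `A` is commutative.
* `exists_pq`: `S` = the finite set of `a ≠ 1` with a walk of length `≤ n₀` from some `x` to `a x`, `l a` = the minimum over `x` of `ds x (a x)`
  (attained). Symmetric (`ds x (a⁻¹ x) = ds (a x) x`), positive (`Disp`), spanning because `S` generates the group. Apply `lp_lemma` and
  `short_walks` with `K = N`.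
-/

namespace Pool.Agent.H71.Clq

theorem wk_act {A : Type} [Group A] (Γ : AG A) (a : A) {n : ℕ} {x y : Γ.V}
    (h : Wk Γ.R n x y) : Wk Γ.R n (Γ.act a x) (Γ.act a y) :=
  wk_map (Γ.act a) (Γ.act_R a) h

theorem rn_of_wk {A : Type} [Group A] {Γ : AG A} : ∀ {n : ℕ} {x y : Γ.V},
    Wk Γ.R n x y → Pig.Rn Γ n x y
  | 0, _, _, h => h
  | _ + 1, _, _, ⟨z, h1, h2⟩ => ⟨z, rn_of_wk h1, h2⟩

/-- a long walk from `x` to `a x` can be cut -/
theorem cut_walk {A : Type} [CommGroup A] (Γ : AG A) (S : Finset Γ.V)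
    (hS : ∀ x, ∃ a, ∃ y ∈ S, x = Γ.act a y) {n : ℕ} (hn : S.card < n) {a : A} {x : Γ.V}
    (h : Wk Γ.R n x (Γ.act a x)) :
    ∃ (m m' : ℕ) (d : A) (y : Γ.V), 1 ≤ m ∧ 1 ≤ m' ∧ m + m' = n ∧ Wk Γ.R m y (Γ.act d y) ∧
      Wk Γ.R m' x (Γ.act (d⁻¹ * a) x) := by
  obtain ⟨f, f0, fn, hf⟩ := wk_seq h
  choose b r hr hb using hS
  have hseg : ∀ i j, i ≤ j → j ≤ n → Wk Γ.R (j - i) (f i) (f j) := by
    intro i j hij hj
    have := wk_of_seq (R := Γ.R) (f := fun k => f (i + k)) (n := j - i)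
      (fun k hk => by
        have := hf (i + k) (by omega)
        rwa [Nat.add_assoc] at this)
    simpa [Nat.add_sub_cancel' hij] using this
  obtain ⟨i, hi, j, hj, hne, hij⟩ := Finset.exists_ne_map_eq_of_card_lt_of_maps_to
    (s := Finset.range n) (t := S) (f := fun k => r (f k)) (by rwa [Finset.card_range])
    (fun k _ => hr (f k))
  have key : ∀ i j : ℕ, i < j → j < n → r (f i) = r (f j) →
      ∃ (m m' : ℕ) (d : A) (y : Γ.V), 1 ≤ m ∧ 1 ≤ m' ∧ m + m' = n ∧ Wk Γ.R m y (Γ.act d y) ∧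
      Wk Γ.R m' x (Γ.act (d⁻¹ * a) x) := by
    intro i j hij hj he
    have hd : f j = Γ.act (b (f j) * (b (f i))⁻¹) (f i) := by
      conv_lhs => rw [hb (f j)]
      conv_rhs => rw [hb (f i)]
      rw [← Γ.act_mul, ← he]
      congr 1
      rw [← hb (f i), inv_mul_cancel_right]
    set d := b (f j) * (b (f i))⁻¹ with hdd
    have hd' : f i = Γ.act d⁻¹ (f j) := by
      rw [hd, ← Γ.act_mul, inv_mul_cancel, Γ.act_one]
    refine ⟨j - i, i + (n - j), d, f i, by omega, by omega, by omega, ?_, ?_⟩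
    · rw [← hd]
      exact hseg i j hij.le hj.le
    · have h1 := hseg 0 i (Nat.zero_le i) (by omega)
      rw [f0, Nat.sub_zero] at h1
      have h2 := wk_act Γ d⁻¹ (hseg j n hj.le le_rfl)
      rw [← hd', fn, ← Γ.act_mul] at h2
      exact wk_trans h1 h2
  rw [Finset.mem_range] at hi hj
  rcases lt_or_gt_of_ne hne with hlt | hlt
  · exact key i j hlt hj hij
  · exact key j i hlt hi hij.symm

theorem short_walks {A : Type} [CommGroup A] (Γ : AG A) (hn : Nice Γ) :
    ∃ n₀ : ℕ, {a : A | ∃ x, Wk Γ.R n₀ x (Γ.act a x)}.Finite ∧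
      (∀ (p : A → ℤ) (K : ℤ), 0 ≤ K → (∀ a b, p (a * b) = p a + p b) →
        (∀ a x n, n ≤ n₀ → Wk Γ.R n x (Γ.act a x) → p a ≤ K * n) →
        ∀ a x n, Wk Γ.R n x (Γ.act a x) → p a ≤ K * n) ∧
      Subgroup.closure {a : A | ∃ x, Wk Γ.R n₀ x (Γ.act a x)} = ⊤ := by
  obtain ⟨S', hS', hcov'⟩ := hn.cof
  obtain ⟨S, rfl⟩ := hS'.exists_finset_coe
  have hcov : ∀ x, ∃ a, ∃ y ∈ S, x = Γ.act a y := fun x => by
    obtain ⟨a, y, hy, h⟩ := hcov' x
    exact ⟨a, y, Finset.mem_coe.1 hy, h⟩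
  refine ⟨S.card, ?_, ?_, ?_⟩
  · refine (Pig.WL_finite hn S.card).subset ?_
    rintro a ⟨x, hx⟩
    exact ⟨x, rn_of_wk hx⟩
  · intro p K _ hp hb a x n
    induction n using Nat.strong_induction_on generalizing a x with
    | _ n ih =>
      intro h
      by_cases hle : n ≤ S.card
      · exact hb a x n hle h
      · obtain ⟨m, m', d, y, hm, hm', hmm, h1, h2⟩ := cut_walk Γ S hcov (not_le.1 hle) h
        have e1 := ih m (by omega) d y h1
        have e2 := ih m' (by omega) (d⁻¹ * a) x h2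
        have e3 : p a = p d + p (d⁻¹ * a) := by rw [← hp, mul_inv_cancel_left]
        have e4 : (n : ℤ) = m + m' := by rw [← hmm]; push_cast; ring
        rw [e3, e4]
        linarith
  · rw [eq_top_iff]
    have key : ∀ n a x, Wk Γ.R n x (Γ.act a x) →
        a ∈ Subgroup.closure {a : A | ∃ x, Wk Γ.R S.card x (Γ.act a x)} := by
      intro n
      induction n using Nat.strong_induction_on with
      | _ n ih =>
        intro a x h
        by_cases hle : n ≤ S.card
        · exact Subgroup.subset_closure ⟨x, wk_mono Γ.refl h hle⟩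
        · obtain ⟨m, m', d, y, hm, hm', hmm, h1, h2⟩ := cut_walk Γ S hcov (not_le.1 hle) h
          have e1 := ih m (by omega) d y h1
          have e2 := ih m' (by omega) (d⁻¹ * a) x h2
          have e3 : a = d * (d⁻¹ * a) := by rw [mul_inv_cancel_left]
          rw [e3]
          exact Subgroup.mul_mem _ e1 e2
    intro a _
    obtain ⟨x⟩ := hn.ne
    obtain ⟨n, h⟩ := exists_wk hn.cn x (Γ.act a x)
    exact key n a x h

theorem exists_pq (Γ : AG (Multiplicative (ℤ × ℤ))) (hn : Nice Γ) :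
    ∃ (N : ℕ) (p q c1 c2 c3 : ℤ × ℤ) (x1 x2 x3 : Γ.V), 1 ≤ N ∧
      (∀ a x, dt p a ≤ N * (ds Γ.R x (Γ.act (Multiplicative.ofAdd a) x) : ℤ)) ∧
      (∀ a x, dt q a ≤ N * (ds Γ.R x (Γ.act (Multiplicative.ofAdd a) x) : ℤ)) ∧
      dt p c1 = N * (ds Γ.R x1 (Γ.act (Multiplicative.ofAdd c1) x1) : ℤ) ∧
      dt q c1 = N * (ds Γ.R x1 (Γ.act (Multiplicative.ofAdd c1) x1) : ℤ) ∧
      dt p c2 = N * (ds Γ.R x2 (Γ.act (Multiplicative.ofAdd c2) x2) : ℤ) ∧
      dt q c3 = N * (ds Γ.R x3 (Γ.act (Multiplicative.ofAdd c3) x3) : ℤ) ∧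
      dt p c3 < dt q c3 ∧ dte c1 c2 ≠ 0 ∧ dte c1 c3 ≠ 0 ∧ dte p q ≠ 0 := by
  classical
  obtain ⟨n₀, hfin, hineq, hgen⟩ := short_walks Γ hn
  obtain ⟨x₀⟩ := hn.ne
  have hneg : ∀ (a : ℤ × ℤ) (n : ℕ) (x : Γ.V), Wk Γ.R n x (Γ.act (Multiplicative.ofAdd a) x) →
      Wk Γ.R n x (Γ.act (Multiplicative.ofAdd (-a)) x) := by
    intro a n x h
    have h1 := wk_act Γ (Multiplicative.ofAdd (-a)) h
    rw [← Γ.act_mul, ← ofAdd_add, neg_add_cancel, ofAdd_zero, Γ.act_one] at h1
    exact wk_symm Γ.symm h1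
  -- the minimal displacement
  let l : ℤ × ℤ → ℕ := fun a => sInf {n | ∃ x, Wk Γ.R n x (Γ.act (Multiplicative.ofAdd a) x)}
  have hlne : ∀ a, {n | ∃ x, Wk Γ.R n x (Γ.act (Multiplicative.ofAdd a) x)}.Nonempty := by
    intro a
    obtain ⟨n, h⟩ := exists_wk hn.cn x₀ (Γ.act (Multiplicative.ofAdd a) x₀)
    exact ⟨n, x₀, h⟩
  have hlle : ∀ a n x, Wk Γ.R n x (Γ.act (Multiplicative.ofAdd a) x) → l a ≤ n :=
    fun a n x h => Nat.sInf_le ⟨x, h⟩
  have hlat : ∀ a, ∃ x, ds Γ.R x (Γ.act (Multiplicative.ofAdd a) x) = l a := by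
    intro a
    obtain ⟨x, hx⟩ := Nat.sInf_mem (hlne a)
    exact ⟨x, le_antisymm (ds_le hx) (hlle a _ x (ds_wk hn.cn _ _))⟩
  have hlneg : ∀ a, l (-a) = l a := by
    intro a
    apply le_antisymm
    · obtain ⟨x, hx⟩ := Nat.sInf_mem (hlne a)
      exact hlle (-a) _ x (hneg a _ x hx)
    · obtain ⟨x, hx⟩ := Nat.sInf_mem (hlne (-a))
      have := hneg (-a) _ x hx
      rw [neg_neg] at this
      exact hlle a _ x this
  have hlpos : ∀ a, a ≠ 0 → 0 < l a := by
    intro a ha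
    rw [Nat.pos_iff_ne_zero]
    intro h0
    obtain ⟨x, hx⟩ := hlat a
    rw [h0, ds_eq_zero hn.cn] at hx
    refine hn.disp (Multiplicative.ofAdd a) ?_ x x x (Γ.refl x) (Γ.refl x) ?_
    · intro h1
      exact ha (Multiplicative.ofAdd.injective h1)
    · rw [← hx]
      exact Γ.refl x
  -- the finite set
  have hfin' : {a : ℤ × ℤ | a ≠ 0 ∧ ∃ x, Wk Γ.R n₀ x (Γ.act (Multiplicative.ofAdd a) x)}.Finite := by
    refine (hfin.preimage (f := fun a : ℤ × ℤ => Multiplicative.ofAdd a)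
      Multiplicative.ofAdd.injective.injOn).subset ?_
    rintro a ⟨_, h⟩
    exact h
  let S : Finset (ℤ × ℤ) := hfin'.toFinset
  have hS : ∀ a, a ∈ S ↔ (a ≠ 0 ∧ ∃ x, Wk Γ.R n₀ x (Γ.act (Multiplicative.ofAdd a) x)) := by
    intro a
    rw [Set.Finite.mem_toFinset]
    rfl
  obtain ⟨N, p, q, c1, c2, c3, hN, h1, h2, h3, hp, hq, ep1, eq1, ep2, eq3, hlt, d12, d13, dpq⟩ :=
    lp_lemma S (fun a => (l a : ℤ))
      (fun s hs => by exact_mod_cast hlpos s ((hS s).1 hs).1)
      (fun s hs => by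
        obtain ⟨hs0, x, hx⟩ := (hS s).1 hs
        refine ⟨(hS _).2 ⟨neg_ne_zero.2 hs0, x, hneg s _ x hx⟩, ?_⟩
        show ((l (-s) : ℕ) : ℤ) = (l s : ℤ)
        rw [hlneg])
      (fun v hv => by
        by_contra hc
        push Not at hc
        let H : Subgroup (Multiplicative (ℤ × ℤ)) :=
          { carrier := {a | dt v a.toAdd = 0}
            one_mem' := by simp [dt]
            mul_mem' := by
              intro a b ha hb
              simp only [Set.mem_ofPred_eq, dt, toAdd_mul, Prod.fst_add, Prod.snd_add] at ha hb ⊢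
              linarith
            inv_mem' := by
              intro a ha
              simp only [Set.mem_ofPred_eq, dt, toAdd_inv, Prod.fst_neg, Prod.snd_neg] at ha ⊢
              linarith }
        have hle : Subgroup.closure {a : Multiplicative (ℤ × ℤ) | ∃ x, Wk Γ.R n₀ x (Γ.act a x)}
            ≤ H := by
          rw [Subgroup.closure_le]
          rintro a ⟨x, hx⟩
          show dt v a.toAdd = 0
          by_cases ha : a.toAdd = 0
          · rw [ha]; simp [dt]
          · exact hc a.toAdd ((hS _).2 ⟨ha, x, hx⟩)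
        rw [hgen, top_le_iff] at hle
        have k1 : dt v (1, 0) = 0 := by
          have : Multiplicative.ofAdd ((1, 0) : ℤ × ℤ) ∈ H := by rw [hle]; trivial
          exact this
        have k2 : dt v (0, 1) = 0 := by
          have : Multiplicative.ofAdd ((0, 1) : ℤ × ℤ) ∈ H := by rw [hle]; trivial
          exact this
        simp only [dt, mul_one, mul_zero, add_zero, zero_add] at k1 k2
        exact hv (Prod.ext k1 k2))
  have hext : ∀ p : ℤ × ℤ, (∀ s ∈ S, dt p s ≤ N * (l s : ℤ)) →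
      ∀ a x, dt p a ≤ N * (ds Γ.R x (Γ.act (Multiplicative.ofAdd a) x) : ℤ) := by
    intro p hp a x
    have := hineq (fun a => dt p a.toAdd) N (by positivity)
      (fun a b => by
        simp only [dt, toAdd_mul, Prod.fst_add, Prod.snd_add]
        ring)
      (fun a x n hle h => by
        by_cases ha : a.toAdd = 0
        · simp only [ha]
          have : dt p 0 = 0 := by simp [dt]
          rw [this]
          positivity
        · have hm : a.toAdd ∈ S := (hS _).2 ⟨ha, x, wk_mono Γ.refl h hle⟩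
          refine (hp _ hm).trans ?_
          have h1 : l a.toAdd ≤ n := hlle _ n x h
          gcongr)
      (Multiplicative.ofAdd a) x _ (ds_wk hn.cn _ _)
    exact this
  obtain ⟨x1, hx1⟩ := hlat c1
  obtain ⟨x2, hx2⟩ := hlat c2
  obtain ⟨x3, hx3⟩ := hlat c3
  refine ⟨N, p, q, c1, c2, c3, x1, x2, x3, hN, hext p hp, hext q hq, ?_, ?_, ?_, ?_, hlt, d12,
    d13, dpq⟩
  · rw [hx1]; exact ep1
  · rw [hx1]; exact eq1
  · rw [hx2]; exact ep2
  · rw [hx3]; exact eq3

end Pool.Agent.H71.Clq
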