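import Mathlib
import Pool.Agent.H71.Clq.Cross
import Pool.Agent.H71.Clq.LPl

set_option autoImplicit false

/-!
# Module JOIN: tight classes and slack

* `join`: a geodesic walk from `x1` to `c1 x1` has length `ds x1 (c1 x1) = p c1` (`≥` by `ef_ds`: `u (c1 x1) = u x1 + p c1`). It extends
  (`exists_pw`, `p c1 ≥ 1`) to `α` with period `p c1`, similarly `β` through `x2` with period `p c2`. `u (β j) = u (β 0) + j`: `u` grows by
  at most one per step and by `p c2` over a period. `crossing` gives `z = α i = β j`; `ds z (c1 z) ≤ p c1` because `α (i + p c1) = c1 (α i)`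
  (walk of `p c1` steps).
* `slack`: additive notation: `Δ = dte c1 c2`, `g = c1 + c3`, `Δ g = a c1 + b c2` with `a = dte g c2`, `b = dte c1 g` (Cramer). With
  `D = |Δ|` and `a' = ± a`, `b' = ± b`: `D g = a' c1 + b' c2`. `M = |a'| + |b'| + 1`, `h = M (c1 + c2)`. For `k = D n`:
  `k (h ± g) = n ((D M ± a') c1 + (D M ± b') c2)` with coefficients `≥ 0`, so
  `ds z (k (h ± g) z) ≤ n ((D M ± a') p c1 + (D M ± b') p c2) = k (p h ± p g)` and
  `|p g| ≤ q g - 1` (`p g = p c1 + p c3 < q c1 + q c3`, `- p g = - p c1 - p c3 ≤ - p c1 + q c3 < q g`). All four distances are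
  `≤ k (p h + |p g|) + ds z z' ≤ k (p h + q g) - k + ds z z'`. Take `n` large. `ds z (c1 z) ≤ p c1` implies
  `ds z (c1^i z) ≤ i p c1` for `i ≥ 0`, etc. (`ds_act`, `ds_tri`).
-/

namespace Pool.Agent.H71.Clq

/-- a periodic walk through a point which is moved by at most `p c` -/
private theorem tight_pw {A : Type} [Group A] (Γ : AG A) (hc : Cn Γ.R) {p : A → ℤ}
    (u : EF Γ p) (c : A) (x : Γ.V) (h1 : (ds Γ.R x (Γ.act c x) : ℤ) ≤ p c) (hp : 1 ≤ p c) :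
    ∃ (α : ℤ → Γ.V) (N : ℕ), (N : ℤ) = p c ∧ PW Γ α c N ∧
      (∀ j : ℤ, u.U (α j) = u.U (α 0) + j) ∧
      ∀ j : ℤ, (ds Γ.R (α j) (Γ.act c (α j)) : ℤ) ≤ p c := by
  have h2 := ef_ds Γ hc u x (Γ.act c x)
  rw [u.eqv] at h2
  have h3 : (ds Γ.R x (Γ.act c x) : ℤ) = p c := by omega
  obtain ⟨f, hf0, hfN, hf⟩ := wk_seq (ds_wk hc x (Γ.act c x))
  have hN : 1 ≤ ds Γ.R x (Γ.act c x) := by omega
  obtain ⟨α, hα, -⟩ := exists_pw Γ c _ hN f hf (by rw [hfN, hf0])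
  set N := ds Γ.R x (Γ.act c x) with hNd
  have hup : ∀ (k : ℕ) (j : ℤ), u.U (α (j + k)) ≤ u.U (α j) + k := by
    intro k
    induction k with
    | zero => intro j; simp
    | succ k ih =>
      intro j
      have h4 := ih j
      have h5 := u.lip _ _ (hα.2.1 (j + k))
      have e : j + (k : ℤ) + 1 = j + ((k + 1 : ℕ) : ℤ) := by push_cast; ring
      rw [e] at h5
      push_cast at h5 ⊢
      omega
  have hone : ∀ j : ℤ, u.U (α (j + 1)) = u.U (α j) + 1 := by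
    intro j
    have h4 := u.lip _ _ (hα.2.1 j)
    have h5 := hup (N - 1) (j + 1)
    have e : j + 1 + ((N - 1 : ℕ) : ℤ) = j + N := by
      have : ((N - 1 : ℕ) : ℤ) = N - 1 := by omega
      rw [this]; ring
    rw [e, hα.2.2, u.eqv] at h5
    omega
  refine ⟨α, N, h3, hα, ?_, ?_⟩
  · intro j
    induction j using Int.induction_on with
    | zero => simp
    | succ i ih =>
      rw [hone, ih]
      ring
    | pred i ih =>
      have h4 := hone (-(i : ℤ) - 1)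
      have e : -(i : ℤ) - 1 + 1 = -(i : ℤ) := by ring
      rw [e, ih] at h4
      omega
  · intro j
    have h4 : Wk Γ.R N (α (j + (0 : ℕ))) (α (j + (N : ℕ))) := by
      refine wk_of_seq (f := fun n : ℕ => α (j + (n : ℤ))) (fun i _ => ?_)
      have h5 := hα.2.1 (j + i)
      have e : j + (i : ℤ) + 1 = j + ((i + 1 : ℕ) : ℤ) := by push_cast; ring
      rwa [e] at h5
    rw [hα.2.2] at h4
    have e : j + ((0 : ℕ) : ℤ) = j := by simp
    rw [e] at h4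
    have h5 := ds_le h4
    rw [← h3]
    exact_mod_cast h5

theorem join {A : Type} [CommGroup A] (Γ : AG A) (hn : Nice Γ) (G : SimpleGraph Γ.V)
    (hG : Γ.R = RG G) (hl : LCy G) {p q : A → ℤ} (hinj : ∀ a, p a = 0 → q a = 0 → a = 1)
    (u : EF Γ p) (v : EF Γ q) (c1 c2 : A) (x1 x2 : Γ.V)
    (h1 : (ds Γ.R x1 (Γ.act c1 x1) : ℤ) ≤ p c1) (h2 : (ds Γ.R x2 (Γ.act c2 x2) : ℤ) ≤ p c2)
    (hp1 : 1 ≤ p c1) (hp2 : 1 ≤ p c2) (hdet : p c1 * q c2 ≠ p c2 * q c1) :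
    ∃ z, (ds Γ.R z (Γ.act c1 z) : ℤ) ≤ p c1 ∧ (ds Γ.R z (Γ.act c2 z) : ℤ) ≤ p c2 := by
  obtain ⟨α, N1, _, hα, _, hα2⟩ := tight_pw Γ hn.cn u c1 x1 h1 hp1
  obtain ⟨β, N2, _, hβ, hβ1, hβ2⟩ := tight_pw Γ hn.cn u c2 x2 h2 hp2
  obtain ⟨i, j, hij⟩ := crossing Γ hn G hG hl hinj u v α β c1 c2 N1 N2 hα hβ hβ1 hdet
  refine ⟨α i, hα2 i, ?_⟩
  rw [hij]
  exact hβ2 j

section

open Multiplicative

variable (Γ : AG (Multiplicative (ℤ × ℤ)))

private theorem sl_act_add (c d : ℤ × ℤ) (z : Γ.V) :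
    Γ.act (ofAdd (c + d)) z = Γ.act (ofAdd c) (Γ.act (ofAdd d) z) := by
  rw [ofAdd_add, Γ.act_mul]

private theorem sl_act_zero (z : Γ.V) : Γ.act (ofAdd (0 : ℤ × ℤ)) z = z := by
  rw [ofAdd_zero, Γ.act_one]

private theorem sl_diff (hc : Cn Γ.R) (a b : ℤ × ℤ) (z z' : Γ.V) :
    ds Γ.R (Γ.act (ofAdd a) z) (Γ.act (ofAdd b) z') = ds Γ.R z (Γ.act (ofAdd (b - a)) z') := by
  rw [← ds_act Γ hc (ofAdd a) z, ← sl_act_add, add_sub_cancel]

private theorem sl_neg (hc : Cn Γ.R) (c : ℤ × ℤ) (z : Γ.V) :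
    ds Γ.R z (Γ.act (ofAdd (-c)) z) = ds Γ.R z (Γ.act (ofAdd c) z) := by
  rw [ds_comm Γ.symm hc z (Γ.act (ofAdd c) z)]
  conv_rhs => rw [← sl_act_zero Γ z]
  rw [← sl_act_add, add_zero, sl_diff Γ hc, zero_sub]

private theorem sl_add (hc : Cn Γ.R) (c d : ℤ × ℤ) (z : Γ.V) :
    ds Γ.R z (Γ.act (ofAdd (c + d)) z) ≤
      ds Γ.R z (Γ.act (ofAdd c) z) + ds Γ.R z (Γ.act (ofAdd d) z) := by
  have h1 := ds_tri hc z (Γ.act (ofAdd c) z) (Γ.act (ofAdd (c + d)) z)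
  rw [sl_act_add, ds_act Γ hc] at h1
  rw [sl_act_add]
  exact h1

private theorem sl_nsmul (hc : Cn Γ.R) (c : ℤ × ℤ) (z : Γ.V) (n : ℕ) :
    ds Γ.R z (Γ.act (ofAdd (n • c)) z) ≤ n * ds Γ.R z (Γ.act (ofAdd c) z) := by
  induction n with
  | zero =>
    rw [zero_smul, sl_act_zero, ds_self]
    omega
  | succ n ih =>
    rw [add_smul, one_smul]
    have h1 := sl_add Γ hc (n • c) c z
    rw [Nat.succ_mul]
    omega

private theorem sl_lin (hc : Cn Γ.R) (c d : ℤ × ℤ) (z : Γ.V) (P Q : ℤ)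
    (h1 : (ds Γ.R z (Γ.act (ofAdd c) z) : ℤ) ≤ P) (h2 : (ds Γ.R z (Γ.act (ofAdd d) z) : ℤ) ≤ Q)
    (m n : ℤ) (hm : 0 ≤ m) (hn : 0 ≤ n) :
    (ds Γ.R z (Γ.act (ofAdd (m • c + n • d)) z) : ℤ) ≤ m * P + n * Q := by
  obtain ⟨m, rfl⟩ := Int.eq_ofNat_of_zero_le hm
  obtain ⟨n, rfl⟩ := Int.eq_ofNat_of_zero_le hn
  rw [natCast_zsmul, natCast_zsmul]
  have h3 := sl_add Γ hc (m • c) (n • d) z
  have h4 := sl_nsmul Γ hc c z m
  have h5 := sl_nsmul Γ hc d z n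
  have h3' : (ds Γ.R z (Γ.act (ofAdd (m • c + n • d)) z) : ℤ) ≤
      (ds Γ.R z (Γ.act (ofAdd (m • c)) z) : ℤ) + ds Γ.R z (Γ.act (ofAdd (n • d)) z) := by
    exact_mod_cast h3
  have h4' : (ds Γ.R z (Γ.act (ofAdd (m • c)) z) : ℤ) ≤
      m * (ds Γ.R z (Γ.act (ofAdd c) z) : ℤ) := by exact_mod_cast h4
  have h5' : (ds Γ.R z (Γ.act (ofAdd (n • d)) z) : ℤ) ≤
      n * (ds Γ.R z (Γ.act (ofAdd d) z) : ℤ) := by exact_mod_cast h5
  have h6 : (m : ℤ) * (ds Γ.R z (Γ.act (ofAdd c) z) : ℤ) ≤ m * P :=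
    mul_le_mul_of_nonneg_left h1 (by positivity)
  have h7 : (n : ℤ) * (ds Γ.R z (Γ.act (ofAdd d) z) : ℤ) ≤ n * Q :=
    mul_le_mul_of_nonneg_left h2 (by positivity)
  linarith

end

private theorem cramer (c1 c2 g : ℤ × ℤ) (hdet : dte c1 c2 ≠ 0) :
    ∃ D a b : ℤ, 1 ≤ D ∧ D * g.1 = a * c1.1 + b * c2.1 ∧ D * g.2 = a * c1.2 + b * c2.2 := by
  have e1 : dte c1 c2 * g.1 = dte g c2 * c1.1 + dte c1 g * c2.1 := by
    simp only [dte]; ring
  have e2 : dte c1 c2 * g.2 = dte g c2 * c1.2 + dte c1 g * c2.2 := by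
    simp only [dte]; ring
  rcases lt_or_gt_of_ne hdet with h | h
  · refine ⟨- dte c1 c2, - dte g c2, - dte c1 g, by omega, ?_, ?_⟩
    · rw [neg_mul, e1]; ring
    · rw [neg_mul, e2]; ring
  · exact ⟨dte c1 c2, dte g c2, dte c1 g, by omega, e1, e2⟩

theorem slack (Γ : AG (Multiplicative (ℤ × ℤ))) (hc : Cn Γ.R) (p q c1 c2 c3 : ℤ × ℤ)
    (z z' : Γ.V)
    (h1 : (ds Γ.R z (Γ.act (Multiplicative.ofAdd c1) z) : ℤ) ≤ dt p c1)
    (h2 : (ds Γ.R z (Γ.act (Multiplicative.ofAdd c2) z) : ℤ) ≤ dt p c2)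
    (h3 : (ds Γ.R z' (Γ.act (Multiplicative.ofAdd c1) z') : ℤ) ≤ dt q c1)
    (h4 : (ds Γ.R z' (Γ.act (Multiplicative.ofAdd c3) z') : ℤ) ≤ dt q c3)
    (h5 : dt p c1 = dt q c1) (h6 : dt p c3 < dt q c3) (h7 : - dt p c3 ≤ dt q c3)
    (h8 : 1 ≤ dt p c1) (h9 : 1 ≤ dt p c2) (h10 : 1 ≤ dt q c3) (hdet : dte c1 c2 ≠ 0) :
    ∃ h g : ℤ × ℤ, 1 ≤ dt p h ∧ 1 ≤ dt q g ∧ ∀ K : ℕ, ∃ k : ℕ, K ≤ k ∧
      (ds Γ.R (Γ.act (Multiplicative.ofAdd (-(k : ℤ) • h)) z)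
        (Γ.act (Multiplicative.ofAdd ((k : ℤ) • h)) z) : ℤ) ≤ 2 * k * dt p h ∧
      (ds Γ.R (Γ.act (Multiplicative.ofAdd (-(k : ℤ) • g)) z')
        (Γ.act (Multiplicative.ofAdd ((k : ℤ) • g)) z') : ℤ) ≤ 2 * k * dt q g ∧
      ∀ s t : ℤ, (s = 1 ∨ s = -1) → (t = 1 ∨ t = -1) →
        (ds Γ.R (Γ.act (Multiplicative.ofAdd ((s * k) • h)) z)
          (Γ.act (Multiplicative.ofAdd ((t * k) • g)) z') : ℤ) + K ≤ k * (dt p h + dt q g) := by
  obtain ⟨D, a, b, hD, hg1, hg2⟩ := cramer c1 c2 (c1 + c3) hdet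
  set M : ℤ := |a| + |b| + 1 with hM
  have ha := abs_nonneg a
  have hb := abs_nonneg b
  have hM1 : 1 ≤ M := by omega
  have hDM : M ≤ D * M := by nlinarith
  have ha1 : a ≤ |a| := le_abs_self a
  have ha2 : -a ≤ |a| := neg_le_abs a
  have hb1 : b ≤ |b| := le_abs_self b
  have hb2 : -b ≤ |b| := neg_le_abs b
  have hph : dt p (M • (c1 + c2)) = M * (dt p c1 + dt p c2) := by
    simp only [dt, Prod.smul_fst, Prod.smul_snd, Prod.fst_add, Prod.snd_add, smul_eq_mul]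
    ring
  have hqg : dt q (c1 + c3) = dt q c1 + dt q c3 := by
    simp only [dt, Prod.fst_add, Prod.snd_add]
    ring
  have hpg : D * dt p (c1 + c3) = a * dt p c1 + b * dt p c2 := by
    simp only [dt]
    calc D * (p.1 * (c1 + c3).1 + p.2 * (c1 + c3).2)
        = p.1 * (D * (c1 + c3).1) + p.2 * (D * (c1 + c3).2) := by ring
      _ = a * (p.1 * c1.1 + p.2 * c1.2) + b * (p.1 * c2.1 + p.2 * c2.2) := by
          rw [hg1, hg2]; ring
  have hpg' : dt p (c1 + c3) = dt p c1 + dt p c3 := by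
    simp only [dt, Prod.fst_add, Prod.snd_add]
    ring
  refine ⟨M • (c1 + c2), c1 + c3, ?_, ?_, ?_⟩
  · rw [hph]; nlinarith
  · rw [hqg]; omega
  intro K
  -- the multiple
  set n : ℕ := ds Γ.R z z' + K with hn
  obtain ⟨D', hD'⟩ := Int.eq_ofNat_of_zero_le (show 0 ≤ D by omega)
  have hD1 : 1 ≤ D' := by omega
  refine ⟨D' * n, ?_, ?_, ?_, ?_⟩
  · nlinarith
  · rw [sl_diff Γ hc]
    have e : (((D' * n : ℕ) : ℤ) • (M • (c1 + c2)) - (-((D' * n : ℕ) : ℤ)) • (M • (c1 + c2))) =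
        (2 * (D' * n : ℕ) * M) • c1 + (2 * (D' * n : ℕ) * M) • c2 := by
      ext
      · simp only [Prod.smul_fst, Prod.fst_add, Prod.fst_sub, smul_eq_mul]; ring
      · simp only [Prod.smul_snd, Prod.snd_add, Prod.snd_sub, smul_eq_mul]; ring
    rw [e]
    have h0 : (0 : ℤ) ≤ 2 * (D' * n : ℕ) * M := by positivity
    refine (sl_lin Γ hc c1 c2 z _ _ h1 h2 _ _ h0 h0).trans (le_of_eq ?_)
    rw [hph]; ring
  · rw [sl_diff Γ hc]
    have e : (((D' * n : ℕ) : ℤ) • (c1 + c3) - (-((D' * n : ℕ) : ℤ)) • (c1 + c3)) =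
        (2 * ((D' * n : ℕ) : ℤ)) • c1 + (2 * ((D' * n : ℕ) : ℤ)) • c3 := by
      ext
      · simp only [Prod.smul_fst, Prod.fst_add, Prod.fst_sub, smul_eq_mul]; ring
      · simp only [Prod.smul_snd, Prod.snd_add, Prod.snd_sub, smul_eq_mul]; ring
    rw [e]
    have h0 : (0 : ℤ) ≤ 2 * ((D' * n : ℕ) : ℤ) := by positivity
    refine (sl_lin Γ hc c1 c3 z' _ _ h3 h4 _ _ h0 h0).trans (le_of_eq ?_)
    rw [hqg]; ring
  · -- the four mixed distances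
    have hn0 : (0 : ℤ) ≤ n := by positivity
    have main : ∀ σ : ℤ, (σ = 1 ∨ σ = -1) →
        (ds Γ.R z (Γ.act (Multiplicative.ofAdd (((D' * n : ℕ) : ℤ) • (M • (c1 + c2)) +
          (σ * ((D' * n : ℕ) : ℤ)) • (c1 + c3))) z) : ℤ) ≤
        ((D' * n : ℕ) : ℤ) * (dt p (M • (c1 + c2)) + dt q (c1 + c3) - 1) := by
      intro σ hσ
      have e : ((D' * n : ℕ) : ℤ) • (M • (c1 + c2)) + (σ * ((D' * n : ℕ) : ℤ)) • (c1 + c3) =
          (n * (D * M + σ * a)) • c1 + (n * (D * M + σ * b)) • c2 := by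
        have hk : ((D' * n : ℕ) : ℤ) = n * D := by push_cast; rw [hD']; exact mul_comm _ _
        rw [hk]
        ext
        · simp only [Prod.smul_fst, Prod.fst_add, smul_eq_mul] at hg1 ⊢
          calc (n : ℤ) * D * (M * (c1.1 + c2.1)) + σ * (n * D) * (c1.1 + c3.1)
              = n * D * M * (c1.1 + c2.1) + σ * n * (D * (c1.1 + c3.1)) := by ring
            _ = _ := by rw [hg1]; ring
        · simp only [Prod.smul_snd, Prod.snd_add, smul_eq_mul] at hg2 ⊢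
          calc (n : ℤ) * D * (M * (c1.2 + c2.2)) + σ * (n * D) * (c1.2 + c3.2)
              = n * D * M * (c1.2 + c2.2) + σ * n * (D * (c1.2 + c3.2)) := by ring
            _ = _ := by rw [hg2]; ring
      rw [e]
      have h01 : 0 ≤ D * M + σ * a := by
        rcases hσ with rfl | rfl
        · omega
        · omega
      have h02 : 0 ≤ D * M + σ * b := by
        rcases hσ with rfl | rfl
        · omega
        · omega
      refine (sl_lin Γ hc c1 c2 z _ _ h1 h2 _ _ (mul_nonneg hn0 h01)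
        (mul_nonneg hn0 h02)).trans ?_
      have hk : ((D' * n : ℕ) : ℤ) = n * D := by push_cast; rw [hD']; exact mul_comm _ _
      have e2 : (n : ℤ) * (D * M + σ * a) * dt p c1 + n * (D * M + σ * b) * dt p c2 =
          n * D * (dt p (M • (c1 + c2)) + σ * dt p (c1 + c3)) := by
        rw [hph]
        calc (n : ℤ) * (D * M + σ * a) * dt p c1 + n * (D * M + σ * b) * dt p c2
            = n * D * (M * (dt p c1 + dt p c2)) + n * σ * (a * dt p c1 + b * dt p c2) := by ring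
          _ = n * D * (M * (dt p c1 + dt p c2)) + n * σ * (D * dt p (c1 + c3)) := by rw [hpg]
          _ = _ := by ring
      rw [e2, hk]
      refine mul_le_mul_of_nonneg_left ?_ (mul_nonneg hn0 (by omega))
      have h9 : σ * dt p (c1 + c3) ≤ dt q (c1 + c3) - 1 := by
        rw [hqg, hpg']
        rcases hσ with rfl | rfl
        · omega
        · omega
      linarith
    have hnk : (n : ℤ) ≤ ((D' * n : ℕ) : ℤ) := by
      push_cast
      nlinarith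
    intro s t hs ht
    rw [sl_diff Γ hc]
    have htri := ds_tri hc z (Γ.act (Multiplicative.ofAdd ((t * ((D' * n : ℕ) : ℤ)) • (c1 + c3) -
      (s * ((D' * n : ℕ) : ℤ)) • (M • (c1 + c2)))) z) (Γ.act (Multiplicative.ofAdd
      ((t * ((D' * n : ℕ) : ℤ)) • (c1 + c3) - (s * ((D' * n : ℕ) : ℤ)) • (M • (c1 + c2)))) z')
    rw [ds_act Γ hc] at htri
    have hb : (ds Γ.R z (Γ.act (Multiplicative.ofAdd ((t * ((D' * n : ℕ) : ℤ)) • (c1 + c3) -
        (s * ((D' * n : ℕ) : ℤ)) • (M • (c1 + c2)))) z) : ℤ) ≤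
        ((D' * n : ℕ) : ℤ) * (dt p (M • (c1 + c2)) + dt q (c1 + c3) - 1) := by
      rcases hs with rfl | rfl
      · rw [← sl_neg Γ hc]
        have e : -((t * ((D' * n : ℕ) : ℤ)) • (c1 + c3) -
            ((1 : ℤ) * ((D' * n : ℕ) : ℤ)) • (M • (c1 + c2))) =
            ((D' * n : ℕ) : ℤ) • (M • (c1 + c2)) + ((-t) * ((D' * n : ℕ) : ℤ)) • (c1 + c3) := by
          rw [one_mul, neg_sub, sub_eq_add_neg, neg_mul, neg_smul]
        rw [e]
        exact main (-t) (by omega)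
      · have e : ((t * ((D' * n : ℕ) : ℤ)) • (c1 + c3) -
            ((-1 : ℤ) * ((D' * n : ℕ) : ℤ)) • (M • (c1 + c2))) =
            ((D' * n : ℕ) : ℤ) • (M • (c1 + c2)) + (t * ((D' * n : ℕ) : ℤ)) • (c1 + c3) := by
          rw [neg_one_mul, neg_smul, sub_neg_eq_add, add_comm]
        rw [e]
        exact main t ht
    have hn' : (n : ℤ) = ds Γ.R z z' + K := by rw [hn]; push_cast; ring
    have h10 : (ds Γ.R z (Γ.act (Multiplicative.ofAdd ((t * ((D' * n : ℕ) : ℤ)) • (c1 + c3) -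
        (s * ((D' * n : ℕ) : ℤ)) • (M • (c1 + c2)))) z') : ℤ) ≤
        (ds Γ.R z (Γ.act (Multiplicative.ofAdd ((t * ((D' * n : ℕ) : ℤ)) • (c1 + c3) -
        (s * ((D' * n : ℕ) : ℤ)) • (M • (c1 + c2)))) z) : ℤ) + ds Γ.R z z' := by
      exact_mod_cast htri
    have h11 : ((D' * n : ℕ) : ℤ) * (dt p (M • (c1 + c2)) + dt q (c1 + c3) - 1) =
        ((D' * n : ℕ) : ℤ) * (dt p (M • (c1 + c2)) + dt q (c1 + c3)) - ((D' * n : ℕ) : ℤ) := by
      ring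
    rw [h11] at hb
    linarith

end Pool.Agent.H71.Clq
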