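import Mathlib
import Pool.Agent.H71.Clq.Dst
import Pool.Agent.H71.Clq.LG

set_option autoImplicit false

/-!
# Module HELLY: domination for all base points implies the Helly property for balls

* `dom_of_levels`: the function `lev` of `levels` with base point `o` is `ds R o` (it grows by at most one
  along `R`, is zero only at `o`, and every other vertex has a neighbour with smaller value).
* `helly`. For a nonempty set `S` let `d y S` be the minimal distance from `y` to a point of `S`. Call `S` *good* if it is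
  nonempty and for every `y ∉ S`, `s = d y S ≥ 1`, there is `w` with `R w y`, `d w S = s - 1` and `R w z` for all `z` with
  `R y z` and `d z S ≤ s`. By `Dom` balls are good (`d y (B(o,r)) = ds o y - r`; use domination with base point `o`).
  Let `S` be good, `o` a point, `ρ = ds o y`, `s = d y S`.
  (Q') if `ρ ≥ 1`, `d o S ≤ ρ + s - 1` then there is `y'` with `R y y'`, `ds o y' = ρ - 1`, `d y' S ≤ s`.
       Induction on `ρ`: take `y₁`, `R y y₁`, `ds o y₁ = ρ - 1`. If `d y₁ S ≤ s` done. Else `d y₁ S = s + 1`. If `ρ = 1` then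
       `y₁ = o`, contradiction. By induction there is `y₂`, `R y₁ y₂`, `ds o y₂ = ρ - 2`, `d y₂ S ≤ s + 1`.
       Goodness of `S` at `y₁`: `w` with `d w S = s`, `R w y`, `R w y₂`, so `ds o w ≤ ρ - 1` (and `w ≠ y`).
  (Q)  if `s ≥ 1`, `d o S ≤ ρ + s - 1` then there is `y'` with `R y y'`, `d y' S = s - 1`, `ds o y' ≤ ρ`.
       If `ρ = 0` then `y = o`, `s ≤ s - 1`, contradiction. Take `y''` from (Q'). Goodness of `S` at `y` gives `w` with
       `d w S = s - 1`, `R w y`, `R w y''`, so `ds o w ≤ ρ`.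
  (Q2) if `s ≥ 1`, `ρ ≥ 1`, `d o S ≤ ρ + s - 2` then there is `y'` with `R y y'`, `d y' S = s - 1`, `ds o y' = ρ - 1`.
       Take `w'` from (Q'). If `d w' S = s`: `ρ - 1 ≥ 1` (else `w' = o`), (Q') at `w'` gives `u`, `R w' u`,
       `ds o u = ρ - 2`, `d u S ≤ s`. Goodness of `S` at `w'`: `v` with `d v S = s - 1`, `R v y`, `R v u`.
  (I)  Let `T = B(o,r)` with `d o S ≤ r`. Then `d y (S ∩ T) = max (d y S) (ds o y - r)`: if the maximum `m` is `≥ 1` there is
       `y'`, `R y y'`, with maximum `≤ m - 1` (cases: both equal to `m`: (Q2); `d y S = m`, `ds o y - r = m - 1`: (Q);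
       `ds o y - r = m`, `d y S = m - 1`: (Q'); otherwise any step towards the farther one).
  (G)  `S ∩ T` is good. Let `m = d y (S ∩ T) ≥ 1`, `s = d y S`, `ρ = ds o y`, `Z` = the `z` with `R y z`, `d z S ≤ m`,
       `ds o z ≤ r + m`.
       (a) `s = m`, `ρ = r + m`: `w₀` from `Dom` at `y`, base point `o`: related to `y` and all of `Z`, `ds o w₀ = ρ - 1`, and
       `d w₀ S ≤ m` (it is related to the vertex of (Q2)). If `d w₀ S = m`: goodness of `S` at `w₀` gives `v` with
       `d v S = m - 1`, related to `y` and to all of `Z`, and `ds o v ≤ ρ - 1` by (Q') at `w₀` (if `ρ - 1 = 0` then `w₀ = o`,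
       `d o S = m ≤ r = 0`, contradiction).
       (b) `s = m`, `ρ ≤ r + m - 1`: take `w` from goodness of `S` at `y`; `ds o w ≤ r + m - 1`, if `ρ = r + m - 1` because
       `w` is related to the vertex of (Q') (`ρ ≥ 1` because `ρ = 0` means `y = o`, `m = d o S ≤ r`, `r + m - 1 = 0`).
       (c) `ρ = r + m`, `s ≤ m - 1`: take `w₀` from `Dom` at `y`, base point `o`. If `s ≤ m - 2` done. If `s = m - 1 ≥ 1` then
       `d w₀ S ≤ s` because `w₀` is related to the vertex of (Q). If `s = 0`, `m = 1`: `d w₀ S ≤ 1`; if it is `1` take `v`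
       from goodness of `S` at `w₀`: `v ∈ S`, related to `y` and to all of `Z`; `ds o v ≤ r` by (Q') at `w₀`
       (if `r = 0` then `w₀ = o ∈ S`).
  Now add the balls one after the other: if `S` is the intersection of the first balls, it is good and
  `d y S` is the maximum of the `ds y (c i) - r i`, so `d (c j) S ≤ r j` for the next ball.
-/

namespace Pool.Agent.H71.Clq

/-- domination for all base points -/
def Dom {V : Type} (R : V → V → Prop) : Prop :=
  ∀ o x, x ≠ o → ∃ w, R w x ∧ ds R o w + 1 = ds R o x ∧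
    ∀ y, R x y → ds R o y ≤ ds R o x → R w y

/-- a function which behaves like the distance to a good set -/
private structure Gd {V : Type} (R : V → V → Prop) (D : V → ℕ) : Prop where
  lip : ∀ x y, R x y → D y ≤ D x + 1
  dm : ∀ y, D y ≠ 0 → ∃ w, R w y ∧ D w + 1 = D y ∧ ∀ z, R y z → D z ≤ D y → R w z

theorem dom_of_levels {V : Type} (R : V → V → Prop) (hr : ∀ x, R x x)
    (hs : ∀ x y, R x y → R y x) (hc : Cn R) (hf : ∀ x, {y | R x y}.Finite) (het : ET R)
    (hsc : SC R) : Dom R := by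
  intro o
  obtain ⟨lev, h0, h1, h2⟩ := levels R hr hs hf het hsc o
  have hle : ∀ n y, Wk R n o y → lev y ≤ n := by
    intro n
    induction n with
    | zero =>
      intro y h
      obtain rfl : o = y := h
      exact le_of_eq ((h0 o).2 rfl)
    | succ n ih =>
      rintro y ⟨z, hz, hzy⟩
      have := ih z hz
      have := h1 z y hzy
      omega
  have hge : ∀ n y, lev y = n → ds R o y ≤ n := by
    intro n
    induction n with
    | zero =>
      intro y h
      obtain rfl := (h0 y).1 h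
      exact le_of_eq (ds_self y)
    | succ n ih =>
      intro y h
      obtain ⟨w, hw1, hw2, -⟩ := h2 y (by omega)
      have h3 := ih w (by omega)
      have h4 := ds_tri hc o w y
      have h5 : ds R w y ≤ 1 := ds_le_one_of hw1
      omega
  have heq : ∀ y, lev y = ds R o y := fun y =>
    le_antisymm (hle _ _ (ds_wk hc o y)) (hge _ _ rfl)
  intro x hx
  obtain ⟨w, h3, h4, h5⟩ := h2 x (fun h => hx ((h0 x).1 h))
  refine ⟨w, h3, by rw [← heq, ← heq]; exact h4, ?_⟩
  intro y hy hyl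
  rw [← heq, ← heq] at hyl
  exact h5 y hy hyl

section
variable {V : Type} {R : V → V → Prop} {D ρ : V → ℕ} {o : V}

private theorem qp (hs : ∀ x y, R x y → R y x) (hD : Gd R D) (hρ : Gd R ρ)
    (h0 : ∀ x, ρ x = 0 → x = o) (n : ℕ) : ∀ y, ρ y = n + 1 → D o ≤ n + D y →
    ∃ y', R y y' ∧ ρ y' = n ∧ D y' ≤ D y := by
  induction n with
  | zero =>
    intro y hy ho
    obtain ⟨y₁, h1, h2, -⟩ := hρ.dm y (by omega)
    have h3 : y₁ = o := h0 _ (by omega)
    subst h3
    exact ⟨y₁, hs _ _ h1, by omega, by omega⟩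
  | succ n ih =>
    intro y hy ho
    obtain ⟨y₁, h1, h2, -⟩ := hρ.dm y (by omega)
    by_cases h3 : D y₁ ≤ D y
    · exact ⟨y₁, hs _ _ h1, by omega, h3⟩
    · have h4 := hD.lip y y₁ (hs _ _ h1)
      obtain ⟨y₂, h5, h6, h7⟩ := ih y₁ (by omega) (by omega)
      obtain ⟨w, h8, h9, h10⟩ := hD.dm y₁ (by omega)
      have h11 := h10 y h1 (by omega)
      have h12 := h10 y₂ h5 h7
      have h13 := hρ.lip _ _ (hs _ _ h12)
      have h14 := hρ.lip _ _ h11
      exact ⟨w, hs _ _ h11, by omega, by omega⟩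

private theorem qq (hs : ∀ x y, R x y → R y x) (hD : Gd R D) (hρ : Gd R ρ)
    (h0 : ∀ x, ρ x = 0 → x = o) (y : V) (hy : 1 ≤ D y) (ho : D o + 1 ≤ ρ y + D y) :
    ∃ y', R y y' ∧ D y' + 1 = D y ∧ ρ y' ≤ ρ y := by
  by_cases h1 : ρ y = 0
  · have h2 := h0 _ h1
    subst h2
    omega
  · obtain ⟨y'', h3, h4, h5⟩ := qp hs hD hρ h0 (ρ y - 1) y (by omega) (by omega)
    obtain ⟨w, h6, h7, h8⟩ := hD.dm y (by omega)
    have h9 := h8 _ h3 h5
    have h10 := hρ.lip _ _ (hs _ _ h9)
    exact ⟨w, hs _ _ h6, h7, by omega⟩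

private theorem q2 (hs : ∀ x y, R x y → R y x) (hD : Gd R D) (hρ : Gd R ρ)
    (h0 : ∀ x, ρ x = 0 → x = o) (y : V) (hy : 1 ≤ D y) (hρy : 1 ≤ ρ y)
    (ho : D o + 2 ≤ ρ y + D y) :
    ∃ y', R y y' ∧ D y' + 1 = D y ∧ ρ y' + 1 = ρ y := by
  obtain ⟨w, h1, h2, h3⟩ := qp hs hD hρ h0 (ρ y - 1) y (by omega) (by omega)
  have h4 := hD.lip _ _ (hs _ _ h1)
  by_cases h5 : D w = D y
  · by_cases h6 : ρ w = 0
    · have h7 := h0 _ h6
      subst h7
      omega
    · obtain ⟨u, h7, h8, h9⟩ := qp hs hD hρ h0 (ρ w - 1) w (by omega) (by omega)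
      obtain ⟨v, h10, h11, h12⟩ := hD.dm w (by omega)
      have h13 := h12 y (hs _ _ h1) (by omega)
      have h14 := h12 u h7 h9
      have h15 := hρ.lip _ _ (hs _ _ h14)
      have h16 := hρ.lip _ _ h13
      exact ⟨v, hs _ _ h13, by omega, by omega⟩
  · exact ⟨w, h1, by omega, by omega⟩

private theorem gd_max (hs : ∀ x y, R x y → R y x) (hD : Gd R D) (hρ : Gd R ρ)
    (h0 : ∀ x, ρ x = 0 → x = o) (r : ℕ) (hor : D o ≤ r) :
    Gd R (fun y => max (D y) (ρ y - r)) := by
  have hlip : ∀ x y, R x y → max (D y) (ρ y - r) ≤ max (D x) (ρ x - r) + 1 := by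
    intro x y h
    have h1 := hD.lip x y h
    have h2 := hρ.lip x y h
    omega
  refine ⟨hlip, ?_⟩
  intro y hy
  change max (D y) (ρ y - r) ≠ 0 at hy
  -- it is enough to find a vertex with smaller value
  have red : (∃ w, R w y ∧ D w + 1 ≤ max (D y) (ρ y - r) ∧ ρ w + 1 ≤ r + max (D y) (ρ y - r) ∧
      ∀ z, R y z → D z ≤ max (D y) (ρ y - r) → ρ z ≤ r + max (D y) (ρ y - r) → R w z) →
      ∃ w, R w y ∧ max (D w) (ρ w - r) + 1 = max (D y) (ρ y - r) ∧
        ∀ z, R y z → max (D z) (ρ z - r) ≤ max (D y) (ρ y - r) → R w z := by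
    rintro ⟨w, h1, h2, h3, h4⟩
    refine ⟨w, h1, ?_, ?_⟩
    · have := hlip w y h1
      omega
    · intro z hz hzm
      exact h4 z hz (by omega) (by omega)
  apply red
  obtain ⟨m, hm⟩ : ∃ m, m = max (D y) (ρ y - r) := ⟨_, rfl⟩
  rw [← hm] at hy ⊢
  rcases (by omega : (D y = m ∧ ρ y = r + m) ∨ (D y = m ∧ ρ y + 1 ≤ r + m) ∨
      (D y + 1 ≤ m ∧ ρ y = r + m)) with ⟨h1, h2⟩ | ⟨h1, h2⟩ | ⟨h1, h2⟩
  · -- case (a)
    obtain ⟨w₀, h3, h4, h5⟩ := hρ.dm y (by omega)
    obtain ⟨y', h6, h7, h8⟩ := q2 hs hD hρ h0 y (by omega) (by omega) (by omega)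
    have h9 := h5 y' h6 (by omega)
    have h10 := hD.lip _ _ (hs _ _ h9)
    by_cases h11 : D w₀ + 1 ≤ m
    · exact ⟨w₀, h3, h11, by omega, fun z hz _ hz2 => h5 z hz (by omega)⟩
    · obtain ⟨v, h12, h13, h14⟩ := hD.dm w₀ (by omega)
      have h15 := h14 y h3 (by omega)
      by_cases h16 : ρ w₀ = 0
      · have h17 := h0 _ h16
        subst h17
        omega
      · obtain ⟨u, h17, h18, h19⟩ := qp hs hD hρ h0 (ρ w₀ - 1) w₀ (by omega) (by omega)
        have h20 := h14 u h17 h19
        have h21 := hρ.lip _ _ (hs _ _ h20)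
        exact ⟨v, h15, by omega, by omega,
          fun z hz hz1 hz2 => h14 z (h5 z hz (by omega)) (by omega)⟩
  · -- case (b)
    obtain ⟨w, h3, h4, h5⟩ := hD.dm y (by omega)
    by_cases h6 : ρ y + 2 ≤ r + m
    · have h7 := hρ.lip _ _ (hs _ _ h3)
      exact ⟨w, h3, by omega, by omega, fun z hz hz1 _ => h5 z hz (by omega)⟩
    · by_cases h7 : ρ y = 0
      · have h8 := h0 _ h7
        subst h8
        omega
      · obtain ⟨u, h8, h9, h10⟩ := qp hs hD hρ h0 (ρ y - 1) y (by omega) (by omega)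
        have h11 := h5 u h8 h10
        have h12 := hρ.lip _ _ (hs _ _ h11)
        exact ⟨w, h3, by omega, by omega, fun z hz hz1 _ => h5 z hz (by omega)⟩
  · -- case (c)
    obtain ⟨w₀, h3, h4, h5⟩ := hρ.dm y (by omega)
    have h6 := hD.lip _ _ (hs _ _ h3)
    by_cases h7 : D w₀ + 1 ≤ m
    · exact ⟨w₀, h3, h7, by omega, fun z hz _ hz2 => h5 z hz (by omega)⟩
    · by_cases h8 : D y = 0
      · obtain ⟨v, h9, h10, h11⟩ := hD.dm w₀ (by omega)
        have h12 := h11 y h3 (by omega)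
        by_cases h13 : ρ w₀ = 0
        · have h14 := h0 _ h13
          subst h14
          omega
        · obtain ⟨u, h14, h15, h16⟩ := qp hs hD hρ h0 (ρ w₀ - 1) w₀ (by omega) (by omega)
          have h17 := h11 u h14 h16
          have h18 := hρ.lip _ _ (hs _ _ h17)
          exact ⟨v, h12, by omega, by omega,
            fun z hz hz1 hz2 => h11 z (h5 z hz (by omega)) (by omega)⟩
      · obtain ⟨y', h9, h10, h11⟩ := qq hs hD hρ h0 y (by omega) (by omega)
        have h12 := h5 y' h9 (by omega)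
        have h13 := hD.lip _ _ (hs _ _ h12)
        exact ⟨w₀, h3, by omega, by omega, fun z hz _ hz2 => h5 z hz (by omega)⟩

end

theorem helly {V : Type} (R : V → V → Prop) (hr : ∀ x, R x x) (hs : ∀ x y, R x y → R y x)
    (hc : Cn R) (hd : Dom R) {n : ℕ} (c : Fin (n + 1) → V) (r : Fin (n + 1) → ℕ)
    (h : ∀ i j, ds R (c i) (c j) ≤ r i + r j) : ∃ x, ∀ i, ds R x (c i) ≤ r i := by
  have hρ : ∀ o, Gd R (ds R o) := by
    intro o
    constructor
    · intro x y hxy
      have h1 := ds_tri hc o x y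
      have h2 : ds R x y ≤ 1 := ds_le_one_of hxy
      omega
    · intro y hy
      exact hd o y (fun he => hy (by rw [he]; exact ds_self o))
  -- the distance functions of the intersections
  have key : ∀ k, k ≤ n + 1 → ∃ D : V → ℕ, Gd R D ∧
      (∀ y, ∀ i : Fin (n + 1), i.1 < k → ds R (c i) y ≤ r i + D y) ∧
      (∀ j, D (c j) ≤ r j) := by
    intro k
    induction k with
    | zero =>
      intro _
      exact ⟨fun _ => 0, ⟨fun _ _ _ => by omega, fun y hy => absurd rfl hy⟩,
        fun y i hi => absurd hi (Nat.not_lt_zero _), fun j => Nat.zero_le _⟩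
    | succ k ih =>
      intro hk
      obtain ⟨D, hD, h1, h2⟩ := ih (by omega)
      have h3 := gd_max hs hD (hρ (c ⟨k, by omega⟩)) (o := c ⟨k, by omega⟩)
        (fun x hx => ((ds_eq_zero hc).1 hx).symm) (r ⟨k, by omega⟩) (h2 _)
      refine ⟨_, h3, ?_, ?_⟩
      · intro y i hi
        change _ ≤ r i + max (D y) (ds R (c ⟨k, by omega⟩) y - r ⟨k, by omega⟩)
        rcases Nat.lt_or_ge i.1 k with hik | hik
        · have := h1 y i hik
          omega
        · have hi2 : i = ⟨k, by omega⟩ := Fin.ext (by simp only; omega)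
          rw [← hi2]
          omega
      · intro j
        change max (D (c j)) (ds R (c ⟨k, by omega⟩) (c j) - r ⟨k, by omega⟩) ≤ r j
        have := h2 j
        have := h ⟨k, by omega⟩ j
        omega
  obtain ⟨D, hD, h1, -⟩ := key (n + 1) le_rfl
  have hz : ∀ m y, D y = m → ∃ x, D x = 0 := by
    intro m
    induction m with
    | zero => exact fun y hy => ⟨y, hy⟩
    | succ m ih =>
      intro y hy
      obtain ⟨w, -, hw, -⟩ := hD.dm y (by omega)
      exact ih w (by omega)
  obtain ⟨x, hx⟩ := hz _ (c 0) rfl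
  refine ⟨x, fun i => ?_⟩
  have := h1 x i i.2
  rw [ds_comm hs hc]
  omega

end Pool.Agent.H71.Clq
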