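import Mathlib
import Pool.Agent.H71.Clq.HellyD
import Pool.Agent.H71.Clq.UFun

set_option autoImplicit false

/-!
# Module XLINES: tight lines in a graph whose balls have the Helly property

Fix `i k ε` and let `L` be the number of orbits. Take `K ≥ L + |i| + |k| + 1` (large) and `C1, …, C4` from `hC`. For `0 ≤ t ≤ L + 1`
let `r1 = i + t - u C1`, `r2 = u C2 - i - t`, `r3 = k + ε t - v C3`, `r4 = v C4 - k - ε t`, all `≥ 0`. The balls `B_j(t)` of radius
`r_j` around `C_j` intersect pairwise in the sense `ds ≤ r + r'`. Points `x` in all four balls satisfy `u x = i + t`, `v x = k + ε t`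
(`ef_ds`). By `helly` there is `x₀` in the four balls for `t = 0`, and for `x_t` in the four balls for `t` there is
`x_{t+1}` in the four balls for `t + 1` and in the ball of radius one around `x_t` (`ds x_t C_j ≤ r_j(t) ≤ r_j(t+1) + 1`), so
`R x_t x_{t+1}`. Two of `x₀, …, x_L` are in the same orbit: `x_{t'} = c x_t`, `t < t'`. Then `exists_pw` for the walk
`x_t, …, x_{t'}` (`N = t' - t`), and shift the index by `t`: first use translates in the index: the periodic walk `g` with `g j = x_{t+j}` for `0 ≤ j ≤ N`;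
`u (g j) = i + t + j` for `0 ≤ j ≤ N`, so `p c = N`, `q c = ε N`, and the formulas hold for all `j`. Finally use `f j = g (j - t)`.
-/

namespace Pool.Agent.H71.Clq

private theorem xl_orb_eq {A : Type} [Group A] {Γ : AG A} {x y : Γ.V}
    (h : (Quot.mk _ x : Orb Γ) = Quot.mk _ y) : ∃ a : A, y = Γ.act a x := by
  have h1 := Quot.eqvGen_exact h
  clear h
  induction h1 with
  | rel x y h => exact h
  | refl x => exact ⟨1, (Γ.act_one x).symm⟩
  | symm x y _ ih =>
      obtain ⟨a, ha⟩ := ih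
      refine ⟨a⁻¹, ?_⟩
      rw [ha, ← Γ.act_mul, inv_mul_cancel, Γ.act_one]
  | trans x y z h1 h2 ih1 ih2 =>
      obtain ⟨a, ha⟩ := ih1
      obtain ⟨b, hb⟩ := ih2
      refine ⟨b * a, ?_⟩
      rw [hb, ha, ← Γ.act_mul]

/-- Helly for balls with integer radii -/
private theorem xl_helly {V : Type} (R : V → V → Prop) (hr : ∀ x, R x x)
    (hs : ∀ x y, R x y → R y x) (hc : Cn R) (hd : Dom R) {n : ℕ} (c : Fin (n + 1) → V)
    (r : Fin (n + 1) → ℤ) (h0 : ∀ i, 0 ≤ r i)
    (h : ∀ i j, i < j → (ds R (c i) (c j) : ℤ) ≤ r i + r j) :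
    ∃ x, ∀ i, (ds R x (c i) : ℤ) ≤ r i := by
  obtain ⟨x, hx⟩ := helly R hr hs hc hd c (fun i => (r i).toNat) (fun i j => by
    have e : ∀ i, (((r i).toNat : ℕ) : ℤ) = r i := fun i => Int.toNat_of_nonneg (h0 i)
    zify
    rw [e, e]
    rcases lt_trichotomy i j with hij | hij | hij
    · exact h i j hij
    · subst hij
      rw [ds_self]
      have := h0 i
      push_cast
      omega
    · rw [ds_comm hs hc]
      have := h j i hij
      omega)
  refine ⟨x, fun i => ?_⟩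
  have h1 := hx i
  have e : (((r i).toNat : ℕ) : ℤ) = r i := Int.toNat_of_nonneg (h0 i)
  have h2 : (ds R x (c i) : ℤ) ≤ ((r i).toNat : ℤ) := by exact_mod_cast h1
  rwa [e] at h2

/-- extension of a formula along a periodic walk -/
private theorem xl_ext {V : Type} (g : ℤ → V) (U : V → ℤ) (N : ℕ) (hN : 1 ≤ N) (a ε P : ℤ)
    (hper : ∀ j : ℤ, U (g (j + N)) = U (g j) + P)
    (h : ∀ j : ℕ, j ≤ N → U (g j) = a + ε * j) : ∀ j : ℤ, U (g j) = a + ε * j := by
  have hP : P = ε * N := by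
    have h1 := hper 0
    have h2 := h 0 (Nat.zero_le _)
    have h3 := h N le_rfl
    rw [zero_add] at h1
    simp only [Nat.cast_zero] at h2
    rw [h3, h2] at h1
    linarith
  have key : ∀ m : ℤ, ∀ j : ℕ, j ≤ N → U (g (j + m * N)) = a + ε * (j + m * N) := by
    intro m
    induction m using Int.induction_on with
    | zero =>
      intro j hj
      rw [zero_mul, add_zero]
      exact h j hj
    | succ m ih =>
      intro j hj
      have h1 := hper ((j : ℤ) + m * N)
      rw [ih j hj, hP] at h1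
      have e : (j : ℤ) + ((m : ℤ) + 1) * N = j + m * N + N := by ring
      rw [e, h1]
      ring
    | pred m ih =>
      intro j hj
      have h1 := hper ((j : ℤ) + (-(m : ℤ) - 1) * N)
      have e : (j : ℤ) + (-(m : ℤ) - 1) * N + N = j + -(m : ℤ) * N := by ring
      rw [e, ih j hj, hP] at h1
      linarith
  intro j
  have hN' : (0 : ℤ) < N := by exact_mod_cast hN
  have h1 := Int.emod_nonneg j hN'.ne'
  have h2 := Int.emod_lt_of_pos j hN'
  have h3 := key (j / N) (j % N).toNat (by omega)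
  have e : (((j % N).toNat : ℕ) : ℤ) = j % N := Int.toNat_of_nonneg h1
  have e2 : j % N + j / N * N = j := by
    rw [mul_comm]
    exact Int.emod_add_mul_ediv j N
  rw [e, e2] at h3
  exact h3

theorem x_lines {A : Type} [CommGroup A] (X : AG A) (hc : Cn X.R) (hd : Dom X.R)
    (horb : Finite (Orb X)) {p q : A → ℤ} (u : EF X p) (v : EF X q)
    (hC : ∀ K : ℕ, ∃ C1 C2 C3 C4 : X.V,
      (ds X.R C1 C2 : ℤ) ≤ u.U C2 - u.U C1 ∧ (ds X.R C3 C4 : ℤ) ≤ v.U C4 - v.U C3 ∧
      (ds X.R C1 C3 : ℤ) + K ≤ -u.U C1 - v.U C3 ∧ (ds X.R C1 C4 : ℤ) + K ≤ -u.U C1 + v.U C4 ∧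
      (ds X.R C2 C3 : ℤ) + K ≤ u.U C2 - v.U C3 ∧ (ds X.R C2 C4 : ℤ) + K ≤ u.U C2 + v.U C4 ∧
      (K : ℤ) ≤ -u.U C1 ∧ (K : ℤ) ≤ u.U C2 ∧ (K : ℤ) ≤ -v.U C3 ∧ (K : ℤ) ≤ v.U C4)
    (i k ε : ℤ) (hε : ε = 1 ∨ ε = -1) : ∃ (c : A) (N : ℕ), TLine X u v ε i k c N := by
  classical
  have _ : Fintype (Orb X) := Fintype.ofFinite _
  set L : ℕ := Fintype.card (Orb X) with hL
  obtain ⟨C1, C2, C3, C4, h12, h34, h13, h14, h23, h24, k1, k2, k3, k4⟩ :=
    hC (2 * (L + 2) + i.natAbs + k.natAbs)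
  have ei : ((i.natAbs : ℕ) : ℤ) = |i| := Int.natCast_natAbs i
  have ek : ((k.natAbs : ℕ) : ℤ) = |k| := Int.natCast_natAbs k
  push_cast [ei, ek] at h13 h14 h23 h24 k1 k2 k3 k4
  have hi1 := le_abs_self i
  have hi2 := neg_abs_le i
  have hk1 := le_abs_self k
  have hk2 := neg_abs_le k
  set r1 : ℕ → ℤ := fun t => i + t - u.U C1 with hr1
  set r2 : ℕ → ℤ := fun t => u.U C2 - i - t with hr2
  set r3 : ℕ → ℤ := fun t => k + ε * t - v.U C3 with hr3
  set r4 : ℕ → ℤ := fun t => v.U C4 - k - ε * t with hr4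
  set Gd : ℕ → X.V → Prop := fun t x => (ds X.R x C1 : ℤ) ≤ r1 t ∧ (ds X.R x C2 : ℤ) ≤ r2 t ∧
    (ds X.R x C3 : ℤ) ≤ r3 t ∧ (ds X.R x C4 : ℤ) ≤ r4 t with hGd
  have hGu : ∀ t x, Gd t x → u.U x = i + t ∧ v.U x = k + ε * t := by
    rintro t x ⟨g1, g2, g3, g4⟩
    have e1 := ef_ds X hc u C1 x
    have e2 := ef_ds X hc u x C2
    have e3 := ef_ds X hc v C3 x
    have e4 := ef_ds X hc v x C4
    rw [ds_comm X.symm hc] at e1 e3
    simp only [hr1, hr2, hr3, hr4] at g1 g2 g3 g4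
    constructor
    · omega
    · generalize ε * (t : ℤ) = w at *
      omega
  -- first point
  have hfirst : ∃ x, Gd 0 x := by
    obtain ⟨x, hx⟩ := xl_helly X.R X.refl X.symm hc hd (n := 3) ![C1, C2, C3, C4]
      ![r1 0, r2 0, r3 0, r4 0] (by
        intro j
        fin_cases j <;> simp [hr1, hr2, hr3, hr4] <;> omega) (by
        intro a b hab
        fin_cases a <;> fin_cases b <;> simp [hr1, hr2, hr3, hr4] at hab ⊢ <;> omega)
    exact ⟨x, hx 0, hx 1, hx 2, hx 3⟩
  have hstep : ∀ t, t ≤ L → ∀ x, Gd t x → ∃ y, Gd (t + 1) y ∧ X.R x y := by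
    intro t ht x hx
    have htL : (t : ℤ) ≤ L := by exact_mod_cast ht
    obtain ⟨g1, g2, g3, g4⟩ := hx
    have hεt : ε * ((t + 1 : ℕ) : ℤ) = ε * t + ε := by push_cast; ring
    have hεb : |ε * (t : ℤ)| ≤ t := by
      rcases hε with h | h <;> rw [h] <;> simp
    have hεb1 := le_abs_self (ε * (t : ℤ))
    have hεb2 := neg_abs_le (ε * (t : ℤ))
    have hε1 : ε ≤ 1 ∧ -1 ≤ ε := by
      rcases hε with h | h <;> omega
    have hsum : ((t : ℤ) + 1) + (ε * t + ε) ≥ 0 ∧ ((t : ℤ) + 1) - (ε * t + ε) ≥ 0 := by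
      constructor <;> omega
    obtain ⟨y, hy⟩ := xl_helly X.R X.refl X.symm hc hd (n := 4) ![C1, C2, C3, C4, x]
      ![r1 (t + 1), r2 (t + 1), r3 (t + 1), r4 (t + 1), 1] (by
        intro j
        simp only [hr1, hr2, hr3, hr4, hεt] at *
        generalize ε * (t : ℤ) = w at *
        fin_cases j <;> simp <;> omega) (by
        intro a b hab
        rw [ds_comm X.symm hc] at g1 g2 g3 g4
        simp only [hr1, hr2, hr3, hr4, hεt] at *
        generalize ε * (t : ℤ) = w at *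
        fin_cases a <;> fin_cases b <;> simp at hab ⊢ <;> omega)
    refine ⟨y, ⟨hy 0, hy 1, hy 2, hy 3⟩, ?_⟩
    have h5 : (ds X.R y x : ℤ) ≤ 1 := hy 4
    have h6 : ds X.R y x ≤ 1 := by exact_mod_cast h5
    exact X.symm _ _ ((ds_le_one X.refl hc).1 h6)
  -- the sequence
  obtain ⟨x0, hx0⟩ := hfirst
  let nx : ℕ → X.V → X.V := fun t x =>
    if h : t ≤ L ∧ Gd t x then (hstep t h.1 x h.2).choose else x
  let f : ℕ → X.V := fun t => Nat.rec x0 (fun t x => nx t x) t
  have hf0 : f 0 = x0 := rfl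
  have hfs : ∀ t, f (t + 1) = nx t (f t) := fun t => rfl
  have hfG : ∀ t, t ≤ L + 1 → Gd t (f t) := by
    intro t
    induction t with
    | zero =>
      intro _
      exact hx0
    | succ t ih =>
      intro ht
      have ht' : t ≤ L := by omega
      have h1 := ih (by omega)
      rw [hfs]
      simp only [nx]
      rw [dif_pos ⟨ht', h1⟩]
      exact (hstep t ht' (f t) h1).choose_spec.1
  have hfR : ∀ t, t ≤ L → X.R (f t) (f (t + 1)) := by
    intro t ht
    have h1 := hfG t (by omega)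
    rw [hfs]
    simp only [nx]
    rw [dif_pos ⟨ht, h1⟩]
    exact (hstep t ht (f t) h1).choose_spec.2
  -- pigeonhole
  obtain ⟨t, t', hne, hEq⟩ := Fintype.exists_ne_map_eq_of_card_lt (β := Orb X)
    (fun t : Fin (L + 1) => (Quot.mk _ (f t) : Orb X)) (by
      rw [Fintype.card_fin]
      omega)
  obtain ⟨s, s', hss, hs'L, hsEq⟩ : ∃ s s' : ℕ, s < s' ∧ s' ≤ L ∧
      (Quot.mk _ (f s) : Orb X) = Quot.mk _ (f s') := by
    rcases lt_or_gt_of_ne hne with h | h
    · exact ⟨t, t', h, by omega, hEq⟩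
    · exact ⟨t', t, h, by omega, hEq.symm⟩
  obtain ⟨c, hcs⟩ := xl_orb_eq hsEq
  obtain ⟨g, ⟨hN1, hgR, hgper⟩, hgf⟩ := exists_pw X c (s' - s) (by omega) (fun j => f (s + j))
    (fun j hj => hfR _ (by omega)) (by
      simp only [Nat.add_zero]
      rw [Nat.add_sub_cancel' hss.le]
      exact hcs)
  have hu : ∀ j : ℤ, u.U (g j) = (i + s) + 1 * j := by
    apply xl_ext g u.U (s' - s) hN1 (i + s) 1 (p c)
    · intro j
      rw [hgper, u.eqv]
    · intro j hj
      rw [hgf j hj, (hGu _ _ (hfG (s + j) (by omega))).1]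
      push_cast
      ring
  have hv : ∀ j : ℤ, v.U (g j) = (k + ε * s) + ε * j := by
    apply xl_ext g v.U (s' - s) hN1 (k + ε * s) ε (q c)
    · intro j
      rw [hgper, v.eqv]
    · intro j hj
      rw [hgf j hj, (hGu _ _ (hfG (s + j) (by omega))).2]
      push_cast
      ring
  refine ⟨c, s' - s, fun j => g (j - s), ⟨hN1, fun j => ?_, fun j => ?_⟩, fun j => ?_, fun j => ?_⟩
  · have := hgR (j - s)
    have e : j - s + 1 = j + 1 - s := by ring
    rwa [e] at this
  · have := hgper (j - s)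
    have e : j - s + ((s' - s : ℕ) : ℤ) = j + ((s' - s : ℕ) : ℤ) - s := by ring
    rwa [e] at this
  · rw [hu]
    ring
  · rw [hv]
    ring

end Pool.Agent.H71.Clq
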