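import Mathlib
import Pool.Agent.H71.Clq.Join
import Pool.Agent.H71.Clq.XLines
import Pool.Agent.H71.Clq.Fold
import Pool.Agent.H71.Clq.Final

set_option autoImplicit false

/-!
# Auxiliary constructions for the plane case
-/

namespace Pool.Agent.H71.Clq

section general

variable {A : Type} [Group A]

/-- the image of a maximal clique under an isomorphism -/
def EI.img {Γ Δ : AG A} (e : EI Γ Δ) (s : MC Γ.R) : MC Δ.R :=
  ⟨e.e '' s.1, by
    constructor
    · rintro _ ⟨x, hx, rfl⟩ _ ⟨y, hy, rfl⟩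
      exact (e.map_R x y).2 (s.2.1 x hx y hy)
    · intro z hz
      refine ⟨e.e.symm z, ?_, e.e.apply_symm_apply z⟩
      apply s.2.2
      intro x hx
      rw [← e.map_R, e.e.apply_symm_apply]
      exact hz _ ⟨x, hx, rfl⟩⟩

/-- the inverse isomorphism -/
def EI.sym {Γ Δ : AG A} (e : EI Γ Δ) : EI Δ Γ where
  e := e.e.symm
  map_R := by
    intro x y
    rw [← e.map_R, e.e.apply_symm_apply, e.e.apply_symm_apply]
  map_act := by
    intro a x
    apply e.e.injective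
    rw [e.map_act, e.e.apply_symm_apply, e.e.apply_symm_apply]

/-- isomorphic graphs have isomorphic clique graphs -/
def EI.K {Γ Δ : AG A} (e : EI Γ Δ) : EI Γ.K Δ.K where
  e := {
    toFun := e.img
    invFun := e.sym.img
    left_inv := by
      intro s
      apply Subtype.ext
      change e.e.symm '' (e.e '' s.1) = s.1
      rw [Equiv.symm_image_image]
    right_inv := by
      intro s
      apply Subtype.ext
      change e.e '' (e.e.symm '' s.1) = s.1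
      rw [Equiv.image_symm_image] }
  map_R := by
    intro s t
    change KR Δ.R (e.img s) (e.img t) ↔ KR Γ.R s t
    have h1 : e.img s = e.img t ↔ s = t := by
      constructor
      · intro h
        have h2 : e.e '' s.1 = e.e '' t.1 := congrArg Subtype.val h
        exact Subtype.ext (e.e.injective.image_injective h2)
      · rintro rfl
        rfl
    have h2 : ((e.img s).1 ∩ (e.img t).1).Nonempty ↔ (s.1 ∩ t.1).Nonempty := by
      change (e.e '' s.1 ∩ e.e '' t.1).Nonempty ↔ _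
      rw [← Set.image_inter e.e.injective, Set.image_nonempty]
    exact or_congr h1 h2
  map_act := by
    intro a s
    apply Subtype.ext
    change e.e '' (Γ.act a '' s.1) = Δ.act a '' (e.e '' s.1)
    rw [Set.image_image, Set.image_image]
    congr 1
    funext x
    exact e.map_act a x

/-- iterated star maps -/
theorem exists_up (H : AG A) (hn : Nice H) (j : ℕ) : Nonempty (EH H (AG.K^[2 * j] H)) := by
  induction j with
  | zero => exact ⟨EH.id _⟩
  | succ j ih =>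
    obtain ⟨f⟩ := ih
    have h1 : AG.K^[2 * (j + 1)] H = (AG.K^[2 * j] H).K.K := by
      have h2 : 2 * (j + 1) = (2 * j + 1) + 1 := by ring
      rw [h2, Function.iterate_succ_apply', Function.iterate_succ_apply']
    rw [h1]
    obtain ⟨s, -⟩ := exists_star (AG.K^[2 * j] H) (nice_iter H hn _).disp
    exact ⟨s.comp f⟩

/-- an invariant subset -/
def AG.sub (H : AG A) (X : Set H.V) (hX : ∀ a, ∀ x ∈ X, H.act a x ∈ X) : AG A where
  V := X
  R := fun x y => H.R x.1 y.1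
  refl := fun x => H.refl x.1
  symm := fun _ _ h => H.symm _ _ h
  act := fun a x => ⟨H.act a x.1, hX a x.1 x.2⟩
  act_one := fun x => Subtype.ext (H.act_one x.1)
  act_mul := fun a b x => Subtype.ext (H.act_mul a b x.1)
  act_R := fun a _ _ h => H.act_R a _ _ h

/-- restriction of functions -/
def EF.res {H : AG A} {p : A → ℤ} (u : EF H p) (X : Set H.V)
    (hX : ∀ a, ∀ x ∈ X, H.act a x ∈ X) : EF (H.sub X hX) p where
  U := fun x => u.U x.1
  lip := fun _ _ h => u.lip _ _ h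
  eqv := fun a x => u.eqv a x.1

theorem tline_sub {H : AG A} (X : Set H.V) (hX : ∀ a, ∀ x ∈ X, H.act a x ∈ X) {p q : A → ℤ}
    (u : EF H p) (v : EF H q) (ε a b : ℤ) (c : A) (N : ℕ)
    (h : TLine (H.sub X hX) (u.res X hX) (v.res X hX) ε a b c N) : TLine H u v ε a b c N := by
  obtain ⟨f, ⟨h1, h2, h3⟩, h4, h5⟩ := h
  exact ⟨fun j => (f j).1, ⟨h1, h2, fun j => congrArg Subtype.val (h3 j)⟩, h4, h5⟩

theorem orb_sub (H : AG A) (hn : CoF H) (X : Set H.V) (hX : ∀ a, ∀ x ∈ X, H.act a x ∈ X) :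
    Finite (Orb (H.sub X hX)) := by
  classical
  obtain ⟨S, hS, hSx⟩ := hn
  -- choose for every element of `S` whose orbit meets `X` a representative
  have hfin : Finite S := hS.to_subtype
  by_cases hXe : Nonempty X
  · let g : S → Orb (H.sub X hX) := fun y =>
      if h : ∃ a, H.act a y.1 ∈ X then Quot.mk _ ⟨H.act h.choose y.1, h.choose_spec⟩
      else Quot.mk _ hXe.some
    apply Finite.of_surjective g
    intro o
    obtain ⟨⟨x, hx⟩, rfl⟩ := Quot.exists_rep o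
    obtain ⟨a, y, hy, hxy⟩ := hSx x
    have h : ∃ a, H.act a y ∈ X := ⟨a, by rw [← hxy]; exact hx⟩
    refine ⟨⟨y, hy⟩, ?_⟩
    simp only [g, dif_pos h]
    apply Quot.sound
    refine ⟨a * h.choose⁻¹, ?_⟩
    apply Subtype.ext
    change x = H.act (a * h.choose⁻¹) (H.act h.choose y)
    rw [← H.act_mul, inv_mul_cancel_right]
    exact hxy
  · have : IsEmpty (Orb (H.sub X hX)) := by
      constructor
      intro o
      obtain ⟨x, -⟩ := Quot.exists_rep o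
      exact hXe ⟨x⟩
    infer_instance

end general

/-- the homomorphism given by a vector -/
def pf (p : ℤ × ℤ) (a : Multiplicative (ℤ × ℤ)) : ℤ := dt p a.toAdd

theorem pf_mul (p : ℤ × ℤ) (a b : Multiplicative (ℤ × ℤ)) : pf p (a * b) = pf p a + pf p b := by
  simp only [pf, dt, toAdd_mul, Prod.fst_add, Prod.snd_add]
  ring

theorem pf_smul (p h : ℤ × ℤ) (k : ℤ) : pf p (Multiplicative.ofAdd (k • h)) = k * dt p h := by
  simp only [pf, dt, toAdd_ofAdd, Prod.smul_fst, Prod.smul_snd, smul_eq_mul]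
  ring

theorem hC_of_slack (Γ X : AG (Multiplicative (ℤ × ℤ))) (hc : Cn Γ.R) (f : EH Γ X)
    (p q : ℤ × ℤ) (u : EF X (pf p)) (v : EF X (pf q)) (z z' : Γ.V) (h g : ℤ × ℤ)
    (hp : 1 ≤ dt p h) (hq : 1 ≤ dt q g)
    (hsl : ∀ K : ℕ, ∃ k : ℕ, K ≤ k ∧
      (ds Γ.R (Γ.act (Multiplicative.ofAdd (-(k : ℤ) • h)) z)
        (Γ.act (Multiplicative.ofAdd ((k : ℤ) • h)) z) : ℤ) ≤ 2 * k * dt p h ∧
      (ds Γ.R (Γ.act (Multiplicative.ofAdd (-(k : ℤ) • g)) z')
        (Γ.act (Multiplicative.ofAdd ((k : ℤ) • g)) z') : ℤ) ≤ 2 * k * dt q g ∧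
      ∀ s t : ℤ, (s = 1 ∨ s = -1) → (t = 1 ∨ t = -1) →
        (ds Γ.R (Γ.act (Multiplicative.ofAdd ((s * k) • h)) z)
          (Γ.act (Multiplicative.ofAdd ((t * k) • g)) z') : ℤ) + K ≤ k * (dt p h + dt q g)) :
    ∀ K : ℕ, ∃ C1 C2 C3 C4 : X.V,
      (ds X.R C1 C2 : ℤ) ≤ u.U C2 - u.U C1 ∧ (ds X.R C3 C4 : ℤ) ≤ v.U C4 - v.U C3 ∧
      (ds X.R C1 C3 : ℤ) + K ≤ -u.U C1 - v.U C3 ∧ (ds X.R C1 C4 : ℤ) + K ≤ -u.U C1 + v.U C4 ∧
      (ds X.R C2 C3 : ℤ) + K ≤ u.U C2 - v.U C3 ∧ (ds X.R C2 C4 : ℤ) + K ≤ u.U C2 + v.U C4 ∧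
      (K : ℤ) ≤ -u.U C1 ∧ (K : ℤ) ≤ u.U C2 ∧ (K : ℤ) ≤ -v.U C3 ∧ (K : ℤ) ≤ v.U C4 := by
  intro K
  obtain ⟨k, hk, h1, h2, h3⟩ := hsl (K + (u.U (f.f z)).natAbs + (v.U (f.f z')).natAbs)
  have ha1 : |u.U (f.f z)| = ((u.U (f.f z)).natAbs : ℤ) := (Int.natCast_natAbs _).symm
  have ha2 : |v.U (f.f z')| = ((v.U (f.f z')).natAbs : ℤ) := (Int.natCast_natAbs _).symm
  have hb1 := le_abs_self (u.U (f.f z))
  have hb2 := neg_abs_le (u.U (f.f z))
  have hb3 := le_abs_self (v.U (f.f z'))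
  have hb4 := neg_abs_le (v.U (f.f z'))
  rw [ha1] at hb1 hb2
  rw [ha2] at hb3 hb4
  have hkZ : (K : ℤ) + (u.U (f.f z)).natAbs + (v.U (f.f z')).natAbs ≤ k := by exact_mod_cast hk
  have hk0 : (0 : ℤ) ≤ k := Int.natCast_nonneg k
  have hkp : (k : ℤ) ≤ k * dt p h := by nlinarith
  have hkq : (k : ℤ) ≤ k * dt q g := by nlinarith
  have hU : ∀ s : ℤ, u.U (f.f (Γ.act (Multiplicative.ofAdd ((s * k) • h)) z)) =
      u.U (f.f z) + s * k * dt p h := by
    intro s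
    rw [f.map_act, u.eqv, pf_smul]
  have hV : ∀ s : ℤ, v.U (f.f (Γ.act (Multiplicative.ofAdd ((s * k) • g)) z')) =
      v.U (f.f z') + s * k * dt q g := by
    intro s
    rw [f.map_act, v.eqv, pf_smul]
  have hds : ∀ x y, (ds X.R (f.f x) (f.f y) : ℤ) ≤ ds Γ.R x y := fun x y => by
    exact_mod_cast ds_map hc f.f f.map_R x y
  have e1 : ∀ w : ℤ × ℤ, (-(k : ℤ)) • w = ((-1 : ℤ) * k) • w := fun w => by rw [neg_one_mul]
  have e2 : ∀ w : ℤ × ℤ, ((k : ℤ)) • w = ((1 : ℤ) * k) • w := fun w => by rw [one_mul]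
  rw [e1, e2] at h1 h2
  refine ⟨f.f (Γ.act (Multiplicative.ofAdd (((-1 : ℤ) * k) • h)) z),
    f.f (Γ.act (Multiplicative.ofAdd (((1 : ℤ) * k) • h)) z),
    f.f (Γ.act (Multiplicative.ofAdd (((-1 : ℤ) * k) • g)) z'),
    f.f (Γ.act (Multiplicative.ofAdd (((1 : ℤ) * k) • g)) z'), ?_⟩
  rw [hU, hU, hV, hV]
  have d1 := hds (Γ.act (Multiplicative.ofAdd (((-1 : ℤ) * k) • h)) z)
    (Γ.act (Multiplicative.ofAdd (((1 : ℤ) * k) • h)) z)
  have d2 := hds (Γ.act (Multiplicative.ofAdd (((-1 : ℤ) * k) • g)) z')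
    (Γ.act (Multiplicative.ofAdd (((1 : ℤ) * k) • g)) z')
  have d3 := hds (Γ.act (Multiplicative.ofAdd (((-1 : ℤ) * k) • h)) z)
    (Γ.act (Multiplicative.ofAdd (((-1 : ℤ) * k) • g)) z')
  have d4 := hds (Γ.act (Multiplicative.ofAdd (((-1 : ℤ) * k) • h)) z)
    (Γ.act (Multiplicative.ofAdd (((1 : ℤ) * k) • g)) z')
  have d5 := hds (Γ.act (Multiplicative.ofAdd (((1 : ℤ) * k) • h)) z)
    (Γ.act (Multiplicative.ofAdd (((-1 : ℤ) * k) • g)) z')
  have d6 := hds (Γ.act (Multiplicative.ofAdd (((1 : ℤ) * k) • h)) z)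
    (Γ.act (Multiplicative.ofAdd (((1 : ℤ) * k) • g)) z')
  have t1 := h3 (-1) (-1) (Or.inr rfl) (Or.inr rfl)
  have t2 := h3 (-1) 1 (Or.inr rfl) (Or.inl rfl)
  have t3 := h3 1 (-1) (Or.inl rfl) (Or.inr rfl)
  have t4 := h3 1 1 (Or.inl rfl) (Or.inl rfl)
  push_cast at t1 t2 t3 t4
  rw [mul_add, ha1, ha2] at t1 t2 t3 t4
  have e3 : (2 : ℤ) * k * dt p h = 2 * (k * dt p h) := by ring
  have e4 : (2 : ℤ) * k * dt q g = 2 * (k * dt q g) := by ring
  have e5 : (-1 : ℤ) * k * dt p h = - (k * dt p h) := by ring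
  have e6 : (-1 : ℤ) * k * dt q g = - (k * dt q g) := by ring
  have e7 : (1 : ℤ) * k * dt p h = k * dt p h := by ring
  have e8 : (1 : ℤ) * k * dt q g = k * dt q g := by ring
  rw [e3] at h1
  rw [e4] at h2
  rw [e5, e6, e7, e8]
  clear hU hV hds e1 e2 e3 e4 e5 e6 e7 e8 h3 hsl ha1 ha2 hk hp hq
  refine ⟨?_, ?_, ?_, ?_, ?_, ?_, ?_, ?_, ?_, ?_⟩ <;> linarith

end Pool.Agent.H71.Clq
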