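import Mathlib
import Pool.Agent.H71.Clq.Pres

set_option autoImplicit false

/-!
# Module PW: the action of the subgroup of `N`-th powers

`AG.pow Γ N`: `a` acts by `a ^ N`.
* `nice_pow`: `Disp`: `a ^ N ≠ 1` for `a ≠ 1` (`ℤ × ℤ` is torsion free). `CoF`: `S' = {b y | y ∈ S, b in the finite box [0,N)²}`: every
  `a` is `b + N a'`. The other properties do not depend on the action.
* `iter_pow`: `(Γ.pow N).K = Γ.K.pow N` should hold by `rfl`.
* `orb_pow`: the map `Orb (Γ.pow N) → Orb Γ` has fibres with at most `N²` elements: the orbit of `x` under `A` is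
  the union of the orbits of `b x`, `b` in the box. (E.g. a surjection from `Orb Γ × Fin N × Fin N`, using representatives.)
-/

namespace Pool.Agent.H71.Clq

/-- the action of `N`-th powers -/
def AG.pow {A : Type} [CommGroup A] (Γ : AG A) (N : ℕ) : AG A where
  V := Γ.V
  R := Γ.R
  refl := Γ.refl
  symm := Γ.symm
  act := fun a x => Γ.act (a ^ N) x
  act_one := by intro x; rw [one_pow]; exact Γ.act_one x
  act_mul := by intro a b x; rw [mul_pow]; exact Γ.act_mul _ _ x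
  act_R := fun a x y h => Γ.act_R _ x y h

private theorem decomp (N : ℕ) (hN : 1 ≤ N) (a : Multiplicative (ℤ × ℤ)) :
    ∃ (i j : Fin N) (a' : Multiplicative (ℤ × ℤ)),
      a = a' ^ N * Multiplicative.ofAdd (((i : ℕ) : ℤ), ((j : ℕ) : ℤ)) := by
  have hN' : (0 : ℤ) < N := by exact_mod_cast hN
  have key : ∀ z : ℤ, ∃ (i : Fin N) (q : ℤ), z = N * q + ((i : ℕ) : ℤ) := by
    intro z
    have h1 := Int.emod_nonneg z hN'.ne'
    have h2 := Int.emod_lt_of_pos z hN'
    refine ⟨⟨(z % N).toNat, by omega⟩, z / N, ?_⟩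
    simp only
    rw [Int.toNat_of_nonneg h1]
    exact (Int.mul_ediv_add_emod z N).symm
  obtain ⟨i, q, hi⟩ := key a.toAdd.1
  obtain ⟨j, q', hj⟩ := key a.toAdd.2
  refine ⟨i, j, Multiplicative.ofAdd (q, q'), ?_⟩
  apply Multiplicative.toAdd.injective
  rw [toAdd_mul, toAdd_pow, toAdd_ofAdd, toAdd_ofAdd]
  apply Prod.ext
  · simp only [Prod.fst_add, nsmul_eq_mul]
    exact hi
  · simp only [Prod.snd_add, nsmul_eq_mul]
    exact hj

theorem nice_pow (Γ : AG (Multiplicative (ℤ × ℤ))) (hn : Nice Γ) (N : ℕ) (hN : 1 ≤ N) :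
    Nice (Γ.pow N) := by
  refine ⟨hn.ne, ?_, hn.lf, ?_, hn.cn, hn.sc⟩
  · intro a ha x y z h1 h2 h3
    refine hn.disp (a ^ N) ?_ x y z h1 h2 h3
    intro h
    apply ha
    have h4 : N • a.toAdd = 0 := by
      rw [← toAdd_pow, h]
      rfl
    have hN' : N ≠ 0 := by omega
    have h5 : a.toAdd = 0 := by
      rcases smul_eq_zero.1 h4 with h5 | h5
      · exact absurd h5 hN'
      · exact h5
    apply Multiplicative.toAdd.injective
    rw [h5]
    rfl
  · obtain ⟨S, hS, hcov⟩ := hn.cof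
    refine ⟨⋃ i : Fin N, ⋃ j : Fin N,
      Γ.act (Multiplicative.ofAdd (((i : ℕ) : ℤ), ((j : ℕ) : ℤ))) '' S, ?_, ?_⟩
    · exact Set.finite_iUnion fun i => Set.finite_iUnion fun j => hS.image _
    · intro x
      obtain ⟨a, y, hy, rfl⟩ := hcov x
      obtain ⟨i, j, a', rfl⟩ := decomp N hN a
      refine ⟨a', _, Set.mem_iUnion.2 ⟨i, Set.mem_iUnion.2 ⟨j, ⟨y, hy, rfl⟩⟩⟩, ?_⟩
      exact Γ.act_mul _ _ _

theorem iter_pow {A : Type} [CommGroup A] (Γ : AG A) (N m : ℕ) :
    AG.K^[m] (Γ.pow N) = (AG.K^[m] Γ).pow N := by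
  induction m with
  | zero => rfl
  | succ m ih =>
    rw [Function.iterate_succ_apply', Function.iterate_succ_apply', ih]
    rfl

theorem orb_pow (Γ : AG (Multiplicative (ℤ × ℤ))) (N B : ℕ) (hN : 1 ≤ N)
    (h : Finite (Orb Γ) ∧ Nat.card (Orb Γ) ≤ B) :
    Finite (Orb (Γ.pow N)) ∧ Nat.card (Orb (Γ.pow N)) ≤ N ^ 2 * B := by
  obtain ⟨hfin, hB⟩ := h
  let g : Orb Γ × Fin N × Fin N → Orb (Γ.pow N) := fun t =>
    Quot.mk _ (Γ.act (Multiplicative.ofAdd (((t.2.1 : ℕ) : ℤ), ((t.2.2 : ℕ) : ℤ)))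
      (Quot.out t.1))
  have hg : Function.Surjective g := by
    intro o
    induction o using Quot.ind with
    | mk x =>
    have h1 : ∃ a, x = Γ.act a (Quot.out (Quot.mk (fun x y : Γ.V => ∃ a, y = Γ.act a x) x)) := by
      have h2 := Quot.out_eq (Quot.mk (fun x y : Γ.V => ∃ a, y = Γ.act a x) x)
      have h3 := Quot.eqvGen_exact h2
      revert h3
      generalize Quot.out (Quot.mk (fun x y : Γ.V => ∃ a, y = Γ.act a x) x) = y
      intro h3
      clear h2
      induction h3 with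
      | rel x y h => exact h
      | refl x => exact ⟨1, (Γ.act_one x).symm⟩
      | symm x y _ ih =>
        obtain ⟨a, rfl⟩ := ih
        exact ⟨a⁻¹, by rw [← Γ.act_mul, inv_mul_cancel, Γ.act_one]⟩
      | trans x y z _ _ ih1 ih2 =>
        obtain ⟨a, rfl⟩ := ih1
        obtain ⟨b, rfl⟩ := ih2
        exact ⟨b * a, by rw [Γ.act_mul]⟩
    obtain ⟨a, ha⟩ := h1
    obtain ⟨i, j, a', rfl⟩ := decomp N hN a
    refine ⟨(Quot.mk _ x, i, j), ?_⟩
    apply Quot.sound
    refine ⟨a', ?_⟩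
    rw [Γ.act_mul] at ha
    exact ha
  have hf : Finite (Orb Γ × Fin N × Fin N) := inferInstance
  refine ⟨Finite.of_surjective g hg, ?_⟩
  refine (Nat.card_le_card_of_surjective g hg).trans ?_
  rw [Nat.card_prod, Nat.card_prod, Nat.card_fin]
  calc Nat.card (Orb Γ) * (N * N) ≤ B * (N * N) := Nat.mul_le_mul_right _ hB
    _ = N ^ 2 * B := by ring

end Pool.Agent.H71.Clq
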