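import Mathlib
import Pool.Agent.H71.Clq.M0a
import Pool.Agent.H71.Clq.Len
import Pool.Agent.H71.Clq.Pw

set_option autoImplicit false

/-!
# The plane with a group of translations: the numbers of orbits are unbounded
-/

namespace Pool.Agent.H71.Clq

/-- bounded numbers of orbits give an isomorphism in even degrees -/
theorem even_pigeon {A : Type} [CommGroup A] (Γ : AG A) (hn : Nice Γ) (N : ℕ)
    (hN : ∀ m, Finite (Orb (AG.K^[m] Γ)) ∧ Nat.card (Orb (AG.K^[m] Γ)) ≤ N) :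
    ∃ j q : ℕ, 1 ≤ q ∧ Nonempty (EI (AG.K^[2 * j] Γ) (AG.K^[2 * q] (AG.K^[2 * j] Γ))) := by
  obtain ⟨m, q, hq, ⟨e⟩⟩ := pigeon Γ hn N hN
  rcases Nat.even_or_odd' m with ⟨j, hj | hj⟩
  · refine ⟨j, q, hq, ?_⟩
    subst hj
    rw [← Function.iterate_add_apply, Nat.add_comm]
    exact ⟨e⟩
  · refine ⟨j + 1, q, hq, ?_⟩
    have h1 : (m + 1) = 2 * (j + 1) := by omega
    have h2 : (m + 2 * q + 1) = 2 * q + 2 * (j + 1) := by omega
    rw [← Function.iterate_add_apply, ← h2, ← h1, Function.iterate_succ_apply',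
      Function.iterate_succ_apply']
    exact ⟨e.K⟩

/-- the clique-Helly retract as a graph with an action -/
theorem exists_retract_dom {A : Type} [CommGroup A] (H : AG A) (hn : Nice H) (q : ℕ)
    (hq : 1 ≤ q) (e : EI H (AG.K^[2 * q] H)) :
    ∃ (X : Set H.V) (hX : ∀ a, ∀ x ∈ X, H.act a x ∈ X), Cn (H.sub X hX).R ∧
      Dom (H.sub X hX).R ∧ Finite (Orb (H.sub X hX)) ∧ Nonempty (EH H (H.sub X hX)) := by
  obtain ⟨u0⟩ := exists_u H hn q hq
  obtain ⟨s, hs⟩ := exists_star H hn.disp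
  obtain ⟨X, hX⟩ := exists_good H hn s hs (EH.cmp e.inv u0)
  have het := et_good H s hs X hX
  obtain ⟨hne, hinv, ρ, hρ1, hρ2⟩ := id hX
  have hcn : Cn (fun x y : X => H.R x.1 y.1) :=
    cn_retract hn.cn X (fun v => ρ.f (s.f v)) (fun v => hρ1 _) hρ2
      (fun x y h => ρ.map_R _ _ (s.map_R _ _ h))
  have hsc : SC (fun x y : X => H.R x.1 y.1) :=
    sc_retract hn.sc X (fun v => ρ.f (s.f v)) (fun v => hρ1 _) hρ2
      (fun x y h => ρ.map_R _ _ (s.map_R _ _ h))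
  have hlf : ∀ x : X, {y : X | H.R x.1 y.1}.Finite := by
    intro x
    exact (hn.lf x.1).preimage (Subtype.val_injective.injOn)
  refine ⟨X, hinv, hcn, ?_, orb_sub H hn.cof X hinv, ⟨⟨fun v => ⟨ρ.f (s.f v), hρ1 _⟩, ?_, ?_⟩⟩⟩
  · exact dom_of_levels (fun x y : X => H.R x.1 y.1) (fun x => H.refl x.1)
      (fun x y h => H.symm _ _ h) hcn hlf het hsc
  · intro x y h
    exact ρ.map_R _ _ (s.map_R _ _ h)
  · intro a x
    apply Subtype.ext
    change ρ.f (s.f (H.act a x)) = H.act a (ρ.f (s.f x))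
    rw [s.map_act, ρ.map_act]

theorem tline_p {A : Type} [Group A] (Γ : AG A) {p q : A → ℤ} (u : EF Γ p) (v : EF Γ q)
    (f : ℤ → Γ.V) (ε a b : ℤ) (c : A) (N : ℕ) (h : PW Γ f c N) (hu : ∀ j, u.U (f j) = a + j)
    (hv : ∀ j, v.U (f j) = b + ε * j) : p c = N ∧ q c = ε * N := by
  have h1 := h.2.2 0
  have h2 := u.eqv c (f 0)
  have h3 := v.eqv c (f 0)
  rw [← h1, hu, hu] at h2
  rw [← h1, hv, hv] at h3
  constructor
  · linarith
  · rw [zero_add, mul_zero] at h3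
    linarith

/-- the core: all data are given on the same graph -/
theorem z2_core (Γ : AG (Multiplicative (ℤ × ℤ))) (hn : Nice Γ) (G : SimpleGraph Γ.V)
    (hG : Γ.R = RG G) (hl : LCy G) (p q c1 c2 c3 : ℤ × ℤ) (x1 x2 x3 : Γ.V)
    (hp : ∀ a x, dt p a ≤ (ds Γ.R x (Γ.act (Multiplicative.ofAdd a) x) : ℤ))
    (hq : ∀ a x, dt q a ≤ (ds Γ.R x (Γ.act (Multiplicative.ofAdd a) x) : ℤ))
    (h1 : (ds Γ.R x1 (Γ.act (Multiplicative.ofAdd c1) x1) : ℤ) ≤ dt p c1)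
    (h1' : dt q c1 = dt p c1)
    (h2 : (ds Γ.R x2 (Γ.act (Multiplicative.ofAdd c2) x2) : ℤ) ≤ dt p c2)
    (h3 : (ds Γ.R x3 (Γ.act (Multiplicative.ofAdd c3) x3) : ℤ) ≤ dt q c3)
    (h4 : dt p c3 < dt q c3) (hd12 : dte c1 c2 ≠ 0) (hd13 : dte c1 c3 ≠ 0) (hdpq : dte p q ≠ 0)
    (B : ℕ) (hB : ∀ m, Finite (Orb (AG.K^[m] Γ)) ∧ Nat.card (Orb (AG.K^[m] Γ)) ≤ B) : False := by
  obtain ⟨u⟩ := exists_ef Γ hn.cn hn.ne (pf p) (pf_mul p) (fun a x => hp a.toAdd x)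
  obtain ⟨v⟩ := exists_ef Γ hn.cn hn.ne (pf q) (pf_mul q) (fun a x => hq a.toAdd x)
  have hinj : ∀ a, pf p a = 0 → pf q a = 0 → a = 1 := by
    intro a ha hb
    simp only [pf, dt, dte] at ha hb hdpq
    have e1 : (p.1 * q.2 - p.2 * q.1) * a.toAdd.1 = 0 := by linear_combination q.2 * ha - p.2 * hb
    have e2 : (p.1 * q.2 - p.2 * q.1) * a.toAdd.2 = 0 := by linear_combination p.1 * hb - q.1 * ha
    have e3 : a.toAdd.1 = 0 := (mul_eq_zero.1 e1).resolve_left hdpq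
    have e4 : a.toAdd.2 = 0 := (mul_eq_zero.1 e2).resolve_left hdpq
    have : a.toAdd = 0 := Prod.ext e3 e4
    exact toAdd_eq_zero.1 this
  have hinj' : ∀ a, pf q a = 0 → pf p a = 0 → a = 1 := fun a ha hb => hinj a hb ha
  -- positivity
  have hpos : ∀ c : ℤ × ℤ, c ≠ 0 → ∀ x : Γ.V,
      1 ≤ ds Γ.R x (Γ.act (Multiplicative.ofAdd c) x) := by
    intro c hc x
    by_contra hlt
    have h0 : ds Γ.R x (Γ.act (Multiplicative.ofAdd c) x) = 0 := by omega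
    rw [ds_eq_zero hn.cn] at h0
    refine hn.disp (Multiplicative.ofAdd c) (fun h => hc (ofAdd_eq_one.1 h)) x x x (Γ.refl x)
      (Γ.refl x) ?_
    rw [← h0]
    exact Γ.refl x
  have hc1 : c1 ≠ 0 := by
    rintro rfl
    apply hd12
    simp [dte]
  have hc2 : c2 ≠ 0 := by
    rintro rfl
    apply hd12
    simp [dte]
  have hc3 : c3 ≠ 0 := by
    rintro rfl
    apply hd13
    simp [dte]
  have p1 : 1 ≤ dt p c1 := le_trans (by exact_mod_cast hpos c1 hc1 x1) h1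
  have p2 : 1 ≤ dt p c2 := le_trans (by exact_mod_cast hpos c2 hc2 x2) h2
  have p3 : 1 ≤ dt q c3 := le_trans (by exact_mod_cast hpos c3 hc3 x3) h3
  have hdet : ∀ a b : ℤ × ℤ, dte a b ≠ 0 → dt p a * dt q b ≠ dt p b * dt q a := by
    intro a b hab he
    have : dte p q * dte a b = 0 := by
      simp only [dt, dte] at he ⊢
      linear_combination he
    rcases mul_eq_zero.1 this with h | h
    · exact hdpq h
    · exact hab h
  obtain ⟨z, hz1, hz2⟩ := join Γ hn G hG hl hinj u v (Multiplicative.ofAdd c1)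
    (Multiplicative.ofAdd c2) x1 x2 h1 h2 p1 p2 (hdet c1 c2 hd12)
  obtain ⟨z', hz1', hz3'⟩ := join Γ hn G hG hl hinj' v u (Multiplicative.ofAdd c1)
    (Multiplicative.ofAdd c3) x1 x3 (by
      change _ ≤ dt q c1
      rw [h1']
      exact h1) h3 (by
      change 1 ≤ dt q c1
      rw [h1']
      exact p1) p3 (by
      intro h
      apply hdet c1 c3 hd13
      change dt q c1 * dt p c3 = dt q c3 * dt p c1 at h
      linarith)
  have h7 : - dt p c3 ≤ dt q c3 := by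
    have e1 := hp (-c3) x3
    have e2 : dt p (-c3) = - dt p c3 := by simp [dt]; ring
    have e3 : ds Γ.R x3 (Γ.act (Multiplicative.ofAdd (-c3)) x3) =
        ds Γ.R x3 (Γ.act (Multiplicative.ofAdd c3) x3) := by
      rw [← ds_act Γ hn.cn (Multiplicative.ofAdd c3) x3 (Γ.act (Multiplicative.ofAdd (-c3)) x3),
        ← Γ.act_mul, ofAdd_neg, mul_inv_cancel, Γ.act_one, ds_comm Γ.symm hn.cn]
    rw [e2, e3] at e1
    linarith
  obtain ⟨h, g, hph, hqg, hsl⟩ := slack Γ hn.cn p q c1 c2 c3 z z' hz1 hz2 hz1' hz3' h1'.symm h4 h7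
    p1 p2 p3 hd12
  obtain ⟨j, q0, hq0, ⟨e⟩⟩ := even_pigeon Γ hn B hB
  have hnH := nice_iter Γ hn (2 * j)
  obtain ⟨X, hX, hcX, hdX, hoX, ⟨r⟩⟩ := exists_retract_dom (AG.K^[2 * j] Γ) hnH q0 hq0 e
  obtain ⟨f0⟩ := exists_up Γ hn j
  obtain ⟨u', v', hline⟩ := tline_iter Γ hn.ne u v (2 * j)
  have hC := hC_of_slack Γ ((AG.K^[2 * j] Γ).sub X hX) hn.cn (EH.cmp r f0) p q (u'.res X hX)
    (v'.res X hX) z z' h g hph hqg hsl
  obtain ⟨c, N, hα⟩ := x_lines ((AG.K^[2 * j] Γ).sub X hX) hcX hdX hoX (u'.res X hX)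
    (v'.res X hX) hC 0 0 1 (Or.inl rfl)
  obtain ⟨c', N', hβ⟩ := x_lines ((AG.K^[2 * j] Γ).sub X hX) hcX hdX hoX (u'.res X hX)
    (v'.res X hX) hC 1 0 (-1) (Or.inr rfl)
  obtain ⟨α, hα1, hα2, hα3⟩ := hline 1 0 0 c N (Or.inl rfl) (tline_sub X hX u' v' 1 0 0 c N hα)
  obtain ⟨β, hβ1, hβ2, hβ3⟩ := hline (-1) 1 0 c' N' (Or.inr rfl)
    (tline_sub X hX u' v' (-1) 1 0 c' N' hβ)
  obtain ⟨hpc, hqc⟩ := tline_p Γ u v α 1 _ _ c N hα1 hα2 hα3
  obtain ⟨hpc', hqc'⟩ := tline_p Γ u v β (-1) _ _ c' N' hβ1 hβ2 hβ3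
  have hN : (1 : ℤ) ≤ N := by exact_mod_cast hα1.1
  have hN' : (1 : ℤ) ≤ N' := by exact_mod_cast hβ1.1
  obtain ⟨i, k, hik⟩ := crossing Γ hn G hG hl hinj u v α β c c' N N' hα1 hβ1
    (by
      intro j
      rw [hβ2, hβ2]
      ring) (by
      rw [hpc, hqc, hpc', hqc']
      intro he
      have : (N : ℤ) * N' = 0 := by linarith
      rcases mul_eq_zero.1 this with h | h <;> omega)
  have e1 := hα2 i
  have e2 := hα3 i
  have e3 := hβ2 k
  have e4 := hβ3 k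
  rw [hik] at e1 e2
  rw [e1] at e3
  rw [e2] at e4
  simp only [if_true, if_neg (show ¬ ((-1 : ℤ) = 1) by norm_num)] at e3 e4
  push_cast at e3 e4
  omega

theorem ds_pow {A : Type} [Group A] (Γ : AG A) (hc : Cn Γ.R) (a : A) (x : Γ.V) (n : ℕ) :
    ds Γ.R x (Γ.act (a ^ n) x) ≤ n * ds Γ.R x (Γ.act a x) := by
  induction n with
  | zero =>
    rw [pow_zero, Γ.act_one, ds_self]
    exact Nat.zero_le _
  | succ n ih =>
    have h1 := ds_tri hc x (Γ.act (a ^ n) x) (Γ.act (a ^ (n + 1)) x)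
    have h2 : ds Γ.R (Γ.act (a ^ n) x) (Γ.act (a ^ (n + 1)) x) = ds Γ.R x (Γ.act a x) := by
      rw [pow_succ, Γ.act_mul, ds_act Γ hc]
    rw [h2] at h1
    calc _ ≤ _ := h1
      _ ≤ n * ds Γ.R x (Γ.act a x) + ds Γ.R x (Γ.act a x) := by omega
      _ = _ := by ring

theorem z2_unbounded (Γ : AG (Multiplicative (ℤ × ℤ))) (hn : Nice Γ) (G : SimpleGraph Γ.V)
    (hG : Γ.R = RG G) (hl : LCy G) (B : ℕ) :
    ¬ ∀ m, Finite (Orb (AG.K^[m] Γ)) ∧ Nat.card (Orb (AG.K^[m] Γ)) ≤ B := by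
  intro hB
  obtain ⟨N, p, q, c1, c2, c3, x1, x2, x3, hN, hp, hq, h1, h1', h2, h3, h4, hd12, hd13, hdpq⟩ :=
    exists_pq Γ hn
  have hNZ : (1 : ℤ) ≤ N := by exact_mod_cast hN
  have hpw : ∀ (a : ℤ × ℤ) (x : Γ.V), ds (Γ.pow N).R x ((Γ.pow N).act (Multiplicative.ofAdd a) x) =
      ds Γ.R x (Γ.act (Multiplicative.ofAdd (N • a)) x) := by
    intro a x
    rfl
  have hle : ∀ (p : ℤ × ℤ), (∀ a x, dt p a ≤
      N * (ds Γ.R x (Γ.act (Multiplicative.ofAdd a) x) : ℤ)) → ∀ a x,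
      dt p a ≤ (ds (Γ.pow N).R x ((Γ.pow N).act (Multiplicative.ofAdd a) x) : ℤ) := by
    intro p hp a x
    rw [hpw]
    have h5 := hp (N • a) x
    have h6 : dt p (N • a) = N * dt p a := by
      simp only [dt, Prod.smul_fst, Prod.smul_snd]
      simp only [nsmul_eq_mul]
      ring
    rw [h6] at h5
    exact le_of_mul_le_mul_left h5 (by omega)
  have htight : ∀ (p c : ℤ × ℤ) (x : Γ.V),
      dt p c = N * (ds Γ.R x (Γ.act (Multiplicative.ofAdd c) x) : ℤ) →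
      (ds (Γ.pow N).R x ((Γ.pow N).act (Multiplicative.ofAdd c) x) : ℤ) ≤ dt p c := by
    intro p c x h
    rw [h]
    have h5 := ds_pow Γ hn.cn (Multiplicative.ofAdd c) x N
    exact_mod_cast h5
  refine z2_core (Γ.pow N) (nice_pow Γ hn N hN) G hG hl p q c1 c2 c3 x1 x2 x3 (hle p hp) (hle q hq)
    (htight p c1 x1 h1) (by rw [h1, h1']) (htight p c2 x2 h2) (htight q c3 x3 h3) h4 hd12 hd13 hdpq
    (N ^ 2 * B) ?_
  intro m
  rw [iter_pow]
  exact orb_pow (AG.K^[m] Γ) N B hN (hB m)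

end Pool.Agent.H71.Clq
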