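import Mathlib
import Pool.Agent.H71.Clq.Dbl
import Pool.Agent.H71.Clq.Link

set_option autoImplicit false

/-!
# Module ORI: orientation or orientable double cover

* `exists_lo`: local orientations `s x y w ∈ ZMod 2` for triangles: from the isomorphism of the link of `x` with `cycleGraph n`:
  `s x y w = 0` iff the index of `w` is the index of `y` plus one (in `Fin n`), `1` otherwise. (Case `n = 3` included.)
* `c x y = s x y a + s y a x` for a common neighbour `a`: independent of `a` (for the other one `b` both terms ... : `s y a x = 1 + s y x a`,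
  so `c x y = 1 + s x y a + s y x a`, and both terms change for `b`). Symmetric. Cocycle: for a triangle
  `c x y + c y w + c x w = (s x y w + s y w x) + (s y w x + s w x y) + (s x w y + s w y x) = 0` since `s x w y = 1 + s x y w`,
  `s w y x = 1 + s w x y`. Put `c x y = 0` if `x, y` are not adjacent.
* If `c x y = φ y - φ x` then `o x y w = s x y w + φ x` is an orientation. In general `o (x,i) (y,j) (w,k) = s x y w + i` is an orientation of
  the double cover.
-/

namespace Pool.Agent.H71.Clq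

/-- orientation of the triangles -/
def IsOri {V : Type} (G : SimpleGraph V) (o : V → V → V → ZMod 2) : Prop :=
  (∀ x y w, G.Adj x y → G.Adj y w → G.Adj x w → o x y w = o y w x ∧ o x w y = o x y w + 1) ∧
  ∀ x y a b, G.Adj x y → G.Adj x a → G.Adj y a → G.Adj x b → G.Adj y b → a ≠ b →
    o x y b = o x y a + 1

/-- local orientations -/
def IsLO {V : Type} (G : SimpleGraph V) (s : V → V → V → ZMod 2) : Prop :=
  (∀ x y w, G.Adj x y → G.Adj y w → G.Adj x w → s x w y = s x y w + 1) ∧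
  ∀ x y a b, G.Adj x y → G.Adj x a → G.Adj y a → G.Adj x b → G.Adj y b → a ≠ b →
    s x y b = s x y a + 1

private theorem lo_vertex {V : Type} (G : SimpleGraph V) (v : V) (k : ℕ)
    (e : SimpleGraph.Iso (SimpleGraph.induce (G.neighborSet v) G)
          (SimpleGraph.cycleGraph (k + 3))) :
    ∃ s : V → V → ZMod 2,
      (∀ y w, G.Adj v y → G.Adj y w → G.Adj v w → s w y = s y w + 1) ∧
      ∀ y a b, G.Adj v y → G.Adj v a → G.Adj y a → G.Adj v b → G.Adj y b → a ≠ b →
        s y b = s y a + 1 := by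
  classical
  have h2 : (1 : Fin (k + 3)) + 1 ≠ 0 := by
    intro h
    have := congrArg Fin.val h
    rw [Fin.val_add] at this
    have e1 : ((1 : Fin (k + 3)) : ℕ) = 1 := Nat.mod_eq_of_lt (show 1 < k + 3 by omega)
    have e0 : ((0 : Fin (k + 3)) : ℕ) = 0 := rfl
    rw [e1, e0, Nat.mod_eq_of_lt (show 1 + 1 < k + 3 by omega)] at this
    omega
  have h11 : (1 : ZMod 2) + 1 = 0 := rfl
  have hadj : ∀ y w (hy : G.Adj v y) (hw : G.Adj v w), G.Adj y w →
      e ⟨w, hw⟩ = e ⟨y, hy⟩ + 1 ∨ e ⟨y, hy⟩ = e ⟨w, hw⟩ + 1 := by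
    intro y w hy hw hyw
    have h1 : (SimpleGraph.cycleGraph (k + 3)).Adj (e ⟨y, hy⟩) (e ⟨w, hw⟩) := by
      rw [e.map_adj_iff]
      exact hyw
    rw [SimpleGraph.cycleGraph_adj] at h1
    rcases h1 with h1 | h1
    · right
      rw [← h1]
      abel
    · left
      rw [← h1]
      abel
  have hno : ∀ i j : Fin (k + 3), i = j + 1 → j = i + 1 → False := by
    intro i j h3 h4
    apply h2
    have h5 : i + (1 + 1) = i + 0 := by
      rw [add_zero, ← add_assoc, ← h4, ← h3]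
    exact add_left_cancel h5
  refine ⟨fun y w => if h : G.Adj v y ∧ G.Adj v w then
    (if e ⟨w, h.2⟩ = e ⟨y, h.1⟩ + 1 then 0 else 1) else 0, ?_, ?_⟩
  · intro y w hy hyw hw
    simp only [hy, hw, and_self, dif_pos]
    rcases hadj y w hy hw hyw with h | h
    · have h' : ¬ e ⟨y, hy⟩ = e ⟨w, hw⟩ + 1 := fun h' => hno _ _ h h'
      rw [if_pos h, if_neg h', zero_add]
    · have h' : ¬ e ⟨w, hw⟩ = e ⟨y, hy⟩ + 1 := fun h' => hno _ _ h h'
      rw [if_pos h, if_neg h', h11]
  · intro y a b hy ha hya hb hyb hab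
    simp only [hy, ha, hb, and_self, dif_pos]
    have hne : e ⟨a, ha⟩ ≠ e ⟨b, hb⟩ := by
      intro h
      have := e.injective h
      exact hab (congrArg Subtype.val this)
    rcases hadj y a hy ha hya with h | h
    · have h' : ¬ e ⟨b, hb⟩ = e ⟨y, hy⟩ + 1 := fun h' => hne (h.trans h'.symm)
      rw [if_pos h, if_neg h', zero_add]
    · rcases hadj y b hy hb hyb with h' | h'
      · have h'' : ¬ e ⟨a, ha⟩ = e ⟨y, hy⟩ + 1 := fun h'' => hno _ _ h h''
        rw [if_pos h', if_neg h'', h11]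
      · exact absurd (add_right_cancel (h.symm.trans h')) hne

theorem exists_lo {V : Type} [Fintype V] [DecidableEq V] (G : SimpleGraph V)
    (h : ∀ v : V, ∃ n : ℕ, 3 ≤ n ∧
        Nonempty (SimpleGraph.Iso (SimpleGraph.induce (G.neighborSet v) G)
          (SimpleGraph.cycleGraph n))) : ∃ s : V → V → V → ZMod 2, IsLO G s := by
  have key : ∀ v : V, ∃ s : V → V → ZMod 2,
      (∀ y w, G.Adj v y → G.Adj y w → G.Adj v w → s w y = s y w + 1) ∧
      ∀ y a b, G.Adj v y → G.Adj v a → G.Adj y a → G.Adj v b → G.Adj y b → a ≠ b →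
        s y b = s y a + 1 := by
    intro v
    obtain ⟨n, hn, ⟨e⟩⟩ := h v
    obtain ⟨k, rfl⟩ : ∃ k, n = k + 3 := ⟨n - 3, by omega⟩
    exact lo_vertex G v k e
  choose s h1 h2 using key
  exact ⟨s, h1, h2⟩

theorem ori_or_cover {V : Type} [Fintype V] [DecidableEq V] (G : SimpleGraph V)
    (hl : LCy G) (s : V → V → V → ZMod 2) (hlo : IsLO G s) :
    (∃ o, IsOri G o) ∨
    ∃ (c : V → V → ZMod 2) (hs : ∀ x y, c x y = c y x),
      (∀ x y z, G.Adj x y → G.Adj y z → G.Adj x z → c x y + c y z = c x z) ∧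
      (¬ ∃ φ : V → ZMod 2, ∀ x y, G.Adj x y → c x y = φ y - φ x) ∧
      ∃ o, IsOri (DC G c hs) o := by
  classical
  obtain ⟨hlo1, hlo2⟩ := hlo
  have ex : ∀ x y, G.Adj x y → ∃ a, G.Adj x a ∧ G.Adj y a := by
    intro x y hxy
    obtain ⟨z, w, -, h1, h2, -⟩ := two_faces G hl hxy
    exact ⟨z, h1, h2⟩
  choose f hf1 hf2 using ex
  have h2 : ∀ t : ZMod 2, t + t = 0 := CharTwo.add_self_eq_zero
  obtain ⟨c, hc0, hc⟩ : ∃ c : V → V → ZMod 2, (∀ x y, ¬ G.Adj x y → c x y = 0) ∧
      ∀ x y a, G.Adj x y → G.Adj x a → G.Adj y a → c x y = s x y a + s y a x := by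
    refine ⟨fun x y => if h : G.Adj x y then s x y (f x y h) + s y (f x y h) x else 0,
      fun x y h => dif_neg h, ?_⟩
    intro x y a hxy hxa hya
    simp only [hxy, dif_pos]
    by_cases hab : a = f x y hxy
    · rw [← hab]
    · have e1 := hlo1 y x (f x y hxy) hxy.symm (hf1 x y hxy) (hf2 x y hxy)
      have e2 := hlo1 y x a hxy.symm hxa hya
      have e3 := hlo2 x y a (f x y hxy) hxy hxa hya (hf1 x y hxy) (hf2 x y hxy) hab
      have e4 := hlo2 y x a (f x y hxy) hxy.symm hya hxa (hf2 x y hxy) (hf1 x y hxy) hab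
      rw [e1, e2, e3, e4]
      linear_combination h2 1
  have hs : ∀ x y, c x y = c y x := by
    intro x y
    by_cases h : G.Adj x y
    · obtain ⟨a, ha1, ha2⟩ : ∃ a, G.Adj x a ∧ G.Adj y a := ⟨_, hf1 x y h, hf2 x y h⟩
      rw [hc x y a h ha1 ha2, hc y x a h.symm ha2 ha1, hlo1 y x a h.symm ha1 ha2,
        hlo1 x y a h ha2 ha1]
      ring
    · rw [hc0 x y h, hc0 y x (fun h' => h h'.symm)]
  have hcoc : ∀ x y z, G.Adj x y → G.Adj y z → G.Adj x z → c x y + c y z = c x z := by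
    intro x y z hxy hyz hxz
    rw [hc x y z hxy hxz hyz, hc y z x hyz hxy.symm hxz.symm, hc x z y hxz hxy hyz.symm,
      hlo1 x y z hxy hyz hxz, hlo1 z x y hxz.symm hxy hyz.symm]
    linear_combination h2 (s y z x) - h2 1
  by_cases hφ : ∃ φ : V → ZMod 2, ∀ x y, G.Adj x y → c x y = φ y - φ x
  · left
    obtain ⟨φ, hφ⟩ := hφ
    refine ⟨fun x y w => s x y w + φ x, ?_, ?_⟩
    · intro x y w hxy hyw hxw
      refine ⟨?_, ?_⟩
      · have e1 := hφ x y hxy
        rw [hc x y w hxy hxw hyw] at e1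
        simp only
        linear_combination e1 - h2 (s y w x)
      · simp only
        rw [hlo1 x y w hxy hyw hxw]
        ring
    · intro x y a b hxy hxa hya hxb hyb hab
      simp only
      rw [hlo2 x y a b hxy hxa hya hxb hyb hab]
      ring
  · right
    refine ⟨c, hs, hcoc, hφ, fun X Y W => s X.1 Y.1 W.1 + X.2, ?_, ?_⟩
    · rintro ⟨x, i⟩ ⟨y, j⟩ ⟨w, k⟩ ⟨hxy, hj⟩ ⟨hyw, hk⟩ ⟨hxw, hk'⟩
      simp only at hxy hj hyw hk hxw hk' ⊢
      refine ⟨?_, ?_⟩
      · rw [hj, hc x y w hxy hxw hyw]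
        linear_combination - h2 (s y w x)
      · rw [hlo1 x y w hxy hyw hxw]
        ring
    · rintro ⟨x, i⟩ ⟨y, j⟩ ⟨a, k⟩ ⟨b, l⟩ ⟨hxy, hj⟩ ⟨hxa, hk⟩ ⟨hya, hk'⟩ ⟨hxb, hl1⟩ ⟨hyb, hl2⟩ hab
      simp only at hxy hj hxa hk hya hk' hxb hl1 hyb hl2 ⊢
      have hab' : a ≠ b := by
        rintro rfl
        exact hab (by rw [hk, hl1])
      rw [hlo2 x y a b hxy hxa hya hxb hyb hab']
      ring

end Pool.Agent.H71.Clq
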