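import Mathlib
import Pool.Agent.H71.Clq.Tri
import Pool.Agent.H71.Clq.Pres

set_option autoImplicit false

/-!
# Module VC: covers given by a cocycle with values in a commutative group (see `Dbl.lean` for `ZMod 2`)

`VC G c` is the graph on `V × B` with `(x,i) ~ (y,j)` iff `G.Adj x y` and `j = i + c x y`.
* `vc_lcy`: the link of `(x,i)` is isomorphic to the link of `x` by `y ↦ (y, i + c x y)`.
* `vc_conn`: `c` is zero on the edges of a tree with root `r` (`Gau`) and the values of `c` generate `B`. By tree edges `(x,i)` is connected to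
  `(r,i)`; so for an edge `x y`, `(r,i)` is connected to `(x,i)`, `(y,i + c x y)`, `(r,i + c x y)`. The set of `b` such that `(r,i)`, `(r,i+b)`
  are connected for all `i` is a subgroup containing all values.
* `vc_euler`: `2E` is the sum of the degrees and the degree of `(x,i)` is the degree of `x`; with `three_mul_faces`.
* `vc_disp`: a walk of length three from `(x,i)` to `(x,i+a)` projects to `x, y, z, x`, consecutive ones adjacent or equal; the
  sum of `c` along it is zero (case distinction).
-/

namespace Pool.Agent.H71.Clq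

/-- the derived graph -/
def VC {V B : Type} [AddCommGroup B] (G : SimpleGraph V) (c : V → V → B)
    (hs : ∀ x y, c y x = - c x y) : SimpleGraph (V × B) where
  Adj u v := G.Adj u.1 v.1 ∧ v.2 = u.2 + c u.1 v.1
  symm := ⟨by
    rintro ⟨x, i⟩ ⟨y, j⟩ ⟨h1, h2⟩
    refine ⟨h1.symm, ?_⟩
    simp only at h2 ⊢
    rw [h2, hs x y, add_assoc, add_neg_cancel, add_zero]⟩
  loopless := ⟨by
    rintro ⟨x, i⟩ ⟨h1, _⟩
    exact G.loopless.irrefl x h1⟩

/-- the cocycle condition -/
def Coy {V B : Type} [AddCommGroup B] (G : SimpleGraph V) (c : V → V → B) : Prop :=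
  ∀ x y z, G.Adj x y → G.Adj y z → G.Adj x z → c x y + c y z = c x z

/-- `p, h` describe a tree with root `r`, and `c` vanishes on its edges -/
def Gau {V B : Type} [AddCommGroup B] (G : SimpleGraph V) (c : V → V → B) (r : V) (p : V → V)
    (h : V → ℕ) : Prop :=
  h r = 0 ∧ (∀ x, x ≠ r → G.Adj x (p x) ∧ h x = h (p x) + 1) ∧ ∀ x, x ≠ r → c x (p x) = 0

section

variable {V B : Type} [AddCommGroup B] (G : SimpleGraph V) (c : V → V → B)
  (hs : ∀ x y, c y x = - c x y)

theorem vc_lcy (hc : Coy G c) (hl : LCy G) : LCy (VC G c hs) := by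
  constructor
  · rintro ⟨x, i⟩ ⟨y, j⟩ ⟨hxy, hj⟩
    simp only at hxy hj
    have himg : {z | (VC G c hs).Adj (x, i) z ∧ (VC G c hs).Adj (y, j) z} =
        (fun w => (w, i + c x w)) '' {w | G.Adj x w ∧ G.Adj y w} := by
      ext ⟨w, k⟩
      constructor
      · rintro ⟨⟨h1, h2⟩, ⟨h3, _⟩⟩
        refine ⟨w, ⟨h1, h3⟩, ?_⟩
        simp only at h2 ⊢
        rw [h2]
      · rintro ⟨w', ⟨h1, h2⟩, h3⟩
        simp only [Prod.mk.injEq] at h3
        obtain ⟨rfl, rfl⟩ := h3
        refine ⟨⟨h1, rfl⟩, ⟨h2, ?_⟩⟩
        simp only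
        rw [hj, add_assoc, hc x y w' hxy h2 h1]
    rw [himg, Set.ncard_image_of_injective]
    · exact hl.1 x y hxy
    · intro w w' hww
      simp only [Prod.mk.injEq] at hww
      exact hww.1
  · rintro ⟨x, i⟩ ⟨y, j⟩ ⟨z, k⟩ ⟨hxy, hj⟩ ⟨hxz, hk⟩
    simp only at hxy hj hxz hk
    subst hj
    subst hk
    have hpath := hl.2 x y z hxy hxz
    clear hxz
    induction hpath with
    | refl => exact Relation.ReflTransGen.refl
    | @tail u v _ huv ih =>
      refine ih.tail ?_
      obtain ⟨h1, h2, h3⟩ := huv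
      refine ⟨⟨h1, rfl⟩, ⟨h2, rfl⟩, ⟨h3, ?_⟩⟩
      simp only
      rw [add_assoc, hc x u v h1 h3 h2]

theorem vc_conn (hG : G.Connected) (r : V) (p : V → V) (h : V → ℕ) (hg : Gau G c r p h)
    (hgen : AddSubgroup.closure {b | ∃ x y, G.Adj x y ∧ b = c x y} = ⊤) :
    (VC G c hs).Connected := by
  have htree : ∀ (n : ℕ) (x : V), h x = n → ∀ i, (VC G c hs).Reachable (x, i) (r, i) := by
    intro n
    induction n with
    | zero =>
      intro x hx i
      by_cases hxr : x = r
      · rw [hxr]
      · have := (hg.2.1 x hxr).2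
        omega
    | succ n ih =>
      intro x hx i
      by_cases hxr : x = r
      · rw [hxr]
      · obtain ⟨h1, h2⟩ := hg.2.1 x hxr
        have h3 : (VC G c hs).Adj (x, i) (p x, i) := by
          refine ⟨h1, ?_⟩
          simp only
          rw [hg.2.2 x hxr, add_zero]
        exact h3.reachable.trans (ih (p x) (by omega) i)
  have htr : ∀ x i, (VC G c hs).Reachable (x, i) (r, i) := fun x i => htree _ x rfl i
  let S : AddSubgroup B :=
    { carrier := {b | ∀ i, (VC G c hs).Reachable (r, i) (r, i + b)}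
      zero_mem' := by
        intro i
        rw [add_zero]
      add_mem' := by
        intro a b ha hb i
        have h1 := (ha i).trans (hb (i + a))
        rwa [add_assoc] at h1
      neg_mem' := by
        intro b hb i
        have h1 := hb (i + -b)
        rw [add_assoc, neg_add_cancel, add_zero] at h1
        exact h1.symm }
  have hS : S = ⊤ := by
    rw [eq_top_iff, ← hgen, AddSubgroup.closure_le]
    rintro b ⟨x, y, hxy, rfl⟩ i
    have h3 : (VC G c hs).Adj (x, i) (y, i + c x y) := ⟨hxy, rfl⟩
    exact (htr x i).symm.trans (h3.reachable.trans (htr y _))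
  have hall : ∀ u : V × B, (VC G c hs).Reachable u (r, 0) := by
    rintro ⟨x, i⟩
    have h1 : -i ∈ S := by rw [hS]; exact AddSubgroup.mem_top _
    have h2 := h1 i
    rw [add_neg_cancel] at h2
    exact (htr x i).trans h2
  have : Nonempty (V × B) := ⟨(r, 0)⟩
  exact SimpleGraph.Connected.mk (fun u v => (hall u).trans (hall v).symm)

theorem vc_euler [Fintype V] [DecidableEq V] [Fintype B] [DecidableEq B] [DecidableRel G.Adj]
    [DecidableRel (VC G c hs).Adj] (hc : Coy G c) (hl : LCy G)
    (hχ : (Fintype.card V : ℤ) - (G.edgeFinset.card : ℤ) + ((G.cliqueFinset 3).card : ℤ) = 0) :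
    (Fintype.card (V × B) : ℤ) - ((VC G c hs).edgeFinset.card : ℤ) +
      (((VC G c hs).cliqueFinset 3).card : ℤ) = 0 := by
  have hdeg : ∀ x i, (VC G c hs).degree (x, i) = G.degree x := by
    intro x i
    rw [← SimpleGraph.card_neighborFinset_eq_degree, ← SimpleGraph.card_neighborFinset_eq_degree]
    have himg : (VC G c hs).neighborFinset (x, i) =
        (G.neighborFinset x).image (fun w => (w, i + c x w)) := by
      ext ⟨w, k⟩
      simp only [SimpleGraph.mem_neighborFinset, Finset.mem_image, Prod.mk.injEq]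
      constructor
      · rintro ⟨h1, h2⟩
        exact ⟨w, h1, rfl, h2.symm⟩
      · rintro ⟨w', h1, rfl, h2⟩
        exact ⟨h1, h2.symm⟩
    rw [himg, Finset.card_image_of_injective]
    intro w w' hww
    simp only [Prod.mk.injEq] at hww
    exact hww.1
  have hE : (VC G c hs).edgeFinset.card = Fintype.card B * G.edgeFinset.card := by
    have h1 := (VC G c hs).sum_degrees_eq_twice_card_edges
    have h2 := G.sum_degrees_eq_twice_card_edges
    rw [Fintype.sum_prod_type] at h1
    have h3 : ∀ x : V, ∑ i : B, (VC G c hs).degree (x, i) = Fintype.card B * G.degree x := by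
      intro x
      rw [Finset.sum_congr rfl (fun i _ => hdeg x i), Finset.sum_const, Finset.card_univ,
        smul_eq_mul]
    rw [Finset.sum_congr rfl (fun x _ => h3 x), ← Finset.mul_sum, h2] at h1
    have h4 : 2 * (Fintype.card B * G.edgeFinset.card) = 2 * (VC G c hs).edgeFinset.card := by
      rw [← h1]; ring
    omega
  have hF := three_mul_faces G hl
  have hF' := three_mul_faces (VC G c hs) (vc_lcy G c hs hc hl)
  have hV : Fintype.card (V × B) = Fintype.card V * Fintype.card B := Fintype.card_prod V B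
  have hF2 : ((VC G c hs).cliqueFinset 3).card = Fintype.card B * (G.cliqueFinset 3).card := by
    rw [hE] at hF'
    have h5 : 3 * ((VC G c hs).cliqueFinset 3).card =
        3 * (Fintype.card B * (G.cliqueFinset 3).card) := by
      rw [hF']
      calc 2 * (Fintype.card B * G.edgeFinset.card)
          = Fintype.card B * (2 * G.edgeFinset.card) := by ring
        _ = Fintype.card B * (3 * (G.cliqueFinset 3).card) := by rw [hF]
        _ = 3 * (Fintype.card B * (G.cliqueFinset 3).card) := by ring
    omega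
  rw [hV, hE, hF2]
  push_cast
  calc (Fintype.card V : ℤ) * Fintype.card B - Fintype.card B * G.edgeFinset.card +
        Fintype.card B * (G.cliqueFinset 3).card
      = Fintype.card B * ((Fintype.card V : ℤ) - (G.edgeFinset.card : ℤ) +
          ((G.cliqueFinset 3).card : ℤ)) := by ring
    _ = 0 := by rw [hχ, mul_zero]

/-- the derived graph with its group of translations -/
def vcAG : AG (Multiplicative B) where
  V := V × B
  R := RG (VC G c hs)
  refl := fun x => Or.inl rfl
  symm := by
    rintro x y (h | h)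
    · exact Or.inl h.symm
    · exact Or.inr h.symm
  act := fun a x => (x.1, x.2 + a.toAdd)
  act_one := by intro x; simp
  act_mul := by
    intro a b x
    simp only [toAdd_mul, Prod.mk.injEq, true_and]
    abel
  act_R := by
    rintro a x y (h | ⟨h1, h2⟩)
    · exact Or.inl (by rw [h])
    · refine Or.inr ⟨h1, ?_⟩
      simp only at h2 ⊢
      rw [h2]
      abel

theorem vc_disp (hc : Coy G c) : Disp (vcAG G c hs) := by
  rintro a ha ⟨x, i⟩ ⟨y, j⟩ ⟨z, k⟩ h1 h2 h3
  apply ha
  apply Multiplicative.toAdd.injective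
  change a.toAdd = 0
  have h1' : RG (VC G c hs) (x, i) (y, j) := h1
  have h2' : RG (VC G c hs) (y, j) (z, k) := h2
  have h3' : RG (VC G c hs) (z, k) (x, i + a.toAdd) := h3
  have hd : ∀ x y, c x y + c y x = 0 := fun x y => by rw [hs x y, add_neg_cancel]
  have hfin : ∀ t : B, i + a.toAdd = i + t → t = 0 → a.toAdd = 0 := fun t h ht => by
    rw [ht] at h
    exact add_left_cancel h
  rcases h1' with e1 | ⟨g1, q1⟩ <;> rcases h2' with e2 | ⟨g2, q2⟩ <;>
    rcases h3' with e3 | ⟨g3, q3⟩
  · simp only [Prod.mk.injEq] at e1 e2 e3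
    obtain ⟨rfl, rfl⟩ := e1
    obtain ⟨rfl, rfl⟩ := e2
    have := e3.2
    exact add_eq_left.mp this.symm
  · simp only [Prod.mk.injEq] at e1 e2
    obtain ⟨rfl, rfl⟩ := e1
    obtain ⟨rfl, rfl⟩ := e2
    exact absurd g3 (G.loopless.irrefl _)
  · simp only [Prod.mk.injEq] at e1 e3
    obtain ⟨rfl, rfl⟩ := e1
    simp only at g2
    rw [e3.1] at g2
    exact absurd g2 (G.loopless.irrefl _)
  · simp only [Prod.mk.injEq] at e1
    obtain ⟨rfl, rfl⟩ := e1
    simp only at q2 q3
    refine hfin (c x z + c z x) ?_ (hd x z)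
    rw [q3, q2, add_assoc]
  · simp only [Prod.mk.injEq] at e2 e3
    obtain ⟨rfl, rfl⟩ := e2
    simp only at g1
    rw [e3.1] at g1
    exact absurd g1 (G.loopless.irrefl _)
  · simp only [Prod.mk.injEq] at e2
    obtain ⟨rfl, rfl⟩ := e2
    simp only at q1 q3
    refine hfin (c x y + c y x) ?_ (hd x y)
    rw [q3, q1, add_assoc]
  · simp only [Prod.mk.injEq] at e3
    obtain ⟨e31, e32⟩ := e3
    subst e31
    simp only at q1 q2
    refine hfin (c z y + c y z) ?_ (hd z y)
    rw [← e32, q2, q1, add_assoc]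
  · simp only at g1 q1 g2 q2 g3 q3
    have h5 := hc x y z g1 g2 g3.symm
    refine hfin (c x y + c y z + c z x) ?_ (by rw [h5]; exact hd x z)
    rw [q3, q2, q1]
    simp only [add_assoc]

theorem vc_isQ : IsQ (vcAG G c hs) G := by
  refine ⟨fun u : V × B => u.1, ?_, ?_, ?_⟩
  · intro x
    exact ⟨((x, 0) : V × B), rfl⟩
  · rintro ⟨x, i⟩ ⟨y, j⟩
    constructor
    · intro h
      simp only at h
      subst h
      refine ⟨Multiplicative.ofAdd (j - i), ?_⟩
      change (x, j) = (x, i + (j - i))
      rw [add_sub_cancel]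
    · rintro ⟨a, ha⟩
      have ha' : (y, j) = (x, i + a.toAdd) := ha
      exact (Prod.mk.inj ha').1.symm
  · rintro ⟨x, i⟩ ⟨y, j⟩
    constructor
    · intro h
      simp only at h
      refine ⟨h.ne, Multiplicative.ofAdd (i + c x y - j), Or.inr ⟨h, ?_⟩⟩
      change j + (i + c x y - j) = i + c x y
      abel
    · rintro ⟨hne, a, h | h⟩
      · exfalso
        have ha' : (x, i) = (y, j + a.toAdd) := h
        exact hne (Prod.mk.inj ha').1
      · exact h.1

theorem vc_lf (hf : ∀ x, (G.neighborSet x).Finite) : LF (vcAG G c hs) := by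
  rintro ⟨x, i⟩
  have h1 : (insert ((x, i) : V × B) ((fun w => ((w, i + c x w) : V × B)) ''
      (G.neighborSet x))).Finite := ((hf x).image _).insert _
  refine h1.subset ?_
  rintro ⟨y, j⟩ h
  have h' : RG (VC G c hs) (x, i) (y, j) := h
  rcases h' with h' | ⟨h2, h3⟩
  · left
    exact h'.symm
  · right
    refine ⟨y, h2, ?_⟩
    simp only at h3 ⊢
    rw [h3]

theorem vc_cof (hV : Finite V) : CoF (vcAG G c hs) := by
  refine ⟨Set.range (fun x : V => ((x, 0) : V × B)), Set.finite_range _, ?_⟩
  rintro ⟨x, i⟩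
  refine ⟨Multiplicative.ofAdd i, ((x, 0) : V × B), ⟨x, rfl⟩, ?_⟩
  change (x, i) = (x, 0 + i)
  rw [zero_add]

end

end Pool.Agent.H71.Clq
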