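import Mathlib
import Pool.Agent.H71.Clq.Vc
import Pool.Agent.H71.Clq.Ori

set_option autoImplicit false
set_option linter.unusedSectionVars false

/-!
# Module RAT: two independent integer cocycles on an orientable closed surface with `χ = 0`

Tree `p, h, r` from `exists_tree`. Over `ℚ`: `𝒞` = functions `c : V → V → ℚ` with `c y x = - c x y`, zero on non-adjacent pairs and zero on tree edges;
its dimension is `E - (V - 1) = F + 1` (choose an order on `V` and use the pairs `x < y`). The linear map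
`L : 𝒞 → (triangles → ℚ)`, for a triangle `x < y < w`: `c x y + c y w + c w x`. The image is in a hyperplane: `∑ ε(t) L(c)(t) = 0` with
`ε(t) = 1` if `o x y w = 0`, `-1` if `o x y w = 1` for `x < y < w`: in the sum of `ε(t) (c x y + c y w + c w x)` every edge `x y` occurs twice, once as
`c x y` and once as `c y x`, because of `o x y b = o x y a + 1`. (So `ε(t) L(c)(t) = ` the sum of `c` over the three directed edges of the
triangle in its positive direction.) There is a triangle, so the image has dimension `≤ F - 1` and the kernel has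
dimension `≥ 2`: two linearly independent `c1, c2` in the kernel; they are cocycles; multiply by a common denominator to make them
integral. `c₀ = (c1, c2) : V → V → ℤ × ℤ`. The subgroup `Λ` generated by its values has rank two (otherwise there are integers `(a,b) ≠ 0` with
`a c1 + b c2 = 0`). A subgroup of `ℤ × ℤ` of rank two is isomorphic to `ℤ × ℤ` (free of finite rank over a PID); compose `c₀` with the
isomorphism.
-/

namespace Pool.Agent.H71.Clq

namespace RatM

section

variable {V : Type} [Fintype V] [DecidableEq V] (G : SimpleGraph V) [DecidableRel G.Adj]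

/-- the antisymmetric function given by a function on the edges -/
noncomputable def ca (g : G.edgeSet → ℚ) (x y : V) : ℚ :=
  if h : G.Adj x y then
    (if Fintype.equivFin V x < Fintype.equivFin V y then 1 else -1) * g ⟨s(x, y), h⟩
  else 0

theorem ca_not (g : G.edgeSet → ℚ) {x y : V} (h : ¬ G.Adj x y) : ca G g x y = 0 := by
  unfold ca
  rw [dif_neg h]

theorem ca_neg (g : G.edgeSet → ℚ) (x y : V) : ca G g y x = - ca G g x y := by
  by_cases h : G.Adj x y
  · unfold ca
    rw [dif_pos h, dif_pos h.symm]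
    have he : (⟨s(y, x), h.symm⟩ : G.edgeSet) = ⟨s(x, y), h⟩ := Subtype.ext Sym2.eq_swap
    rw [he]
    have hne : Fintype.equivFin V x ≠ Fintype.equivFin V y :=
      fun hh => h.ne ((Fintype.equivFin V).injective hh)
    rcases lt_or_gt_of_ne hne with h1 | h1
    · rw [if_pos h1, if_neg (not_lt.mpr h1.le)]
      ring
    · rw [if_neg (not_lt.mpr h1.le), if_pos h1]
      ring
  · rw [ca_not G g h, ca_not G g (fun h' => h h'.symm), neg_zero]

theorem ca_add (g g' : G.edgeSet → ℚ) (x y : V) :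
    ca G (g + g') x y = ca G g x y + ca G g' x y := by
  by_cases h : G.Adj x y
  · unfold ca
    rw [dif_pos h, dif_pos h, dif_pos h, Pi.add_apply, mul_add]
  · rw [ca_not G _ h, ca_not G _ h, ca_not G _ h, add_zero]

theorem ca_smul (a : ℚ) (g : G.edgeSet → ℚ) (x y : V) :
    ca G (a • g) x y = a * ca G g x y := by
  by_cases h : G.Adj x y
  · unfold ca
    rw [dif_pos h, dif_pos h, Pi.smul_apply, smul_eq_mul]
    ring
  · rw [ca_not G _ h, ca_not G _ h, mul_zero]

theorem ca_inj (g : G.edgeSet → ℚ) (h : ∀ x y, ca G g x y = 0) : g = 0 := by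
  funext e
  obtain ⟨e, he⟩ := e
  induction e with
  | h x y =>
  have hadj : G.Adj x y := he
  have h1 := h x y
  unfold ca at h1
  rw [dif_pos hadj] at h1
  rcases mul_eq_zero.mp h1 with h2 | h2
  · exfalso
    split_ifs at h2 <;> norm_num at h2
  · exact h2

/-- positively directed triangles -/
def PT (o : V → V → V → ZMod 2) : Finset (V × V × V) :=
  Finset.univ.filter (fun τ => G.Adj τ.1 τ.2.1 ∧ G.Adj τ.2.1 τ.2.2 ∧ G.Adj τ.1 τ.2.2 ∧
    o τ.1 τ.2.1 τ.2.2 = 0)

theorem mem_PT (o : V → V → V → ZMod 2) (x y z : V) :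
    (x, y, z) ∈ PT G o ↔ G.Adj x y ∧ G.Adj y z ∧ G.Adj x z ∧ o x y z = 0 := by
  unfold PT
  simp only [Finset.mem_filter, Finset.mem_univ, true_and]

theorem zm2 (a : ZMod 2) : a = 0 ∨ a = 1 := by
  revert a
  decide

theorem one_face (hl : LCy G) (o : V → V → V → ZMod 2) (ho : IsOri G o) {x y : V}
    (h : G.Adj x y) : ∃ z, (x, y, z) ∈ PT G o ∧ ∀ w, (x, y, w) ∈ PT G o → w = z := by
  obtain ⟨z, w, hzw, h1, h2, h3, h4, h5⟩ := two_faces G hl h
  have h6 := ho.2 x y z w h h1 h2 h3 h4 hzw
  rcases zm2 (o x y z) with h7 | h7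
  · refine ⟨z, (mem_PT G o _ _ _).2 ⟨h, h2, h1, h7⟩, ?_⟩
    intro u hu
    obtain ⟨_, k2, k3, k4⟩ := (mem_PT G o _ _ _).1 hu
    rcases h5 u k3 k2 with h8 | h8
    · exact h8
    · exfalso
      rw [h8, h6, h7] at k4
      exact absurd k4 (by decide)
  · refine ⟨w, (mem_PT G o _ _ _).2 ⟨h, h4, h3, by rw [h6, h7]; decide⟩, ?_⟩
    intro u hu
    obtain ⟨_, k2, k3, k4⟩ := (mem_PT G o _ _ _).1 hu
    rcases h5 u k3 k2 with h8 | h8
    · exfalso
      rw [h8, h7] at k4
      exact absurd k4 (by decide)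
    · exact h8

theorem sum_PT (hl : LCy G) (o : V → V → V → ZMod 2) (ho : IsOri G o) (g : G.edgeSet → ℚ) :
    ∑ τ ∈ PT G o, ca G g τ.1 τ.2.1 = 0 := by
  have h1 : ∑ τ ∈ PT G o, ca G g τ.1 τ.2.1 = ∑ x, ∑ y, ca G g x y := by
    have h2 : ∑ τ ∈ PT G o, ca G g τ.1 τ.2.1 =
        ∑ τ : V × V × V, if τ ∈ PT G o then ca G g τ.1 τ.2.1 else 0 := by
      rw [← Finset.sum_filter]
      apply Finset.sum_congr
      · ext τ; simp
      · intro _ _; rfl
    rw [h2, Fintype.sum_prod_type]
    apply Finset.sum_congr rfl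
    intro x _
    rw [Fintype.sum_prod_type]
    apply Finset.sum_congr rfl
    intro y _
    by_cases h : G.Adj x y
    · obtain ⟨z, hz1, hz2⟩ := one_face G hl o ho h
      rw [Finset.sum_eq_single z]
      · simp only
        rw [if_pos hz1]
      · intro w _ hw
        rw [if_neg]
        intro hcon
        exact hw (hz2 w hcon)
      · intro hcon
        exact absurd (Finset.mem_univ _) hcon
    · rw [ca_not G g h]
      apply Finset.sum_eq_zero
      intro w _
      simp only
      rw [ca_not G g h]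
      split_ifs <;> rfl
  rw [h1]
  have h3 : ∑ x, ∑ y, ca G g x y = - ∑ x, ∑ y, ca G g x y := by
    conv_lhs => rw [Finset.sum_comm]
    rw [← Finset.sum_neg_distrib]
    apply Finset.sum_congr rfl
    intro x _
    rw [← Finset.sum_neg_distrib]
    apply Finset.sum_congr rfl
    intro y _
    exact ca_neg G g x y
  linarith

theorem fiber_PT (o : V → V → V → ZMod 2) (ho : IsOri G o) {x y z : V} (h1 : G.Adj x y)
    (h2 : G.Adj y z) (h3 : G.Adj x z) (h : o x y z = 0) :
    (PT G o).filter (fun τ => ({τ.1, τ.2.1, τ.2.2} : Finset V) = {x, y, z}) =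
      {(x, y, z), (y, z, x), (z, x, y)} := by
  have e1 : o y z x = 0 := by rw [← (ho.1 x y z h1 h2 h3).1]; exact h
  have e2 : o z x y = 0 := by rw [← (ho.1 y z x h2 h3.symm h1.symm).1]; exact e1
  have e3 : o x z y = 1 := by rw [(ho.1 x y z h1 h2 h3).2, h]; decide
  have e4 : o z y x = 1 := by rw [← (ho.1 x z y h3 h2.symm h1).1]; exact e3
  have e5 : o y x z = 1 := by rw [← (ho.1 z y x h2.symm h1.symm h3.symm).1]; exact e4
  ext ⟨a, b, c⟩
  simp only [Finset.mem_filter, Finset.mem_insert, Finset.mem_singleton, mem_PT, Prod.mk.injEq]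
  constructor
  · rintro ⟨⟨k1, k2, k3, k4⟩, k5⟩
    have ha : a ∈ ({x, y, z} : Finset V) := by rw [← k5]; simp
    have hb : b ∈ ({x, y, z} : Finset V) := by rw [← k5]; simp
    have hc : c ∈ ({x, y, z} : Finset V) := by rw [← k5]; simp
    simp only [Finset.mem_insert, Finset.mem_singleton] at ha hb hc
    have n1 := k1.ne
    have n2 := k2.ne
    have n3 := k3.ne
    rcases ha with rfl | rfl | rfl <;> rcases hb with rfl | rfl | rfl <;>
      rcases hc with rfl | rfl | rfl <;> first
      | exact absurd rfl n1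
      | exact absurd rfl n2
      | exact absurd rfl n3
      | exact Or.inl ⟨rfl, rfl, rfl⟩
      | exact Or.inr (Or.inl ⟨rfl, rfl, rfl⟩)
      | exact Or.inr (Or.inr ⟨rfl, rfl, rfl⟩)
      | (exfalso; rw [e3] at k4; exact absurd k4 (by decide))
      | (exfalso; rw [e4] at k4; exact absurd k4 (by decide))
      | (exfalso; rw [e5] at k4; exact absurd k4 (by decide))
  · rintro (⟨rfl, rfl, rfl⟩ | ⟨rfl, rfl, rfl⟩ | ⟨rfl, rfl, rfl⟩)
    · exact ⟨⟨h1, h2, h3, h⟩, rfl⟩
    · refine ⟨⟨h2, h3.symm, h1.symm, e1⟩, ?_⟩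
      ext u; simp only [Finset.mem_insert, Finset.mem_singleton]; tauto
    · refine ⟨⟨h3.symm, h1, h2.symm, e2⟩, ?_⟩
      ext u; simp only [Finset.mem_insert, Finset.mem_singleton]; tauto

/-- sum over the positive directions of a triangle -/
noncomputable def tr (o : V → V → V → ZMod 2) (g : G.edgeSet → ℚ) (f : Finset V) : ℚ :=
  ∑ τ ∈ (PT G o).filter (fun τ => ({τ.1, τ.2.1, τ.2.2} : Finset V) = f), ca G g τ.1 τ.2.1

theorem tr_eq (o : V → V → V → ZMod 2) (ho : IsOri G o) {x y z : V} (h1 : G.Adj x y)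
    (h2 : G.Adj y z) (h3 : G.Adj x z) (h : o x y z = 0) (g : G.edgeSet → ℚ) :
    tr G o g {x, y, z} = ca G g x y + ca G g y z + ca G g z x := by
  unfold tr
  rw [fiber_PT G o ho h1 h2 h3 h, Finset.sum_insert, Finset.sum_insert, Finset.sum_singleton]
  · ring
  · simp only [Finset.mem_singleton, Prod.mk.injEq, not_and]
    intro h4
    exact absurd h4 h2.ne
  · simp only [Finset.mem_insert, Finset.mem_singleton, Prod.mk.injEq, not_or, not_and]
    exact ⟨fun h4 => absurd h4 h1.ne, fun h4 => absurd h4 h3.ne⟩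

theorem sum_tr (hl : LCy G) (o : V → V → V → ZMod 2) (ho : IsOri G o) (g : G.edgeSet → ℚ) :
    ∑ f : {f // f ∈ G.cliqueFinset 3}, tr G o g f.1 = 0 := by
  rw [Finset.sum_coe_sort (G.cliqueFinset 3) (fun f => tr G o g f)]
  unfold tr
  rw [Finset.sum_fiberwise_of_maps_to]
  · exact sum_PT G hl o ho g
  · rintro ⟨a, b, c⟩ hτ
    obtain ⟨k1, k2, k3, _⟩ := (mem_PT G o _ _ _).1 hτ
    rw [SimpleGraph.mem_cliqueFinset_iff]
    exact SimpleGraph.is3Clique_triple_iff.mpr ⟨k1, k3, k2⟩

/-- the linear map -/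
noncomputable def Lm (o : V → V → V → ZMod 2) (r : V) (p : V → V) :
    (G.edgeSet → ℚ) →ₗ[ℚ] ({x // x ≠ r} → ℚ) × ({f // f ∈ G.cliqueFinset 3} → ℚ) where
  toFun g := (fun x => ca G g x.1 (p x.1), fun f => tr G o g f.1)
  map_add' g g' := by
    ext x
    · simp only [Prod.fst_add, Pi.add_apply]
      exact ca_add G g g' _ _
    · simp only [Prod.snd_add, Pi.add_apply]
      unfold tr
      rw [← Finset.sum_add_distrib]
      exact Finset.sum_congr rfl (fun τ _ => ca_add G g g' _ _)
  map_smul' a g := by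
    ext x
    · simp only [Prod.smul_fst, Pi.smul_apply, smul_eq_mul, RingHom.id_apply]
      exact ca_smul G a g _ _
    · simp only [Prod.smul_snd, Pi.smul_apply, smul_eq_mul, RingHom.id_apply]
      unfold tr
      rw [Finset.mul_sum]
      exact Finset.sum_congr rfl (fun τ _ => ca_smul G a g _ _)

/-- the sum over the triangles -/
def sg (r : V) : ({x // x ≠ r} → ℚ) × ({f // f ∈ G.cliqueFinset 3} → ℚ) →ₗ[ℚ] ℚ where
  toFun a := ∑ f, a.2 f
  map_add' a b := by
    simp only [Prod.snd_add, Pi.add_apply]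
    exact Finset.sum_add_distrib
  map_smul' a b := by
    simp only [Prod.smul_snd, Pi.smul_apply, smul_eq_mul, RingHom.id_apply]
    rw [Finset.mul_sum]

theorem ker_dim (hl : LCy G) (hne : ∃ x y, G.Adj x y)
    (hχ : (Fintype.card V : ℤ) - (G.edgeFinset.card : ℤ) + ((G.cliqueFinset 3).card : ℤ) = 0)
    (o : V → V → V → ZMod 2) (ho : IsOri G o) (r : V) (p : V → V) :
    1 < Module.finrank ℚ (LinearMap.ker (Lm G o r p)) := by
  obtain ⟨x, y, hxy⟩ := hne
  obtain ⟨z, w, hzw, h1, h2, h3, h4, h5⟩ := two_faces G hl hxy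
  have hf : ({x, y, z} : Finset V) ∈ G.cliqueFinset 3 := by
    rw [SimpleGraph.mem_cliqueFinset_iff]
    exact SimpleGraph.is3Clique_triple_iff.mpr ⟨hxy, h1, h2⟩
  have hFpos : 0 < (G.cliqueFinset 3).card := Finset.card_pos.mpr ⟨_, hf⟩
  -- surjectivity of the sum
  have hsurj : Function.Surjective (sg G r) := by
    intro q
    refine ⟨(0, Pi.single ⟨_, hf⟩ q), ?_⟩
    change ∑ f, (Pi.single (⟨_, hf⟩ : {f // f ∈ G.cliqueFinset 3}) q :
      {f // f ∈ G.cliqueFinset 3} → ℚ) f = q
    rw [Finset.sum_pi_single']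
    simp
  have hk1 := LinearMap.finrank_range_add_finrank_ker (sg G r)
  rw [LinearMap.range_eq_top.mpr hsurj, finrank_top, Module.finrank_self, Module.finrank_prod,
    Module.finrank_fintype_fun_eq_card, Module.finrank_fintype_fun_eq_card] at hk1
  have hc1 : Fintype.card {x // x ≠ r} = Fintype.card V - 1 := by
    rw [Fintype.card_subtype_compl, Fintype.card_subtype_eq]
  have hc2 : Fintype.card {f // f ∈ G.cliqueFinset 3} = (G.cliqueFinset 3).card :=
    Fintype.card_coe _
  rw [hc1, hc2] at hk1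
  have hk2 := LinearMap.finrank_range_add_finrank_ker (Lm G o r p)
  rw [Module.finrank_fintype_fun_eq_card, ← SimpleGraph.edgeFinset_card] at hk2
  have hle : LinearMap.range (Lm G o r p) ≤ LinearMap.ker (sg G r) := by
    rintro _ ⟨g, rfl⟩
    rw [LinearMap.mem_ker]
    exact sum_tr G hl o ho g
  have hk3 := Submodule.finrank_mono hle
  have hV : 0 < Fintype.card V := Fintype.card_pos_iff.mpr ⟨x⟩
  omega

theorem ker_coy (o : V → V → V → ZMod 2) (ho : IsOri G o) (r : V) (p : V → V)
    (g : G.edgeSet → ℚ) (hg : g ∈ LinearMap.ker (Lm G o r p)) (x y z : V) (h1 : G.Adj x y)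
    (h2 : G.Adj y z) (h3 : G.Adj x z) : ca G g x y + ca G g y z = ca G g x z := by
  rw [LinearMap.mem_ker] at hg
  have key : ∀ a b c, G.Adj a b → G.Adj b c → G.Adj a c → o a b c = 0 →
      ca G g a b + ca G g b c + ca G g c a = 0 := by
    intro a b c k1 k2 k3 k4
    rw [← tr_eq G o ho k1 k2 k3 k4 g]
    have hf : ({a, b, c} : Finset V) ∈ G.cliqueFinset 3 := by
      rw [SimpleGraph.mem_cliqueFinset_iff]
      exact SimpleGraph.is3Clique_triple_iff.mpr ⟨k1, k3, k2⟩
    have := congrFun (congrArg Prod.snd hg) ⟨_, hf⟩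
    exact this
  rcases zm2 (o x y z) with h | h
  · have k := key x y z h1 h2 h3 h
    rw [ca_neg G g x z] at k
    linarith
  · have k := key x z y h3 h2.symm h1 (by rw [(ho.1 x y z h1 h2 h3).2, h]; decide)
    rw [ca_neg G g x y, ca_neg G g y z] at k
    linarith

theorem ker_tree (o : V → V → V → ZMod 2) (r : V) (p : V → V)
    (g : G.edgeSet → ℚ) (hg : g ∈ LinearMap.ker (Lm G o r p)) (x : V) (hx : x ≠ r) :
    ca G g x (p x) = 0 := by
  rw [LinearMap.mem_ker] at hg
  exact congrFun (congrArg Prod.fst hg) ⟨x, hx⟩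

end

end RatM

open RatM in
theorem exists_z2 {V : Type} [Fintype V] [DecidableEq V] (G : SimpleGraph V)
    [DecidableRel G.Adj] (hc : G.Connected) (hl : LCy G) (hne : ∃ x y, G.Adj x y)
    (hχ : (Fintype.card V : ℤ) - (G.edgeFinset.card : ℤ) + ((G.cliqueFinset 3).card : ℤ) = 0)
    (o : V → V → V → ZMod 2) (ho : IsOri G o) :
    ∃ (c : V → V → ℤ × ℤ) (r : V) (p : V → V) (h : V → ℕ), (∀ x y, c y x = - c x y) ∧
      Coy G c ∧ Gau G c r p h ∧ AddSubgroup.closure {b | ∃ x y, G.Adj x y ∧ b = c x y} = ⊤ := by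
  have hne' := hne
  obtain ⟨r, _, _⟩ := hne'
  obtain ⟨p, h, hr, hp⟩ := exists_tree G hc r
  have hdim := ker_dim G hl hne hχ o ho r p
  have : Nontrivial (LinearMap.ker (Lm G o r p)) :=
    Module.nontrivial_of_finrank_pos (R := ℚ) (by omega)
  obtain ⟨k1, hk1⟩ := exists_ne (0 : LinearMap.ker (Lm G o r p))
  obtain ⟨k2, hk2⟩ := exists_linearIndependent_pair_of_one_lt_finrank hdim hk1
  rw [LinearIndependent.pair_iff] at hk2
  -- the values
  let v : V → V → ℚ × ℚ := fun x y => (ca G k1.1 x y, ca G k2.1 x y)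
  let M : Submodule ℤ (ℚ × ℚ) := Submodule.span ℤ (Set.range (fun q : V × V => v q.1 q.2))
  have hv : ∀ x y, v x y ∈ M := fun x y => Submodule.subset_span ⟨(x, y), rfl⟩
  have : Module.Finite ℤ M := Module.Finite.span_of_finite ℤ (Set.finite_range _)
  have : Module.Free ℤ M := Module.free_of_finite_type_torsion_free'
  have hrank : 1 < Module.finrank ℤ M := by
    by_contra hcon
    obtain ⟨u, hu⟩ := (finrank_le_one_iff (K := ℤ) (V := M)).1 (by omega)
    have hall : ∀ x y, u.1.2 * ca G k1.1 x y = u.1.1 * ca G k2.1 x y := by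
      intro x y
      obtain ⟨n, hn⟩ := hu ⟨v x y, hv x y⟩
      have hn' : n • u.1 = v x y := congrArg Subtype.val hn
      have a1 : (n : ℚ) * u.1.1 = ca G k1.1 x y := by
        have := congrArg Prod.fst hn'
        simpa using this
      have a2 : (n : ℚ) * u.1.2 = ca G k2.1 x y := by
        have := congrArg Prod.snd hn'
        simpa using this
      rw [← a1, ← a2]
      ring
    have h0 : u.1.2 • k1 + (- u.1.1) • k2 = 0 := by
      apply Subtype.ext
      change u.1.2 • k1.1 + (- u.1.1) • k2.1 = 0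
      apply ca_inj G
      intro x y
      rw [ca_add, ca_smul, ca_smul]
      linarith [hall x y]
    obtain ⟨b1, b2⟩ := hk2 _ _ h0
    have b3 : u.1.1 = 0 := by linarith
    apply hk1
    apply Subtype.ext
    apply ca_inj G
    intro x y
    obtain ⟨n, hn⟩ := hu ⟨v x y, hv x y⟩
    have hn' : n • u.1 = v x y := congrArg Subtype.val hn
    have a1 : (n : ℚ) * u.1.1 = ca G k1.1 x y := by
      have := congrArg Prod.fst hn'
      simpa using this
    rw [← a1, b3, mul_zero]
  let b := Module.finBasis ℤ M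
  let i0 : Fin (Module.finrank ℤ M) := ⟨0, by omega⟩
  let i1 : Fin (Module.finrank ℤ M) := ⟨1, by omega⟩
  have hi : i0 ≠ i1 := by
    intro hh
    have := congrArg Fin.val hh
    simp [i0, i1] at this
  let π : M →ₗ[ℤ] ℤ × ℤ := (b.coord i0).prod (b.coord i1)
  have hπ : ∀ m : ℤ × ℤ, ∃ a : M, π a = m := by
    rintro ⟨m, n⟩
    refine ⟨m • b i0 + n • b i1, ?_⟩
    apply Prod.ext
    · change b.coord i0 (m • b i0 + n • b i1) = m
      rw [map_add, map_smul, map_smul, Module.Basis.coord_apply, Module.Basis.coord_apply,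
        Module.Basis.repr_self, Module.Basis.repr_self, Finsupp.single_eq_same,
        Finsupp.single_eq_of_ne hi]
      simp
    · change b.coord i1 (m • b i0 + n • b i1) = n
      rw [map_add, map_smul, map_smul, Module.Basis.coord_apply, Module.Basis.coord_apply,
        Module.Basis.repr_self, Module.Basis.repr_self, Finsupp.single_eq_same,
        Finsupp.single_eq_of_ne hi.symm]
      simp
  refine ⟨fun x y => π ⟨v x y, hv x y⟩, r, p, h, ?_, ?_, ⟨hr, hp, ?_⟩, ?_⟩
  · intro x y
    simp only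
    rw [← map_neg]
    congr 1
    apply Subtype.ext
    change v y x = - v x y
    simp only [v]
    rw [ca_neg G k1.1 x y, ca_neg G k2.1 x y]
    rfl
  · intro x y z h1 h2 h3
    simp only
    rw [← map_add]
    congr 1
    apply Subtype.ext
    change v x y + v y z = v x z
    simp only [v]
    rw [← ker_coy G o ho r p k1.1 k1.2 x y z h1 h2 h3,
      ← ker_coy G o ho r p k2.1 k2.2 x y z h1 h2 h3]
    rfl
  · intro x hx
    simp only
    have : (⟨v x (p x), hv x (p x)⟩ : M) = 0 := by
      apply Subtype.ext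
      change v x (p x) = 0
      simp only [v]
      rw [ker_tree G o r p k1.1 k1.2 x hx, ker_tree G o r p k2.1 k2.2 x hx]
      rfl
    rw [this, map_zero]
  · rw [eq_top_iff]
    rintro m -
    obtain ⟨⟨a, ha⟩, rfl⟩ := hπ m
    induction ha using Submodule.span_induction with
    | mem a ha' =>
      obtain ⟨⟨x, y⟩, rfl⟩ := ha'
      by_cases hxy : G.Adj x y
      · exact AddSubgroup.subset_closure ⟨x, y, hxy, rfl⟩
      · have : (⟨v x y, hv x y⟩ : M) = 0 := by
          apply Subtype.ext
          change v x y = 0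
          simp only [v]
          rw [ca_not G _ hxy, ca_not G _ hxy]
          rfl
        simp only
        rw [this, map_zero]
        exact AddSubgroup.zero_mem _
    | zero =>
      have : (⟨0, Submodule.zero_mem _⟩ : M) = 0 := rfl
      rw [this, map_zero]
      exact AddSubgroup.zero_mem _
    | add a a' ha1 ha2 k1 k2 =>
      have : (⟨a + a', Submodule.add_mem _ ha1 ha2⟩ : M) = ⟨a, ha1⟩ + ⟨a', ha2⟩ := rfl
      rw [this, map_add]
      exact AddSubgroup.add_mem _ k1 k2
    | smul n a ha1 k1 =>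
      have : (⟨n • a, Submodule.smul_mem _ n ha1⟩ : M) = n • ⟨a, ha1⟩ := rfl
      rw [this, map_smul]
      exact AddSubgroup.zsmul_mem _ k1 n

end Pool.Agent.H71.Clq
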