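import Mathlib

set_option autoImplicit false

/-!
# Module VCBD-A: the far points of the torus grid are connected
-/

namespace Pool.Agent.H71.Clq

/-- near points -/
def Near (k : ℕ) (i : ZMod (30 * k) × ZMod (30 * k)) : Prop :=
  ∃ (j : Fin 3) (a b : ℤ), |a| ≤ 2 * k ∧ |b| ≤ 2 * k ∧
    i = (((10 * k * j + a : ℤ) : ZMod (30 * k)), ((b : ℤ) : ZMod (30 * k)))

theorem const_of_step {N : ℕ} [NeZero N] (g : ZMod N → ZMod 2) (hg : ∀ x, g (x + 1) = g x)
    (x y : ZMod N) : g x = g y := by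
  have key : ∀ n : ℕ, g (n : ZMod N) = g 0 := by
    intro n
    induction n with
    | zero => simp
    | succ n ih => rw [Nat.cast_succ, hg, ih]
  have h : ∀ x : ZMod N, g x = g 0 := by
    intro x
    have := key x.val
    rwa [ZMod.natCast_zmod_val] at this
  rw [h x, h y]

theorem grid (k : ℕ) (hk : 1 ≤ k) (F : ZMod (30 * k) × ZMod (30 * k) → ZMod 2)
    (h1 : ∀ i, ¬ Near k i → ¬ Near k (i + (1, 0)) → F (i + (1, 0)) = F i)
    (h2 : ∀ i, ¬ Near k i → ¬ Near k (i + (0, 1)) → F (i + (0, 1)) = F i) :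
    ∀ i j, ¬ Near k i → ¬ Near k j → F i = F j := by
  have : NeZero (30 * k) := ⟨by omega⟩
  let NX : ZMod (30 * k) → Prop := fun x =>
    ∃ (j : Fin 3) (a : ℤ), |a| ≤ 2 * k ∧ x = ((10 * k * j + a : ℤ) : ZMod (30 * k))
  let NY : ZMod (30 * k) → Prop := fun y => ∃ b : ℤ, |b| ≤ 2 * k ∧ y = ((b : ℤ) : ZMod (30 * k))
  have hnear : ∀ x y, Near k (x, y) ↔ NX x ∧ NY y := by
    intro x y
    constructor
    · rintro ⟨j, a, b, ha, hb, hi⟩
      rw [Prod.mk.injEq] at hi
      exact ⟨⟨j, a, ha, hi.1⟩, ⟨b, hb, hi.2⟩⟩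
    · rintro ⟨⟨j, a, ha, hx⟩, ⟨b, hb, hy⟩⟩
      exact ⟨j, a, b, ha, hb, by rw [hx, hy]⟩
  have hk' : (1 : ℤ) ≤ k := by exact_mod_cast hk
  -- the special coordinate
  have hX0 : ¬ NX ((5 * k : ℤ) : ZMod (30 * k)) := by
    rintro ⟨j, a, ha, hx⟩
    rw [ZMod.intCast_eq_intCast_iff_dvd_sub] at hx
    obtain ⟨c, hc⟩ := hx
    push_cast at hc
    rw [abs_le] at ha
    have hj : (j : ℕ) = 0 ∨ (j : ℕ) = 1 ∨ (j : ℕ) = 2 := by omega
    have hc1 : c < 1 := by
      by_contra hcon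
      have : (1 : ℤ) ≤ c := by omega
      have h3 : 30 * (k : ℤ) ≤ 30 * (k : ℤ) * c := by nlinarith
      rcases hj with h | h | h <;> rw [h] at hc <;> push_cast at hc <;> nlinarith
    have hc2 : -1 < c := by
      by_contra hcon
      have : c ≤ -1 := by omega
      have h3 : 30 * (k : ℤ) * c ≤ -(30 * (k : ℤ)) := by nlinarith
      rcases hj with h | h | h <;> rw [h] at hc <;> push_cast at hc <;> nlinarith
    have hc0 : c = 0 := by omega
    subst hc0
    rcases hj with h | h | h <;> rw [h] at hc <;> push_cast at hc <;> nlinarith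
  have hY0 : ¬ NY ((5 * k : ℤ) : ZMod (30 * k)) := by
    rintro ⟨b, hb, hx⟩
    apply hX0
    exact ⟨0, b, hb, by rw [hx]; simp⟩
  have hrow : ∀ y, ¬ NY y → ∀ x x', F (x, y) = F (x', y) := by
    intro y hy
    apply const_of_step (fun x => F (x, y))
    intro x
    have := h1 (x, y) (fun h => hy ((hnear x y).1 h).2) (by
      intro h
      have h' : (x, y) + ((1, 0) : ZMod (30 * k) × ZMod (30 * k)) = (x + 1, y) := by simp
      rw [h'] at h
      exact hy ((hnear _ y).1 h).2)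
    simpa using this
  have hcol : ∀ x, ¬ NX x → ∀ y y', F (x, y) = F (x, y') := by
    intro x hx
    apply const_of_step (fun y => F (x, y))
    intro y
    have := h2 (x, y) (fun h => hx ((hnear x y).1 h).1) (by
      intro h
      have h' : (x, y) + ((0, 1) : ZMod (30 * k) × ZMod (30 * k)) = (x, y + 1) := by simp
      rw [h'] at h
      exact hx ((hnear x _).1 h).1)
    simpa using this
  have hmain : ∀ i, ¬ Near k i → F i = F (((5 * k : ℤ) : ZMod (30 * k)), ((5 * k : ℤ) : ZMod (30 * k))) := by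
    rintro ⟨x, y⟩ hi
    rw [hnear, not_and_or] at hi
    rcases hi with hx | hy
    · rw [hcol x hx y ((5 * k : ℤ) : ZMod (30 * k))]
      exact hrow _ hY0 _ _
    · rw [hrow y hy x ((5 * k : ℤ) : ZMod (30 * k))]
      exact hcol _ hX0 _ _
  intro i j hi hj
  rw [hmain i hi, hmain j hj]

end Pool.Agent.H71.Clq
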