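import Mathlib
import Pool.Agent.H71.Clq.Vc
import Pool.Agent.H71.Clq.DualL

set_option autoImplicit false

/-!
# Module VCBD-B (push): push forward of finite even sets

`z' (X, Y)` = the sum of `z x₀ y₀` over all `(x₀, y₀)` with `z x₀ y₀ ≠ 0` and `X = (x₀.1, redN N (x₀.2 + t))`,
`Y = (y₀.1, redN N (y₀.2 + t))` (finite sum).
-/

namespace Pool.Agent.H71.Clq

/-- reduction modulo `N` -/
def redN (N : ℕ) (i : ℤ × ℤ) : ZMod N × ZMod N := ((i.1 : ZMod N), (i.2 : ZMod N))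

/-- push forward of finite even sets along `V × ℤ² → V × (ZMod N)²`, translated by `t` -/
theorem push {V : Type} (G : SimpleGraph V) (c : V → V → ℤ × ℤ) (hs : ∀ x y, c y x = - c x y)
    (N : ℕ) (hs' : ∀ x y, redN N (c y x) = - redN N (c x y))
    (z : V × (ℤ × ℤ) → V × (ℤ × ℤ) → ZMod 2) (hzs : ∀ x y, z x y = z y x)
    (hz0 : ∀ x y, ¬ (VC G c hs).Adj x y → z x y = 0)
    (hfin : {x : (V × (ℤ × ℤ)) × (V × (ℤ × ℤ)) | z x.1 x.2 ≠ 0}.Finite) (hev : Ev z)
    (t : ℤ × ℤ) :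
    ∃ z' : V × (ZMod N × ZMod N) → V × (ZMod N × ZMod N) → ZMod 2,
      (∀ x y, z' x y = z' y x) ∧
      (∀ x y, ¬ (VC G (fun x y => redN N (c x y)) hs').Adj x y → z' x y = 0) ∧ Ev z' ∧
      (∀ x y, z' x y ≠ 0 → ∃ x₀ y₀, z x₀ y₀ ≠ 0 ∧ x = (x₀.1, redN N (x₀.2 + t)) ∧
        y = (y₀.1, redN N (y₀.2 + t))) ∧
      (∀ x y, (∀ x₀ y₀, z x₀ y₀ ≠ 0 → x₀.1 = x.1 → y₀.1 = y.1 → redN N x₀.2 = redN N x.2 →
          redN N y₀.2 = redN N y.2 → x₀ = x ∧ y₀ = y) →
        z' (x.1, redN N (x.2 + t)) (y.1, redN N (y.2 + t)) = z x y) := by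
  classical
  let φ : V × (ℤ × ℤ) → V × (ZMod N × ZMod N) := fun x => (x.1, redN N (x.2 + t))
  let T : Finset ((V × (ℤ × ℤ)) × (V × (ℤ × ℤ))) := hfin.toFinset
  have hT : ∀ p, p ∈ T ↔ z p.1 p.2 ≠ 0 := by
    intro p
    rw [Set.Finite.mem_toFinset]
    rfl
  let z' : V × (ZMod N × ZMod N) → V × (ZMod N × ZMod N) → ZMod 2 := fun X Y =>
    ∑ p ∈ T, if φ p.1 = X ∧ φ p.2 = Y then z p.1 p.2 else 0
  have hex : ∀ X Y, z' X Y ≠ 0 → ∃ p : (V × (ℤ × ℤ)) × (V × (ℤ × ℤ)),
      z p.1 p.2 ≠ 0 ∧ φ p.1 = X ∧ φ p.2 = Y := by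
    intro X Y h
    obtain ⟨p, hp, hp'⟩ := Finset.exists_ne_zero_of_sum_ne_zero h
    by_cases hc : φ p.1 = X ∧ φ p.2 = Y
    · exact ⟨p, (hT p).1 hp, hc.1, hc.2⟩
    · rw [if_neg hc] at hp'
      exact absurd rfl hp'
  have hred : ∀ a b : ℤ × ℤ, redN N (a + b) = redN N a + redN N b := by
    intro a b
    simp [redN]
  refine ⟨z', ?_, ?_, ?_, ?_, ?_⟩
  · intro X Y
    refine Finset.sum_nbij' Prod.swap Prod.swap ?_ ?_ ?_ ?_ ?_
    · intro p hp
      rw [hT] at hp ⊢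
      rwa [Prod.fst_swap, Prod.snd_swap, hzs]
    · intro p hp
      rw [hT] at hp ⊢
      rwa [Prod.fst_swap, Prod.snd_swap, hzs]
    · intro p _; exact Prod.swap_swap p
    · intro p _; exact Prod.swap_swap p
    · intro p _
      rw [Prod.fst_swap, Prod.snd_swap, hzs p.2 p.1]
      exact if_congr and_comm rfl rfl
  · intro X Y h
    by_contra hc
    obtain ⟨p, hp, h1, h2⟩ := hex X Y hc
    apply h
    have hadj : (VC G c hs).Adj p.1 p.2 := by
      by_contra hn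
      exact hp (hz0 _ _ hn)
    obtain ⟨h3, h4⟩ := hadj
    rw [← h1, ← h2]
    refine ⟨h3, ?_⟩
    show redN N (p.2.2 + t) = redN N (p.1.2 + t) + redN N (c p.1.1 p.2.1)
    rw [h4, hred, hred, hred]
    abel
  · intro X
    have hswap : ∑ᶠ Y, z' X Y = ∑ p ∈ T, ∑ᶠ Y, (if φ p.1 = X ∧ φ p.2 = Y then z p.1 p.2 else 0) := by
      apply finsum_sum_comm
      intro p _
      refine (Set.finite_singleton (φ p.2)).subset ?_
      intro Y hY
      rw [Function.mem_support] at hY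
      by_contra hne
      apply hY
      rw [if_neg]
      rintro ⟨-, h⟩
      exact hne h.symm
    rw [hswap]
    have hin : ∀ p ∈ T, ∑ᶠ Y, (if φ p.1 = X ∧ φ p.2 = Y then z p.1 p.2 else 0) =
        if φ p.1 = X then z p.1 p.2 else 0 := by
      intro p _
      rw [finsum_eq_single _ (φ p.2)]
      · simp
      · intro Y hY
        rw [if_neg]
        rintro ⟨-, h⟩
        exact hY h.symm
    rw [Finset.sum_congr rfl hin]
    have hsub : T ⊆ (T.image Prod.fst) ×ˢ (T.image Prod.snd) := by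
      intro p hp
      rw [Finset.mem_product]
      exact ⟨Finset.mem_image_of_mem _ hp, Finset.mem_image_of_mem _ hp⟩
    rw [Finset.sum_subset hsub, Finset.sum_product]
    · apply Finset.sum_eq_zero
      intro x _
      by_cases hx : φ x = X
      · simp only [hx, if_true]
        rw [← hev x, finsum_eq_sum_of_support_subset]
        intro y hy
        rw [Function.mem_support] at hy
        rw [Finset.mem_coe, Finset.mem_image]
        exact ⟨(x, y), (hT _).2 hy, rfl⟩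
      · simp only [hx, if_false, Finset.sum_const_zero]
    · intro p _ hp
      have : z p.1 p.2 = 0 := by
        by_contra hc
        exact hp ((hT p).2 hc)
      rw [this, ite_self]
  · intro X Y h
    obtain ⟨p, hp, h1, h2⟩ := hex X Y h
    exact ⟨p.1, p.2, hp, h1.symm, h2.symm⟩
  · intro x y huniq
    show ∑ p ∈ T, (if φ p.1 = φ x ∧ φ p.2 = φ y then z p.1 p.2 else 0) = z x y
    have hinj : ∀ u v : V × (ℤ × ℤ), φ u = φ v → u.1 = v.1 ∧ redN N u.2 = redN N v.2 := by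
      intro u v h
      have h1 := congrArg Prod.fst h
      have h2 := congrArg Prod.snd h
      refine ⟨h1, ?_⟩
      have h3 : redN N (u.2 + t) = redN N (v.2 + t) := h2
      rw [hred, hred] at h3
      exact add_right_cancel h3
    rw [Finset.sum_eq_single (x, y)]
    · rw [if_pos ⟨rfl, rfl⟩]
    · intro p hp hne
      rw [if_neg]
      rintro ⟨h1, h2⟩
      apply hne
      obtain ⟨a1, a2⟩ := hinj _ _ h1
      obtain ⟨b1, b2⟩ := hinj _ _ h2
      obtain ⟨e1, e2⟩ := huniq p.1 p.2 ((hT p).1 hp) a1 b1 a2 b2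
      exact Prod.ext e1 e2
    · intro hp
      have : z x y = 0 := by
        by_contra hc
        exact hp ((hT (x, y)).2 hc)
      simp [this]

end Pool.Agent.H71.Clq
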