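import Mathlib
import Pool.Agent.H71.Clq.Vc
import Pool.Agent.H71.Clq.Cyc
import Pool.Agent.H71.Clq.Grid
import Pool.Agent.H71.Clq.Push

set_option autoImplicit false

/-!
# Module VCBD: finite even sets in the `ℤ × ℤ` cover bound finite sets

Split in three parts: (A) `grid` in `Grid.lean`, (B) `push` in `Push.lean`, (C) `vc_bd` here.
(C) `vc_bd`. Choose `k ≥ 1` such that: `z x y ≠ 0` implies that the positions (second components) of `x, y` are in `[-k,k]²`; `c x y ∈ [-k,k]²` for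
   adjacent `x, y`; walks in the cover from `(r,0)` to `(x,0)` for all `x`, from `(r,0)` to `(r,(1,0))` and to `(r,(0,1))` have all positions in
   `[-k,k]²` (`vc_conn`). `N = 30 k`, `t j = (10 k j, 0)`, `G' = VC G (c mod N)` on `V × (ZMod N × ZMod N)` (connected by `vc_conn`, `χ = 0` by
   `vc_euler`, `LCy` by `vc_lcy`). `z' j` = push forward of `z` translated by `t j`. `three_dep` gives `a ≠ 0` and `θ` with boundary
   `∑ a j z' j`; fix `j` with `a j = 1`. All `z' l` are zero at points whose position is not in `t l + [-k,k]²`.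
   - For a vertex `X` outside of these three boxes all triangles at `X` have the same `θ`; adjacent `X, Y` outside share it. The translates by
     `i` of the walks above give: for far `i` the vertices `(r,i)`, `(x,i)`, `(r,i+(1,0))`, `(r,i+(0,1))` have the same value. By (A) all
     triangles having a vertex with far position have the same value `σ`.
   - Define `Φ s = 1` if `s = {x,y,w}` is a triangle of the cover with all positions in `[-5k,5k]²` and `θ (image of s translated by t j) ≠ σ`, else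
     `0`. Finite support. Boundary: let `x, y` be adjacent, `a ≠ b` common neighbours. If all four positions are in `[-5k,5k]²`:
     `Φ {x,y,a} + Φ {x,y,b} = θ + θ = ∑ a l z' l = z' j (…) = z x y` (the other `z' l` vanish because `t j + [-5k,5k]²` does not meet
     `t l + [-k,k]²` mod `30 k`; the only preimage with `z ≠ 0` is `(x,y)` itself). Otherwise all positions are outside of `[-3k,3k]²`,
     `z x y = 0`, and the triangles inside `[-5k,5k]²` have far vertices, so value `σ`, so both `Φ` are zero.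
-/

namespace Pool.Agent.H71.Clq

namespace VcBdAux

/-- the box `[-k,k]²` -/
def Bx (k : ℕ) (i : ℤ × ℤ) : Prop := |i.1| ≤ (k : ℤ) ∧ |i.2| ≤ (k : ℤ)

theorem Bx.mono {k k' : ℕ} {i : ℤ × ℤ} (h : Bx k i) (hk : k ≤ k') : Bx k' i := by
  have : (k : ℤ) ≤ k' := by exact_mod_cast hk
  exact ⟨h.1.trans this, h.2.trans this⟩

/-- every point is in a box -/
theorem exists_bx (i : ℤ × ℤ) : Bx (max i.1.natAbs i.2.natAbs) i := by
  constructor
  · rw [Int.abs_eq_natAbs]; exact_mod_cast le_max_left _ _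
  · rw [Int.abs_eq_natAbs]; exact_mod_cast le_max_right _ _

/-- walks with positions in a box -/
def RB {V : Type} (G : SimpleGraph V) (c : V → V → ℤ × ℤ) (hs : ∀ x y, c y x = - c x y) (k : ℕ)
    (u v : V × (ℤ × ℤ)) : Prop :=
  Relation.ReflTransGen (fun u v => (VC G c hs).Adj u v ∧ Bx k v.2) u v

theorem RB.mono {V : Type} {G : SimpleGraph V} {c : V → V → ℤ × ℤ} {hs : ∀ x y, c y x = - c x y}
    {k k' : ℕ} {u v : V × (ℤ × ℤ)} (h : RB G c hs k u v) (hk : k ≤ k') : RB G c hs k' u v := by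
  unfold RB at h ⊢
  induction h with
  | refl => exact Relation.ReflTransGen.refl
  | tail _ hvw ih => exact ih.tail ⟨hvw.1, hvw.2.mono hk⟩

theorem exists_rb {V : Type} {G : SimpleGraph V} {c : V → V → ℤ × ℤ} {hs : ∀ x y, c y x = - c x y}
    {u v : V × (ℤ × ℤ)} (h : (VC G c hs).Reachable u v) : ∃ k, RB G c hs k u v := by
  rw [SimpleGraph.reachable_iff_reflTransGen] at h
  induction h with
  | refl => exact ⟨0, Relation.ReflTransGen.refl⟩
  | @tail v w _ hvw ih =>
    obtain ⟨k, hk⟩ := ih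
    refine ⟨max k (max w.2.1.natAbs w.2.2.natAbs), ?_⟩
    exact (hk.mono (le_max_left _ _)).tail ⟨hvw, (exists_bx w.2).mono (le_max_right _ _)⟩

/-- a common bound over a finite type -/
theorem exists_bound {ι : Type} [Finite ι] (P : ι → ℕ → Prop) (hP : ∀ i, ∃ k, P i k)
    (hm : ∀ i k k', k ≤ k' → P i k → P i k') : ∃ k, ∀ i, P i k := by
  classical
  haveI := Fintype.ofFinite ι
  choose f hf using hP
  exact ⟨Finset.univ.sup f, fun i => hm i _ _ (Finset.le_sup (Finset.mem_univ i)) (hf i)⟩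

theorem exists_k {V : Type} [Fintype V] (G : SimpleGraph V) (c : V → V → ℤ × ℤ)
    (hs : ∀ x y, c y x = - c x y) (r : V) (hconn : (VC G c hs).Connected)
    (z : V × (ℤ × ℤ) → V × (ℤ × ℤ) → ZMod 2)
    (hfin : {x : (V × (ℤ × ℤ)) × (V × (ℤ × ℤ)) | z x.1 x.2 ≠ 0}.Finite) :
    ∃ k : ℕ, 1 ≤ k ∧ (∀ x y, z x y ≠ 0 → Bx k x.2 ∧ Bx k y.2) ∧ (∀ x y, Bx k (c x y)) ∧
      (∀ x, RB G c hs k (r, 0) (x, 0)) ∧ RB G c hs k (r, 0) (r, (1, 0)) ∧
      RB G c hs k (r, 0) (r, (0, 1)) := by
  obtain ⟨k1, h1⟩ : ∃ k, ∀ p : {x : (V × (ℤ × ℤ)) × (V × (ℤ × ℤ)) | z x.1 x.2 ≠ 0},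
      Bx k p.1.1.2 ∧ Bx k p.1.2.2 := by
    haveI : Finite {x : (V × (ℤ × ℤ)) × (V × (ℤ × ℤ)) | z x.1 x.2 ≠ 0} := hfin
    refine exists_bound _ (fun p => ?_) (fun p k k' hk h => ⟨h.1.mono hk, h.2.mono hk⟩)
    exact ⟨max _ _, (exists_bx _).mono (le_max_left _ _), (exists_bx _).mono (le_max_right _ _)⟩
  obtain ⟨k2, h2⟩ : ∃ k, ∀ p : V × V, Bx k (c p.1 p.2) :=
    exists_bound _ (fun p => ⟨_, exists_bx _⟩) (fun p k k' hk h => h.mono hk)
  obtain ⟨k3, h3⟩ : ∃ k, ∀ x : V, RB G c hs k (r, 0) (x, 0) :=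
    exists_bound _ (fun p => exists_rb (hconn.preconnected _ _)) (fun p k k' hk h => h.mono hk)
  obtain ⟨k4, h4⟩ := exists_rb (hconn.preconnected (r, 0) (r, ((1 : ℤ), (0 : ℤ))))
  obtain ⟨k5, h5⟩ := exists_rb (hconn.preconnected (r, 0) (r, ((0 : ℤ), (1 : ℤ))))
  refine ⟨k1 + k2 + k3 + k4 + k5 + 1, by omega, ?_, ?_, ?_, ?_, ?_⟩
  · intro x y hxy
    have := h1 ⟨(x, y), hxy⟩
    exact ⟨this.1.mono (by omega), this.2.mono (by omega)⟩
  · intro x y
    exact (h2 (x, y)).mono (by omega)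
  · intro x; exact (h3 x).mono (by omega)
  · exact h4.mono (by omega)
  · exact h5.mono (by omega)

theorem sep (k : ℕ) (hk : 1 ≤ k) (j l : Fin 3) (a : ℤ) (ha : |a| ≤ 7 * (k : ℤ))
    (h : ((30 * k : ℕ) : ℤ) ∣ a + 10 * k * ((j : ℕ) : ℤ) - 10 * k * ((l : ℕ) : ℤ)) :
    j = l ∧ a = 0 := by
  obtain ⟨q, hq⟩ := h
  have hk' : (1 : ℤ) ≤ k := by exact_mod_cast hk
  have hj := j.2
  have hl := l.2
  obtain ⟨m, hm⟩ : ∃ m : ℤ, m = 3 * q - ((j : ℕ) : ℤ) + ((l : ℕ) : ℤ) := ⟨_, rfl⟩
  have e : a = 10 * (k * m) := by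
    push_cast at hq
    rw [hm]
    linear_combination hq
  have hab := abs_le.1 ha
  have hm0 : m = 0 := by
    rcases lt_trichotomy m 0 with h | h | h
    · exfalso
      have : (k : ℤ) * m ≤ k * (-1) := mul_le_mul_of_nonneg_left (by omega) (by omega)
      omega
    · exact h
    · exfalso
      have : (k : ℤ) * 1 ≤ k * m := mul_le_mul_of_nonneg_left (by omega) (by omega)
      omega
  refine ⟨?_, by rw [e, hm0]; ring⟩
  apply Fin.ext
  rw [hm0] at hm
  omega

theorem redN_add (N : ℕ) (i j : ℤ × ℤ) : redN N (i + j) = redN N i + redN N j := by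
  simp [redN]

theorem redN_neg (N : ℕ) (i : ℤ × ℤ) : redN N (-i) = - redN N i := by
  simp [redN]

theorem redN_zero (N : ℕ) : redN N 0 = 0 := by
  simp [redN]

theorem redN_sub (N : ℕ) (i j : ℤ × ℤ) : redN N (i - j) = redN N i - redN N j := by
  simp [redN]

/-- reduction as a homomorphism -/
def redHom (N : ℕ) : ℤ × ℤ →+ ZMod N × ZMod N where
  toFun := redN N
  map_zero' := redN_zero N
  map_add' := redN_add N

theorem redHom_surj (N : ℕ) : Function.Surjective (redHom N) := by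
  rintro ⟨a, b⟩
  obtain ⟨a', ha⟩ := ZMod.intCast_surjective a
  obtain ⟨b', hb⟩ := ZMod.intCast_surjective b
  exact ⟨(a', b'), by simp [redHom, redN, ha, hb]⟩

/-- the translations -/
def tt (k : ℕ) (l : Fin 3) : ℤ × ℤ := (10 * k * ((l : ℕ) : ℤ), 0)

/-- separation of the three boxes -/
theorem sep2 (k : ℕ) (hk : 1 ≤ k) (j l : Fin 3) (i i' : ℤ × ℤ) (ha : Bx (7 * k) (i - i'))
    (h : redN (30 * k) (i + tt k j) = redN (30 * k) (i' + tt k l)) : j = l ∧ i = i' := by
  simp only [redN, tt, Prod.fst_add, Prod.snd_add, Prod.mk.injEq, add_zero] at h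
  obtain ⟨h1, h2⟩ := h
  rw [ZMod.intCast_eq_intCast_iff_dvd_sub] at h1 h2
  have e1 := sep k hk j l (i.1 - i'.1) (by
    have := ha.1
    simp only [Prod.fst_sub] at this
    push_cast at this
    exact this) (by
    obtain ⟨q, hq⟩ := h1
    exact ⟨-q, by linear_combination -hq⟩)
  have e2 := sep k hk 0 0 (i.2 - i'.2) (by
    have := ha.2
    simp only [Prod.snd_sub] at this
    push_cast at this
    exact this) (by
    obtain ⟨q, hq⟩ := h2
    refine ⟨-q, ?_⟩
    linear_combination -hq)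
  refine ⟨e1.1, Prod.ext ?_ ?_⟩
  · have := e1.2; omega
  · have := e2.2; omega

section clear

variable {W : Type} {G : SimpleGraph W} {θ : Set W → ZMod 2} {ζ : W → W → ZMod 2}

/-- all triangles at `X` have the value `s` -/
def Val (G : SimpleGraph W) (θ : Set W → ZMod 2) (X : W) (s : ZMod 2) : Prop :=
  ∀ u v, G.Adj X u → G.Adj X v → G.Adj u v → θ {X, u, v} = s

theorem eq_of_add_eq_zero' (a b : ZMod 2) (h : a + b = 0) : a = b := by
  revert a b; decide

theorem clear_base (hb : Bdy G θ ζ) {X : W} (hX : ∀ Y, ζ X Y = 0) {u v w : W} (h1 : G.Adj X u)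
    (h2 : G.Adj X v) (h3 : G.Adj u v) (h4 : G.Adj X w) (h5 : G.Adj u w) :
    θ {X, u, v} = θ {X, u, w} := by
  by_cases hvw : v = w
  · rw [hvw]
  · have := hb X u v w h1 h2 h3 h4 h5 hvw
    rw [hX u] at this
    exact eq_of_add_eq_zero' _ _ this

theorem clear_val (hl : LCy G) (hb : Bdy G θ ζ) {X : W} (hX : ∀ Y, ζ X Y = 0) {u v : W}
    (h1 : G.Adj X u) (h2 : G.Adj X v) (h3 : G.Adj u v) : Val G θ X (θ {X, u, v}) := by
  intro u' v' h1' h2' h3'
  have key : ∀ w, Relation.ReflTransGen (fun u v => G.Adj X u ∧ G.Adj X v ∧ G.Adj u v) u w →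
      ∀ w', G.Adj X w → G.Adj X w' → G.Adj w w' → θ {X, w, w'} = θ {X, u, v} := by
    intro w hw
    induction hw with
    | refl => intro w' _ hw1 hw2; exact clear_base hb hX h1 hw1 hw2 h2 h3
    | @tail w w2 _ hstep ih =>
      intro w' hw2X hw' hww'
      have e1 := clear_base hb hX hw2X hw' hww' hstep.1 hstep.2.2.symm
      have e2 := ih w2 hstep.1 hstep.2.1 hstep.2.2
      rw [e1, ← e2]
      congr 1
      ext q
      simp only [Set.mem_insert_iff, Set.mem_singleton_iff]
      tauto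
  exact key u' (hl.2 X u u' h1 h1') v' h1' h2' h3'

theorem exists_common (hl : LCy G) {x y : W} (h : G.Adj x y) :
    ∃ w, G.Adj x w ∧ G.Adj y w := by
  have h2 := hl.1 x y h
  have : {z | G.Adj x z ∧ G.Adj y z}.Nonempty := by
    rw [Set.nonempty_iff_ne_empty]
    intro h3
    rw [h3, Set.ncard_empty] at h2
    omega
  obtain ⟨w, hw⟩ := this
  exact ⟨w, hw.1, hw.2⟩

theorem val_adj (hl : LCy G) (hb : Bdy G θ ζ) {X Y : W} (hY : ∀ Z, ζ Y Z = 0) {s : ZMod 2}
    (hs : Val G θ X s) (h : G.Adj X Y) : Val G θ Y s := by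
  obtain ⟨a, ha1, ha2⟩ := exists_common hl h
  have h1 : θ {X, Y, a} = s := hs Y a h ha1 ha2
  have h2 := clear_val hl hb hY h.symm ha2 ha1
  have h3 : ({Y, X, a} : Set W) = {X, Y, a} := by
    ext q
    simp only [Set.mem_insert_iff, Set.mem_singleton_iff]
    tauto
  rw [h3, h1] at h2
  exact h2

end clear

/-- translated walks stay in the clear region -/
theorem val_walk {V : Type} {G : SimpleGraph V} {c : V → V → ℤ × ℤ}
    {hs : ∀ x y, c y x = - c x y} {N : ℕ} {hs' : ∀ x y, redN N (c y x) = - redN N (c x y)}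
    {θ : Set (V × (ZMod N × ZMod N)) → ZMod 2}
    {ζ : V × (ZMod N × ZMod N) → V × (ZMod N × ZMod N) → ZMod 2}
    (hl : LCy (VC G (fun x y => redN N (c x y)) hs'))
    (hb : Bdy (VC G (fun x y => redN N (c x y)) hs') θ ζ) {k : ℕ}
    {i : ZMod N × ZMod N} (hi : ∀ (x : V) (a : ℤ × ℤ), Bx k a → ∀ Y, ζ (x, i + redN N a) Y = 0)
    {u v : V × (ℤ × ℤ)} (h : RB G c hs k u v) {s : ZMod 2}
    (hu : Val (VC G (fun x y => redN N (c x y)) hs') θ (u.1, i + redN N u.2) s) :
    Val (VC G (fun x y => redN N (c x y)) hs') θ (v.1, i + redN N v.2) s := by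
  induction h with
  | refl => exact hu
  | @tail v w _ hvw ih =>
    refine val_adj hl hb (hi w.1 w.2 hvw.2) ih ⟨hvw.1.1, ?_⟩
    simp only
    rw [hvw.1.2, redN_add, add_assoc]

end VcBdAux

open VcBdAux in
theorem vc_bd {V : Type} [Fintype V] [DecidableEq V] (G : SimpleGraph V) [DecidableRel G.Adj]
    (hc : G.Connected) (hl : LCy G)
    (hχ : (Fintype.card V : ℤ) - (G.edgeFinset.card : ℤ) + ((G.cliqueFinset 3).card : ℤ) = 0)
    (c : V → V → ℤ × ℤ) (hs : ∀ x y, c y x = - c x y) (hcy : Coy G c)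
    (r : V) (p : V → V) (h : V → ℕ) (hg : Gau G c r p h)
    (hgen : AddSubgroup.closure {b | ∃ x y, G.Adj x y ∧ b = c x y} = ⊤)
    (z : V × (ℤ × ℤ) → V × (ℤ × ℤ) → ZMod 2) (hzs : ∀ x y, z x y = z y x)
    (hz0 : ∀ x y, ¬ (VC G c hs).Adj x y → z x y = 0)
    (hfin : {x : (V × (ℤ × ℤ)) × (V × (ℤ × ℤ)) | z x.1 x.2 ≠ 0}.Finite) (hev : Ev z) :
    ∃ θ : Set (V × (ℤ × ℤ)) → ZMod 2, {s | θ s ≠ 0}.Finite ∧ Bdy (VC G c hs) θ z := by
  classical
  by_cases hE : ∃ x y, G.Adj x y
  swap
  · refine ⟨fun _ => 0, by simp, ?_⟩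
    intro x y a b hxy
    exact absurd ⟨x.1, y.1, hxy.1⟩ hE
  -- a neighbour of the root
  obtain ⟨y0, hy0⟩ : ∃ y0, G.Adj r y0 := by
    obtain ⟨x, y, hxy⟩ := hE
    obtain ⟨v, hv⟩ : ∃ v, v ≠ r := by
      by_cases hx : x = r
      · exact ⟨y, fun h => hxy.ne (hx.trans h.symm)⟩
      · exact ⟨x, hx⟩
    obtain ⟨w⟩ := hc.preconnected r v
    cases w with
    | nil => exact absurd rfl hv
    | @cons _ b _ hadj _ => exact ⟨b, hadj⟩
  have hconn : (VC G c hs).Connected := vc_conn G c hs hc r p h hg hgen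
  obtain ⟨k, hk, K1, K2, K3, K4, K5⟩ := exists_k G c hs r hconn z hfin
  -- the finite cover
  haveI : NeZero (30 * k) := ⟨by omega⟩
  obtain ⟨N, hN⟩ : ∃ N, N = 30 * k := ⟨_, rfl⟩
  have hs' : ∀ x y, redN (30 * k) (c y x) = - redN (30 * k) (c x y) := by
    intro x y; rw [hs x y, redN_neg]
  have hcy' : Coy G (fun x y => redN (30 * k) (c x y)) := by
    intro x y w h1 h2 h3
    simp only
    rw [← redN_add, hcy x y w h1 h2 h3]
  have hg' : Gau G (fun x y => redN (30 * k) (c x y)) r p h := by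
    refine ⟨hg.1, hg.2.1, ?_⟩
    intro x hx
    simp only
    rw [hg.2.2 x hx, redN_zero]
  have hgen' : AddSubgroup.closure {b | ∃ x y, G.Adj x y ∧ b = redN (30 * k) (c x y)} = ⊤ := by
    have e : {b | ∃ x y, G.Adj x y ∧ b = redN (30 * k) (c x y)} =
        (redHom (30 * k)) '' {b | ∃ x y, G.Adj x y ∧ b = c x y} := by
      ext b
      constructor
      · rintro ⟨x, y, hxy, rfl⟩
        exact ⟨c x y, ⟨x, y, hxy, rfl⟩, rfl⟩
      · rintro ⟨_, ⟨x, y, hxy, rfl⟩, rfl⟩
        exact ⟨x, y, hxy, rfl⟩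
    rw [e, ← AddMonoidHom.map_closure, hgen]
    exact AddSubgroup.map_top_of_surjective _ (redHom_surj _)
  have hl' := vc_lcy G (fun x y => redN (30 * k) (c x y)) hs' hcy' hl
  have hconn' := vc_conn G (fun x y => redN (30 * k) (c x y)) hs' hc r p h hg' hgen'
  have hχ' := vc_euler G (fun x y => redN (30 * k) (c x y)) hs' hcy' hl hχ
  -- push forwards
  have hpush := fun l : Fin 3 => push G c hs (30 * k) hs' z hzs hz0 hfin hev (tt k l)
  choose z' p1 p2 p3 p4 p5 using hpush
  obtain ⟨α, hα, θ, hθ⟩ := three_dep (VC G (fun x y => redN (30 * k) (c x y)) hs') hconn' hl' hχ'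
    z' p1 p2 p3
  obtain ⟨j, hj⟩ : ∃ j, α j ≠ 0 := by
    by_contra hcon
    push Not at hcon
    exact hα (funext hcon)
  have hj1 : α j = 1 := by
    have : ∀ a : ZMod 2, a ≠ 0 → a = 1 := by decide
    exact this _ hj
  -- clear vertices
  have hclear : ∀ (i : ZMod (30 * k) × ZMod (30 * k)), ¬ Near k i → ∀ (x : V) (a : ℤ × ℤ),
      Bx k a → ∀ Y, (fun x y => ∑ i, α i * z' i x y) (x, i + redN (30 * k) a) Y = 0 := by
    intro i hi x a ha Y
    refine Finset.sum_eq_zero (fun l _ => ?_)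
    by_contra hcon
    have hne : z' l (x, i + redN (30 * k) a) Y ≠ 0 := fun h0 => hcon (by rw [h0, mul_zero])
    obtain ⟨x0, y0, hz, hx0, _⟩ := p4 l _ _ hne
    apply hi
    have h1 := (Prod.mk.inj hx0).2
    have h2 : i = redN (30 * k) (x0.2 + tt k l - a) := by
      rw [redN_sub, ← h1]; abel
    have hb := (K1 _ _ hz).1
    have b1 := abs_le.1 hb.1
    have b2 := abs_le.1 hb.2
    have b3 := abs_le.1 ha.1
    have b4 := abs_le.1 ha.2
    refine ⟨l, x0.2.1 - a.1, x0.2.2 - a.2, ?_, ?_, ?_⟩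
    · rw [abs_le]; constructor <;> linarith [b1.1, b1.2, b3.1, b3.2]
    · rw [abs_le]; constructor <;> linarith [b2.1, b2.2, b4.1, b4.2]
    · rw [h2]
      simp only [redN, tt, Prod.fst_add, Prod.snd_add, Prod.fst_sub, Prod.snd_sub, Prod.mk.injEq]
      constructor
      · congr 1; ring
      · congr 1; ring
  -- a triangle at every `(r, i)`
  obtain ⟨w0, hw0, hw0'⟩ := exists_common hl hy0
  have hz1 : redN (30 * k) (0 : ℤ × ℤ) = 0 := redN_zero _
  have ta : ∀ i : ZMod (30 * k) × ZMod (30 * k), (VC G (fun x y => redN (30 * k) (c x y)) hs').Adj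
      (r, i) (y0, i + redN (30 * k) (c r y0)) := fun i => ⟨hy0, rfl⟩
  have tb : ∀ i : ZMod (30 * k) × ZMod (30 * k), (VC G (fun x y => redN (30 * k) (c x y)) hs').Adj
      (r, i) (w0, i + redN (30 * k) (c r w0)) := fun i => ⟨hw0, rfl⟩
  have tc : ∀ i : ZMod (30 * k) × ZMod (30 * k), (VC G (fun x y => redN (30 * k) (c x y)) hs').Adj
      (y0, i + redN (30 * k) (c r y0)) (w0, i + redN (30 * k) (c r w0)) := fun i => by
    refine ⟨hw0', ?_⟩
    simp only
    rw [add_assoc, ← redN_add, hcy r y0 w0 hy0 hw0' hw0]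
  obtain ⟨F, hF⟩ : ∃ F : ZMod (30 * k) × ZMod (30 * k) → ZMod 2, F = fun i =>
    θ {(r, i), (y0, i + redN (30 * k) (c r y0)), (w0, i + redN (30 * k) (c r w0))} := ⟨_, rfl⟩
  have hFv : ∀ i s, Val (VC G (fun x y => redN (30 * k) (c x y)) hs') θ (r, i) s → F i = s := by
    intro i s hv
    rw [hF]
    exact hv _ _ (ta i) (tb i) (tc i)
  have hbase : ∀ i, ¬ Near k i →
      Val (VC G (fun x y => redN (30 * k) (c x y)) hs') θ (r, i + redN (30 * k) 0) (F i) := by
    intro i hi
    have h1 := hclear i hi r 0 ⟨by simp, by simp⟩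
    rw [hz1, add_zero] at h1 ⊢
    rw [hF]
    exact clear_val hl' hθ h1 (ta i) (tb i) (tc i)
  have hF1 : ∀ i, ¬ Near k i → F (i + (1, 0)) = F i := by
    intro i hi
    apply hFv
    have := val_walk hl' hθ (hclear i hi) K4 (hbase i hi)
    simpa [redN] using this
  have hF2 : ∀ i, ¬ Near k i → F (i + (0, 1)) = F i := by
    intro i hi
    apply hFv
    have := val_walk hl' hθ (hclear i hi) K5 (hbase i hi)
    simpa [redN] using this
  have hgrid := grid k hk F (fun i hi _ => hF1 i hi) (fun i hi _ => hF2 i hi)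
  obtain ⟨σ, hσ⟩ : ∃ σ, ∀ i, ¬ Near k i → F i = σ := by
    by_cases hex : ∃ i, ¬ Near k i
    · obtain ⟨i0, hi0⟩ := hex
      exact ⟨F i0, fun i hi => hgrid i i0 hi hi0⟩
    · exact ⟨0, fun i hi => absurd ⟨i, hi⟩ hex⟩
  have hfar : ∀ x i, ¬ Near k i →
      Val (VC G (fun x y => redN (30 * k) (c x y)) hs') θ (x, i) σ := by
    intro x i hi
    have := val_walk hl' hθ (hclear i hi) (K3 x) (hbase i hi)
    simp only at this
    rw [hz1, add_zero, hσ i hi] at this
    exact this
  -- the lift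
  obtain ⟨τ, hτ⟩ : ∃ τ : V × (ℤ × ℤ) → V × (ZMod (30 * k) × ZMod (30 * k)),
    τ = fun u => (u.1, redN (30 * k) (u.2 + tt k j)) := ⟨_, rfl⟩
  have hτadj : ∀ u v, (VC G c hs).Adj u v →
      (VC G (fun x y => redN (30 * k) (c x y)) hs').Adj (τ u) (τ v) := by
    intro u v huv
    rw [hτ]
    refine ⟨huv.1, ?_⟩
    simp only
    rw [huv.2, ← redN_add]
    congr 1
    abel
  have hτimg : ∀ x y a, τ '' {x, y, a} = {τ x, τ y, τ a} := by
    intro x y a
    rw [Set.image_insert_eq, Set.image_pair]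
  refine ⟨fun s => if s ⊆ {u | Bx (5 * k) u.2} then θ (τ '' s) + σ else 0, ?_, ?_⟩
  · have hbox : {u : V × (ℤ × ℤ) | Bx (5 * k) u.2}.Finite := by
      refine (Set.finite_univ.prod ((Set.finite_Icc (-((5 * k : ℕ) : ℤ)) ((5 * k : ℕ) : ℤ)).prod
        (Set.finite_Icc (-((5 * k : ℕ) : ℤ)) ((5 * k : ℕ) : ℤ)))).subset ?_
      rintro ⟨x, i⟩ ⟨h1, h2⟩
      exact ⟨Set.mem_univ _, abs_le.1 h1, abs_le.1 h2⟩
    refine hbox.finite_subsets.subset ?_
    intro s hs1
    by_contra hcon
    exact hs1 (if_neg hcon)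
  · intro x y a b hxy hxa hya hxb hyb hab
    simp only
    have hstep : ∀ u v, (VC G c hs).Adj u v → Bx k (v.2 - u.2) := by
      intro u v huv
      rw [huv.2, add_sub_cancel_left]
      exact K2 _ _
    have sxy := hstep x y hxy
    have sxa := hstep x a hxa
    have sya := hstep y a hya
    have sxb := hstep x b hxb
    have syb := hstep y b hyb
    simp only [Bx, Prod.fst_sub, Prod.snd_sub, abs_le] at sxy sxa sya sxb syb
    have hset : ∀ u v w : V × (ℤ × ℤ), ({u, v, w} : Set (V × (ℤ × ℤ))) ⊆ {u | Bx (5 * k) u.2} ↔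
        Bx (5 * k) u.2 ∧ Bx (5 * k) v.2 ∧ Bx (5 * k) w.2 := by
      intro u v w
      constructor
      · intro hsub
        exact ⟨hsub (by simp), hsub (by simp), hsub (by simp)⟩
      · rintro ⟨h1, h2, h3⟩ q hq
        simp only [Set.mem_insert_iff, Set.mem_singleton_iff] at hq
        rcases hq with rfl | rfl | rfl
        · exact h1
        · exact h2
        · exact h3
    have hkz : (1 : ℤ) ≤ k := by exact_mod_cast hk
    by_cases hall : Bx (5 * k) x.2 ∧ Bx (5 * k) y.2 ∧ Bx (5 * k) a.2 ∧ Bx (5 * k) b.2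
    · obtain ⟨bx, bby, ba, bb⟩ := hall
      rw [if_pos ((hset x y a).2 ⟨bx, bby, ba⟩), if_pos ((hset x y b).2 ⟨bx, bby, bb⟩),
        hτimg, hτimg]
      have hτab : τ a ≠ τ b := by
        intro heq
        rw [hτ] at heq
        have h1 := Prod.mk.inj heq
        have h2 := sep2 k hk j j a.2 b.2 (by
          simp only [Bx, abs_le, Prod.fst_sub, Prod.snd_sub] at sxa sxb ⊢
          push_cast
          constructor <;> constructor <;>
          linarith [sxa.1.1, sxa.1.2, sxa.2.1, sxa.2.2, sxb.1.1, sxb.1.2, sxb.2.1, sxb.2.2]) h1.2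
        exact hab (Prod.ext h1.1 h2.2)
      have hB := hθ (τ x) (τ y) (τ a) (τ b) (hτadj _ _ hxy) (hτadj _ _ hxa) (hτadj _ _ hya)
        (hτadj _ _ hxb) (hτadj _ _ hyb) hτab
      have hsum : ∑ l, α l * z' l (τ x) (τ y) = z x y := by
        rw [Finset.sum_eq_single j]
        · rw [hj1, one_mul]
          have := p5 j x y (by
            intro x₀ y₀ hz e1 e2 e3 e4
            have hb1 := (K1 _ _ hz).1
            have hb2 := (K1 _ _ hz).2
            simp only [Bx, abs_le] at hb1 hb2 bx bby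
            push_cast at bx bby
            have q1 := sep2 k hk j j x₀.2 x.2 (by
              simp only [Bx, abs_le, Prod.fst_sub, Prod.snd_sub]
              push_cast
              constructor <;> constructor <;>
              linarith [hb1.1.1, hb1.1.2, hb1.2.1, hb1.2.2, bx.1.1, bx.1.2, bx.2.1, bx.2.2]) (by
              rw [redN_add, redN_add, e3])
            have q2 := sep2 k hk j j y₀.2 y.2 (by
              simp only [Bx, abs_le, Prod.fst_sub, Prod.snd_sub]
              push_cast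
              constructor <;> constructor <;>
              linarith [hb2.1.1, hb2.1.2, hb2.2.1, hb2.2.2, bby.1.1, bby.1.2, bby.2.1, bby.2.2])
              (by rw [redN_add, redN_add, e4])
            exact ⟨Prod.ext e1 q1.2, Prod.ext e2 q2.2⟩)
          rw [hτ]
          exact this
        · intro l _ hlj
          by_contra hcon
          have hne : z' l (τ x) (τ y) ≠ 0 := fun h0 => hcon (by rw [h0, mul_zero])
          obtain ⟨x₀, y₀, hz, hx0, _⟩ := p4 l _ _ hne
          rw [hτ] at hx0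
          have h1 := (Prod.mk.inj hx0).2
          have hb1 := (K1 _ _ hz).1
          simp only [Bx, abs_le] at hb1 bx
          push_cast at bx
          have q1 := sep2 k hk j l x.2 x₀.2 (by
              simp only [Bx, abs_le, Prod.fst_sub, Prod.snd_sub]
              push_cast
              constructor <;> constructor <;>
              linarith [hb1.1.1, hb1.1.2, hb1.2.1, hb1.2.2, bx.1.1, bx.1.2, bx.2.1, bx.2.2]) h1
          exact hlj q1.1.symm
        · intro hjn; exact absurd (Finset.mem_univ j) hjn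
      have h2 : ∀ s : ZMod 2, s + s = 0 := by decide
      calc θ {τ x, τ y, τ a} + σ + (θ {τ x, τ y, τ b} + σ)
          = (θ {τ x, τ y, τ a} + θ {τ x, τ y, τ b}) + (σ + σ) := by ring
        _ = z x y := by rw [h2, add_zero, hB]; exact hsum
    · -- all positions are outside of `[-3k,3k]²`
      have hout : ¬ Bx (3 * k) x.2 := by
        intro hx3
        apply hall
        simp only [Bx, abs_le] at hx3 ⊢
        push_cast at hx3 ⊢
        refine ⟨⟨⟨?_, ?_⟩, ⟨?_, ?_⟩⟩, ⟨⟨?_, ?_⟩, ⟨?_, ?_⟩⟩, ⟨⟨?_, ?_⟩, ⟨?_, ?_⟩⟩, ⟨⟨?_, ?_⟩, ⟨?_, ?_⟩⟩⟩ <;>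
        linarith [hx3.1.1, hx3.1.2, hx3.2.1, hx3.2.2, sxy.1.1, sxy.1.2, sxy.2.1, sxy.2.2,
          sxa.1.1, sxa.1.2, sxa.2.1, sxa.2.2, sxb.1.1, sxb.1.2, sxb.2.1, sxb.2.2]
      have hzero : z x y = 0 := by
        by_contra hne
        exact hout ((K1 _ _ hne).1.mono (by omega))
      have hΦ : ∀ w, (VC G c hs).Adj x w → (VC G c hs).Adj y w →
          (if ({x, y, w} : Set (V × (ℤ × ℤ))) ⊆ {u | Bx (5 * k) u.2} then
            θ (τ '' {x, y, w}) + σ else 0) = 0 := by
        intro w hxw hyw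
        by_cases hsub : ({x, y, w} : Set (V × (ℤ × ℤ))) ⊆ {u | Bx (5 * k) u.2}
        · rw [if_pos hsub, hτimg]
          have bx := ((hset x y w).1 hsub).1
          have hnear : ¬ Near k (redN (30 * k) (x.2 + tt k j)) := by
            rintro ⟨l, a', b', ha', hb', he⟩
            have he' : redN (30 * k) (x.2 + tt k j) = redN (30 * k) ((a', b') + tt k l) := by
              rw [he]
              simp only [redN, tt, Prod.mk_add_mk, Prod.mk.injEq]
              constructor
              · congr 1; ring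
              · congr 1; ring
            rw [abs_le] at ha' hb'
            simp only [Bx, abs_le] at bx
            push_cast at bx
            have q1 := sep2 k hk j l x.2 (a', b') (by
              simp only [Bx, abs_le, Prod.fst_sub, Prod.snd_sub]
              push_cast
              constructor <;> constructor <;>
              linarith [ha'.1, ha'.2, hb'.1, hb'.2, bx.1.1, bx.1.2, bx.2.1, bx.2.2]) he'
            apply hout
            rw [q1.2]
            simp only [Bx, abs_le]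
            push_cast
            constructor <;> constructor <;> linarith [ha'.1, ha'.2, hb'.1, hb'.2]
          have hv := hfar x.1 _ hnear (τ y) (τ w) (by
              have := hτadj _ _ hxy
              rw [hτ] at this ⊢
              exact this) (by
              have := hτadj _ _ hxw
              rw [hτ] at this ⊢
              exact this) (hτadj _ _ hyw)
          have h2 : ∀ s : ZMod 2, s + s = 0 := by decide
          have hτx : τ x = (x.1, redN (30 * k) (x.2 + tt k j)) := by rw [hτ]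
          rw [hτx, hv, h2]
        · rw [if_neg hsub]
      rw [hΦ a hxa hya, hΦ b hxb hyb, hzero, add_zero]

end Pool.Agent.H71.Clq
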