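import Mathlib
import Pool.Agent.H71.Clq.Main0
import Pool.Agent.H71.Clq.VcBd
import Pool.Agent.H71.Clq.Lsc
import Pool.Agent.H71.Clq.Rat
import Pool.Agent.H71.Clq.Cover

set_option autoImplicit false

/-!
# Torus and Klein bottle
-/

namespace Pool.Agent.H71.Clq

theorem kstep_finite {V : Type} [Finite V] (G : SimpleGraph V) (m : ℕ) :
    Finite (kstep^[m] ⟨V, G⟩).1 := by
  induction m with
  | zero => assumption
  | succ m ih =>
    rw [Function.iterate_succ_apply']
    change Finite {s : Set (kstep^[m] ⟨V, G⟩).1 // Maximal (kstep^[m] ⟨V, G⟩).2.IsClique s}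
    infer_instance

theorem same_counts {W : Type} [Fintype W] [DecidableEq W] (G G' : SimpleGraph W)
    (i : DecidableRel G.Adj) (i' : DecidableRel G'.Adj) (h : G = G') :
    G.edgeFinset.card = G'.edgeFinset.card ∧
      (G.cliqueFinset 3).card = (G'.cliqueFinset 3).card := by
  subst h
  obtain rfl : i = i' := Subsingleton.elim _ _
  exact ⟨rfl, rfl⟩

theorem torus_divergent {V : Type} [Fintype V] [DecidableEq V] (G : SimpleGraph V)
    [DecidableRel G.Adj] (hc : G.Connected) (hl : LCy G) (hne : ∃ x y, G.Adj x y)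
    (hχ : (Fintype.card V : ℤ) - (G.edgeFinset.card : ℤ) + ((G.cliqueFinset 3).card : ℤ) = 0)
    (o : V → V → V → ZMod 2) (ho : IsOri G o) (N : ℕ) :
    ∃ m : ℕ, N < Nat.card (kstep^[m] ⟨V, G⟩).1 := by
  classical
  by_contra hcon
  push Not at hcon
  obtain ⟨c, r, p, h, hs, hcy, hg, hgen⟩ := exists_z2 G hc hl hne hχ o ho
  have hV : Nonempty V := hc.nonempty
  have hlf : LF (vcAG G c hs) := vc_lf G c hs (fun x => Set.toFinite _)
  have hconn : (VC G c hs).Connected := vc_conn G c hs hc r p h hg hgen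
  have hnf : ∀ x, ((VC G c hs).neighborSet x).Finite := by
    intro x
    refine (hlf x).subset ?_
    intro y hy
    exact Or.inr hy
  have hlW : LCy (VC G c hs) := vc_lcy G c hs hcy hl
  have hsc : SC (RG (VC G c hs)) := by
    refine sc_of_bd (VC G c hs) ?_ hconn hnf hlW ?_
    · obtain ⟨v⟩ := hV
      exact Infinite.of_injective (fun i : ℤ => ((v, (i, 0)) : V × (ℤ × ℤ))) (by
        intro i j hij
        simp only [Prod.mk.injEq, true_and, and_true] at hij
        exact hij)
    · intro z hzs hz0 hfin hev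
      exact vc_bd G hc hl hχ c hs hcy r p h hg hgen z hzs hz0 hfin hev
  have hcn : Cn (RG (VC G c hs)) := by
    intro x y
    obtain ⟨w⟩ := hconn.preconnected x y
    induction w with
    | nil => exact Relation.ReflTransGen.refl
    | cons h p ih => exact Relation.ReflTransGen.head (Or.inr h) ih
  have hnice : Nice (vcAG G c hs) := by
    obtain ⟨v⟩ := hV
    exact ⟨⟨(v, 0)⟩, vc_disp G c hs hcy, hlf, vc_cof G c hs inferInstance, hcn, hsc⟩
  refine z2_unbounded (vcAG G c hs) hnice (VC G c hs) rfl hlW N ?_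
  intro m
  obtain ⟨e⟩ := card_orb (AG.K^[m] (vcAG G c hs)) (kstep^[m] ⟨V, G⟩).2
    (isQ_iter (vcAG G c hs) hnice G (vc_isQ G c hs) m)
  have hf := kstep_finite G m
  exact ⟨Finite.of_equiv _ e.symm, by rw [Nat.card_congr e]; exact hcon m⟩

theorem chi0_divergent (V : Type) [Fintype V] [DecidableEq V] (G : SimpleGraph V)
    [DecidableRel G.Adj] (hc : G.Connected)
    (hl : ∀ v : V, ∃ n : ℕ, 3 ≤ n ∧
        Nonempty (SimpleGraph.Iso (SimpleGraph.induce (G.neighborSet v) G)
          (SimpleGraph.cycleGraph n)))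
    (hχ : (Fintype.card V : ℤ) - (G.edgeFinset.card : ℤ) + ((G.cliqueFinset 3).card : ℤ) = 0)
    (N : ℕ) : ∃ m : ℕ, N < Nat.card (kstep^[m] ⟨V, G⟩).1 := by
  classical
  have hL : LCy G := lcy_of_cycle G hl
  have hV : Nonempty V := hc.nonempty
  have hne : ∃ x y, G.Adj x y := by
    obtain ⟨v⟩ := hV
    obtain ⟨n, hn, ⟨e⟩⟩ := hl v
    have : Nonempty (Fin n) := ⟨⟨0, by omega⟩⟩
    obtain ⟨i⟩ := this
    exact ⟨v, (e.symm i).1, (e.symm i).2⟩
  obtain ⟨s, hs⟩ := exists_lo G hl
  rcases ori_or_cover G hL s hs with ⟨o, ho⟩ | ⟨c, hcs, hcc, hn, o, ho⟩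
  · exact torus_divergent G hc hL hne hχ o ho N
  · have hcs' : ∀ x y, c y x = - c x y := by
      intro x y
      rw [← hcs x y, CharTwo.neg_eq]
    have hD : DC G c hcs = VC G c hcs' := by
      ext x y
      rfl
    have hconn := dc_conn G c hcs hc hn
    have hLD := dc_lcy G c hcs hcc hL
    have hχD : (Fintype.card (V × ZMod 2) : ℤ) - ((DC G c hcs).edgeFinset.card : ℤ) +
        (((DC G c hcs).cliqueFinset 3).card : ℤ) = 0 := by
      have h1 := vc_euler G c hcs' hcc hL hχ
      obtain ⟨e1, e2⟩ := same_counts (DC G c hcs) (VC G c hcs') _ _ hD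
      rw [e1, e2]
      exact h1
    have hneD : ∃ x y, (DC G c hcs).Adj x y := by
      obtain ⟨x, y, hxy⟩ := hne
      exact ⟨(x, 0), (y, 0 + c x y), hxy, rfl⟩
    exact cover_divergent G hV c hcs hcc
      (fun N => torus_divergent (DC G c hcs) hconn hLD hneD hχD o ho N) N

end Pool.Agent.H71.Clq
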